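import Pool.Agent.W_MP_93b5ed_al.Herm3d

/-!
# Translation to the groups used in the final statement
-/

noncomputable section

namespace Pool.Agent.W_MP_93b5ed_al

open Matrix

/-- the two versions of the automorphism group -/
def autEquiv {K M : Type*} [Field K] [AddCommGroup M] [Module K M] (μ : M → M → M) :
    Autom K μ ≃* AutAlg K μ where
  toFun φ := ⟨φ.toLin, φ.map_prod⟩
  invFun ψ := ⟨ψ.1, ψ.2⟩
  left_inv _ := rfl
  right_inv _ := rfl
  map_mul' _ _ := rfl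

variable {K : Type*} [Field K] {n : ℕ}

/-- octonions -/
def g2Equiv : G2 K ≃* AutOct K := autEquiv (octMul K)

/-- skew-Hermitian -/
def skewEquiv : SkewAut n K ≃* AutSkew n K := autEquiv (SkewMat.mul (n := n) (K := K))

/-- Hermitian -/
def hermEquiv : HermAut n K ≃* AutHerm n K := autEquiv (HermMat.mul (n := n) (K := K))

/-- `PGO` -/
def pgoEquiv : PGO n K ≃* PGOq n K := MulEquiv.refl (PGOq n K)

theorem skewStd (h2 : (2 : K) ≠ 0) (h3 : (3 : K) ≠ 0) (hn : 1 ≤ n) : SkewStd n K := by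
  obtain ⟨e, he⟩ := skew_iso (n := n) h2 h3 hn
  refine ⟨(MulEquiv.prodCongr g2Equiv pgoEquiv).trans (e.trans skewEquiv.symm), fun g P X => ?_⟩
  exact he (g2Equiv g) P X

theorem hermStd (h2 : (2 : K) ≠ 0) (h4 : 4 ≤ n) : HermStd n K := by
  obtain ⟨e, he⟩ := herm_iso (K := K) (n := n) h2 h4
  refine ⟨(MulEquiv.prodCongr g2Equiv pgoEquiv).trans (e.trans hermEquiv.symm), fun g P X => ?_⟩
  exact he (g2Equiv g) P X

theorem skew_iff (h2 : (2 : K) ≠ 0) (h3 : (3 : K) ≠ 0) (hn : 1 ≤ n) :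
    Nonempty (SkewAut n K ≃* G2 K × SO n K) ↔ Odd n := by
  obtain ⟨e, _⟩ := skew_iso (n := n) h2 h3 hn
  rw [← iso_iff_odd h2 hn e]
  constructor
  · rintro ⟨f⟩
    exact ⟨skewEquiv.symm.trans (f.trans (MulEquiv.prodCongr g2Equiv (MulEquiv.refl _)))⟩
  · rintro ⟨f⟩
    exact ⟨skewEquiv.trans (f.trans (MulEquiv.prodCongr g2Equiv.symm (MulEquiv.refl _)))⟩

theorem herm_iff (h2 : (2 : K) ≠ 0) (h3 : (3 : K) ≠ 0) (hn : 1 ≤ n) :
    Nonempty (HermAut n K ≃* G2 K × SO n K) ↔ Odd n ∧ 4 ≤ n := by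
  have e0 : Nonempty (HermAut n K ≃* G2 K × SO n K) ↔
      Nonempty (AutHerm n K ≃* AutOct K × SO n K) := by
    constructor
    · rintro ⟨f⟩
      exact ⟨hermEquiv.symm.trans (f.trans (MulEquiv.prodCongr g2Equiv (MulEquiv.refl _)))⟩
    · rintro ⟨f⟩
      exact ⟨hermEquiv.trans (f.trans (MulEquiv.prodCongr g2Equiv.symm (MulEquiv.refl _)))⟩
  rw [e0]
  by_cases h4 : 4 ≤ n
  · obtain ⟨e, _⟩ := herm_iso (K := K) (n := n) h2 h4
    rw [iso_iff_odd h2 hn e]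
    exact ⟨fun h => ⟨h, h4⟩, fun h => h.1⟩
  · refine ⟨fun h => ?_, fun h => absurd h.2 h4⟩
    exfalso
    have hn3 : n = 1 ∨ n = 2 ∨ n = 3 := by omega
    obtain ⟨e⟩ := h
    rcases hn3 with rfl | rfl | rfl
    · exact (herm1_not_iso h2).false e
    · exact (herm2_not_iso h2).false e
    · exact (herm3_not_iso h2 h3).false e

end Pool.Agent.W_MP_93b5ed_al
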