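import Pool.Agent.W_MP_93b5ed_al.Defs

/-!
# Auxiliary versions of the automorphism groups (as subgroups)
-/

noncomputable section

namespace Pool.Agent.W_MP_93b5ed_al

open Matrix

/-- The automorphism group of the algebra `(M, μ)` over `K`: the `K`-linear bijections of `M`
which preserve the product `μ`. -/
def AutAlg (K : Type*) {M : Type*} [Field K] [AddCommGroup M] [Module K M] (μ : M → M → M) :
    Subgroup (M ≃ₗ[K] M) where
  carrier := {φ | ∀ x y, φ (μ x y) = μ (φ x) (φ y)}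
  mul_mem' := by
    intro φ ψ hφ hψ x y
    show φ (ψ (μ x y)) = μ (φ (ψ x)) (φ (ψ y))
    rw [hψ x y, hφ]
  one_mem' := fun _ _ => rfl
  inv_mem' := by
    intro φ hφ x y
    show φ.symm (μ x y) = μ (φ.symm x) (φ.symm y)
    apply φ.injective
    rw [hφ]
    simp

/-- `G₂(K)`, the automorphism group of the split octonion algebra over `K`. -/
abbrev AutOct (K : Type*) [Field K] : Subgroup (Oct K ≃ₗ[K] Oct K) :=
  AutAlg K (fun x y : Oct K => x * y)

variable (n : ℕ) (K : Type*) [Field K]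

/-- `PGO_n(K)` as a quotient -/
abbrev PGOq := GO n K ⧸ scalars n K

variable {n K}

theorem mem_scalars_iff {P : GO n K} : P ∈ scalars n K ↔
    ∃ c : K, P.1.1 = c • (1 : Matrix (Fin n) (Fin n) K) := Iff.rfl

/-- The product `X ∘ Y = ½ (X Y + Y X)` of Hermitian matrices. -/
def Herm.jmul (X Y : Herm n K) : Herm n K :=
  ⟨(2 : K)⁻¹ • (X.1 * Y.1 + Y.1 * X.1),
    (Herm n K).smul_mem _ (by
      show (X.1 * Y.1 + Y.1 * X.1)ᴴ = _
      have hX : X.1ᴴ = X.1 := X.2
      have hY : Y.1ᴴ = Y.1 := Y.2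
      rw [conjTranspose_add, conjTranspose_mul, conjTranspose_mul, hX, hY, add_comm])⟩

/-- The product `[X, Y] = X Y - Y X` of skew-Hermitian matrices. -/
def Skew.bracket (X Y : Skew n K) : Skew n K :=
  ⟨X.1 * Y.1 - Y.1 * X.1, by
      show (X.1 * Y.1 - Y.1 * X.1)ᴴ = _
      have hX : X.1ᴴ = -X.1 := X.2
      have hY : Y.1ᴴ = -Y.1 := Y.2
      rw [conjTranspose_sub, conjTranspose_mul, conjTranspose_mul, hX, hY, Matrix.neg_mul,
        Matrix.neg_mul, Matrix.mul_neg, Matrix.mul_neg, neg_neg, neg_neg, neg_sub]⟩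

variable (n K)

/-- The automorphism group of `(Sym⁺(M_n(𝕆), J), ∘)`. -/
abbrev AutHerm : Subgroup (Herm n K ≃ₗ[K] Herm n K) := AutAlg K (Herm.jmul (n := n) (K := K))

/-- The automorphism group of `(Sym⁻(M_n(𝕆), J), [·,·])`. -/
abbrev AutSkew : Subgroup (Skew n K ≃ₗ[K] Skew n K) := AutAlg K (Skew.bracket (n := n) (K := K))


end Pool.Agent.W_MP_93b5ed_al
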