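import Pool.Agent.W_MP_93b5ed_al.OctAut

/-!
# The centre of `Aut(𝕆)` is trivial
-/

noncomputable section

namespace Pool.Agent.W_MP_93b5ed_al

open Matrix

variable {K : Type*} [Field K]

/-- build an automorphism from a linear map and its inverse -/
def mkAut (f f' : Oct K →ₗ[K] Oct K) (h : ∀ x, f (f' x) = x) (h' : ∀ x, f' (f x) = x) :
    Oct K ≃ₗ[K] Oct K :=
  LinearEquiv.ofLinearMap f f' (LinearMap.ext h) (LinearMap.ext h')

/-- `1 + c D₁₂` -/
def T12 (c : K) : Oct K →ₗ[K] Oct K where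
  toFun z := ⟨z.a, z.b, z.u1 + c * z.u2, z.u2, z.u3, z.v1, z.v2 - c * z.v1, z.v3⟩
  map_add' x y := by ext <;> simp only [Oct.add_a, Oct.add_b, Oct.add_u1, Oct.add_u2,
    Oct.add_u3, Oct.add_v1, Oct.add_v2, Oct.add_v3] <;> ring
  map_smul' d x := by ext <;> simp only [RingHom.id_apply, Oct.smul_a, Oct.smul_b, Oct.smul_u1,
    Oct.smul_u2, Oct.smul_u3, Oct.smul_v1, Oct.smul_v2, Oct.smul_v3] <;> ring

/-- `1 + c D₂₃` -/
def T23 (c : K) : Oct K →ₗ[K] Oct K where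
  toFun z := ⟨z.a, z.b, z.u1, z.u2 + c * z.u3, z.u3, z.v1, z.v2, z.v3 - c * z.v2⟩
  map_add' x y := by ext <;> simp only [Oct.add_a, Oct.add_b, Oct.add_u1, Oct.add_u2,
    Oct.add_u3, Oct.add_v1, Oct.add_v2, Oct.add_v3] <;> ring
  map_smul' d x := by ext <;> simp only [RingHom.id_apply, Oct.smul_a, Oct.smul_b, Oct.smul_u1,
    Oct.smul_u2, Oct.smul_u3, Oct.smul_v1, Oct.smul_v2, Oct.smul_v3] <;> ring

/-- `1 + c D₃₁` -/
def T31 (c : K) : Oct K →ₗ[K] Oct K where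
  toFun z := ⟨z.a, z.b, z.u1, z.u2, z.u3 + c * z.u1, z.v1 - c * z.v3, z.v2, z.v3⟩
  map_add' x y := by ext <;> simp only [Oct.add_a, Oct.add_b, Oct.add_u1, Oct.add_u2,
    Oct.add_u3, Oct.add_v1, Oct.add_v2, Oct.add_v3] <;> ring
  map_smul' d x := by ext <;> simp only [RingHom.id_apply, Oct.smul_a, Oct.smul_b, Oct.smul_u1,
    Oct.smul_u2, Oct.smul_u3, Oct.smul_v1, Oct.smul_v2, Oct.smul_v3] <;> ring

/-- `1 + c D₂₁` -/
def T21 (c : K) : Oct K →ₗ[K] Oct K where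
  toFun z := ⟨z.a, z.b, z.u1, z.u2 + c * z.u1, z.u3, z.v1 - c * z.v2, z.v2, z.v3⟩
  map_add' x y := by ext <;> simp only [Oct.add_a, Oct.add_b, Oct.add_u1, Oct.add_u2,
    Oct.add_u3, Oct.add_v1, Oct.add_v2, Oct.add_v3] <;> ring
  map_smul' d x := by ext <;> simp only [RingHom.id_apply, Oct.smul_a, Oct.smul_b, Oct.smul_u1,
    Oct.smul_u2, Oct.smul_u3, Oct.smul_v1, Oct.smul_v2, Oct.smul_v3] <;> ring

/-- `1 + c D₁₃` -/
def T13 (c : K) : Oct K →ₗ[K] Oct K where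
  toFun z := ⟨z.a, z.b, z.u1 + c * z.u3, z.u2, z.u3, z.v1, z.v2, z.v3 - c * z.v1⟩
  map_add' x y := by ext <;> simp only [Oct.add_a, Oct.add_b, Oct.add_u1, Oct.add_u2,
    Oct.add_u3, Oct.add_v1, Oct.add_v2, Oct.add_v3] <;> ring
  map_smul' d x := by ext <;> simp only [RingHom.id_apply, Oct.smul_a, Oct.smul_b, Oct.smul_u1,
    Oct.smul_u2, Oct.smul_u3, Oct.smul_v1, Oct.smul_v2, Oct.smul_v3] <;> ring

/-- the swap `(a, b, u, v) ↦ (b, a, -v, -u)` -/
def Tau : Oct K →ₗ[K] Oct K where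
  toFun z := ⟨z.b, z.a, -z.v1, -z.v2, -z.v3, -z.u1, -z.u2, -z.u3⟩
  map_add' x y := by ext <;> simp only [Oct.add_a, Oct.add_b, Oct.add_u1, Oct.add_u2,
    Oct.add_u3, Oct.add_v1, Oct.add_v2, Oct.add_v3] <;> ring
  map_smul' d x := by ext <;> simp only [RingHom.id_apply, Oct.smul_a, Oct.smul_b, Oct.smul_u1,
    Oct.smul_u2, Oct.smul_u3, Oct.smul_v1, Oct.smul_v2, Oct.smul_v3] <;> ring

theorem T12_apply (c : K) (z : Oct K) : T12 c z =
    ⟨z.a, z.b, z.u1 + c * z.u2, z.u2, z.u3, z.v1, z.v2 - c * z.v1, z.v3⟩ := rfl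

theorem T23_apply (c : K) (z : Oct K) : T23 c z =
    ⟨z.a, z.b, z.u1, z.u2 + c * z.u3, z.u3, z.v1, z.v2, z.v3 - c * z.v2⟩ := rfl

theorem T31_apply (c : K) (z : Oct K) : T31 c z =
    ⟨z.a, z.b, z.u1, z.u2, z.u3 + c * z.u1, z.v1 - c * z.v3, z.v2, z.v3⟩ := rfl

theorem T21_apply (c : K) (z : Oct K) : T21 c z =
    ⟨z.a, z.b, z.u1, z.u2 + c * z.u1, z.u3, z.v1 - c * z.v2, z.v2, z.v3⟩ := rfl

theorem T13_apply (c : K) (z : Oct K) : T13 c z =
    ⟨z.a, z.b, z.u1 + c * z.u3, z.u2, z.u3, z.v1, z.v2, z.v3 - c * z.v1⟩ := rfl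

theorem Tau_apply (z : Oct K) : Tau z =
    ⟨z.b, z.a, -z.v1, -z.v2, -z.v3, -z.u1, -z.u2, -z.u3⟩ := rfl

/-- automorphism -/
def A12 : AutOct K := ⟨mkAut (T12 1) (T12 (-1)) (fun x => by
    rw [T12_apply, T12_apply]; ext <;> ring)
  (fun x => by
    rw [T12_apply, T12_apply]; ext <;> ring), fun x y => by
    show T12 1 (x * y) = T12 1 x * T12 1 y
    rw [T12_apply, T12_apply, T12_apply]
    ext <;> simp only [Oct.mul_a, Oct.mul_b, Oct.mul_u1, Oct.mul_u2, Oct.mul_u3, Oct.mul_v1,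
      Oct.mul_v2, Oct.mul_v3] <;> ring⟩

/-- automorphism -/
def A23 : AutOct K := ⟨mkAut (T23 1) (T23 (-1)) (fun x => by
    rw [T23_apply, T23_apply]; ext <;> ring)
  (fun x => by
    rw [T23_apply, T23_apply]; ext <;> ring), fun x y => by
    show T23 1 (x * y) = T23 1 x * T23 1 y
    rw [T23_apply, T23_apply, T23_apply]
    ext <;> simp only [Oct.mul_a, Oct.mul_b, Oct.mul_u1, Oct.mul_u2, Oct.mul_u3, Oct.mul_v1,
      Oct.mul_v2, Oct.mul_v3] <;> ring⟩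

/-- automorphism -/
def A31 : AutOct K := ⟨mkAut (T31 1) (T31 (-1)) (fun x => by
    rw [T31_apply, T31_apply]; ext <;> ring)
  (fun x => by
    rw [T31_apply, T31_apply]; ext <;> ring), fun x y => by
    show T31 1 (x * y) = T31 1 x * T31 1 y
    rw [T31_apply, T31_apply, T31_apply]
    ext <;> simp only [Oct.mul_a, Oct.mul_b, Oct.mul_u1, Oct.mul_u2, Oct.mul_u3, Oct.mul_v1,
      Oct.mul_v2, Oct.mul_v3] <;> ring⟩

/-- automorphism -/
def A21 : AutOct K := ⟨mkAut (T21 1) (T21 (-1)) (fun x => by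
    rw [T21_apply, T21_apply]; ext <;> ring)
  (fun x => by
    rw [T21_apply, T21_apply]; ext <;> ring), fun x y => by
    show T21 1 (x * y) = T21 1 x * T21 1 y
    rw [T21_apply, T21_apply, T21_apply]
    ext <;> simp only [Oct.mul_a, Oct.mul_b, Oct.mul_u1, Oct.mul_u2, Oct.mul_u3, Oct.mul_v1,
      Oct.mul_v2, Oct.mul_v3] <;> ring⟩

/-- automorphism -/
def A13 : AutOct K := ⟨mkAut (T13 1) (T13 (-1)) (fun x => by
    rw [T13_apply, T13_apply]; ext <;> ring)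
  (fun x => by
    rw [T13_apply, T13_apply]; ext <;> ring), fun x y => by
    show T13 1 (x * y) = T13 1 x * T13 1 y
    rw [T13_apply, T13_apply, T13_apply]
    ext <;> simp only [Oct.mul_a, Oct.mul_b, Oct.mul_u1, Oct.mul_u2, Oct.mul_u3, Oct.mul_v1,
      Oct.mul_v2, Oct.mul_v3] <;> ring⟩

/-- automorphism -/
def ATau : AutOct K := ⟨mkAut Tau Tau (fun x => by
    rw [Tau_apply, Tau_apply]; ext <;> ring)
  (fun x => by
    rw [Tau_apply, Tau_apply]; ext <;> ring), fun x y => by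
    show Tau (x * y) = Tau x * Tau y
    rw [Tau_apply, Tau_apply, Tau_apply]
    ext <;> simp only [Oct.mul_a, Oct.mul_b, Oct.mul_u1, Oct.mul_u2, Oct.mul_u3, Oct.mul_v1,
      Oct.mul_v2, Oct.mul_v3] <;> ring⟩

/-- a linear map commuting with the automorphisms is a scalar on six basis vectors -/
theorem comm_core (γ : Oct K →ₗ[K] Oct K)
    (hc : ∀ (f : AutOct K) (x : Oct K), γ (f.1 x) = f.1 (γ x)) :
    ∃ lam : K, γ ⟨0,0,1,0,0,0,0,0⟩ = lam • ⟨0,0,1,0,0,0,0,0⟩ ∧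
      γ ⟨0,0,0,1,0,0,0,0⟩ = lam • ⟨0,0,0,1,0,0,0,0⟩ ∧
      γ ⟨0,0,0,0,1,0,0,0⟩ = lam • ⟨0,0,0,0,1,0,0,0⟩ ∧
      γ ⟨0,0,0,0,0,1,0,0⟩ = lam • ⟨0,0,0,0,0,1,0,0⟩ ∧
      γ ⟨0,0,0,0,0,0,1,0⟩ = lam • ⟨0,0,0,0,0,0,1,0⟩ ∧
      γ ⟨0,0,0,0,0,0,0,1⟩ = lam • ⟨0,0,0,0,0,0,0,1⟩ := by
  set x1 := γ ⟨0,0,1,0,0,0,0,0⟩ with hx1
  set x2 := γ ⟨0,0,0,1,0,0,0,0⟩ with hx2
  set x3 := γ ⟨0,0,0,0,1,0,0,0⟩ with hx3
  have t12 : x1 = ⟨0,0,x2.u2,0,0,0,-x2.v1,0⟩ := by
    have e : γ ((A12 : AutOct K).1 ⟨0,0,0,1,0,0,0,0⟩) = (A12 : AutOct K).1 x2 := hc A12 _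
    have e1 : (A12 : AutOct K).1 ⟨0,0,0,1,0,0,0,0⟩ =
        (⟨0,0,1,0,0,0,0,0⟩ : Oct K) + ⟨0,0,0,1,0,0,0,0⟩ := by
      show T12 1 _ = _
      rw [T12_apply]
      ext <;> simp only [Oct.add_a, Oct.add_b, Oct.add_u1, Oct.add_u2, Oct.add_u3,
        Oct.add_v1, Oct.add_v2, Oct.add_v3] <;> ring
    rw [e1, map_add, ← hx1, ← hx2] at e
    have e2 : x1 = (A12 : AutOct K).1 x2 - x2 := by rw [← e]; abel
    rw [e2]
    show T12 1 x2 - x2 = _
    rw [T12_apply]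
    ext <;> simp only [Oct.sub_a, Oct.sub_b, Oct.sub_u1, Oct.sub_u2, Oct.sub_u3, Oct.sub_v1,
      Oct.sub_v2, Oct.sub_v3] <;> ring
  have t13 : x1 = ⟨0,0,x3.u3,0,0,0,0,-x3.v1⟩ := by
    have e : γ ((A13 : AutOct K).1 ⟨0,0,0,0,1,0,0,0⟩) = (A13 : AutOct K).1 x3 := hc A13 _
    have e1 : (A13 : AutOct K).1 ⟨0,0,0,0,1,0,0,0⟩ =
        (⟨0,0,1,0,0,0,0,0⟩ : Oct K) + ⟨0,0,0,0,1,0,0,0⟩ := by
      show T13 1 _ = _
      rw [T13_apply]
      ext <;> simp only [Oct.add_a, Oct.add_b, Oct.add_u1, Oct.add_u2, Oct.add_u3,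
        Oct.add_v1, Oct.add_v2, Oct.add_v3] <;> ring
    rw [e1, map_add, ← hx1, ← hx3] at e
    have e2 : x1 = (A13 : AutOct K).1 x3 - x3 := by rw [← e]; abel
    rw [e2]
    show T13 1 x3 - x3 = _
    rw [T13_apply]
    ext <;> simp only [Oct.sub_a, Oct.sub_b, Oct.sub_u1, Oct.sub_u2, Oct.sub_u3, Oct.sub_v1,
      Oct.sub_v2, Oct.sub_v3] <;> ring
  have t21 : x2 = ⟨0,0,0,x1.u1,0,-x1.v2,0,0⟩ := by
    have e : γ ((A21 : AutOct K).1 ⟨0,0,1,0,0,0,0,0⟩) = (A21 : AutOct K).1 x1 := hc A21 _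
    have e1 : (A21 : AutOct K).1 ⟨0,0,1,0,0,0,0,0⟩ =
        (⟨0,0,0,1,0,0,0,0⟩ : Oct K) + ⟨0,0,1,0,0,0,0,0⟩ := by
      show T21 1 _ = _
      rw [T21_apply]
      ext <;> simp only [Oct.add_a, Oct.add_b, Oct.add_u1, Oct.add_u2, Oct.add_u3,
        Oct.add_v1, Oct.add_v2, Oct.add_v3] <;> ring
    rw [e1, map_add, ← hx1, ← hx2] at e
    have e2 : x2 = (A21 : AutOct K).1 x1 - x1 := by rw [← e]; abel
    rw [e2]
    show T21 1 x1 - x1 = _
    rw [T21_apply]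
    ext <;> simp only [Oct.sub_a, Oct.sub_b, Oct.sub_u1, Oct.sub_u2, Oct.sub_u3, Oct.sub_v1,
      Oct.sub_v2, Oct.sub_v3] <;> ring
  have t31 : x3 = ⟨0,0,0,0,x1.u1,-x1.v3,0,0⟩ := by
    have e : γ ((A31 : AutOct K).1 ⟨0,0,1,0,0,0,0,0⟩) = (A31 : AutOct K).1 x1 := hc A31 _
    have e1 : (A31 : AutOct K).1 ⟨0,0,1,0,0,0,0,0⟩ =
        (⟨0,0,0,0,1,0,0,0⟩ : Oct K) + ⟨0,0,1,0,0,0,0,0⟩ := by
      show T31 1 _ = _
      rw [T31_apply]
      ext <;> simp only [Oct.add_a, Oct.add_b, Oct.add_u1, Oct.add_u2, Oct.add_u3,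
        Oct.add_v1, Oct.add_v2, Oct.add_v3] <;> ring
    rw [e1, map_add, ← hx1, ← hx3] at e
    have e2 : x3 = (A31 : AutOct K).1 x1 - x1 := by rw [← e]; abel
    rw [e2]
    show T31 1 x1 - x1 = _
    rw [T31_apply]
    ext <;> simp only [Oct.sub_a, Oct.sub_b, Oct.sub_u1, Oct.sub_u2, Oct.sub_u3, Oct.sub_v1,
      Oct.sub_v2, Oct.sub_v3] <;> ring
  have v2 : x1.v2 = 0 := by have := congrArg Oct.v2 t13; simpa using this
  have v3 : x1.v3 = 0 := by have := congrArg Oct.v3 t12; simpa using this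
  have w1 : x2.v1 = 0 := by have := congrArg Oct.v2 t12; rw [v2] at this; simpa using this.symm
  set lam := x1.u1 with hlam
  have s2 : x2 = lam • ⟨0,0,0,1,0,0,0,0⟩ := by
    rw [t21, v2]
    ext <;> simp only [Oct.smul_a, Oct.smul_b, Oct.smul_u1, Oct.smul_u2, Oct.smul_u3, Oct.smul_v1,
      Oct.smul_v2, Oct.smul_v3] <;> ring
  have s3 : x3 = lam • ⟨0,0,0,0,1,0,0,0⟩ := by
    rw [t31, v3]
    ext <;> simp only [Oct.smul_a, Oct.smul_b, Oct.smul_u1, Oct.smul_u2, Oct.smul_u3, Oct.smul_v1,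
      Oct.smul_v2, Oct.smul_v3] <;> ring
  have s1 : x1 = lam • ⟨0,0,1,0,0,0,0,0⟩ := by
    rw [t12, w1, s2]
    ext <;> simp only [Oct.smul_a, Oct.smul_b, Oct.smul_u1, Oct.smul_u2, Oct.smul_u3, Oct.smul_v1,
      Oct.smul_v2, Oct.smul_v3] <;> ring
  have tau : ∀ x : Oct K, γ (Tau x) = Tau (γ x) := fun x => hc ATau x
  have r1 : γ ⟨0,0,0,0,0,1,0,0⟩ = lam • ⟨0,0,0,0,0,1,0,0⟩ := by
    have e := tau (⟨0,0,-1,0,0,0,0,0⟩ : Oct K)
    have e1 : (Tau (⟨0,0,-1,0,0,0,0,0⟩ : Oct K)) = ⟨0,0,0,0,0,1,0,0⟩ := by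
      rw [Tau_apply]
      ext <;> ring
    have e2 : (⟨0,0,-1,0,0,0,0,0⟩ : Oct K) = -⟨0,0,1,0,0,0,0,0⟩ := by
      ext <;> simp only [Oct.neg_a, Oct.neg_b, Oct.neg_u1, Oct.neg_u2,
      Oct.neg_u3, Oct.neg_v1, Oct.neg_v2, Oct.neg_v3] <;> ring
    rw [e1, e2, map_neg, ← hx1, s1] at e
    rw [e, Tau_apply]
    ext <;> simp only [Oct.smul_a, Oct.smul_b, Oct.smul_u1, Oct.smul_u2, Oct.smul_u3, Oct.smul_v1,
      Oct.smul_v2, Oct.smul_v3, Oct.neg_a, Oct.neg_b, Oct.neg_u1, Oct.neg_u2,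
      Oct.neg_u3, Oct.neg_v1, Oct.neg_v2, Oct.neg_v3] <;> ring
  have r2 : γ ⟨0,0,0,0,0,0,1,0⟩ = lam • ⟨0,0,0,0,0,0,1,0⟩ := by
    have e := tau (⟨0,0,0,-1,0,0,0,0⟩ : Oct K)
    have e1 : (Tau (⟨0,0,0,-1,0,0,0,0⟩ : Oct K)) = ⟨0,0,0,0,0,0,1,0⟩ := by
      rw [Tau_apply]
      ext <;> ring
    have e2 : (⟨0,0,0,-1,0,0,0,0⟩ : Oct K) = -⟨0,0,0,1,0,0,0,0⟩ := by
      ext <;> simp only [Oct.neg_a, Oct.neg_b, Oct.neg_u1, Oct.neg_u2,
      Oct.neg_u3, Oct.neg_v1, Oct.neg_v2, Oct.neg_v3] <;> ring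
    rw [e1, e2, map_neg, ← hx2, s2] at e
    rw [e, Tau_apply]
    ext <;> simp only [Oct.smul_a, Oct.smul_b, Oct.smul_u1, Oct.smul_u2, Oct.smul_u3, Oct.smul_v1,
      Oct.smul_v2, Oct.smul_v3, Oct.neg_a, Oct.neg_b, Oct.neg_u1, Oct.neg_u2,
      Oct.neg_u3, Oct.neg_v1, Oct.neg_v2, Oct.neg_v3] <;> ring
  have r3 : γ ⟨0,0,0,0,0,0,0,1⟩ = lam • ⟨0,0,0,0,0,0,0,1⟩ := by
    have e := tau (⟨0,0,0,0,-1,0,0,0⟩ : Oct K)
    have e1 : (Tau (⟨0,0,0,0,-1,0,0,0⟩ : Oct K)) = ⟨0,0,0,0,0,0,0,1⟩ := by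
      rw [Tau_apply]
      ext <;> ring
    have e2 : (⟨0,0,0,0,-1,0,0,0⟩ : Oct K) = -⟨0,0,0,0,1,0,0,0⟩ := by
      ext <;> simp only [Oct.neg_a, Oct.neg_b, Oct.neg_u1, Oct.neg_u2,
      Oct.neg_u3, Oct.neg_v1, Oct.neg_v2, Oct.neg_v3] <;> ring
    rw [e1, e2, map_neg, ← hx3, s3] at e
    rw [e, Tau_apply]
    ext <;> simp only [Oct.smul_a, Oct.smul_b, Oct.smul_u1, Oct.smul_u2, Oct.smul_u3, Oct.smul_v1,
      Oct.smul_v2, Oct.smul_v3, Oct.neg_a, Oct.neg_b, Oct.neg_u1, Oct.neg_u2,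
      Oct.neg_u3, Oct.neg_v1, Oct.neg_v2, Oct.neg_v3] <;> ring
  exact ⟨lam, s1, s2, s3, r1, r2, r3⟩

theorem center_autOct (g : AutOct K) (h : ∀ f : AutOct K, g * f = f * g) : g = 1 := by
  have hc : ∀ (f : AutOct K) (x : Oct K), g.1 (f.1 x) = f.1 (g.1 x) := by
    intro f x
    have e := congrArg (fun φ : AutOct K => φ.1 x) (h f)
    exact e
  have hm : ∀ x y : Oct K, g.1 (x * y) = g.1 x * g.1 y := fun x y => g.2 x y
  -- E2 = ⟨0,0,0,1,0,0,0,0⟩ etc.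
  obtain ⟨lam, s1, s2, s3, r1, r2, r3⟩ := comm_core g.1.toLinearMap (fun f x => hc f x)
  rw [LinearEquiv.coe_coe] at s1 s2 s3 r1 r2 r3
  set x1 := g.1 ⟨0,0,1,0,0,0,0,0⟩ with hx1
  set x2 := g.1 ⟨0,0,0,1,0,0,0,0⟩ with hx2
  set x3 := g.1 ⟨0,0,0,0,1,0,0,0⟩ with hx3
  have hlam0 : lam ≠ 0 := by
    intro h0
    rw [h0, zero_smul] at s1
    have e := g.1.map_eq_zero_iff.1 (hx1.symm.trans s1)
    have := congrArg Oct.u1 e
    simp at this
  have hlam1 : lam = 1 := by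
    have e := hm ⟨0,0,1,0,0,0,0,0⟩ ⟨0,0,0,1,0,0,0,0⟩
    have e1 : (⟨0,0,1,0,0,0,0,0⟩ : Oct K) * ⟨0,0,0,1,0,0,0,0⟩ = ⟨0,0,0,0,0,0,0,1⟩ := by
      ext <;> simp
    rw [e1, r3, ← hx1, ← hx2, s1, s2] at e
    have e2 := congrArg Oct.v3 e
    simp at e2
    exact (mul_right_cancel₀ hlam0 (by rw [one_mul]; exact e2)).symm
  rw [hlam1] at s1 s2 s3 r1 r2 r3
  simp only [one_smul] at s1 s2 s3 r1 r2 r3
  have ra : g.1 ⟨1,0,0,0,0,0,0,0⟩ = ⟨1,0,0,0,0,0,0,0⟩ := by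
    have e := hm ⟨0,0,1,0,0,0,0,0⟩ ⟨0,0,0,0,0,1,0,0⟩
    have e1 : (⟨0,0,1,0,0,0,0,0⟩ : Oct K) * ⟨0,0,0,0,0,1,0,0⟩ = ⟨1,0,0,0,0,0,0,0⟩ := by
      ext <;> simp
    rw [e1, ← hx1, s1, r1, e1] at e
    exact e
  have rb : g.1 ⟨0,1,0,0,0,0,0,0⟩ = ⟨0,1,0,0,0,0,0,0⟩ := by
    have e := hm ⟨0,0,0,0,0,1,0,0⟩ ⟨0,0,1,0,0,0,0,0⟩
    have e1 : (⟨0,0,0,0,0,1,0,0⟩ : Oct K) * ⟨0,0,1,0,0,0,0,0⟩ = ⟨0,1,0,0,0,0,0,0⟩ := by
      ext <;> simp
    rw [e1, ← hx1, s1, r1, e1] at e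
    exact e
  apply Subtype.ext
  apply LinearEquiv.ext
  intro x
  have dec : x = x.a • (⟨1,0,0,0,0,0,0,0⟩ : Oct K) + x.b • (⟨0,1,0,0,0,0,0,0⟩ : Oct K) +
      x.u1 • (⟨0,0,1,0,0,0,0,0⟩ : Oct K) + x.u2 • (⟨0,0,0,1,0,0,0,0⟩ : Oct K) +
      x.u3 • (⟨0,0,0,0,1,0,0,0⟩ : Oct K) + x.v1 • (⟨0,0,0,0,0,1,0,0⟩ : Oct K) +
      x.v2 • (⟨0,0,0,0,0,0,1,0⟩ : Oct K) + x.v3 • (⟨0,0,0,0,0,0,0,1⟩ : Oct K) := by
    ext <;> simp
  show g.1 x = x
  rw [dec]
  simp only [map_add, map_smul]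
  rw [ra, rb, ← hx1, ← hx2, ← hx3, s1, s2, s3, r1, r2, r3]

end Pool.Agent.W_MP_93b5ed_al

end

/-!
# Comparison of `PGO_n` with `SO_n`
-/

noncomputable section

namespace Pool.Agent.W_MP_93b5ed_al

open Matrix

variable {K : Type*} [Field K] {n : ℕ}

theorem SO_le_GO : SO n K ≤ GO n K := by
  rintro P ⟨h1, _⟩
  exact ⟨1, one_ne_zero, by rw [h1, one_smul]⟩

/-- the natural map `SO_n → PGO_n` -/
def soHom : SO n K →* PGOq n K :=
  (QuotientGroup.mk' (scalars n K)).comp (Subgroup.inclusion SO_le_GO)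

theorem soHom_injective (hn : Odd n) : Function.Injective (soHom (n := n) (K := K)) := by
  rw [injective_iff_map_eq_one]
  intro Q hQ
  obtain ⟨m, hm⟩ := hn
  have h1 : Subgroup.inclusion SO_le_GO Q ∈ scalars n K := (QuotientGroup.eq_one_iff _).1 hQ
  obtain ⟨c, hc⟩ := h1
  have hc' : Q.1.1 = c • (1 : Matrix (Fin n) (Fin n) K) := hc
  have e1 := Q.2.1
  have e2 := Q.2.2
  rw [hc'] at e1 e2
  rw [det_smul, det_one, mul_one, Fintype.card_fin] at e2
  have z : Fin n := ⟨0, by omega⟩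
  have e3 : c * c = 1 := by
    have e4 := congrFun (congrFun e1 z) z
    rw [transpose_smul, transpose_one, Matrix.smul_mul, Matrix.one_mul, smul_smul,
      Matrix.smul_apply, one_apply_eq, smul_eq_mul, mul_one] at e4
    exact e4
  have e5 : c = 1 := by
    rw [hm, pow_succ, pow_mul, pow_two, e3, one_pow, one_mul] at e2
    exact e2
  apply Subtype.ext
  apply Units.ext
  rw [hc', e5, one_smul]
  rfl

theorem soHom_surjective (hn : Odd n) : Function.Surjective (soHom (n := n) (K := K)) := by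
  intro p
  induction p using QuotientGroup.induction_on with
  | H P =>
    obtain ⟨m, hm⟩ := hn
    obtain ⟨c, hc, h⟩ := P.2
    set d := P.1.1.det with hd
    have hdet : d * d = c ^ n := by
      have e := congrArg Matrix.det h
      rw [det_mul, det_transpose, det_smul, det_one, mul_one, Fintype.card_fin] at e
      exact e
    have hd0 : d ≠ 0 := by
      intro h0
      rw [h0, mul_zero] at hdet
      exact pow_ne_zero n hc hdet.symm
    set mu : K := d / c ^ m with hmu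
    have hcm : c ^ m ≠ 0 := pow_ne_zero m hc
    have hmu0 : mu ≠ 0 := div_ne_zero hd0 hcm
    have hmu2 : mu * mu = c := by
      rw [hmu, div_mul_div_comm, hdet, hm, div_eq_iff (mul_ne_zero hcm hcm)]
      ring
    have hQ1 : (mu⁻¹ • P.1.1) * (mu⁻¹ • P.1.1)ᵀ = 1 := by
      rw [transpose_smul, Matrix.smul_mul, Matrix.mul_smul, smul_smul, h, smul_smul, ← hmu2]
      have : mu⁻¹ * mu⁻¹ * (mu * mu) = 1 := by field_simp
      rw [this, one_smul]
    have hQ2 : (mu⁻¹ • P.1.1).det = 1 := by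
      rw [det_smul, Fintype.card_fin, ← hd, inv_pow]
      have e1 : mu ^ n = d := by
        rw [hm, pow_succ, pow_mul, pow_two, hmu2, hmu, mul_div_cancel₀ _ hcm]
      rw [e1, inv_mul_cancel₀ hd0]
    set Q : GL (Fin n) K := ⟨mu⁻¹ • P.1.1, (mu⁻¹ • P.1.1)ᵀ, hQ1, mul_eq_one_comm.1 hQ1⟩ with hQ
    have hQm : Q ∈ SO n K := ⟨hQ1, hQ2⟩
    refine ⟨⟨Q, hQm⟩, ?_⟩
    show ((⟨Q, SO_le_GO hQm⟩ : GO n K) : PGOq n K) = P
    rw [QuotientGroup.eq]
    refine ⟨mu, ?_⟩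
    show ((Q⁻¹ * P.1 : GL (Fin n) K) : Matrix (Fin n) (Fin n) K) = _
    have e1 : P.1.1 = mu • Q.1 := by
      show P.1.1 = mu • (mu⁻¹ • P.1.1)
      rw [smul_smul, mul_inv_cancel₀ hmu0, one_smul]
    rw [Units.val_mul, e1, Matrix.mul_smul, ← Units.val_mul, inv_mul_cancel, Units.val_one]

/-- for odd `n`, `SO_n ≃ PGO_n` -/
def soEquiv (hn : Odd n) : SO n K ≃* PGOq n K :=
  MulEquiv.ofBijective soHom ⟨soHom_injective hn, soHom_surjective hn⟩

/-- commuting relation for central elements of `PGO_n` -/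
theorem rel_of_comm {P Q : GO n K} (h : (P : PGOq n K) * (Q : PGOq n K) = Q * P) :
    ∃ χ : K, Q.1.1 * P.1.1 = χ • (P.1.1 * Q.1.1) := by
  rw [← QuotientGroup.mk_mul, ← QuotientGroup.mk_mul, QuotientGroup.eq] at h
  obtain ⟨χ, hχ⟩ := mem_scalars_iff.1 h
  refine ⟨χ, ?_⟩
  have e1 : ((((P * Q)⁻¹ * (Q * P) : GO n K)).1).1 = ((P.1 * Q.1)⁻¹ * (Q.1 * P.1)).1 := rfl
  rw [e1] at hχ
  have e2 : Q.1 * P.1 = (P.1 * Q.1) * ((P.1 * Q.1)⁻¹ * (Q.1 * P.1)) := by group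
  have e3 := congrArg Units.val e2
  rw [Units.val_mul, Units.val_mul (P.1 * Q.1), hχ, Matrix.mul_smul, Matrix.mul_one,
    Units.val_mul] at e3
  exact e3

/-- the reflection -/
def refl' (i : Fin n) : Matrix (Fin n) (Fin n) K := 1 - (2 : K) • single i i 1

theorem refl'_mul_self (i : Fin n) : (refl' i : Matrix (Fin n) (Fin n) K) * refl' i = 1 := by
  rw [refl', Matrix.sub_mul, Matrix.mul_sub, Matrix.one_mul, Matrix.one_mul, Matrix.mul_sub,
    Matrix.mul_one, Matrix.smul_mul, Matrix.mul_smul, single_mul_single_same, mul_one, smul_smul]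
  rw [show ((2 : K) * 2) = 2 + 2 by norm_num, add_smul]
  abel

theorem refl'_transpose (i : Fin n) : (refl' i : Matrix (Fin n) (Fin n) K)ᵀ = refl' i := by
  rw [refl', transpose_sub, transpose_one, transpose_smul, transpose_single]

/-- the reflection as an element of `GO_n` -/
def reflGO (i : Fin n) : GO n K :=
  ⟨⟨refl' i, refl' i, refl'_mul_self i, refl'_mul_self i⟩, 1, one_ne_zero, by
    show refl' i * (refl' i)ᵀ = _
    rw [refl'_transpose, refl'_mul_self, one_smul]⟩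

/-- the swap as an element of `GO_n` -/
def swapGO (i j : Fin n) : GO n K :=
  ⟨⟨swap K i j, swap K i j, swap_mul_self i j, swap_mul_self i j⟩, 1, one_ne_zero, by
    show swap K i j * (swap K i j)ᵀ = _
    rw [transpose_swap, swap_mul_self, one_smul]⟩

theorem refl'_mul_apply (i : Fin n) (P : Matrix (Fin n) (Fin n) K) (k l : Fin n) :
    ((refl' i : Matrix (Fin n) (Fin n) K) * P) k l =
      P k l - (if i = k then 2 * P k l else 0) := by
  rw [refl', Matrix.sub_mul, Matrix.one_mul, Matrix.smul_mul, Matrix.sub_apply, Matrix.smul_apply,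
    sm_apply]
  split_ifs with h
  · rw [h, one_mul, smul_eq_mul]
  · rw [smul_zero]

theorem mul_refl'_apply (i : Fin n) (P : Matrix (Fin n) (Fin n) K) (k l : Fin n) :
    (P * (refl' i : Matrix (Fin n) (Fin n) K)) k l =
      P k l - (if i = l then 2 * P k l else 0) := by
  rw [refl', Matrix.mul_sub, Matrix.mul_one, Matrix.mul_smul, Matrix.sub_apply, Matrix.smul_apply,
    ms_apply]
  split_ifs with h
  · rw [h, mul_one, smul_eq_mul]
  · rw [smul_zero]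

/-- the centre of `PGO_n` is trivial for `n ≥ 3` -/
theorem center_PGO (h2 : (2 : K) ≠ 0) (hn : 3 ≤ n) (p : PGOq n K) (h : ∀ q : PGOq n K, p * q = q * p) :
    p = 1 := by
  induction p using QuotientGroup.induction_on with
  | H P =>
    obtain ⟨c, hc, hP⟩ := P.2
    -- rows are nonzero
    have hrow : ∀ k, ∑ l, P.1.1 k l * P.1.1 k l = c := by
      intro k
      have e := congrFun (congrFun hP k) k
      rw [Matrix.mul_apply, Matrix.smul_apply, one_apply_eq, smul_eq_mul, mul_one] at e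
      exact e
    have hrow2 : ∀ k k', k ≠ k' → ∑ l, P.1.1 k l * P.1.1 k' l = 0 := by
      intro k k' hk
      have e := congrFun (congrFun hP k) k'
      rw [Matrix.mul_apply, Matrix.smul_apply, one_apply_ne hk, smul_zero] at e
      exact e
    have hrel : ∀ i : Fin n, ∃ χ : K, ∀ k l, P.1.1 k l - (if i = k then 2 * P.1.1 k l else 0) =
        χ * (P.1.1 k l - (if i = l then 2 * P.1.1 k l else 0)) := by
      intro i
      obtain ⟨χ, hχ⟩ := rel_of_comm (h (reflGO i : GO n K))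
      refine ⟨χ, fun k l => ?_⟩
      have e := congrFun (congrFun hχ k) l
      rw [Matrix.smul_apply, smul_eq_mul] at e
      have e1 : ((reflGO i : GO n K).1.1 * P.1.1) k l =
        ((refl' i : Matrix (Fin n) (Fin n) K) * P.1.1) k l := rfl
      have e2 : (P.1.1 * (reflGO i : GO n K).1.1) k l =
        (P.1.1 * (refl' i : Matrix (Fin n) (Fin n) K)) k l := rfl
      rw [e1, e2, refl'_mul_apply, mul_refl'_apply] at e
      exact e
    have hdiag : ∀ i l : Fin n, i ≠ l → P.1.1 i l = 0 := by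
      intro i l hil
      obtain ⟨χ, hχ⟩ := hrel i
      have hχ1 : χ = 1 := by
        by_contra hne
        have hz : ∀ k l, i ≠ k → i ≠ l → P.1.1 k l = 0 := by
          intro k l hk hl
          have e := hχ k l
          rw [if_neg hk, if_neg hl, sub_zero] at e
          have e1 : (1 - χ) * P.1.1 k l = 0 := by linear_combination e
          exact (mul_eq_zero.1 e1).resolve_left (sub_ne_zero.2 (Ne.symm hne))
        -- two further indices
        obtain ⟨k, hk, k', hk', hkk⟩ : ∃ k, i ≠ k ∧ ∃ k', i ≠ k' ∧ k ≠ k' := by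
          by_contra hcon
          push Not at hcon
          have h1 : (Finset.univ : Finset (Fin n)) ⊆ {i, l} := by
            intro d _
            by_cases hd : i = d
            · simp [hd]
            · have := hcon l hil d hd
              simp [this]
          have h2 := Finset.card_le_card h1
          have h3 : ({i, l} : Finset (Fin n)).card ≤ 2 := Finset.card_le_two
          rw [Finset.card_univ, Fintype.card_fin] at h2
          omega
        have r1 := hrow k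
        have r2 := hrow k'
        have r3 := hrow2 k k' hkk
        rw [Finset.sum_eq_single i (fun b _ hb => by rw [hz k b hk (Ne.symm hb), zero_mul])
          (fun h => absurd (Finset.mem_univ i) h)] at r1
        rw [Finset.sum_eq_single i (fun b _ hb => by rw [hz k' b hk' (Ne.symm hb), zero_mul])
          (fun h => absurd (Finset.mem_univ i) h)] at r2
        rw [Finset.sum_eq_single i (fun b _ hb => by rw [hz k b hk (Ne.symm hb), zero_mul])
          (fun h => absurd (Finset.mem_univ i) h)] at r3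
        rcases mul_eq_zero.1 r3 with h0 | h0
        · rw [h0, mul_zero] at r1
          exact hc r1.symm
        · rw [h0, mul_zero] at r2
          exact hc r2.symm
      have e := hχ i l
      rw [if_pos rfl, if_neg hil, hχ1, one_mul, sub_zero] at e
      have e1 : 2 * P.1.1 i l = 0 := by linear_combination -e
      exact (mul_eq_zero.1 e1).resolve_left h2
    have hd0 : ∀ k, P.1.1 k k ≠ 0 := by
      intro k h0
      have r1 := hrow k
      rw [Finset.sum_eq_single k (fun b _ hb => by rw [hdiag k b (Ne.symm hb), zero_mul])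
        (fun h => absurd (Finset.mem_univ k) h), h0, zero_mul] at r1
      exact hc r1.symm
    have heq : ∀ i j : Fin n, P.1.1 i i = P.1.1 j j := by
      intro i j
      by_cases hij : i = j
      · rw [hij]
      obtain ⟨χ, hχ⟩ := rel_of_comm (h (swapGO i j : GO n K))
      have e0 : ∀ k l, (swap K i j * P.1.1) k l = χ * (P.1.1 * swap K i j) k l := fun k l =>
        congrFun (congrFun hχ k) l
      obtain ⟨k, hk, hk'⟩ : ∃ k, k ≠ i ∧ k ≠ j := by
        by_contra hcon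
        push Not at hcon
        have h1 : (Finset.univ : Finset (Fin n)) ⊆ {i, j} := by
          intro d _
          by_cases hd : d = i
          · simp [hd]
          · simp [hcon d hd]
        have h2 := Finset.card_le_card h1
        have h3 : ({i, j} : Finset (Fin n)).card ≤ 2 := Finset.card_le_two
        rw [Finset.card_univ, Fintype.card_fin] at h2
        omega
      have e1 := e0 k k
      rw [swap_mul_of_ne hk hk', mul_swap_of_ne hk hk'] at e1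
      have hχ1 : χ = 1 := by
        have : (1 - χ) * P.1.1 k k = 0 := by linear_combination e1
        have := (mul_eq_zero.1 this).resolve_right (hd0 k)
        linear_combination -this
      have e2 := e0 i j
      rw [swap_mul_apply_left, mul_swap_apply_right, hχ1, one_mul] at e2
      exact e2.symm
    apply (QuotientGroup.eq_one_iff P).2
    refine mem_scalars_iff.2 ⟨P.1.1 ⟨0, by omega⟩ ⟨0, by omega⟩, ?_⟩
    ext i j
    rw [Matrix.smul_apply, smul_eq_mul]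
    by_cases hij : i = j
    · rw [hij, one_apply_eq, mul_one, heq j ⟨0, by omega⟩]
    · rw [one_apply_ne hij, mul_zero, hdiag i j hij]

/-- central elements of `PGO_2` have square one -/
theorem center_PGO_two (h2 : (2 : K) ≠ 0) (p : PGOq 2 K) (h : ∀ q : PGOq 2 K, p * q = q * p) :
    p * p = 1 := by
  induction p using QuotientGroup.induction_on with
  | H P =>
    obtain ⟨c, hc, hP⟩ := P.2
    obtain ⟨χ, hχ⟩ := rel_of_comm (h (reflGO 0 : GO 2 K))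
    have hrel : ∀ k l, P.1.1 k l - (if 0 = k then 2 * P.1.1 k l else 0) =
        χ * (P.1.1 k l - (if 0 = l then 2 * P.1.1 k l else 0)) := by
      intro k l
      have e := congrFun (congrFun hχ k) l
      rw [Matrix.smul_apply, smul_eq_mul] at e
      have e1 : ((reflGO 0 : GO 2 K).1.1 * P.1.1) k l =
        ((refl' 0 : Matrix (Fin 2) (Fin 2) K) * P.1.1) k l := rfl
      have e2 : (P.1.1 * (reflGO 0 : GO 2 K).1.1) k l =
        (P.1.1 * (refl' 0 : Matrix (Fin 2) (Fin 2) K)) k l := rfl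
      rw [e1, e2, refl'_mul_apply, mul_refl'_apply] at e
      exact e
    have e00 := hrel 0 0
    have e01 := hrel 0 1
    have e10 := hrel 1 0
    have e11 := hrel 1 1
    simp at e00 e01 e10 e11
    have c00 := congrFun (congrFun hP 0) 0
    have c11 := congrFun (congrFun hP 1) 1
    rw [Matrix.mul_apply, Fin.sum_univ_two] at c00 c11
    simp at c00 c11
    rw [← QuotientGroup.mk_mul]
    apply (QuotientGroup.eq_one_iff _).2
    by_cases hχ1 : χ = 1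
    · have b0 : P.1.1 0 1 = 0 := by
        have : 2 * P.1.1 0 1 = 0 := by rw [hχ1] at e01; linear_combination -e01
        exact (mul_eq_zero.1 this).resolve_left h2
      have b1 : P.1.1 1 0 = 0 := by
        have : 2 * P.1.1 1 0 = 0 := by rw [hχ1] at e10; linear_combination e10
        exact (mul_eq_zero.1 this).resolve_left h2
      rw [b0] at c00
      rw [b1] at c11
      refine ⟨c, ?_⟩
      show P.1.1 * P.1.1 = _
      ext i j
      rw [Matrix.mul_apply, Fin.sum_univ_two]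
      fin_cases i <;> fin_cases j
      · simp [b0, b1]; linear_combination c00
      · simp [b0, b1]
      · simp [b0, b1]
      · simp [b0, b1]; linear_combination c11
    · have b0 : P.1.1 0 0 = 0 := by
        have : (1 - χ) * P.1.1 0 0 = 0 := by linear_combination -e00
        exact (mul_eq_zero.1 this).resolve_left (sub_ne_zero.2 (Ne.symm hχ1))
      have b1 : P.1.1 1 1 = 0 := by
        have : (1 - χ) * P.1.1 1 1 = 0 := by linear_combination e11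
        exact (mul_eq_zero.1 this).resolve_left (sub_ne_zero.2 (Ne.symm hχ1))
      refine ⟨P.1.1 0 1 * P.1.1 1 0, ?_⟩
      show P.1.1 * P.1.1 = _
      ext i j
      rw [Matrix.mul_apply, Fin.sum_univ_two]
      fin_cases i <;> fin_cases j
      · simp [b0, b1]
      · simp [b0, b1]
      · simp [b0, b1]
      · simp [b0, b1]; ring

end Pool.Agent.W_MP_93b5ed_al

end

/-!
# Linear maps commuting with `Aut(𝕆)`
-/

noncomputable section

namespace Pool.Agent.W_MP_93b5ed_al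

variable {K : Type*} [Field K]

/-- the exponential of `Dd` -/
def Ed : Oct K →ₗ[K] Oct K where
  toFun z := ⟨z.a + z.v1, z.b - z.v1, z.u1 + z.b - z.a - z.v1, z.u2, z.u3, z.v1, z.v2 + z.u3,
    z.v3 - z.u2⟩
  map_add' x y := by ext <;> simp only [Oct.add_a, Oct.add_b, Oct.add_u1, Oct.add_u2, Oct.add_u3,
    Oct.add_v1, Oct.add_v2, Oct.add_v3] <;> ring
  map_smul' c x := by ext <;> simp only [RingHom.id_apply, Oct.smul_a, Oct.smul_b, Oct.smul_u1,
    Oct.smul_u2, Oct.smul_u3, Oct.smul_v1, Oct.smul_v2, Oct.smul_v3] <;> ring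

/-- its inverse -/
def Ed' : Oct K →ₗ[K] Oct K where
  toFun z := ⟨z.a - z.v1, z.b + z.v1, z.u1 - z.b + z.a - z.v1, z.u2, z.u3, z.v1, z.v2 - z.u3,
    z.v3 + z.u2⟩
  map_add' x y := by ext <;> simp only [Oct.add_a, Oct.add_b, Oct.add_u1, Oct.add_u2, Oct.add_u3,
    Oct.add_v1, Oct.add_v2, Oct.add_v3] <;> ring
  map_smul' c x := by ext <;> simp only [RingHom.id_apply, Oct.smul_a, Oct.smul_b, Oct.smul_u1,
    Oct.smul_u2, Oct.smul_u3, Oct.smul_v1, Oct.smul_v2, Oct.smul_v3] <;> ring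

theorem Ed_apply (z : Oct K) : Ed z = ⟨z.a + z.v1, z.b - z.v1, z.u1 + z.b - z.a - z.v1, z.u2, z.u3,
    z.v1, z.v2 + z.u3, z.v3 - z.u2⟩ := rfl

theorem Ed'_apply (z : Oct K) : Ed' z = ⟨z.a - z.v1, z.b + z.v1, z.u1 - z.b + z.a - z.v1, z.u2,
    z.u3, z.v1, z.v2 - z.u3, z.v3 + z.u2⟩ := rfl

/-- automorphism -/
def AEd : AutOct K := ⟨mkAut Ed Ed' (fun x => by rw [Ed_apply, Ed'_apply]; ext <;> ring)
  (fun x => by rw [Ed_apply, Ed'_apply]; ext <;> ring), fun x y => by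
    show Ed (x * y) = Ed x * Ed y
    rw [Ed_apply, Ed_apply, Ed_apply]
    ext <;> simp only [Oct.mul_a, Oct.mul_b, Oct.mul_u1, Oct.mul_u2, Oct.mul_u3, Oct.mul_v1,
      Oct.mul_v2, Oct.mul_v3] <;> ring⟩

theorem A12_ne : (A12 : AutOct K) ≠ 1 := by
  intro h
  have e := congrArg (fun φ : AutOct K => (φ.1 ⟨0,0,0,1,0,0,0,0⟩).u1) h
  have e1 : (T12 (1 : K) ⟨0,0,0,1,0,0,0,0⟩).u1 = 0 := e
  simp [T12] at e1

/-- fixed points of `Aut(𝕆)` are scalars -/
theorem isScal_of_fixed {x : Oct K} (h : ∀ f : AutOct K, f.1 x = x) : Oct.IsScal x := by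
  have e1 : T12 (1 : K) x = x := h A12
  have e2 : T23 (1 : K) x = x := h A23
  have e3 : T31 (1 : K) x = x := h A31
  have e4 : Tau x = x := h ATau
  rw [Oct.isScal_iff]
  have a1 := congrArg Oct.u1 e1
  have a2 := congrArg Oct.v2 e1
  have b1 := congrArg Oct.u2 e2
  have b2 := congrArg Oct.v3 e2
  have c1 := congrArg Oct.u3 e3
  have c2 := congrArg Oct.v1 e3
  have d1 := congrArg Oct.b e4
  simp [T12, T23, T31, Tau] at a1 a2 b1 b2 c1 c2 d1
  exact ⟨d1, c1, a1, b1, a2, b2, c2⟩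

/-- linear maps commuting with `Aut(𝕆)` -/
theorem comm_autOct (γ : Oct K →ₗ[K] Oct K) (hc : ∀ (f : AutOct K) (x : Oct K), γ (f.1 x) = f.1 (γ x)) :
    (∃ c : K, γ 1 = c • (1 : Oct K)) ∧ ∃ lam : K, ∀ x : Oct K, x.a = -x.b → γ x = lam • x := by
  constructor
  · have h : Oct.IsScal (γ 1) := isScal_of_fixed fun f => by
      rw [← hc, autOct_one f.2]
    exact h
  obtain ⟨lam, s1, s2, s3, r1, r2, r3⟩ := comm_core γ hc
  have rh : γ ⟨1,-1,0,0,0,0,0,0⟩ = lam • ⟨1,-1,0,0,0,0,0,0⟩ := by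
    have e : γ (Ed ⟨0,0,0,0,0,1,0,0⟩) = Ed (γ ⟨0,0,0,0,0,1,0,0⟩) := hc AEd _
    have e1 : Ed (⟨0,0,0,0,0,1,0,0⟩ : Oct K) = (⟨1,-1,0,0,0,0,0,0⟩ : Oct K) +
        (⟨0,0,0,0,0,1,0,0⟩ - ⟨0,0,1,0,0,0,0,0⟩) := by
      rw [Ed_apply]
      ext <;> simp only [Oct.add_a, Oct.add_b, Oct.add_u1, Oct.add_u2, Oct.add_u3,
        Oct.add_v1, Oct.add_v2, Oct.add_v3, Oct.sub_a, Oct.sub_b, Oct.sub_u1, Oct.sub_u2,
        Oct.sub_u3, Oct.sub_v1, Oct.sub_v2, Oct.sub_v3] <;> ring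
    rw [r1, map_smul, e1, map_add, map_sub, r1, s1, smul_add, smul_sub] at e
    exact add_right_cancel e
  refine ⟨lam, fun x hx => ?_⟩
  have dec : x = x.a • (⟨1,-1,0,0,0,0,0,0⟩ : Oct K) +
      x.u1 • (⟨0,0,1,0,0,0,0,0⟩ : Oct K) + x.u2 • (⟨0,0,0,1,0,0,0,0⟩ : Oct K) +
      x.u3 • (⟨0,0,0,0,1,0,0,0⟩ : Oct K) + x.v1 • (⟨0,0,0,0,0,1,0,0⟩ : Oct K) +
      x.v2 • (⟨0,0,0,0,0,0,1,0⟩ : Oct K) + x.v3 • (⟨0,0,0,0,0,0,0,1⟩ : Oct K) := by
    ext <;> simp
    rw [hx, neg_neg]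
  rw [dec]
  simp only [map_add, map_smul]
  rw [rh, s1, s2, s3, r1, r2, r3]
  simp only [smul_add, smul_comm lam]

end Pool.Agent.W_MP_93b5ed_al

end
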