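import Pool.Agent.W_MP_93b5ed_al.Oct

/-!
# Definitions: Hermitian and skew-Hermitian octonion matrices, automorphism groups of algebras,
`PGO_n(K)` and `SO_n(K)`
-/

noncomputable section

namespace Pool.Agent.W_MP_93b5ed_al

open Matrix

/-- `n × n` octonion matrices -/
abbrev OM (n : ℕ) (K : Type*) := Matrix (Fin n) (Fin n) (Oct K)

/-- An automorphism of the algebra `(M, μ)` over `K`: a `K`-linear bijection preserving the
product `μ`. -/
structure Autom (K : Type*) {M : Type*} [Field K] [AddCommGroup M] [Module K M]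
    (μ : M → M → M) where
  /-- the underlying linear bijection -/
  toLin : M ≃ₗ[K] M
  map_prod : ∀ x y, toLin (μ x y) = μ (toLin x) (toLin y)

namespace Autom

variable {K M : Type*} [Field K] [AddCommGroup M] [Module K M] {μ : M → M → M}

theorem ext' {φ ψ : Autom K μ} (h : ∀ x, φ.toLin x = ψ.toLin x) : φ = ψ := by
  obtain ⟨φ, hφ⟩ := φ
  obtain ⟨ψ, hψ⟩ := ψ
  have : φ = ψ := LinearEquiv.ext h
  subst this
  rfl

theorem comp_prod (φ ψ : Autom K μ) (x y : M) :
    (ψ.toLin.trans φ.toLin) (μ x y) = μ (ψ.toLin.trans φ.toLin x) (ψ.toLin.trans φ.toLin y) := by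
  show φ.toLin (ψ.toLin (μ x y)) = _
  rw [ψ.map_prod, φ.map_prod]
  rfl

theorem symm_prod (φ : Autom K μ) (x y : M) :
    φ.toLin.symm (μ x y) = μ (φ.toLin.symm x) (φ.toLin.symm y) := by
  apply φ.toLin.injective
  rw [φ.map_prod]
  simp

/-- composition: `(φ * ψ) x = φ (ψ x)` -/
instance : Mul (Autom K μ) := ⟨fun φ ψ => ⟨ψ.toLin.trans φ.toLin, comp_prod φ ψ⟩⟩
/-- the identity -/
instance : One (Autom K μ) := ⟨⟨LinearEquiv.refl K M, fun _ _ => rfl⟩⟩
/-- the inverse map -/
instance : Inv (Autom K μ) := ⟨fun φ => ⟨φ.toLin.symm, symm_prod φ⟩⟩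

theorem assoc' (a b c : Autom K μ) : a * b * c = a * (b * c) := rfl
theorem one_mul' (a : Autom K μ) : 1 * a = a := rfl
theorem inv_mul' (a : Autom K μ) : a⁻¹ * a = 1 := ext' fun x => a.toLin.symm_apply_apply x

/-- the automorphism group of an algebra (under composition) -/
instance : Group (Autom K μ) := Group.ofLeftAxioms assoc' one_mul' inv_mul'

end Autom

/-- The product of octonions as a function. -/
def octMul (K : Type*) [Field K] (x y : Oct K) : Oct K := x * y

/-- `G₂(K)`, the automorphism group of the split octonion algebra over `K`. -/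
abbrev G2 (K : Type*) [Field K] := Autom K (octMul K)

variable (n : ℕ) (K : Type*) [Field K]

/-- `Sym⁺(M_n(𝕆), J)`: the Hermitian `n × n` octonion matrices (`conjTranspose` conjugates and
transposes). -/
def Herm : Submodule K (OM n K) where
  carrier := {X | Xᴴ = X}
  add_mem' := by
    intro X Y hX hY
    show (X + Y)ᴴ = X + Y
    rw [conjTranspose_add, show Xᴴ = X from hX, show Yᴴ = Y from hY]
  zero_mem' := by
    show (0 : Matrix (Fin n) (Fin n) (Oct K))ᴴ = 0
    exact conjTranspose_zero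
  smul_mem' := by
    intro c X hX
    show (c • X)ᴴ = c • X
    ext i j : 1
    have h : star (X j i) = X i j := congrFun (congrFun hX i) j
    rw [conjTranspose_apply, Matrix.smul_apply, Matrix.smul_apply, ← h]
    ext <;> simp

/-- `Sym⁻(M_n(𝕆), J)`: the skew-Hermitian `n × n` octonion matrices. -/
def Skew : Submodule K (OM n K) where
  carrier := {X | Xᴴ = -X}
  add_mem' := by
    intro X Y hX hY
    show (X + Y)ᴴ = -(X + Y)
    rw [conjTranspose_add, show Xᴴ = -X from hX, show Yᴴ = -Y from hY, neg_add]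
  zero_mem' := by
    show (0 : Matrix (Fin n) (Fin n) (Oct K))ᴴ = -0
    rw [conjTranspose_zero, neg_zero]
  smul_mem' := by
    intro c X hX
    show (c • X)ᴴ = -(c • X)
    ext i j : 1
    have h : star (X j i) = -X i j := congrFun (congrFun hX i) j
    have h' : X i j = - star (X j i) := by rw [h, neg_neg]
    rw [conjTranspose_apply, Matrix.neg_apply, Matrix.smul_apply, Matrix.smul_apply, h']
    ext <;> simp

/-- The type of Hermitian octonion matrices, with its `K`-vector space structure. -/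
def HermMat : Type _ := ↥(Herm n K)

instance : AddCommGroup (HermMat n K) := Submodule.addCommGroup (Herm n K)
instance : Module K (HermMat n K) := Submodule.module (Herm n K)

/-- The type of skew-Hermitian octonion matrices, with its `K`-vector space structure. -/
def SkewMat : Type _ := ↥(Skew n K)

instance : AddCommGroup (SkewMat n K) := Submodule.addCommGroup (Skew n K)
instance : Module K (SkewMat n K) := Submodule.module (Skew n K)

variable {n K}

/-- the underlying matrix -/
def HermMat.val (X : HermMat n K) : OM n K := Subtype.val X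

/-- the underlying matrix -/
def SkewMat.val (X : SkewMat n K) : OM n K := Subtype.val X

/-- `X ∘ Y = ½ (X Y + Y X)` -/
def jprod (X Y : OM n K) : OM n K := (2 : K)⁻¹ • (X * Y + Y * X)

/-- `[X, Y] = X Y - Y X` -/
def comm (X Y : OM n K) : OM n K := X * Y - Y * X

theorem jprod_mem {X Y : OM n K} (hX : X ∈ Herm n K) (hY : Y ∈ Herm n K) :
    jprod X Y ∈ Herm n K := by
  refine (Herm n K).smul_mem _ ?_
  show (X * Y + Y * X)ᴴ = _
  rw [conjTranspose_add, conjTranspose_mul, conjTranspose_mul, show Xᴴ = X from hX,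
    show Yᴴ = Y from hY, add_comm]

theorem comm_mem {X Y : OM n K} (hX : X ∈ Skew n K) (hY : Y ∈ Skew n K) :
    comm X Y ∈ Skew n K := by
  show (X * Y - Y * X)ᴴ = -(X * Y - Y * X)
  rw [conjTranspose_sub, conjTranspose_mul, conjTranspose_mul, show Xᴴ = -X from hX,
    show Yᴴ = -Y from hY, Matrix.neg_mul, Matrix.neg_mul, Matrix.mul_neg, Matrix.mul_neg, neg_neg,
    neg_neg, neg_sub]

/-- The product `X ∘ Y = ½ (X Y + Y X)` of Hermitian matrices. -/
def HermMat.mul (X Y : HermMat n K) : HermMat n K := ⟨jprod X.val Y.val, jprod_mem X.2 Y.2⟩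

/-- The product `[X, Y] = X Y - Y X` of skew-Hermitian matrices. -/
def SkewMat.mul (X Y : SkewMat n K) : SkewMat n K := ⟨comm X.val Y.val, comm_mem X.2 Y.2⟩

variable (n K)

/-- The automorphism group of `(Sym⁺(M_n(𝕆), J), ∘)`. -/
abbrev HermAut := Autom K (HermMat.mul (n := n) (K := K))

/-- The automorphism group of `(Sym⁻(M_n(𝕆), J), [·,·])`. -/
abbrev SkewAut := Autom K (SkewMat.mul (n := n) (K := K))

/-- `GO_n(K)`, the group of similitudes of the form `∑ x_i²`: the invertible matrices `P` with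
`P Pᵀ = c 1` for some nonzero scalar `c`. -/
def GO : Subgroup (GL (Fin n) K) where
  carrier := {P | ∃ c : K, c ≠ 0 ∧ (P : Matrix (Fin n) (Fin n) K) * (P : Matrix (Fin n) (Fin n) K)ᵀ =
    c • (1 : Matrix (Fin n) (Fin n) K)}
  mul_mem' := by
    rintro P Q ⟨c, hc, hP⟩ ⟨d, hd, hQ⟩
    refine ⟨c * d, mul_ne_zero hc hd, ?_⟩
    rw [Units.val_mul, transpose_mul, Matrix.mul_assoc, ← Matrix.mul_assoc Q.1, hQ,
      Matrix.smul_mul, Matrix.one_mul, Matrix.mul_smul, hP, smul_smul, mul_comm]
  one_mem' := ⟨1, one_ne_zero, by simp⟩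
  inv_mem' := by
    rintro P ⟨c, hc, hP⟩
    refine ⟨c⁻¹, inv_ne_zero hc, ?_⟩
    have h1 : ((P⁻¹ : GL (Fin n) K) : Matrix (Fin n) (Fin n) K) =
        c⁻¹ • (P : Matrix (Fin n) (Fin n) K)ᵀ := by
      have h2 : (P : Matrix (Fin n) (Fin n) K) * (c⁻¹ • (P : Matrix (Fin n) (Fin n) K)ᵀ) = 1 := by
        rw [Matrix.mul_smul, hP, smul_smul, inv_mul_cancel₀ hc, one_smul]
      calc ((P⁻¹ : GL (Fin n) K) : Matrix (Fin n) (Fin n) K)
          = (P⁻¹ : GL (Fin n) K) * ((P : Matrix (Fin n) (Fin n) K) *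
              (c⁻¹ • (P : Matrix (Fin n) (Fin n) K)ᵀ)) := by rw [h2, Matrix.mul_one]
        _ = _ := by
          rw [← Matrix.mul_assoc, ← Units.val_mul, inv_mul_cancel, Units.val_one, Matrix.one_mul]
    have h3 : (P : Matrix (Fin n) (Fin n) K)ᵀ * (P : Matrix (Fin n) (Fin n) K) = c • 1 := by
      have h4 : (c⁻¹ • (P : Matrix (Fin n) (Fin n) K)ᵀ) * (P : Matrix (Fin n) (Fin n) K) = 1 := by
        rw [← h1, ← Units.val_mul, inv_mul_cancel, Units.val_one]
      have h5 := congrArg (fun M => c • M) h4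
      simpa only [Matrix.smul_mul, smul_smul, mul_inv_cancel₀ hc, one_smul] using h5
    rw [h1, transpose_smul, transpose_transpose, Matrix.smul_mul, Matrix.mul_smul, h3, smul_smul,
      smul_smul]
    congr 1
    field_simp

/-- The invertible scalar matrices. -/
def scalarsGL : Subgroup (GL (Fin n) K) where
  carrier := {P | ∃ c : K, (P : Matrix (Fin n) (Fin n) K) = c • (1 : Matrix (Fin n) (Fin n) K)}
  mul_mem' := by
    rintro P Q ⟨c, hP⟩ ⟨d, hQ⟩
    refine ⟨c * d, ?_⟩
    rw [Units.val_mul, hP, hQ, Matrix.smul_mul, Matrix.one_mul, smul_smul]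
  one_mem' := ⟨1, by simp⟩
  inv_mem' := by
    rintro P ⟨c, hP⟩
    refine ⟨c⁻¹, ?_⟩
    have h1 : P.1 * (P⁻¹).1 = 1 := by
      rw [← Units.val_mul, mul_inv_cancel, Units.val_one]
    by_cases hc : c = 0
    · rw [hc, zero_smul] at hP
      rw [hP, Matrix.zero_mul] at h1
      rw [hc, _root_.inv_zero, zero_smul, ← Matrix.one_mul (P⁻¹).1, ← h1, Matrix.zero_mul]
    · rw [hP, Matrix.smul_mul, Matrix.one_mul] at h1
      rw [← h1, smul_smul, inv_mul_cancel₀ hc, one_smul]

/-- The scalar matrices in `GO_n(K)`. -/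
def scalars : Subgroup (GO n K) := (scalarsGL n K).subgroupOf (GO n K)

theorem scalars_conj (P Q : GO n K) (hP : P ∈ scalars n K) : Q * P * Q⁻¹ ∈ scalars n K := by
  obtain ⟨c, hc⟩ := hP
  have hc' : P.1.1 = c • (1 : Matrix (Fin n) (Fin n) K) := hc
  refine ⟨c, ?_⟩
  show ((Q.1 * P.1 * Q.1⁻¹ : GL (Fin n) K) : Matrix (Fin n) (Fin n) K) = _
  rw [Units.val_mul, Units.val_mul, hc',
    Matrix.mul_smul, Matrix.mul_one, Matrix.smul_mul, ← Units.val_mul, mul_inv_cancel,
    Units.val_one]

instance scalars_normal : (scalars n K).Normal := ⟨fun P hP Q => scalars_conj n K P Q hP⟩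

/-- `PGO_n(K) = GO_n(K) / K^×`, the projective similitude group of the form `∑ x_i²`. -/
def PGO : Type _ := GO n K ⧸ scalars n K

instance : Group (PGO n K) := QuotientGroup.Quotient.group (scalars n K)

variable {n K} in
/-- the class of `P` in `PGO_n(K)` -/
def PGO.mk (P : GO n K) : PGO n K := QuotientGroup.mk P

/-- `SO_n(K)`, the special orthogonal group of the form `∑ x_i²`. -/
def SO : Subgroup (GL (Fin n) K) where
  carrier := {P | (P : Matrix (Fin n) (Fin n) K) * (P : Matrix (Fin n) (Fin n) K)ᵀ = 1 ∧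
    (P : Matrix (Fin n) (Fin n) K).det = 1}
  mul_mem' := by
    rintro P Q ⟨hP, hP'⟩ ⟨hQ, hQ'⟩
    refine ⟨?_, ?_⟩
    · rw [Units.val_mul, transpose_mul, Matrix.mul_assoc, ← Matrix.mul_assoc Q.1, hQ,
        Matrix.one_mul, hP]
    · rw [Units.val_mul, det_mul, hP', hQ', one_mul]
  one_mem' := ⟨by simp, by simp⟩
  inv_mem' := by
    rintro P ⟨hP, hP'⟩
    have h1 : ((P⁻¹ : GL (Fin n) K) : Matrix (Fin n) (Fin n) K) =
        (P : Matrix (Fin n) (Fin n) K)ᵀ := by
      calc ((P⁻¹ : GL (Fin n) K) : Matrix (Fin n) (Fin n) K)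
          = (P⁻¹ : GL (Fin n) K) * ((P : Matrix (Fin n) (Fin n) K) *
              (P : Matrix (Fin n) (Fin n) K)ᵀ) := by rw [hP, Matrix.mul_one]
        _ = _ := by
          rw [← Matrix.mul_assoc, ← Units.val_mul, inv_mul_cancel, Units.val_one, Matrix.one_mul]
    refine ⟨?_, ?_⟩
    · have h2 : (P : Matrix (Fin n) (Fin n) K)ᵀ * (P : Matrix (Fin n) (Fin n) K) = 1 := by
        rw [← h1, ← Units.val_mul, inv_mul_cancel, Units.val_one]
      rw [h1, transpose_transpose, h2]
    · rw [h1, det_transpose, hP']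

variable {n K}

/-- The octonion matrix with the same (scalar) entries as `P`. -/
def sc (P : Matrix (Fin n) (Fin n) K) : Matrix (Fin n) (Fin n) (Oct K) :=
  P.map (fun c => c • (1 : Oct K))

/-- `P g(X) P⁻¹`, where `g` is applied to `X` entrywise -/
def twist (g : G2 K) (P : GO n K) (X : OM n K) : OM n K :=
  sc P.1.1 * X.map g.toLin * sc (P.1⁻¹).1

variable (n K)

/-- `(g, [P]) ↦ (X ↦ P g(X) P⁻¹)` is a well-defined isomorphism from `G₂(K) × PGO_n(K)` onto the
automorphism group of the algebra of Hermitian matrices. -/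
def HermStd : Prop := ∃ e : G2 K × PGO n K ≃* HermAut n K,
  ∀ (g : G2 K) (P : GO n K) (X : HermMat n K),
    ((e (g, PGO.mk P)).toLin X).val = twist g P X.val

/-- `(g, [P]) ↦ (X ↦ P g(X) P⁻¹)` is a well-defined isomorphism from `G₂(K) × PGO_n(K)` onto the
automorphism group of the algebra of skew-Hermitian matrices. -/
def SkewStd : Prop := ∃ e : G2 K × PGO n K ≃* SkewAut n K,
  ∀ (g : G2 K) (P : GO n K) (X : SkewMat n K),
    ((e (g, PGO.mk P)).toLin X).val = twist g P X.val

end Pool.Agent.W_MP_93b5ed_al
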