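import Pool.Agent.W_MP_93b5ed_al.Herm3b

/-!
# Further identities for the twist by `1 + e` (not used elsewhere)
-/

noncomputable section

namespace Pool.Agent.W_MP_93b5ed_al

variable {K : Type*} [Field K]

theorem mf4 (x z : Oct K) : (uu * x) * (star z * ub) + (uu * z) * (star x * ub) =
    x * star z + z * star x := by
  simp only [uu_mul_eq, mul_ub_eq]
  ext <;> simp only [Oct.mul_a, Oct.mul_b, Oct.mul_u1, Oct.mul_u2, Oct.mul_u3, Oct.mul_v1,
    Oct.mul_v2, Oct.mul_v3, Oct.add_a, Oct.add_b, Oct.add_u1, Oct.add_u2, Oct.add_u3, Oct.add_v1,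
    Oct.add_v2, Oct.add_v3, Oct.star_a, Oct.star_b, Oct.star_u1, Oct.star_u2, Oct.star_u3,
    Oct.star_v1, Oct.star_v2, Oct.star_v3] <;> ring
theorem mf5 (x z : Oct K) : (star x * ub) * (uu * z) + (star z * ub) * (uu * x) =
    star x * z + star z * x := by
  simp only [uu_mul_eq, mul_ub_eq]
  ext <;> simp only [Oct.mul_a, Oct.mul_b, Oct.mul_u1, Oct.mul_u2, Oct.mul_u3, Oct.mul_v1,
    Oct.mul_v2, Oct.mul_v3, Oct.add_a, Oct.add_b, Oct.add_u1, Oct.add_u2, Oct.add_u3, Oct.add_v1,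
    Oct.add_v2, Oct.add_v3, Oct.star_a, Oct.star_b, Oct.star_u1, Oct.star_u2, Oct.star_u3,
    Oct.star_v1, Oct.star_v2, Oct.star_v3] <;> ring
theorem mf6 (x z : Oct K) : (x * uu) * (ub * star z) + (z * uu) * (ub * star x) =
    x * star z + z * star x := by
  simp only [mul_uu_eq, ub_mul_eq]
  ext <;> simp only [Oct.mul_a, Oct.mul_b, Oct.mul_u1, Oct.mul_u2, Oct.mul_u3, Oct.mul_v1,
    Oct.mul_v2, Oct.mul_v3, Oct.add_a, Oct.add_b, Oct.add_u1, Oct.add_u2, Oct.add_u3, Oct.add_v1,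
    Oct.add_v2, Oct.add_v3, Oct.star_a, Oct.star_b, Oct.star_u1, Oct.star_u2, Oct.star_u3,
    Oct.star_v1, Oct.star_v2, Oct.star_v3] <;> ring
theorem mf7 (x z : Oct K) : (ub * star x) * (z * uu) + (ub * star z) * (x * uu) =
    star x * z + star z * x := by
  simp only [mul_uu_eq, ub_mul_eq]
  ext <;> simp only [Oct.mul_a, Oct.mul_b, Oct.mul_u1, Oct.mul_u2, Oct.mul_u3, Oct.mul_v1,
    Oct.mul_v2, Oct.mul_v3, Oct.add_a, Oct.add_b, Oct.add_u1, Oct.add_u2, Oct.add_u3, Oct.add_v1,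
    Oct.add_v2, Oct.add_v3, Oct.star_a, Oct.star_b, Oct.star_u1, Oct.star_u2, Oct.star_u3,
    Oct.star_v1, Oct.star_v2, Oct.star_v3] <;> ring
theorem mf8 (x z : Oct K) : (uu * x * uu) * (ub * star z * ub) + (uu * z * uu) * (ub * star x * ub) =
    x * star z + z * star x := by
  simp only [uu_mul_eq, mul_uu_eq, ub_mul_eq, mul_ub_eq]
  ext <;> simp only [Oct.mul_a, Oct.mul_b, Oct.mul_u1, Oct.mul_u2, Oct.mul_u3, Oct.mul_v1,
    Oct.mul_v2, Oct.mul_v3, Oct.add_a, Oct.add_b, Oct.add_u1, Oct.add_u2, Oct.add_u3, Oct.add_v1,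
    Oct.add_v2, Oct.add_v3, Oct.star_a, Oct.star_b, Oct.star_u1, Oct.star_u2, Oct.star_u3,
    Oct.star_v1, Oct.star_v2, Oct.star_v3] <;> ring
theorem mf9 (x z : Oct K) : (ub * star x * ub) * (uu * z * uu) + (ub * star z * ub) * (uu * x * uu) =
    star x * z + star z * x := by
  simp only [uu_mul_eq, mul_uu_eq, ub_mul_eq, mul_ub_eq]
  ext <;> simp only [Oct.mul_a, Oct.mul_b, Oct.mul_u1, Oct.mul_u2, Oct.mul_u3, Oct.mul_v1,
    Oct.mul_v2, Oct.mul_v3, Oct.add_a, Oct.add_b, Oct.add_u1, Oct.add_u2, Oct.add_u3, Oct.add_v1,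
    Oct.add_v2, Oct.add_v3, Oct.star_a, Oct.star_b, Oct.star_u1, Oct.star_u2, Oct.star_u3,
    Oct.star_v1, Oct.star_v2, Oct.star_v3] <;> ring

end Pool.Agent.W_MP_93b5ed_al
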