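import Pool.Agent.W_MP_93b5ed_al.Main

/-!
# The Hermitian case for `n = 3`
-/

noncomputable section

namespace Pool.Agent.W_MP_93b5ed_al

open Matrix

variable {K : Type*} [Field K]

section twist

/-- the unit octonion `1 + e` and its inverse -/
def uu : Oct K := ⟨1,1,1,0,0,0,0,0⟩
/-- the conjugate of `uu` -/
def ub : Oct K := ⟨1,1,-1,0,0,0,0,0⟩

theorem star_uu : star (uu : Oct K) = ub := by
  ext <;> simp [uu, ub]
theorem star_ub : star (ub : Oct K) = uu := by
  ext <;> simp [uu, ub]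

theorem uu_mul_eq (x : Oct K) : uu * x =
    ⟨x.a + x.v1, x.b, x.u1 + x.b, x.u2, x.u3, x.v1, x.v2 - x.u3, x.v3 + x.u2⟩ := by
  ext <;> simp only [uu, Oct.mul_a, Oct.mul_b, Oct.mul_u1, Oct.mul_u2, Oct.mul_u3, Oct.mul_v1,
    Oct.mul_v2, Oct.mul_v3] <;> ring
theorem mul_uu_eq (x : Oct K) : x * uu =
    ⟨x.a, x.b + x.v1, x.u1 + x.a, x.u2, x.u3, x.v1, x.v2 + x.u3, x.v3 - x.u2⟩ := by
  ext <;> simp only [uu, Oct.mul_a, Oct.mul_b, Oct.mul_u1, Oct.mul_u2, Oct.mul_u3, Oct.mul_v1,
    Oct.mul_v2, Oct.mul_v3] <;> ring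
theorem ub_mul_eq (x : Oct K) : ub * x =
    ⟨x.a - x.v1, x.b, x.u1 - x.b, x.u2, x.u3, x.v1, x.v2 + x.u3, x.v3 - x.u2⟩ := by
  ext <;> simp only [ub, Oct.mul_a, Oct.mul_b, Oct.mul_u1, Oct.mul_u2, Oct.mul_u3, Oct.mul_v1,
    Oct.mul_v2, Oct.mul_v3] <;> ring
theorem mul_ub_eq (x : Oct K) : x * ub =
    ⟨x.a, x.b - x.v1, x.u1 - x.a, x.u2, x.u3, x.v1, x.v2 - x.u3, x.v3 + x.u2⟩ := by
  ext <;> simp only [ub, Oct.mul_a, Oct.mul_b, Oct.mul_u1, Oct.mul_u2, Oct.mul_u3, Oct.mul_v1,
    Oct.mul_v2, Oct.mul_v3] <;> ring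

theorem ub_uu (x : Oct K) : ub * (uu * x) = x := by
  rw [uu_mul_eq, ub_mul_eq]
  ext <;> simp only [add_sub_cancel_right, sub_add_cancel]
theorem uu_ub (x : Oct K) : uu * (ub * x) = x := by
  rw [ub_mul_eq, uu_mul_eq]
  ext <;> simp only [add_sub_cancel_right, sub_add_cancel]
theorem mul_uu_ub (x : Oct K) : (x * uu) * ub = x := by
  rw [mul_uu_eq, mul_ub_eq]
  ext <;> simp only [add_sub_cancel_right, sub_add_cancel]
theorem mul_ub_uu (x : Oct K) : (x * ub) * uu = x := by
  rw [mul_ub_eq, mul_uu_eq]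
  ext <;> simp only [add_sub_cancel_right, sub_add_cancel]
theorem tw1 (x : Oct K) : ub * ((uu * x * uu)) * ub = x := by
  rw [uu_mul_eq, mul_uu_eq, ub_mul_eq, mul_ub_eq]
  ext <;> ring
theorem tw2 (x : Oct K) : uu * ((ub * x * ub)) * uu = x := by
  rw [ub_mul_eq, mul_ub_eq, uu_mul_eq, mul_uu_eq]
  ext <;> ring

theorem mf1 (x y : Oct K) : (uu * x * uu) * (ub * y) = uu * (x * y) := by
  simp only [uu_mul_eq, mul_uu_eq, ub_mul_eq]
  ext <;> simp only [Oct.mul_a, Oct.mul_b, Oct.mul_u1, Oct.mul_u2, Oct.mul_u3, Oct.mul_v1,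
    Oct.mul_v2, Oct.mul_v3] <;> ring
theorem mf2 (x y : Oct K) : (x * ub) * (uu * y * uu) = (x * y) * uu := by
  simp only [uu_mul_eq, mul_uu_eq, mul_ub_eq]
  ext <;> simp only [Oct.mul_a, Oct.mul_b, Oct.mul_u1, Oct.mul_u2, Oct.mul_u3, Oct.mul_v1,
    Oct.mul_v2, Oct.mul_v3] <;> ring
theorem mf3 (x y : Oct K) : (uu * x) * (y * uu) = uu * (x * y) * uu := by
  simp only [uu_mul_eq, mul_uu_eq]
  ext <;> simp only [Oct.mul_a, Oct.mul_b, Oct.mul_u1, Oct.mul_u2, Oct.mul_u3, Oct.mul_v1,
    Oct.mul_v2, Oct.mul_v3] <;> ring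
/-- the flexible law -/
theorem flex (w z : Oct K) : w * (z * w) = w * z * w := by
  ext <;> simp only [Oct.mul_a, Oct.mul_b, Oct.mul_u1, Oct.mul_u2, Oct.mul_u3, Oct.mul_v1,
    Oct.mul_v2, Oct.mul_v3] <;> ring

/-- the twisting map for a given pair `u, u'` -/
def twL (u u' : Oct K) : OM 3 K →ₗ[K] OM 3 K where
  toFun X := !![X 0 0, u * X 0 1, u * X 0 2 * u; X 1 0 * u', X 1 1, X 1 2 * u;
    u' * X 2 0 * u', u' * X 2 1, X 2 2]
  map_add' X Y := by
    ext i j : 1
    fin_cases i <;> fin_cases j <;> simp [mul_add, add_mul]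
  map_smul' c X := by
    ext i j : 1
    fin_cases i <;> fin_cases j <;> simp [mul_smul_comm, smul_mul_assoc]

theorem twL_inv1 (X : OM 3 K) : twL ub uu (twL uu ub X) = X := by
  ext i j : 1
  fin_cases i <;> fin_cases j <;> simp [twL, ub_uu, uu_ub, mul_uu_ub, mul_ub_uu, tw1, tw2]

theorem twL_inv2 (X : OM 3 K) : twL uu ub (twL ub uu X) = X := by
  ext i j : 1
  fin_cases i <;> fin_cases j <;> simp [twL, ub_uu, uu_ub, mul_uu_ub, mul_ub_uu, tw1, tw2]

theorem twL_herm {u u' : Oct K} (h : star u = u') (X : OM 3 K) (hX : Xᴴ = X) :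
    (twL u u' X)ᴴ = twL u u' X := by
  have h' : star u' = u := by rw [← h, star_star]
  have e := fun i j => herm_apply hX i j
  have hasc : ∀ (w z : Oct K), w * (z * w) = w * z * w := flex
  ext i j : 1
  rw [conjTranspose_apply]
  fin_cases i <;> fin_cases j
  · simp [twL, e]
  · simp [twL, e, h']
  · simp [twL, e, h', hasc]
  · simp [twL, e, h]
  · simp [twL, e]
  · simp [twL, e, h']
  · simp [twL, e, h, hasc]
  · simp [twL, e, h]
  · simp [twL, e]

/-- the Hermitian `3 × 3` matrix with given entries -/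
def H3 (a b c : K) (x y z : Oct K) : OM 3 K :=
  !![a • 1, x, y; star x, b • 1, z; star y, star z, c • 1]

theorem exists_H3 (h2 : (2 : K) ≠ 0) {X : OM 3 K} (hX : Xᴴ = X) :
    ∃ (a b c : K) (x y z : Oct K), X = H3 a b c x y z := by
  obtain ⟨a, ha⟩ := herm_diag h2 hX 0
  obtain ⟨b, hb⟩ := herm_diag h2 hX 1
  obtain ⟨c, hc⟩ := herm_diag h2 hX 2
  refine ⟨a, b, c, X 0 1, X 0 2, X 1 2, ?_⟩
  have e := fun i j => herm_apply hX i j
  ext i j : 1
  fin_cases i <;> fin_cases j <;> simp [H3, ha, hb, hc, e]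

theorem jm_H3 (a b c a' b' c' : K) (x y z x' y' z' : Oct K) :
    jm (H3 a b c x y z) (H3 a' b' c' x' y' z') =
      H3 (2 * (a * a') + bet x x' + bet y y') (2 * (b * b') + bet x x' + bet z z')
        (2 * (c * c') + bet y y' + bet z z')
        ((a + b) • x' + (a' + b') • x + (y * star z' + y' * star z))
        ((a + c) • y' + (a' + c') • y + (x * z' + x' * z))
        ((b + c) • z' + (b' + c') • z + (star x * y' + star x' * y)) := by
  have e1 := bet_eq x x'
  have e2 := bet_eq y y'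
  have e3 := bet_eq z z'
  have f1 := bet_eq' x x'
  have f2 := bet_eq' y y'
  have f3 := bet_eq' z z'
  ext i j : 1
  rw [jm, Matrix.add_apply, Matrix.mul_apply, Matrix.mul_apply, Fin.sum_univ_three,
    Fin.sum_univ_three]
  fin_cases i <;> fin_cases j
  · simp only [H3, Fin.isValue, Fin.zero_eta, Matrix.of_apply, Matrix.cons_val', Matrix.cons_val_zero,
      Matrix.cons_val_fin_one, Matrix.cons_val_one, Matrix.cons_val]
    rw [add_smul, add_smul, ← e1, ← e2, two_mul, add_smul]
    simp only [smul_mul_assoc, mul_smul_comm, one_mul, smul_smul, mul_comm a' a]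
    abel
  · simp only [H3, Fin.isValue, Fin.zero_eta, Fin.mk_one, Matrix.of_apply, Matrix.cons_val',
      Matrix.cons_val_zero, Matrix.cons_val_fin_one, Matrix.cons_val_one, Matrix.cons_val]
    simp only [smul_mul_assoc, mul_smul_comm, one_mul, mul_one, add_smul]
    abel
  · simp only [H3, Fin.isValue, Fin.zero_eta, Fin.reduceFinMk, Matrix.of_apply, Matrix.cons_val',
      Matrix.cons_val_zero, Matrix.cons_val_fin_one, Matrix.cons_val_one, Matrix.cons_val]
    simp only [smul_mul_assoc, mul_smul_comm, one_mul, mul_one, add_smul]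
    abel
  · simp only [H3, Fin.isValue, Fin.zero_eta, Fin.mk_one, Matrix.of_apply, Matrix.cons_val',
      Matrix.cons_val_zero, Matrix.cons_val_fin_one, Matrix.cons_val_one, Matrix.cons_val]
    simp only [smul_mul_assoc, mul_smul_comm, one_mul, mul_one, star_add, star_smul_oct, star_mul,
      star_star, add_smul]
    abel
  · simp only [H3, Fin.isValue, Fin.mk_one, Matrix.of_apply, Matrix.cons_val', Matrix.cons_val_zero,
      Matrix.cons_val_fin_one, Matrix.cons_val_one, Matrix.cons_val]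
    rw [add_smul, add_smul, ← f1, ← e3, two_mul, add_smul]
    simp only [smul_mul_assoc, mul_smul_comm, one_mul, smul_smul, mul_comm b' b]
    abel
  · simp only [H3, Fin.isValue, Fin.reduceFinMk, Fin.mk_one, Matrix.of_apply, Matrix.cons_val',
      Matrix.cons_val_zero, Matrix.cons_val_fin_one, Matrix.cons_val_one, Matrix.cons_val]
    simp only [smul_mul_assoc, mul_smul_comm, one_mul, mul_one, add_smul]
    abel
  · simp only [H3, Fin.isValue, Fin.zero_eta, Fin.reduceFinMk, Matrix.of_apply, Matrix.cons_val',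
      Matrix.cons_val_zero, Matrix.cons_val_fin_one, Matrix.cons_val_one, Matrix.cons_val]
    simp only [smul_mul_assoc, mul_smul_comm, one_mul, mul_one, star_add, star_smul_oct, star_mul,
      star_star, add_smul]
    abel
  · simp only [H3, Fin.isValue, Fin.mk_one, Fin.reduceFinMk, Matrix.of_apply, Matrix.cons_val',
      Matrix.cons_val_zero, Matrix.cons_val_fin_one, Matrix.cons_val_one, Matrix.cons_val]
    simp only [smul_mul_assoc, mul_smul_comm, one_mul, mul_one, star_add, star_smul_oct, star_mul,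
      star_star, add_smul]
    abel
  · simp only [H3, Fin.isValue, Fin.reduceFinMk, Matrix.of_apply, Matrix.cons_val',
      Matrix.cons_val_zero, Matrix.cons_val_fin_one, Matrix.cons_val_one, Matrix.cons_val]
    rw [add_smul, add_smul, ← f2, ← f3, two_mul, add_smul]
    simp only [smul_mul_assoc, mul_smul_comm, one_mul, smul_smul, mul_comm c' c]
    abel

theorem twL_H3 (a b c : K) (x y z : Oct K) :
    twL uu ub (H3 a b c x y z) = H3 a b c (uu * x) (uu * y * uu) (z * uu) := by
  have hasc : ∀ (z : Oct K), (ub : Oct K) * (z * ub) = ub * z * ub := flex ub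
  ext i j : 1
  fin_cases i <;> fin_cases j <;> simp [twL, H3, star_uu, hasc]

theorem bet_uu1 (x y : Oct K) : bet (uu * x) (uu * y) = bet x y := by
  rw [uu_mul_eq, uu_mul_eq]
  simp only [bet]
  ring

theorem bet_uu2 (x y : Oct K) : bet (x * uu) (y * uu) = bet x y := by
  rw [mul_uu_eq, mul_uu_eq]
  simp only [bet]
  ring

theorem twL_jm (h2 : (2 : K) ≠ 0) {X Y : OM 3 K} (hX : Xᴴ = X) (hY : Yᴴ = Y) :
    twL uu ub (jm X Y) = jm (twL uu ub X) (twL uu ub Y) := by
  obtain ⟨a, b, c, x, y, z, rfl⟩ := exists_H3 h2 hX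
  obtain ⟨a', b', c', x', y', z', rfl⟩ := exists_H3 h2 hY
  rw [jm_H3, twL_H3, twL_H3, twL_H3, jm_H3]
  simp only [bet_uu1, bet_uu2, star_mul, star_uu, mf1, mf2, mf3]
  simp only [mul_add, add_mul, mul_smul_comm, smul_mul_assoc]

/-- the twist as an equivalence -/
theorem tw_equiv (h2 : (2 : K) ≠ 0) : IsHermEquiv (twL (uu : Oct K) ub) (twL ub uu) := by
  refine ⟨⟨fun X hX => twL_herm star_uu X hX, fun X Y hX hY => twL_jm h2 hX hY⟩,
    ⟨fun X hX => twL_herm star_ub X hX, fun X Y hX hY => ?_⟩, fun X _ => twL_inv1 X,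
    fun X _ => twL_inv2 X⟩
  have hX' := twL_herm star_ub X hX
  have hY' := twL_herm star_ub Y hY
  have e := twL_jm h2 hX' hY'
  rw [twL_inv2, twL_inv2] at e
  rw [← e, twL_inv1]

end twist

end Pool.Agent.W_MP_93b5ed_al

end

/-!
# The Hermitian case for `n = 3`, continued
-/

noncomputable section

namespace Pool.Agent.W_MP_93b5ed_al

open Matrix

variable {K : Type*} [Field K] {n : ℕ}

/-- the action of an automorphism on (Hermitian) matrices -/
def ac (φ : AutHerm n K) : OM n K →ₗ[K] OM n K := extH φ.1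

theorem ac_apply (h2 : (2 : K) ≠ 0) (φ : AutHerm n K) {X : OM n K} (hX : Xᴴ = X) :
    ac φ X = (φ.1 ⟨X, hX⟩).1 := extH_apply h2 φ.1 hX

theorem ac_equiv (h2 : (2 : K) ≠ 0) (φ : AutHerm n K) : IsHermEquiv (ac φ) (ac φ⁻¹) :=
  isHermEquiv_extH h2 φ.2

theorem ac_herm (h2 : (2 : K) ≠ 0) (φ : AutHerm n K) {X : OM n K} (hX : Xᴴ = X) :
    (ac φ X)ᴴ = ac φ X := (ac_equiv h2 φ).hom1.herm X hX

theorem ac_mul (h2 : (2 : K) ≠ 0) (φ ψ : AutHerm n K) {X : OM n K} (hX : Xᴴ = X) :
    ac (φ * ψ) X = ac φ (ac ψ X) := by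
  rw [ac_apply h2 ψ hX, ac_apply h2 φ (ψ.1 ⟨X, hX⟩).2, ac_apply h2 (φ * ψ) hX]
  rfl

theorem ac_one (h2 : (2 : K) ≠ 0) {X : OM n K} (hX : Xᴴ = X) :
    ac (1 : AutHerm n K) X = X := by
  rw [ac_apply h2 1 hX]
  rfl

theorem ac_ext (h2 : (2 : K) ≠ 0) {φ ψ : AutHerm n K}
    (h : ∀ X : OM n K, Xᴴ = X → ac φ X = ac ψ X) : φ = ψ := by
  apply Subtype.ext
  apply LinearEquiv.ext
  intro X
  apply Subtype.ext
  have e := h X.1 X.2
  rw [ac_apply h2 φ X.2, ac_apply h2 ψ X.2] at e
  exact e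

theorem ac_act (h2 : (2 : K) ≠ 0) (g : AutOct K) (P : GO n K) {X : OM n K} (hX : Xᴴ = X) :
    ac (actHom herm_good (g, P)) X = actL g.1 P.1 X := by
  rw [ac_apply h2 _ hX]
  rfl

theorem ac_g (h2 : (2 : K) ≠ 0) (g : AutOct K) {X : OM n K} (hX : Xᴴ = X) :
    ac (actHom herm_good (g, (1 : GO n K))) X = mapL g.1.toLinearMap X := by
  rw [ac_act h2 g 1 hX]
  show cjL (1 : GL (Fin n) K).1 ((1 : GL (Fin n) K)⁻¹).1 (mapL _ X) = _
  rw [inv_one, Units.val_one, cjL_one]

theorem ac_P (h2 : (2 : K) ≠ 0) (P : GO n K) {X : OM n K} (hX : Xᴴ = X) :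
    ac (actHom herm_good ((1 : AutOct K), P)) X = cjL P.1.1 (P.1⁻¹).1 X := by
  rw [ac_act h2 1 P hX]
  rfl

/-- an automorphism from a pair of mutually inverse maps -/
def mkHerm (h2 : (2 : K) ≠ 0) {Φ Ψ : OM n K →ₗ[K] OM n K} (h : IsHermEquiv Φ Ψ) : AutHerm n K :=
  ⟨LinearEquiv.ofLinearMap (Φ.restrict (fun X hX => h.hom1.herm X hX))
    (Ψ.restrict (fun X hX => h.hom2.herm X hX))
    (by
      apply LinearMap.ext
      rintro ⟨X, hX⟩
      apply Subtype.ext
      exact h.right X hX)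
    (by
      apply LinearMap.ext
      rintro ⟨X, hX⟩
      apply Subtype.ext
      exact h.left X hX), by
    intro X Y
    apply Subtype.ext
    show Φ ((2 : K)⁻¹ • (X.1 * Y.1 + Y.1 * X.1)) = (2 : K)⁻¹ • (Φ X.1 * Φ Y.1 + Φ Y.1 * Φ X.1)
    rw [map_smul]
    congr 1
    exact h.hom1.jm X.1 Y.1 X.2 Y.2⟩

theorem ac_mkHerm (h2 : (2 : K) ≠ 0) {Φ Ψ : OM n K →ₗ[K] OM n K} (h : IsHermEquiv Φ Ψ)
    {X : OM n K} (hX : Xᴴ = X) : ac (mkHerm h2 h) X = Φ X := by
  rw [ac_apply h2 _ hX]
  rfl

/-- conjugation by the reflection -/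
theorem sI_apply (i : Fin n) (X : OM n K) (k l : Fin n) :
    cjL (refl' i) (refl' i) X k l =
      (X k l - (if i = k then (2 : K) • X k l else 0)) -
        (if i = l then (2 : K) • (X k l - (if i = k then (2 : K) • X k l else 0)) else 0) := by
  have e : (sc (refl' i : Matrix (Fin n) (Fin n) K) : OM n K) =
      sc 1 - (2 : K) • single i i 1 := by
    rw [refl', sc_sub, sc_smul, sc_single, one_smul]
  have hs1 : ∀ Y : OM n K, ((2 : K) • (single i i 1 : OM n K)) * Y = (2 : K) • (single i i 1 * Y) :=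
    fun Y => (smul_tw 2 _ _).symm
  have hs2 : ∀ Y : OM n K, Y * ((2 : K) • (single i i 1 : OM n K)) = (2 : K) • (Y * single i i 1) := by
    intro Y
    ext a b : 1
    rw [Matrix.smul_apply, Matrix.mul_apply, Matrix.mul_apply, Finset.smul_sum]
    exact Finset.sum_congr rfl fun k _ => by rw [Matrix.smul_apply, mul_smul_comm]
  rw [cjL_apply, e, Matrix.mul_sub, Matrix.sub_mul, mul_sc_one, sc_one_mul, hs1, hs2,
    Matrix.sub_apply, Matrix.sub_apply, Matrix.smul_apply, Matrix.smul_apply, ms_apply,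
    Matrix.sub_apply, Matrix.smul_apply]
  simp only [sm_apply, one_mul, mul_one]
  by_cases h1 : i = k
  · by_cases h3 : i = l
    · subst h1; subst h3; simp
    · subst h1; simp [h3]
  · by_cases h3 : i = l
    · subst h3; simp [h1]
    · simp [h1, h3]

theorem sI_plus (h2 : (2 : K) ≠ 0) {i : Fin n} {X : OM n K} (h : cjL (refl' i) (refl' i) X = X)
    {l : Fin n} (hl : i ≠ l) : X i l = 0 ∧ X l i = 0 := by
  have two : ∀ x : Oct K, x - (2 : K) • x = x → x = 0 := by
    intro x hx
    have h3 : (2 : K) • x = 0 := by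
      have := congrArg (fun z => x - z) hx
      simpa using this
    have h4 := congrArg (fun z => (2 : K)⁻¹ • z) h3
    simpa only [smul_smul, inv_mul_cancel₀ h2, one_smul, smul_zero] using h4
  constructor
  · have e := congrFun (congrFun h i) l
    rw [sI_apply, if_pos rfl, if_neg hl, sub_zero] at e
    exact two _ e
  · have e := congrFun (congrFun h l) i
    rw [sI_apply, if_neg hl, if_pos rfl, sub_zero] at e
    exact two _ e

theorem sI_minus (h2 : (2 : K) ≠ 0) {i : Fin n} {X : OM n K} (h : cjL (refl' i) (refl' i) X = -X) :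
    X i i = 0 ∧ ∀ k l, i ≠ k → i ≠ l → X k l = 0 := by
  have two : ∀ x : Oct K, x = -x → x = 0 := by
    intro x hx
    have h3 : (2 : K) • x = 0 := by
      rw [two_smul]
      nth_rewrite 2 [hx]
      rw [add_neg_cancel]
    have h4 := congrArg (fun z => (2 : K)⁻¹ • z) h3
    simpa only [smul_smul, inv_mul_cancel₀ h2, one_smul, smul_zero] using h4
  constructor
  · have e := congrFun (congrFun h i) i
    rw [sI_apply, if_pos rfl, if_pos rfl, Matrix.neg_apply] at e
    apply two
    rw [← e, two_smul, two_smul]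
    abel
  · intro k l hk hl
    have e := congrFun (congrFun h k) l
    rw [sI_apply, if_neg hk, if_neg hl, sub_zero, sub_zero, Matrix.neg_apply] at e
    exact two _ e

theorem sI_Ei (i j : Fin n) : cjL (refl' i) (refl' i) (Ei j : OM n K) = Ei j := by
  ext k l : 1
  rw [sI_apply, Ei, s_apply]
  by_cases h1 : j = k
  · by_cases h3 : j = l
    · subst h1; subst h3
      by_cases hi : i = j
      · simp [hi, two_smul]
      · simp [hi]
    · subst h1; simp [h3]
  · simp [h1]

theorem sI_R_self {i j : Fin n} (hij : i ≠ j) (v : Oct K) :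
    cjL (refl' i) (refl' i) (R i j v : OM n K) = -R i j v := by
  have hji := hij.symm
  ext k l : 1
  rw [sI_apply, Matrix.neg_apply, R_apply]
  by_cases h1 : i = k
  · subst h1
    by_cases h3 : i = l
    · subst h3; simp [hji]
    · simp [h3, two_smul, hji]
      split_ifs <;> simp
  · by_cases h3 : i = l
    · subst h3; simp [h1, hji, two_smul]
      split_ifs <;> simp
    · simp [h1, h3]

theorem sI_R_other {i j k : Fin n} (hij : i ≠ j) (hik : i ≠ k) (v : Oct K) :
    cjL (refl' i) (refl' i) (R j k v : OM n K) = R j k v := by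
  ext a b : 1
  rw [sI_apply, R_apply]
  by_cases h1 : i = a
  · subst h1
    simp [hij.symm, hik.symm]
  · by_cases h3 : i = b
    · subst h3; simp [hij.symm, hik.symm]
    · simp [h1, h3]

section three

variable {Φ Ψ : OM 3 K →ₗ[K] OM 3 K}

/-- the third index -/
theorem exists_third (i j : Fin 3) (h : i ≠ j) : ∃ k : Fin 3, i ≠ k ∧ j ≠ k := by
  fin_cases i <;> fin_cases j
  · exact absurd rfl h
  · exact ⟨2, by decide, by decide⟩
  · exact ⟨1, by decide, by decide⟩
  · exact ⟨2, by decide, by decide⟩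
  · exact absurd rfl h
  · exact ⟨0, by decide, by decide⟩
  · exact ⟨1, by decide, by decide⟩
  · exact ⟨0, by decide, by decide⟩
  · exact absurd rfl h

theorem exists_others (i : Fin 3) : ∃ j k : Fin 3, i ≠ j ∧ i ≠ k ∧ j ≠ k ∧ ∀ l, l = i ∨ l = j ∨ l = k := by
  fin_cases i
  · exact ⟨1, 2, by decide, by decide, by decide, by decide⟩
  · exact ⟨0, 2, by decide, by decide, by decide, by decide⟩
  · exact ⟨0, 1, by decide, by decide, by decide, by decide⟩

/-- a map commuting with the reflections and `Aut(𝕆)` fixes the `E_i` -/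
theorem fixE (h2 : (2 : K) ≠ 0) (h : IsHermEquiv Φ Ψ)
    (hg : ∀ (g : AutOct K) (X : OM 3 K), Xᴴ = X → Φ (mapL g.1.toLinearMap X) =
      mapL g.1.toLinearMap (Φ X))
    (hs : ∀ (i : Fin 3) (X : OM 3 K), Xᴴ = X → Φ (cjL (refl' i) (refl' i) X) =
      cjL (refl' i) (refl' i) (Φ X)) (i : Fin 3) : Φ (Ei i) = Ei i := by
  have hsc : ∀ S : Matrix (Fin 3) (Fin 3) K, S.IsSymm → ∃ S' : Matrix (Fin 3) (Fin 3) K,
      S'.IsSymm ∧ Φ (sc S) = sc S' := by
    intro S hS
    have key : IsSc (Φ (sc S)) := by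
      intro i j
      refine isScal_of_fixed fun f => ?_
      have e := hg f (sc S) (herm_sc hS)
      rw [mapL_sc (autOct_one f.2)] at e
      exact (congrFun (congrFun e i) j).symm
    obtain ⟨S', hS'⟩ := exists_sc key
    exact ⟨S', of_herm_sc (by rw [← hS']; exact h.hom1.herm _ (herm_sc hS)), hS'⟩
  obtain ⟨j, k, hij, hik, hjk, hall⟩ := exists_others i
  obtain ⟨S, hS, e⟩ := hsc (single i i 1) (isSymm_single i)
  rw [← Ei_eq] at e
  -- S is diagonal
  have hoff : ∀ a b : Fin 3, a ≠ b → S a b = 0 := by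
    intro a b hab
    have e1 := hs a (Ei i) (herm_Ei i)
    rw [sI_Ei] at e1
    have e2 := (sI_plus h2 e1.symm hab).1
    rw [e, sc_apply] at e2
    have e3 := congrArg Oct.a e2
    simpa using e3
  -- idempotent
  have e6 := h.hom1.jm _ _ (herm_Ei i) (herm_Ei i)
  rw [jm_Ei_Ei, map_smul, e, jm, sc_mul_sc, ← two_smul K] at e6
  have e7 := congrArg (fun z => (2 : K)⁻¹ • z) e6
  simp only [smul_smul, inv_mul_cancel₀ h2, one_smul] at e7
  have e8 := sc_injective e7
  have hid : ∀ a : Fin 3, S a a = 0 ∨ S a a = 1 := by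
    intro a
    have e9 := congrFun (congrFun e8 a) a
    rw [Matrix.mul_apply, Finset.sum_eq_single a (fun b _ hb => by rw [hoff a b (Ne.symm hb),
      zero_mul]) (fun h => absurd (Finset.mem_univ a) h)] at e9
    have : S a a * (S a a - 1) = 0 := by linear_combination -e9
    rcases mul_eq_zero.1 this with h | h
    · exact Or.inl h
    · exact Or.inr (sub_eq_zero.1 h)
  -- the images of the `R a b 1`
  have hR : ∀ a b : Fin 3, a ≠ b → ∃ t : K, t ≠ 0 ∧ Φ (R a b 1) = t • R a b 1 := by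
    intro a b hab
    obtain ⟨T, hT, eT⟩ := hsc _ (isSymm_single_add a b)
    rw [← R_one_eq] at eT
    have m1 := hs a (R a b 1) (herm_R a b 1)
    rw [sI_R_self hab, map_neg] at m1
    have m2 := hs b (R a b 1) (herm_R a b 1)
    rw [R_swap a b, sI_R_self hab.symm, map_neg, ← R_swap] at m2
    have z1 := sI_minus h2 m1.symm
    have z2 := sI_minus h2 m2.symm
    have hTe : ∀ c d, T c d = (Φ (R a b 1) c d).a := by
      intro c d
      rw [eT, sc_apply]; simp
    have hTS : T = T a b • (single a b 1 + single b a 1) := by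
      ext c d
      rw [Matrix.smul_apply, Matrix.add_apply, s_apply, s_apply, smul_eq_mul]
      by_cases hc : a = c
      · subst hc
        by_cases hd : b = d
        · subst hd; simp [hab.symm]
        · have h3 : T a d = 0 := by
            by_cases hd' : a = d
            · subst hd'; rw [hTe, z1.1]; simp
            · rw [hTe, z2.2 a d hab.symm hd]; simp
          rw [h3]; simp [hd, hab.symm]
      · by_cases hc' : b = c
        · subst hc'
          by_cases hd : a = d
          · subst hd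
            have : T b a = T a b := hT.apply a b
            rw [this]; simp [hab]
          · have h3 : T b d = 0 := by
              rw [hTe, z1.2 b d hab hd]; simp
            rw [h3]; simp [hd, hab]
        · have h3 : T c d = 0 := by
            by_cases hd : a = d
            · rw [hTe, z2.2 c d hc' (by rw [← hd]; exact hab.symm)]; simp
            · rw [hTe, z1.2 c d hc hd]; simp
          rw [h3]; simp [hc, hc']
    refine ⟨T a b, ?_, ?_⟩
    · intro h0
      rw [h0, zero_smul] at hTS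
      rw [hTS] at eT
      have e9 := h.left _ (herm_R a b (1 : Oct K))
      rw [eT] at e9
      have : (sc (0 : Matrix (Fin 3) (Fin 3) K) : OM 3 K) = 0 := by
        ext i j : 1
        rw [sc_apply, Matrix.zero_apply, zero_smul]; rfl
      rw [this, map_zero] at e9
      have e10 := congrFun (congrFun e9 a) b
      rw [R_same hab] at e10
      have e11 := congrArg Oct.a e10
      simp at e11
    · rw [eT, hTS, R_one_eq, sc_smul]
      congr 3
      rw [Matrix.smul_apply, Matrix.add_apply, s_apply, s_apply]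
      simp [hab.symm]
  -- relation with R i j
  have rel1 : ∀ b : Fin 3, i ≠ b → S i i + S b b = 1 := by
    intro b hib
    obtain ⟨t, ht, et⟩ := hR i b hib
    have e9 := h.hom1.jm _ _ (herm_Ei i) (herm_R i b (1 : Oct K))
    rw [jm_Ei_R hib, et, e, jm_smul_right] at e9
    have e10 := congrArg (fun z => t⁻¹ • z) e9
    simp only [smul_smul, inv_mul_cancel₀ ht, one_smul] at e10
    have e11 := congrFun (congrFun e10 i) b
    rw [R_same hib, jm_comm, jmR_apply, if_pos rfl, if_neg hib.symm, if_pos rfl, if_neg hib,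
      sc_apply, sc_apply] at e11
    have e12 := congrArg Oct.a e11
    simp at e12
    rw [add_comm]; exact e12.symm
  have rel2 : S j j + S k k = 0 := by
    obtain ⟨t, ht, et⟩ := hR j k hjk
    have e9 := h.hom1.jm _ _ (herm_Ei i) (herm_R j k (1 : Oct K))
    have e0 : (jm (Ei i) (R j k 1) : OM 3 K) = 0 := by
      rw [R_one_eq, Ei_eq, jm, sc_mul_sc, sc_mul_sc, ← sc_add, Matrix.mul_add, Matrix.add_mul,
        single_mul_single_of_ne _ _ _ _ hij, single_mul_single_of_ne _ _ _ _ hik,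
        single_mul_single_of_ne _ _ _ _ hij.symm, single_mul_single_of_ne _ _ _ _ hik.symm]
      simp only [add_zero]
      ext i j : 1
      rw [sc_apply, Matrix.zero_apply, zero_smul]; rfl
    rw [e0, map_zero, et, e, jm_smul_right] at e9
    have e10 := congrArg (fun z => t⁻¹ • z) e9
    simp only [smul_smul, inv_mul_cancel₀ ht, one_smul, smul_zero] at e10
    have e11 := congrFun (congrFun e10 j) k
    rw [jm_comm, jmR_apply, if_pos rfl, if_neg hjk.symm, if_pos rfl, if_neg hjk,
      sc_apply, sc_apply] at e11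
    have e12 := congrArg Oct.a e11
    simp at e12
    rw [add_comm]; exact e12.symm
  have hj : S j j = 0 := by
    rcases hid j with h0 | h0
    · exact h0
    · rcases hid k with h1 | h1
      · rw [h0, h1, add_zero] at rel2; exact absurd rel2 one_ne_zero
      · rw [h0, h1] at rel2
        exact absurd (by linear_combination rel2) h2
  have hk : S k k = 0 := by rw [hj, zero_add] at rel2; exact rel2
  have hi : S i i = 1 := by have := rel1 j hij; rw [hj, add_zero] at this; exact this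
  have hS1 : S = single i i 1 := by
    ext a b
    rw [s_apply]
    by_cases hab : a = b
    · subst hab
      rcases hall a with rfl | rfl | rfl
      · simp [hi]
      · simp [hj, hij]
      · simp [hk, hik]
    · rw [hoff a b hab]
      by_cases ha : i = a
      · subst ha; simp [hab]
      · simp [ha]
  rw [e, hS1, Ei_eq]

theorem fixR (h : IsHermHom Φ) (hEi : ∀ i, Φ (Ei i) = Ei i) {i j : Fin 3}
    (hij : i ≠ j) (v : Oct K) : Φ (R i j v) = R i j (Φ (R i j v) i j) := by
  have e1 := h.jm _ _ (herm_Ei j) (herm_R i j v)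
  rw [jm_Ej_R hij, hEi] at e1
  have e2 := h.jm _ _ (herm_Ei i) (herm_R i j v)
  rw [jm_Ei_R hij, hEi] at e2
  conv_lhs => rw [e2]
  rw [← jm_Ei_jm_Ej hij (h.herm _ (herm_R i j v)), ← e1]

theorem fixmul (h : IsHermHom Φ) (hEi : ∀ i, Φ (Ei i) = Ei i) {i j k : Fin 3}
    (hij : i ≠ j) (hik : i ≠ k) (hjk : j ≠ k) (v w : Oct K) :
    Φ (R i k (v * w)) i k = Φ (R i j v) i j * Φ (R j k w) j k := by
  rw [← jm_R_R hij hik hjk, h.jm _ _ (herm_R i j v) (herm_R j k w), fixR h hEi hij,
    fixR h hEi hjk, jm_R_R hij hik hjk, R_same hik, R_same hij, R_same hjk]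

/-- a map commuting with the reflections and `Aut(𝕆)` acts by scalars on the off-diagonal parts -/
theorem scalR (h2 : (2 : K) ≠ 0) (h : IsHermEquiv Φ Ψ)
    (hg : ∀ (g : AutOct K) (X : OM 3 K), Xᴴ = X → Φ (mapL g.1.toLinearMap X) =
      mapL g.1.toLinearMap (Φ X))
    (hs : ∀ (i : Fin 3) (X : OM 3 K), Xᴴ = X → Φ (cjL (refl' i) (refl' i) X) =
      cjL (refl' i) (refl' i) (Φ X)) :
    ∃ c : Fin 3 → Fin 3 → K, (∀ i j, i ≠ j → ∀ v, Φ (R i j v) = c i j • R i j v) ∧
      (∀ i j, i ≠ j → c i j * c i j = 1) ∧ (∀ i j k, i ≠ j → i ≠ k → j ≠ k → c i k = c i j * c j k)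
      ∧ (∀ i j, i ≠ j → c i j = c j i) := by
  have hEi := fixE h2 h hg hs
  have hγ : ∀ i j : Fin 3, i ≠ j → ∃ c lam : K, gH Φ i j 1 = c • (1 : Oct K) ∧
      ∀ x : Oct K, x.a = -x.b → gH Φ i j x = lam • x := by
    intro i j hij
    obtain ⟨⟨c, hc⟩, lam, hlam⟩ := comm_autOct (gH Φ i j) (by
      intro f x
      have e := hg f (R i j x) (herm_R i j x)
      have e1 : ∀ y : Oct K, mapL f.1.toLinearMap (R i j y : OM 3 K) = R i j (f.1 y) := by
        intro y
        ext a b : 1
        rw [mapL_apply, R_apply, R_apply, map_add]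
        congr 1
        · split_ifs
          · rfl
          · exact map_zero _
        · split_ifs
          · exact autOct_star f.2 y
          · exact map_zero _
      rw [e1, fixR h.hom1 hEi hij x, e1] at e
      have e2 := congrFun (congrFun e i) j
      rw [R_same hij] at e2
      exact e2)
    exact ⟨c, lam, hc, hlam⟩
  choose! c lam hc hlam using hγ
  have hap : ∀ i j : Fin 3, i ≠ j → ∀ v, Φ (R i j v) i j = gH Φ i j v := fun i j _ v => rfl
  have m1 : ∀ i j k : Fin 3, i ≠ j → i ≠ k → j ≠ k → c i k = c i j * c j k := by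
    intro i j k hij hik hjk
    have e := fixmul h.hom1 hEi hij hik hjk 1 1
    rw [mul_one, hap i k hik, hap i j hij, hap j k hjk, hc i k hik, hc i j hij, hc j k hjk] at e
    have e1 := congrArg Oct.a e
    simp at e1
    rw [e1, mul_comm]
  have m2 : ∀ i j k : Fin 3, i ≠ j → i ≠ k → j ≠ k → c i k = lam i j * lam j k := by
    intro i j k hij hik hjk
    have e := fixmul h.hom1 hEi hij hik hjk ⟨1,-1,0,0,0,0,0,0⟩ ⟨1,-1,0,0,0,0,0,0⟩
    rw [h_mul_h, hap i k hik, hap i j hij, hap j k hjk, hc i k hik, hlam i j hij _ (by simp),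
      hlam j k hjk _ (by simp)] at e
    have e1 := congrArg Oct.a e
    simpa using e1
  have m3 : ∀ i j k : Fin 3, i ≠ j → i ≠ k → j ≠ k → lam i k = lam i j * lam j k := by
    intro i j k hij hik hjk
    have e := fixmul h.hom1 hEi hij hik hjk ⟨1,-1,0,0,0,0,0,0⟩ ⟨0,0,1,0,0,0,0,0⟩
    have e0 : (⟨1,-1,0,0,0,0,0,0⟩ : Oct K) * ⟨0,0,1,0,0,0,0,0⟩ = ⟨0,0,1,0,0,0,0,0⟩ := by
      ext <;> simp
    rw [e0, hap i k hik, hap i j hij, hap j k hjk, hlam i k hik _ (by simp),
      hlam i j hij _ (by simp), hlam j k hjk _ (by simp)] at e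
    have e1 := congrArg Oct.u1 e
    simpa using e1
  have hcl : ∀ i k : Fin 3, i ≠ k → c i k = lam i k := by
    intro i k hik
    obtain ⟨j, hij, hkj⟩ := exists_third i k hik
    rw [m2 i j k hij hik hkj.symm, m3 i j k hij hik hkj.symm]
  have hall : ∀ i j, i ≠ j → ∀ v, Φ (R i j v) = c i j • R i j v := by
    intro i j hij v
    rw [fixR h.hom1 hEi hij, ← R_smul]
    congr 1
    rw [hap i j hij]
    obtain ⟨d, v', hv', rfl⟩ := oct_dec h2 v
    rw [map_add, map_smul, hc i j hij, hlam i j hij v' hv', hcl i j hij, smul_add, smul_comm]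
  refine ⟨c, hall, ?_, m1, ?_⟩
  · intro i j hij
    have e := h.hom1.jm _ _ (herm_R i j (1 : Oct K)) (herm_R i j (1 : Oct K))
    rw [jm_R_same hij, map_smul, map_add, hEi, hEi, hall i j hij, jm_smul_left, jm_smul_right,
      jm_R_same hij, smul_smul, smul_smul] at e
    have e1 := congrArg Oct.a (congrFun (congrFun e i) i)
    rw [Matrix.smul_apply, Matrix.smul_apply, Matrix.add_apply, Ei, Ei, s_apply, s_apply] at e1
    simp [bet, hij.symm] at e1
    have : (2 : K) * (c i j * c i j) = 2 * 1 := by linear_combination -e1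
    exact mul_left_cancel₀ h2 this
  · intro i j hij
    have e1 := hall i j hij 1
    have e2 := hall j i hij.symm 1
    have e3 : (R j i 1 : OM 3 K) = R i j 1 := by rw [R_swap, star_one_oct]
    rw [e3, e1] at e2
    have e4 := congrArg Oct.a (congrFun (congrFun e2 i) j)
    rw [Matrix.smul_apply, Matrix.smul_apply, R_same hij] at e4
    simpa using e4

end three

end Pool.Agent.W_MP_93b5ed_al

end
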