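import Pool.Agent.W_MP_93b5ed_al.Main

/-!
# The Hermitian case for `n = 1, 2`
-/

noncomputable section

namespace Pool.Agent.W_MP_93b5ed_al

open Matrix

variable {K : Type*} [Field K]

/-- `n = 1` -/
theorem herm1_not_iso (h2 : (2 : K) ≠ 0) : IsEmpty (AutHerm 1 K ≃* AutOct K × SO 1 K) := by
  refine ⟨fun e => ?_⟩
  have triv : ∀ φ : AutHerm 1 K, φ = 1 := by
    intro φ
    have hΦ := isHermEquiv_extH h2 φ.2
    have sc1 : ∀ X : OM 1 K, Xᴴ = X → ∃ c : K, X = c • sc (1 : Matrix (Fin 1) (Fin 1) K) := by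
      intro X hX
      obtain ⟨c, hc⟩ := herm_diag h2 hX 0
      refine ⟨c, ?_⟩
      ext i j : 1
      rw [Subsingleton.elim i 0, Subsingleton.elim j 0, hc, Matrix.smul_apply, sc_apply,
        one_apply_eq, one_smul]
    have hs : (sc (1 : Matrix (Fin 1) (Fin 1) K))ᴴ = sc 1 := herm_sc isSymm_one'
    obtain ⟨c, hc⟩ := sc1 _ (hΦ.hom1.herm _ hs)
    have e1 := hΦ.hom1.jm _ _ hs hs
    have e2 : jm (sc (1 : Matrix (Fin 1) (Fin 1) K)) (sc 1) = (2 : K) • sc 1 := by
      rw [jm, sc_one_mul, two_smul]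
    rw [e2, map_smul, hc, jm_smul_right, jm_smul_left, e2, smul_smul, smul_smul, smul_smul] at e1
    have e3 := congrArg Oct.a (congrFun (congrFun e1 0) 0)
    rw [Matrix.smul_apply, Matrix.smul_apply, sc_apply, one_apply_eq, one_smul] at e3
    simp only [Oct.smul_a, Oct.one_a, mul_one] at e3
    have hc0 : c ≠ 0 := by
      intro h0
      rw [h0, zero_smul] at hc
      have e4 := hΦ.left _ hs
      rw [hc, map_zero] at e4
      have e5 := congrArg Oct.a (congrFun (congrFun e4 0) 0)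
      rw [sc_apply, one_apply_eq, one_smul] at e5
      simp at e5
    have hc1 : c = 1 := by
      have : (2 * c) * (c - 1) = 0 := by linear_combination -e3
      rcases mul_eq_zero.1 this with h | h
      · exact absurd h (mul_ne_zero h2 hc0)
      · exact sub_eq_zero.1 h
    apply Subtype.ext
    apply LinearEquiv.ext
    intro X
    apply Subtype.ext
    obtain ⟨d, hd⟩ := sc1 X.1 X.2
    have e6 : (φ.1 X).1 = extH φ.1 X.1 := (extH_apply h2 φ.1 X.2).symm
    rw [e6, hd, map_smul, hc, hc1, one_smul, ← hd]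
    rfl
  have e1 : e.symm (A12, 1) = e.symm 1 := by rw [triv (e.symm (A12, 1)), triv (e.symm 1)]
  have e2 := e.symm.injective e1
  exact A12_ne (congrArg Prod.fst e2)

/-- central automorphisms for `n = 2` are involutions -/
theorem center_herm2 (h2 : (2 : K) ≠ 0) (φ : AutHerm 2 K) (hφ : ∀ ψ : AutHerm 2 K, φ * ψ = ψ * φ) :
    φ * φ = 1 := by
  have hΦ := isHermEquiv_extH h2 φ.2
  set Φ := extH φ.1 with hΦd
  have hΦa : ∀ X : Herm 2 K, Φ X.1 = (φ.1 X).1 := fun X => extH_apply h2 φ.1 X.2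
  -- commutation with the action
  have hc : ∀ (g : AutOct K) (P : GO 2 K) (X : OM 2 K), Xᴴ = X →
      Φ (actL g.1 P.1 X) = actL g.1 P.1 (Φ X) := by
    intro g P X hX
    have e := hφ (actHom herm_good (g, P))
    have e1 := congrArg (fun ψ : AutHerm 2 K => (ψ.1 ⟨X, hX⟩).1) e
    have e2 : (φ.1 ((actHom herm_good (g, P)).1 ⟨X, hX⟩)).1 =
      ((actHom herm_good (g, P)).1 (φ.1 ⟨X, hX⟩)).1 := e1
    rw [← hΦa] at e2
    have e3 : ((actHom (herm_good (n := 2) (K := K)) (g, P)).1 (φ.1 ⟨X, hX⟩)).1 =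
      actL g.1 P.1 (φ.1 ⟨X, hX⟩).1 := rfl
    rw [e3, ← hΦa] at e2
    exact e2
  have hcg : ∀ (g : AutOct K) (X : OM 2 K), Xᴴ = X → Φ (mapL g.1.toLinearMap X) =
      mapL g.1.toLinearMap (Φ X) := by
    intro g X hX
    have e : ∀ Y : OM 2 K, actL g.1 (1 : GO 2 K).1 Y = mapL g.1.toLinearMap Y := by
      intro Y
      show cjL (1 : GL (Fin 2) K).1 ((1 : GL (Fin 2) K)⁻¹).1 (mapL _ Y) = _
      rw [inv_one, Units.val_one, cjL_one]
    have e1 := hc g 1 X hX
    rw [e, e] at e1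
    exact e1
  have hcP : ∀ (P : GO 2 K) (X : OM 2 K), Xᴴ = X → Φ (cjL P.1.1 (P.1⁻¹).1 X) =
      cjL P.1.1 (P.1⁻¹).1 (Φ X) := by
    intro P X hX
    have e : ∀ Y : OM 2 K, actL (1 : AutOct K).1 P.1 Y = cjL P.1.1 (P.1⁻¹).1 Y := fun _ => rfl
    have e1 := hc 1 P X hX
    rw [e, e] at e1
    exact e1
  -- Φ maps scalar symmetric matrices to scalar symmetric matrices
  have hsc : ∀ S : Matrix (Fin 2) (Fin 2) K, S.IsSymm → ∃ S' : Matrix (Fin 2) (Fin 2) K,
      S'.IsSymm ∧ Φ (sc S) = sc S' := by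
    intro S hS
    have key : IsSc (Φ (sc S)) := by
      intro i j
      refine isScal_of_fixed fun f => ?_
      have e := hcg f (sc S) (herm_sc hS)
      rw [mapL_sc (autOct_one f.2)] at e
      exact (congrFun (congrFun e i) j).symm
    obtain ⟨S', hS'⟩ := exists_sc key
    exact ⟨S', of_herm_sc (by rw [← hS']; exact hΦ.hom1.herm _ (herm_sc hS)), hS'⟩
  -- the image of E₀
  have hE : ∀ i : Fin 2, Φ (Ei i) = Ei 0 ∨ Φ (Ei i) = Ei 1 ∨ Φ (Ei i) = 0 ∨
      Φ (Ei i) = Ei 0 + Ei 1 := by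
    intro i
    obtain ⟨S, hS, e⟩ := hsc (single i i 1) (isSymm_single i)
    rw [← Ei_eq] at e
    have e1 := hcP (reflGO 0) (Ei i) (herm_Ei i)
    have e2 : cjL (reflGO 0 : GO 2 K).1.1 ((reflGO 0 : GO 2 K).1⁻¹).1 (Ei i : OM 2 K) = Ei i := by
      show sc (refl' 0 : Matrix (Fin 2) (Fin 2) K) * Ei i *
        sc (refl' 0 : Matrix (Fin 2) (Fin 2) K) = Ei i
      rw [Ei_eq, sc_mul_sc, sc_mul_sc]
      congr 1
      ext a b
      rw [mul_refl'_apply, refl'_mul_apply, s_apply]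
      fin_cases i <;> fin_cases a <;> fin_cases b <;> simp <;> ring
    rw [e2, e] at e1
    have e3 : cjL (reflGO 0 : GO 2 K).1.1 ((reflGO 0 : GO 2 K).1⁻¹).1 (sc S : OM 2 K) =
        sc (refl' 0 * S * refl' 0) := by
      show sc (refl' 0 : Matrix (Fin 2) (Fin 2) K) * sc S *
        sc (refl' 0 : Matrix (Fin 2) (Fin 2) K) = _
      rw [sc_mul_sc, sc_mul_sc]
    rw [e3] at e1
    have e4 := sc_injective e1
    have s01 : S 0 1 = 0 := by
      have e5 := congrFun (congrFun e4 0) 1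
      rw [mul_refl'_apply, refl'_mul_apply] at e5
      simp at e5
      have : 2 * S 0 1 = 0 := by linear_combination e5
      exact (mul_eq_zero.1 this).resolve_left h2
    have s10 : S 1 0 = 0 := by rw [← s01]; exact hS.apply 0 1
    -- idempotent
    have e6 := hΦ.hom1.jm _ _ (herm_Ei i) (herm_Ei i)
    rw [jm_Ei_Ei, map_smul, e, jm, sc_mul_sc, ← two_smul K] at e6
    have e7 := congrArg (fun z => (2 : K)⁻¹ • z) e6
    simp only [smul_smul, inv_mul_cancel₀ h2, one_smul] at e7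
    have e8 := sc_injective e7
    have i0 := congrFun (congrFun e8 0) 0
    have i1 := congrFun (congrFun e8 1) 1
    rw [Matrix.mul_apply, Fin.sum_univ_two] at i0 i1
    rw [s01, zero_mul, add_zero] at i0
    rw [s10, zero_mul, zero_add] at i1
    have j0 : S 0 0 = 0 ∨ S 0 0 = 1 := by
      have : S 0 0 * (S 0 0 - 1) = 0 := by linear_combination -i0
      rcases mul_eq_zero.1 this with h | h
      · exact Or.inl h
      · exact Or.inr (sub_eq_zero.1 h)
    have j1 : S 1 1 = 0 ∨ S 1 1 = 1 := by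
      have : S 1 1 * (S 1 1 - 1) = 0 := by linear_combination -i1
      rcases mul_eq_zero.1 this with h | h
      · exact Or.inl h
      · exact Or.inr (sub_eq_zero.1 h)
    have form : S = S 0 0 • single 0 0 (1 : K) + S 1 1 • single 1 1 (1 : K) := by
      ext a b
      rw [Matrix.add_apply, Matrix.smul_apply, Matrix.smul_apply, s_apply, s_apply]
      fin_cases a <;> fin_cases b <;> simp [s01, s10]
    rw [e, form, sc_add, sc_smul, sc_smul, ← Ei_eq, ← Ei_eq]
    rcases j0 with j0 | j0 <;> rcases j1 with j1 | j1 <;> rw [j0, j1]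
    · right; right; left
      rw [zero_smul, zero_smul, add_zero]
    · right; left
      rw [zero_smul, one_smul, zero_add]
    · left
      rw [zero_smul, one_smul, add_zero]
    · right; right; right
      rw [one_smul, one_smul]
  have hEne : ∀ i : Fin 2, (Ei i : OM 2 K) ≠ 0 := by
    intro i h0
    have := congrArg Oct.a (congrFun (congrFun h0 i) i)
    simp [Ei, s_apply] at this
  have h01 : (0 : Fin 2) ≠ 1 := by decide
  -- orthogonality
  have hort : jm (Φ (Ei 0)) (Φ (Ei 1)) = 0 := by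
    rw [← hΦ.hom1.jm _ _ (herm_Ei 0) (herm_Ei 1), jm_Ei_Ej h01, map_zero]
  have hne : ∀ i : Fin 2, Φ (Ei i) ≠ 0 := by
    intro i h0
    apply hEne i
    rw [← hΦ.left _ (herm_Ei i), h0, map_zero]
  have hjE : ∀ Y : OM 2 K, Yᴴ = Y → jm (Ei 0 + Ei 1) Y = (2 : K) • Y := by
    intro Y _
    rw [jm_add_left]
    ext k l : 1
    rw [Matrix.add_apply, jmE_apply, jmE_apply, Matrix.smul_apply, two_smul]
    fin_cases k <;> fin_cases l <;> simp
  have two_cancel : ∀ Y : OM 2 K, (2 : K) • Y = 0 → Y = 0 := by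
    intro Y hY
    have := congrArg (fun z => (2 : K)⁻¹ • z) hY
    simpa only [smul_smul, inv_mul_cancel₀ h2, one_smul, smul_zero] using this
  have hE' : (Φ (Ei 0) = Ei 0 ∧ Φ (Ei 1) = Ei 1) ∨ (Φ (Ei 0) = Ei 1 ∧ Φ (Ei 1) = Ei 0) := by
    rcases hE 0 with a | a | a | a
    · rcases hE 1 with b | b | b | b
      · rw [a, b, jm_Ei_Ei] at hort
        exact absurd (two_cancel _ hort) (hEne 0)
      · exact Or.inl ⟨a, b⟩
      · exact absurd b (hne 1)
      · rw [a, b, jm_comm, hjE _ (herm_Ei 0)] at hort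
        exact absurd (two_cancel _ hort) (hEne 0)
    · rcases hE 1 with b | b | b | b
      · exact Or.inr ⟨a, b⟩
      · rw [a, b, jm_Ei_Ei] at hort
        exact absurd (two_cancel _ hort) (hEne 1)
      · exact absurd b (hne 1)
      · rw [a, b, jm_comm, hjE _ (herm_Ei 1)] at hort
        exact absurd (two_cancel _ hort) (hEne 1)
    · exact absurd a (hne 0)
    · rw [a, hjE _ (hΦ.hom1.herm _ (herm_Ei 1))] at hort
      exact absurd (two_cancel _ hort) (hne 1)
  have hEsq : ∀ i : Fin 2, Φ (Φ (Ei i)) = Ei i := by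
    intro i
    rcases hE' with ⟨a, b⟩ | ⟨a, b⟩
    · fin_cases i
      · show Φ (Φ (Ei 0)) = Ei 0
        rw [a, a]
      · show Φ (Φ (Ei 1)) = Ei 1
        rw [b, b]
    · fin_cases i
      · show Φ (Φ (Ei 0)) = Ei 0
        rw [a, b]
      · show Φ (Φ (Ei 1)) = Ei 1
        rw [b, a]
  -- the off-diagonal part
  have hoff : ∀ v : Oct K, Φ (R 0 1 v) = R 0 1 (Φ (R 0 1 v) 0 1) := by
    intro v
    have hY := hΦ.hom1.herm _ (herm_R 0 1 v)
    have e1 := hΦ.hom1.jm _ _ (herm_Ei 0) (herm_R 0 1 v)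
    rw [jm_Ei_R h01] at e1
    have e2 := hΦ.hom1.jm _ _ (herm_Ei 1) (herm_R 0 1 v)
    rw [jm_Ej_R h01] at e2
    have e3 : Φ (R 0 1 v) = jm (Ei 0) (jm (Ei 1) (Φ (R 0 1 v))) := by
      rcases hE' with ⟨a, b⟩ | ⟨a, b⟩
      · rw [a] at e1
        rw [b] at e2
        rw [← e2, ← e1]
      · rw [a] at e1
        rw [b] at e2
        rw [← e1, ← e2]
    conv_lhs => rw [e3]
    rw [jm_Ei_jm_Ej h01 hY]
  set γ : Oct K →ₗ[K] Oct K := gH Φ 0 1 with hγ
  have hγa : ∀ v, Φ (R 0 1 v) = R 0 1 (γ v) := fun v => hoff v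
  have hγc : ∀ (f : AutOct K) (x : Oct K), γ (f.1 x) = f.1 (γ x) := by
    intro f x
    have e := hcg f (R 0 1 x) (herm_R 0 1 x)
    have e1 : ∀ y : Oct K, mapL f.1.toLinearMap (R 0 1 y : OM 2 K) = R 0 1 (f.1 y) := by
      intro y
      ext i j : 1
      rw [mapL_apply, R_apply, R_apply]
      fin_cases i <;> fin_cases j
      · simp
      · simp
      · simp
        exact autOct_star f.2 y
      · simp
    rw [e1, hγa, hγa, e1] at e
    have e2 := congrFun (congrFun e 0) 1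
    rw [R_same h01, R_same h01] at e2
    exact e2
  -- norm preservation
  have hone : Φ (Ei 0 + Ei 1) = Ei 0 + Ei 1 := by
    rw [map_add]
    rcases hE' with ⟨a, b⟩ | ⟨a, b⟩
    · rw [a, b]
    · rw [a, b, add_comm]
  have hnorm : ∀ v w : Oct K, bet (γ v) (γ w) = bet v w := by
    intro v w
    have e := hΦ.hom1.jm _ _ (herm_R 0 1 v) (herm_R 0 1 w)
    rw [jm_R_same h01, map_smul, hone, hγa, hγa, jm_R_same h01] at e
    have e1 := congrArg Oct.a (congrFun (congrFun e 0) 0)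
    rw [Matrix.smul_apply, Matrix.smul_apply, Matrix.add_apply] at e1
    simp [Ei, s_apply] at e1
    exact e1.symm
  obtain ⟨⟨c, hc1⟩, lam, hlam⟩ := comm_autOct γ hγc
  have hcc : c * c = 1 := by
    have e := hnorm 1 1
    rw [hc1] at e
    simp [bet] at e
    have : (2 : K) * (c * c) = 2 * 1 := by linear_combination e
    exact mul_left_cancel₀ h2 this
  have hll : lam * lam = 1 := by
    have e := hnorm ⟨1,-1,0,0,0,0,0,0⟩ ⟨1,-1,0,0,0,0,0,0⟩
    rw [hlam _ (by simp)] at e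
    simp [bet] at e
    have : (2 : K) * (lam * lam) = 2 * 1 := by linear_combination -e
    exact mul_left_cancel₀ h2 this
  have hγγ : ∀ v, γ (γ v) = v := by
    intro v
    obtain ⟨d, v', hv', rfl⟩ := oct_dec h2 v
    rw [map_add, map_smul, hc1, hlam v' hv', map_add, map_smul, map_smul, hc1, map_smul,
      hlam v' hv', smul_smul, smul_smul, smul_smul, hll, one_smul]
    congr 2
    rw [mul_assoc, hcc, mul_one]
  -- conclusion
  have hsq : ∀ X : OM 2 K, Xᴴ = X → Φ (Φ X) = X := by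
    intro X hX
    obtain ⟨a, ha⟩ := herm_diag h2 hX 0
    obtain ⟨b, hb⟩ := herm_diag h2 hX 1
    have dec : X = a • Ei 0 + b • Ei 1 + R 0 1 (X 0 1) := by
      ext i j : 1
      rw [Matrix.add_apply, Matrix.add_apply, Matrix.smul_apply, Matrix.smul_apply, R_apply, Ei, Ei,
        s_apply, s_apply]
      fin_cases i <;> fin_cases j
      · simp [ha]
      · simp
      · simp
        exact (herm_apply hX 1 0).symm
      · simp [hb]
    rw [dec]
    simp only [map_add, map_smul]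
    rw [hEsq, hEsq, hγa, hγa, hγγ]
  apply Subtype.ext
  apply LinearEquiv.ext
  intro X
  apply Subtype.ext
  show (φ.1 (φ.1 X)).1 = X.1
  rw [← hΦa, ← hΦa, hsq X.1 X.2]

/-- `n = 2` -/
theorem herm2_not_iso (h2 : (2 : K) ≠ 0) : IsEmpty (AutHerm 2 K ≃* AutOct K × SO 2 K) := by
  refine ⟨fun e => ?_⟩
  set z := e.symm (1, JSO) with hz
  have hez : e z = (1, JSO) := e.apply_symm_apply _
  have hc : ∀ ψ : AutHerm 2 K, z * ψ = ψ * z := by
    intro ψ
    apply e.injective
    rw [map_mul, map_mul, hez]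
    apply Prod.ext
    · show 1 * (e ψ).1 = (e ψ).1 * 1
      rw [one_mul, mul_one]
    · exact JSO_central _
  have e1 := center_herm2 h2 z hc
  have e2 := congrArg e e1
  rw [map_mul, hez, map_one] at e2
  exact JSO_sq h2 (congrArg Prod.snd e2)

end Pool.Agent.W_MP_93b5ed_al
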