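import Pool.Agent.W_MP_93b5ed_al.Herm3b
import Pool.Agent.W_MP_93b5ed_al.HermSmall

/-!
# The Hermitian case for `n = 3`: not `Aut(𝕆) × SO_3`
-/

noncomputable section

namespace Pool.Agent.W_MP_93b5ed_al

open Matrix

variable {K : Type*} [Field K]

theorem swap_entry {n : ℕ} (i j k m : Fin n) :
    (swap K i j) k m = if Equiv.swap i j k = m then 1 else 0 := by
  rw [swap, Equiv.Perm.permMatrix, PEquiv.toMatrix_apply]
  simp [Equiv.toPEquiv_apply, eq_comm]

theorem cj_swap {n : ℕ} (i j : Fin n) (X : OM n K) (k l : Fin n) :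
    cjL (swap K i j) (swap K i j) X k l = X (Equiv.swap i j k) (Equiv.swap i j l) := by
  rw [cjL_apply, mul_sc_apply, Finset.sum_eq_single (Equiv.swap i j l)]
  · rw [swap_entry, sc_mul_apply, Finset.sum_eq_single (Equiv.swap i j k)]
    · rw [swap_entry]; simp
    · intro m _ hm
      rw [swap_entry, if_neg (Ne.symm hm), zero_smul]
    · intro h; exact absurd (Finset.mem_univ _) h
  · intro m _ hm
    rw [swap_entry, if_neg, zero_smul]
    intro h
    apply hm
    rw [← h]; simp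
  · intro h; exact absurd (Finset.mem_univ _) h

theorem cj_swap_R {n : ℕ} (i j a b : Fin n) (v : Oct K) :
    cjL (swap K i j) (swap K i j) (R a b v : OM n K) = R (Equiv.swap i j a) (Equiv.swap i j b) v := by
  have key : ∀ c d : Fin n, (c = Equiv.swap i j d) ↔ (Equiv.swap i j c = d) := by
    intro c d
    constructor
    · rintro rfl; simp
    · rintro rfl; simp
  ext k l : 1
  rw [cj_swap, R_apply, R_apply]
  simp only [key]

theorem cj_swap_E {n : ℕ} (i j a : Fin n) :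
    cjL (swap K i j) (swap K i j) (Ei a : OM n K) = Ei (Equiv.swap i j a) := by
  have key : ∀ c d : Fin n, (c = Equiv.swap i j d) ↔ (Equiv.swap i j c = d) := by
    intro c d
    constructor
    · rintro rfl; simp
    · rintro rfl; simp
  ext k l : 1
  rw [cj_swap, Ei, Ei, s_apply, s_apply]
  simp only [key]

theorem dec3 (h2 : (2 : K) ≠ 0) {X : OM 3 K} (hX : Xᴴ = X) :
    ∃ (a b c : K) (x y z : Oct K), X = a • Ei 0 + b • Ei 1 + c • Ei 2 + R 0 1 x + R 0 2 y + R 1 2 z := by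
  obtain ⟨a, b, c, x, y, z, rfl⟩ := exists_H3 h2 hX
  refine ⟨a, b, c, x, y, z, ?_⟩
  ext i j : 1
  simp only [Matrix.add_apply, Matrix.smul_apply, R_apply, Ei, s_apply]
  fin_cases i <;> fin_cases j <;> simp [H3]

/-- the automorphism given by the first reflection -/
def s0 : AutHerm 3 K := actHom herm_good ((1 : AutOct K), (reflGO 0 : GO 3 K))

theorem ac_s (h2 : (2 : K) ≠ 0) (i : Fin 3) {X : OM 3 K} (hX : Xᴴ = X) :
    ac (actHom herm_good ((1 : AutOct K), (reflGO i : GO 3 K))) X = cjL (refl' i) (refl' i) X :=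
  ac_P h2 (reflGO i) hX

theorem ac_T (h2 : (2 : K) ≠ 0) (i j : Fin 3) {X : OM 3 K} (hX : Xᴴ = X) :
    ac (actHom herm_good ((1 : AutOct K), (swapGO i j : GO 3 K))) X =
      cjL (swap K i j) (swap K i j) X :=
  ac_P h2 (swapGO i j) hX

theorem refl_comm (i : Fin 3) : (reflGO i : GO 3 K) * reflGO 0 = reflGO 0 * reflGO i := by
  apply Subtype.ext
  apply Units.ext
  show (refl' i : Matrix (Fin 3) (Fin 3) K) * refl' 0 = refl' 0 * refl' i
  ext k l
  rw [refl'_mul_apply, refl'_mul_apply]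
  by_cases hkl : k = l
  · subst hkl
    simp only [refl', Matrix.sub_apply, Matrix.smul_apply, one_apply_eq, s_apply, and_self,
      smul_eq_mul]
    split_ifs <;> ring
  · have h1 : ∀ j : Fin 3, (refl' j : Matrix (Fin 3) (Fin 3) K) k l = 0 := by
      intro j
      rw [refl', Matrix.sub_apply, Matrix.smul_apply, one_apply_ne hkl, s_apply, if_neg, smul_zero,
        sub_zero]
      rintro ⟨rfl, rfl⟩
      exact hkl rfl
    rw [h1, h1]
    simp

theorem swap_refl_comm : (swapGO 1 2 : GO 3 K) * reflGO 0 = reflGO 0 * swapGO 1 2 := by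
  apply Subtype.ext
  apply Units.ext
  show swap K 1 2 * (refl' 0 : Matrix (Fin 3) (Fin 3) K) = refl' 0 * swap K 1 2
  ext k l
  rw [refl'_mul_apply, mul_refl'_apply, swap_entry]
  congr 1
  fin_cases k <;> fin_cases l <;> simp (decide := true)

/-- the double centralizer of `s0` -/
theorem double_cent (h2 : (2 : K) ≠ 0) (a : AutHerm 3 K)
    (ha : ∀ x : AutHerm 3 K, x * s0 = s0 * x → a * x = x * a) : a = 1 ∨ a = s0 := by
  have h01 : (0 : Fin 3) ≠ 1 := by decide
  have h02 : (0 : Fin 3) ≠ 2 := by decide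
  have h12 : (1 : Fin 3) ≠ 2 := by decide
  have hE := ac_equiv h2 a
  have hg : ∀ (g : AutOct K) (X : OM 3 K), Xᴴ = X → ac a (mapL g.1.toLinearMap X) =
      mapL g.1.toLinearMap (ac a X) := by
    intro g X hX
    have e := ha (actHom herm_good (g, (1 : GO 3 K))) (by
      rw [s0, ← map_mul, ← map_mul]
      congr 1
      simp)
    have e1 := congrArg (fun φ => ac φ X) e
    rw [ac_mul h2 _ _ hX, ac_mul h2 _ _ hX, ac_g h2 g hX, ac_g h2 g (ac_herm h2 a hX)] at e1
    exact e1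
  have hs : ∀ (i : Fin 3) (X : OM 3 K), Xᴴ = X → ac a (cjL (refl' i) (refl' i) X) =
      cjL (refl' i) (refl' i) (ac a X) := by
    intro i X hX
    have e := ha (actHom herm_good ((1 : AutOct K), (reflGO i : GO 3 K))) (by
      rw [s0, ← map_mul, ← map_mul]
      congr 1
      apply Prod.ext
      · rfl
      · exact refl_comm i)
    have e1 := congrArg (fun φ => ac φ X) e
    rw [ac_mul h2 _ _ hX, ac_mul h2 _ _ hX, ac_s h2 i hX, ac_s h2 i (ac_herm h2 a hX)] at e1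
    exact e1
  have hT : ∀ X : OM 3 K, Xᴴ = X → ac a (cjL (swap K 1 2) (swap K 1 2) X) =
      cjL (swap K 1 2) (swap K 1 2) (ac a X) := by
    intro X hX
    have e := ha (actHom herm_good ((1 : AutOct K), (swapGO 1 2 : GO 3 K))) (by
      rw [s0, ← map_mul, ← map_mul]
      congr 1
      apply Prod.ext
      · rfl
      · exact swap_refl_comm)
    have e1 := congrArg (fun φ => ac φ X) e
    rw [ac_mul h2 _ _ hX, ac_mul h2 _ _ hX, ac_T h2 1 2 hX, ac_T h2 1 2 (ac_herm h2 a hX)] at e1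
    exact e1
  have hEi := fixE h2 hE hg hs
  obtain ⟨c, hc1, hc2, hc3, hc4⟩ := scalR h2 hE hg hs
  have c02 : c 0 2 = c 0 1 := by
    have e := hT (R 0 1 1) (herm_R 0 1 1)
    have e1 : cjL (swap K 1 2) (swap K 1 2) (R 0 1 1 : OM 3 K) = R 0 2 1 := by
      rw [cj_swap_R]
      congr 1
    rw [e1, hc1 0 2 h02, hc1 0 1 h01, map_smul, e1] at e
    have e2 := congrArg Oct.a (congrFun (congrFun e 0) 2)
    rw [Matrix.smul_apply, Matrix.smul_apply, R_same h02] at e2
    simpa using e2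
  have c12 : c 1 2 = 1 := by
    rw [hc3 1 0 2 h01.symm h12 h02, c02, ← hc4 0 1 h01, hc2 0 1 h01]
  have hX : ∀ (x1 x2 x3 : K) (x y z : Oct K),
      ac a (x1 • Ei 0 + x2 • Ei 1 + x3 • Ei 2 + R 0 1 x + R 0 2 y + R 1 2 z) =
      x1 • Ei 0 + x2 • Ei 1 + x3 • Ei 2 + c 0 1 • R 0 1 x + c 0 1 • R 0 2 y + R 1 2 z := by
    intro x1 x2 x3 x y z
    simp only [map_add, map_smul, hEi]
    rw [hc1 0 1 h01, hc1 0 2 h02, hc1 1 2 h12, c02, c12, one_smul]
  have hpm : c 0 1 = 1 ∨ c 0 1 = -1 := by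
    have e := hc2 0 1 h01
    have : (c 0 1 - 1) * (c 0 1 + 1) = 0 := by linear_combination e
    rcases mul_eq_zero.1 this with h | h
    · exact Or.inl (sub_eq_zero.1 h)
    · exact Or.inr (eq_neg_of_add_eq_zero_left h)
  rcases hpm with hp | hp
  · left
    apply ac_ext h2
    intro X hXh
    obtain ⟨x1, x2, x3, x, y, z, rfl⟩ := dec3 h2 hXh
    rw [hX, hp, one_smul, one_smul, ac_one h2 hXh]
  · right
    apply ac_ext h2
    intro X hXh
    obtain ⟨x1, x2, x3, x, y, z, rfl⟩ := dec3 h2 hXh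
    rw [hX, hp, s0, ac_s h2 0 hXh]
    simp only [map_add, map_smul, sI_Ei]
    rw [sI_R_self h01, sI_R_self h02, sI_R_other h01 h02]
    simp

/-- automorphisms commuting with `s0` fix `E₀` -/
theorem fix_E0 (h2 : (2 : K) ≠ 0) (y : AutHerm 3 K) (hy : y * s0 = s0 * y) :
    ac y (Ei 0) = Ei 0 := by
  have h01 : (0 : Fin 3) ≠ 1 := by decide
  have h02 : (0 : Fin 3) ≠ 2 := by decide
  have h12 : (1 : Fin 3) ≠ 2 := by decide
  have hcom : ∀ X : OM 3 K, Xᴴ = X → ac y (cjL (refl' 0) (refl' 0) X) =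
      cjL (refl' 0) (refl' 0) (ac y X) := by
    intro X hX
    have e1 := congrArg (fun φ => ac φ X) hy
    rw [ac_mul h2 _ _ hX, ac_mul h2 _ _ hX, s0, ac_s h2 0 hX, ac_s h2 0 (ac_herm h2 y hX)] at e1
    exact e1
  have hE := ac_equiv h2 y
  set f := ac y (Ei 0) with hf
  have hfh : fᴴ = f := ac_herm h2 y (herm_Ei 0)
  -- off-diagonal entries with 0 vanish
  have hs : cjL (refl' 0) (refl' 0) f = f := by
    rw [hf, ← hcom _ (herm_Ei 0), sI_Ei]
  -- minus eigenvectors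
  have hm : ∀ q : OM 3 K, qᴴ = q → cjL (refl' 0) (refl' 0) q = -q → jm f q = q := by
    intro q hq hq'
    set p := ac y⁻¹ q with hp
    have hph : pᴴ = p := ac_herm h2 _ hq
    have hyp : ac y p = q := by rw [hp]; exact hE.right q hq
    have e1 : cjL (refl' 0) (refl' 0) p = -p := by
      have e2 := hcom p hph
      rw [hyp, hq'] at e2
      have e3 : ac y (-p) = -q := by rw [map_neg, hyp]
      have e4 := e2.trans e3.symm
      have hh : (cjL (refl' 0) (refl' 0) p)ᴴ = cjL (refl' 0) (refl' 0) p := by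
        rw [← ac_s h2 0 hph]; exact ac_herm h2 _ hph
      have hn : (-p)ᴴ = -p := by rw [conjTranspose_neg, hph]
      have e5 := congrArg (ac y⁻¹) e4
      have l1 : ac y⁻¹ (ac y (cjL (refl' 0) (refl' 0) p)) = cjL (refl' 0) (refl' 0) p :=
        hE.left _ hh
      have l2 : ac y⁻¹ (ac y (-p)) = -p := hE.left _ hn
      rw [l1, l2] at e5
      exact e5
    have hz := sI_minus h2 e1
    have e6 : jm (Ei 0) p = p := by
      ext k l : 1
      rw [jmE_apply]
      by_cases hk : (0 : Fin 3) = k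
      · subst hk
        by_cases hl : (0 : Fin 3) = l
        · subst hl; simp [hz.1]
        · simp [hl]
      · by_cases hl : (0 : Fin 3) = l
        · subst hl; simp [hk]
        · simp [hk, hl, hz.2 k l hk hl]
    have e7 := hE.hom1.jm _ _ (herm_Ei 0) hph
    rw [e6, hyp] at e7
    exact e7.symm
  have q1 := hm (R 0 1 1) (herm_R 0 1 1) (sI_R_self h01 1)
  have q2 := hm (R 0 2 1) (herm_R 0 2 1) (sI_R_self h02 1)
  obtain ⟨a, b, c, x, y', z, hfe⟩ := exists_H3 h2 hfh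
  have x0 : x = 0 := by
    have := (sI_plus h2 hs (l := 1) h01).1
    rw [hfe] at this
    simpa [H3] using this
  have y0 : y' = 0 := by
    have := (sI_plus h2 hs (l := 2) h02).1
    rw [hfe] at this
    simpa [H3] using this
  have z0 : z = 0 := by
    have e := congrFun (congrFun q1 0) 2
    rw [jm_comm, jmR_apply, hfe, R_apply] at e
    simp [H3, h01, h12, h02] at e
    exact e
  have ab : b + a = 1 := by
    have e := congrArg Oct.a (congrFun (congrFun q1 0) 1)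
    rw [jm_comm, jmR_apply, hfe, R_apply] at e
    simp [H3, h01] at e
    exact e
  have ac' : c + a = 1 := by
    have e := congrArg Oct.a (congrFun (congrFun q2 0) 2)
    rw [jm_comm, jmR_apply, hfe, R_apply] at e
    simp [H3, h02] at e
    exact e
  -- idempotent
  have e6 := hE.hom1.jm _ _ (herm_Ei 0) (herm_Ei 0)
  rw [jm_Ei_Ei, map_smul, ← hf, hfe, jm_H3, x0, y0, z0] at e6
  have e7 := congrArg Oct.a (congrFun (congrFun e6 0) 0)
  simp [H3, bet] at e7
  have ha : a = 0 ∨ a = 1 := by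
    rcases e7 with h | h
    · have : a * (a - 1) = 0 := by linear_combination -h
      rcases mul_eq_zero.1 this with h | h
      · exact Or.inl h
      · exact Or.inr (sub_eq_zero.1 h)
    · exact absurd h h2
  rcases ha with ha | ha
  · exfalso
    rw [ha, add_zero] at ab ac'
    have hff : f = Ei 1 + Ei 2 := by
      rw [hfe, x0, y0, z0, ha, ab, ac']
      ext i j : 1
      simp only [Matrix.add_apply, Ei, s_apply]
      fin_cases i <;> fin_cases j <;> simp [H3]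
    -- preimage of E₁
    set m := ac y⁻¹ (Ei 1) with hmdef
    have hmh : mᴴ = m := ac_herm h2 _ (herm_Ei 1)
    have hym : ac y m = Ei 1 := hE.right _ (herm_Ei 1)
    have e8 : jm f (Ei 1) = (2 : K) • Ei 1 := by
      rw [hff, jm_add_left, jm_Ei_Ei, jm_Ei_Ej h12.symm, add_zero]
    have e9 : jm (Ei 0) m = (2 : K) • m := by
      have e10 := hE.hom1.jm _ _ (herm_Ei 0) hmh
      rw [← hf, hym, e8, ← hym, ← map_smul] at e10
      have e11 := congrArg (ac y⁻¹) e10
      have l1 := hE.left _ (herm_jm (herm_Ei 0) hmh)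
      have l2 := hE.left _ (herm_smul (2 : K) hmh)
      rw [l1, l2] at e11
      exact e11
    have hzz : ∀ x : Oct K, x = (2 : K) • x → x = 0 := by
      intro x hx
      rw [two_smul] at hx
      exact left_eq_add.1 hx
    have hz2 : ∀ x : Oct K, 0 = (2 : K) • x → x = 0 := by
      intro x hx
      have h4 := congrArg (fun z => (2 : K)⁻¹ • z) hx
      simp only [smul_smul, inv_mul_cancel₀ h2, one_smul, smul_zero] at h4
      exact h4.symm
    obtain ⟨μ, hμ⟩ := herm_diag h2 hmh 0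
    have hme : m = μ • Ei 0 := by
      ext k l : 1
      have e12 := congrFun (congrFun e9 k) l
      rw [jmE_apply, Matrix.smul_apply] at e12
      rw [Matrix.smul_apply, Ei, s_apply]
      by_cases hk : (0 : Fin 3) = k
      · subst hk
        by_cases hl : (0 : Fin 3) = l
        · subst hl; simp [hμ]
        · simp only [if_true, if_neg hl, add_zero] at e12
          rw [hzz _ e12]; simp [hl]
      · by_cases hl : (0 : Fin 3) = l
        · subst hl
          simp only [if_true, if_neg hk, zero_add] at e12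
          rw [hzz _ e12]; simp [hk]
        · simp only [if_neg hk, if_neg hl, add_zero] at e12
          rw [hz2 _ e12]; simp [hk]
    have e13 : (Ei 1 : OM 3 K) = μ • (Ei 1 + Ei 2) := by
      have e13' : ac y m = μ • f := by rw [hme, map_smul]
      rw [← hff, ← e13', hym]
    have e14 := congrArg Oct.a (congrFun (congrFun e13 2) 2)
    have e15 := congrArg Oct.a (congrFun (congrFun e13 1) 1)
    rw [Matrix.smul_apply, Matrix.add_apply, Ei, Ei, s_apply, s_apply] at e14 e15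
    simp at e14 e15
    rw [← e14] at e15
    exact one_ne_zero e15
  · rw [ha] at ab ac'
    have hb : b = 0 := by linear_combination ab
    have hc : c = 0 := by linear_combination ac'
    rw [hfe, x0, y0, z0, ha, hb, hc]
    ext i j : 1
    simp only [Ei, s_apply]
    fin_cases i <;> fin_cases j <;> simp [H3]

end Pool.Agent.W_MP_93b5ed_al

end

/-!
# The Hermitian case for `n = 3`: conclusion
-/

noncomputable section

namespace Pool.Agent.W_MP_93b5ed_al

open Matrix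

variable {K : Type*} [Field K]

/-- `3 - 2 J` -/
def PH : Matrix (Fin 3) (Fin 3) K := !![1, -2, -2; -2, 1, -2; -2, -2, 1]

theorem PH_mul : (PH : Matrix (Fin 3) (Fin 3) K) * PH = (9 : K) • 1 := by
  ext i j
  fin_cases i <;> fin_cases j <;> simp [PH, Matrix.mul_apply, Fin.sum_univ_three] <;> norm_num

theorem PH_transpose : (PH : Matrix (Fin 3) (Fin 3) K)ᵀ = PH := by
  ext i j
  fin_cases i <;> fin_cases j <;> simp [PH]

/-- `3 - 2 J` as an element of `GO_3` -/
def PHGO (h9 : (9 : K) ≠ 0) : GO 3 K :=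
  ⟨⟨PH, (9 : K)⁻¹ • PH, by rw [Matrix.mul_smul, PH_mul, smul_smul, inv_mul_cancel₀ h9, one_smul],
    by rw [Matrix.smul_mul, PH_mul, smul_smul, inv_mul_cancel₀ h9, one_smul]⟩, 9, h9, by
    show PH * PHᵀ = _
    rw [PH_transpose, PH_mul]⟩

theorem cj_PH : cjL (PH : Matrix (Fin 3) (Fin 3) K) ((9 : K)⁻¹ • PH) (Ei 0) =
    (9 : K)⁻¹ • (Ei 0 + (4 : K) • Ei 1 + (4 : K) • Ei 2 + (-2 : K) • R 0 1 1 + (-2 : K) • R 0 2 1 +
      (4 : K) • R 1 2 1) := by
  have e : (PH : Matrix (Fin 3) (Fin 3) K) * single 0 0 1 * ((9 : K)⁻¹ • PH) =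
      (9 : K)⁻¹ • (single 0 0 1 + (4 : K) • single 1 1 1 + (4 : K) • single 2 2 1 +
        (-2 : K) • (single 0 1 1 + single 1 0 1) + (-2 : K) • (single 0 2 1 + single 2 0 1) +
        (4 : K) • (single 1 2 1 + single 2 1 1)) := by
    rw [Matrix.mul_smul]
    congr 1
    ext i j
    rw [Matrix.mul_apply, Fin.sum_univ_three, ms_apply, ms_apply, ms_apply]
    simp only [Matrix.add_apply, Matrix.smul_apply, s_apply]
    fin_cases i <;> fin_cases j <;> simp [PH] <;> norm_num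
  rw [Ei_eq, cjL_apply, sc_mul_sc, sc_mul_sc, e]
  simp only [sc_smul, sc_add, Ei_eq, R_one_eq]

/-- the invariant subspace of vectors on whose orbits `y` acts trivially -/
def Wd (y : AutHerm 3 K) (X : OM 3 K) : Prop :=
  Xᴴ = X ∧ ∀ g : AutHerm 3 K, ac y (ac g X) = ac g X

variable {y : AutHerm 3 K}

theorem Wd.add {X Y : OM 3 K} (hX : Wd y X) (hY : Wd y Y) : Wd y (X + Y) :=
  ⟨herm_add hX.1 hY.1, fun g => by rw [map_add, map_add, hX.2, hY.2]⟩

theorem Wd.sub {X Y : OM 3 K} (hX : Wd y X) (hY : Wd y Y) : Wd y (X - Y) :=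
  ⟨herm_sub hX.1 hY.1, fun g => by rw [map_sub, map_sub, hX.2, hY.2]⟩

theorem Wd.smul {X : OM 3 K} (c : K) (hX : Wd y X) : Wd y (c • X) :=
  ⟨herm_smul c hX.1, fun g => by rw [map_smul, map_smul, hX.2]⟩

theorem Wd.act (h2 : (2 : K) ≠ 0) {X : OM 3 K} (g : AutHerm 3 K) (hX : Wd y X) :
    Wd y (ac g X) :=
  ⟨ac_herm h2 g hX.1, fun g' => by rw [← ac_mul h2 _ _ hX.1, hX.2]⟩

theorem Wd_E0 (h2 : (2 : K) ≠ 0) (hy : ∀ g : AutHerm 3 K, y * (g * s0 * g⁻¹) = (g * s0 * g⁻¹) * y) :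
    Wd y (Ei 0) := by
  refine ⟨herm_Ei 0, fun g => ?_⟩
  have e1 : (g⁻¹ * y * g) * s0 = s0 * (g⁻¹ * y * g) := by
    have e2 := hy g
    calc (g⁻¹ * y * g) * s0 = g⁻¹ * (y * (g * s0 * g⁻¹)) * g := by group
      _ = g⁻¹ * ((g * s0 * g⁻¹) * y) * g := by rw [e2]
      _ = s0 * (g⁻¹ * y * g) := by group
  have e3 := fix_E0 h2 _ e1
  have hgE := ac_herm h2 g (herm_Ei (K := K) (0 : Fin 3))
  have hyE := ac_herm h2 y hgE
  rw [mul_assoc, ac_mul h2 _ _ (herm_Ei 0), ac_mul h2 _ _ (herm_Ei 0)] at e3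
  have e4 := congrArg (ac g) e3
  rw [(ac_equiv h2 g).right _ hyE] at e4
  exact e4

theorem Wd_all (h2 : (2 : K) ≠ 0) (h3 : (3 : K) ≠ 0)
    (hy : ∀ g : AutHerm 3 K, y * (g * s0 * g⁻¹) = (g * s0 * g⁻¹) * y) {X : OM 3 K} (hX : Xᴴ = X) :
    Wd y X := by
  have h01 : (0 : Fin 3) ≠ 1 := by decide
  have h02 : (0 : Fin 3) ≠ 2 := by decide
  have h12 : (1 : Fin 3) ≠ 2 := by decide
  have h9 : (9 : K) ≠ 0 := by
    have : (9 : K) = 3 * 3 := by norm_num
    rw [this]; exact mul_ne_zero h3 h3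
  have h8 : (8 : K) ≠ 0 := by
    have : (8 : K) = 2 * (2 * 2) := by norm_num
    rw [this]; exact mul_ne_zero h2 (mul_ne_zero h2 h2)
  have w0 := Wd_E0 h2 hy
  have wE : ∀ i : Fin 3, Wd y (Ei i) := by
    intro i
    have e := w0.act h2 (actHom herm_good ((1 : AutOct K), (swapGO 0 i : GO 3 K)))
    rw [ac_T h2 0 i (herm_Ei 0), cj_swap_E, Equiv.swap_apply_left] at e
    exact e
  -- the vector (1, -2, -2)
  have wM : Wd y (Ei 0 + (4 : K) • Ei 1 + (4 : K) • Ei 2 + (-2 : K) • R 0 1 1 +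
      (-2 : K) • R 0 2 1 + (4 : K) • R 1 2 1) := by
    have e := w0.act h2 (actHom herm_good ((1 : AutOct K), PHGO h9))
    rw [ac_P h2 _ (herm_Ei 0)] at e
    have e1 : cjL (PHGO h9).1.1 ((PHGO h9).1⁻¹).1 (Ei 0 : OM 3 K) = _ := cj_PH
    rw [e1] at e
    have e2 := e.smul (9 : K)
    rw [smul_smul, mul_inv_cancel₀ h9, one_smul] at e2
    exact e2
  set M : OM 3 K := Ei 0 + (4 : K) • Ei 1 + (4 : K) • Ei 2 + (-2 : K) • R 0 1 1 +
      (-2 : K) • R 0 2 1 + (4 : K) • R 1 2 1 with hM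
  have a0 := wM.act h2 (actHom herm_good ((1 : AutOct K), (reflGO 0 : GO 3 K)))
  have a1 := wM.act h2 (actHom herm_good ((1 : AutOct K), (reflGO 1 : GO 3 K)))
  have a2 := wM.act h2 (actHom herm_good ((1 : AutOct K), (reflGO 2 : GO 3 K)))
  rw [ac_s h2 _ wM.1] at a0 a1 a2
  have sw : ∀ a b : Fin 3, (R a b 1 : OM 3 K) = R b a 1 := fun a b => by
    rw [R_swap, star_one_oct]
  have s1_01 : cjL (refl' 1) (refl' 1) (R 0 1 1 : OM 3 K) = -R 0 1 1 := by
    rw [sw 0 1, sI_R_self h01.symm]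
  have s2_02 : cjL (refl' 2) (refl' 2) (R 0 2 1 : OM 3 K) = -R 0 2 1 := by
    rw [sw 0 2, sI_R_self h02.symm]
  have s2_12 : cjL (refl' 2) (refl' 2) (R 1 2 1 : OM 3 K) = -R 1 2 1 := by
    rw [sw 1 2, sI_R_self h12.symm]
  have w8 : Wd y ((8 : K) • R 0 1 1) := by
    have e := (a0.sub wM).add (a1.sub a2)
    have e1 : (cjL (refl' 0) (refl' 0) M - M) + (cjL (refl' 1) (refl' 1) M -
        cjL (refl' 2) (refl' 2) M) = (8 : K) • R 0 1 1 := by
      rw [hM]
      simp only [map_add, map_smul, sI_Ei]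
      rw [sI_R_self h01, sI_R_self h02, sI_R_other h01 h02, s1_01, sI_R_other h01.symm h12,
        sI_R_self h12, sI_R_other h02.symm h12.symm, s2_02, s2_12]
      have h8' : (8 : K) = 2 + 2 + 2 + 2 := by norm_num
      rw [h8']
      simp only [smul_neg, neg_smul, add_smul]
      abel
    rw [e1] at e
    exact e
  have w01 : Wd y (R 0 1 1) := by
    have e := w8.smul (8 : K)⁻¹
    rw [smul_smul, inv_mul_cancel₀ h8, one_smul] at e
    exact e
  -- twist
  have wtw : Wd y (R 0 1 uu) := by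
    have e := w01.act h2 (mkHerm h2 (tw_equiv h2))
    rw [ac_mkHerm h2 _ (herm_R 0 1 1)] at e
    have e1 : (R 0 1 1 : OM 3 K) = H3 0 0 0 1 0 0 := by
      ext i j : 1
      rw [R_apply]
      fin_cases i <;> fin_cases j <;> simp [H3]
    have e2 : (R 0 1 uu : OM 3 K) = H3 0 0 0 uu 0 0 := by
      ext i j : 1
      rw [R_apply]
      fin_cases i <;> fin_cases j <;> simp [H3]
    rw [e1, twL_H3, mul_one, mul_zero, zero_mul, ← e2] at e
    exact e
  have v1 : Wd y (R 0 1 ⟨0,0,1,0,0,0,0,0⟩) := by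
    have e := wtw.sub w01
    have e1 : (R 0 1 uu : OM 3 K) - R 0 1 1 = R 0 1 ⟨0,0,1,0,0,0,0,0⟩ := by
      have e2 : (uu : Oct K) = ⟨0,0,1,0,0,0,0,0⟩ + 1 := by ext <;> simp [uu]
      rw [e2, R_add]; abel
    rw [e1] at e
    exact e
  have vg : ∀ (g : AutOct K) (v : Oct K), Wd y (R 0 1 v) → Wd y (R 0 1 (g.1 v)) := by
    intro g v hv
    have e := hv.act h2 (actHom herm_good (g, (1 : GO 3 K)))
    rw [ac_g h2 g hv.1] at e
    have e1 : mapL g.1.toLinearMap (R 0 1 v : OM 3 K) = R 0 1 (g.1 v) := by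
      ext a b : 1
      rw [mapL_apply, R_apply, R_apply, map_add]
      congr 1
      · split_ifs
        · rfl
        · exact map_zero _
      · split_ifs
        · exact autOct_star g.2 v
        · exact map_zero _
    rw [e1] at e
    exact e
  have vadd : ∀ v w : Oct K, Wd y (R 0 1 v) → Wd y (R 0 1 w) → Wd y (R 0 1 (v + w)) := by
    intro v w hv hw
    rw [R_add]; exact hv.add hw
  have vsub : ∀ v w : Oct K, Wd y (R 0 1 v) → Wd y (R 0 1 w) → Wd y (R 0 1 (v - w)) := by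
    intro v w hv hw
    have e := hv.sub hw
    have e1 : (R 0 1 (v - w) : OM 3 K) = R 0 1 v - R 0 1 w := by
      have e2 := R_add (K := K) (0 : Fin 3) 1 (v - w) w
      rw [sub_add_cancel] at e2
      rw [e2]; abel
    rw [e1]; exact e
  have vsmul : ∀ (c : K) (v : Oct K), Wd y (R 0 1 v) → Wd y (R 0 1 (c • v)) := by
    intro c v hv
    rw [R_smul]; exact hv.smul c
  have v2 : Wd y (R 0 1 ⟨0,0,0,1,0,0,0,0⟩) := by
    have e := vsub _ _ (vg A21 _ v1) v1
    have e1 : (A21 : AutOct K).1 ⟨0,0,1,0,0,0,0,0⟩ - ⟨0,0,1,0,0,0,0,0⟩ = ⟨0,0,0,1,0,0,0,0⟩ := by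
      show T21 1 _ - _ = _
      rw [T21_apply]
      ext <;> simp only [Oct.sub_a, Oct.sub_b, Oct.sub_u1, Oct.sub_u2, Oct.sub_u3,
        Oct.sub_v1, Oct.sub_v2, Oct.sub_v3] <;> ring
    rw [e1] at e
    exact e
  have v3 : Wd y (R 0 1 ⟨0,0,0,0,1,0,0,0⟩) := by
    have e := vsub _ _ (vg A31 _ v1) v1
    have e1 : (A31 : AutOct K).1 ⟨0,0,1,0,0,0,0,0⟩ - ⟨0,0,1,0,0,0,0,0⟩ = ⟨0,0,0,0,1,0,0,0⟩ := by
      show T31 1 _ - _ = _
      rw [T31_apply]
      ext <;> simp only [Oct.sub_a, Oct.sub_b, Oct.sub_u1, Oct.sub_u2, Oct.sub_u3,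
        Oct.sub_v1, Oct.sub_v2, Oct.sub_v3] <;> ring
    rw [e1] at e
    exact e
  have v4 : Wd y (R 0 1 ⟨0,0,0,0,0,1,0,0⟩) := by
    have e := vsmul (-1) _ (vg ATau _ v1)
    have e1 : (-1 : K) • (ATau : AutOct K).1 ⟨0,0,1,0,0,0,0,0⟩ = ⟨0,0,0,0,0,1,0,0⟩ := by
      show (-1 : K) • Tau _ = _
      rw [Tau_apply]
      ext <;> simp only [Oct.smul_a, Oct.smul_b, Oct.smul_u1, Oct.smul_u2, Oct.smul_u3,
        Oct.smul_v1, Oct.smul_v2, Oct.smul_v3] <;> ring
    rw [e1] at e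
    exact e
  have v5 : Wd y (R 0 1 ⟨0,0,0,0,0,0,1,0⟩) := by
    have e := vsmul (-1) _ (vg ATau _ v2)
    have e1 : (-1 : K) • (ATau : AutOct K).1 ⟨0,0,0,1,0,0,0,0⟩ = ⟨0,0,0,0,0,0,1,0⟩ := by
      show (-1 : K) • Tau _ = _
      rw [Tau_apply]
      ext <;> simp only [Oct.smul_a, Oct.smul_b, Oct.smul_u1, Oct.smul_u2, Oct.smul_u3,
        Oct.smul_v1, Oct.smul_v2, Oct.smul_v3] <;> ring
    rw [e1] at e
    exact e
  have v6 : Wd y (R 0 1 ⟨0,0,0,0,0,0,0,1⟩) := by
    have e := vsmul (-1) _ (vg ATau _ v3)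
    have e1 : (-1 : K) • (ATau : AutOct K).1 ⟨0,0,0,0,1,0,0,0⟩ = ⟨0,0,0,0,0,0,0,1⟩ := by
      show (-1 : K) • Tau _ = _
      rw [Tau_apply]
      ext <;> simp only [Oct.smul_a, Oct.smul_b, Oct.smul_u1, Oct.smul_u2, Oct.smul_u3,
        Oct.smul_v1, Oct.smul_v2, Oct.smul_v3] <;> ring
    rw [e1] at e
    exact e
  have v7 : Wd y (R 0 1 ⟨1,-1,0,0,0,0,0,0⟩) := by
    have e := vadd _ _ (vsub _ _ (vg AEd _ v4) v4) v1
    have e1 : ((AEd : AutOct K).1 ⟨0,0,0,0,0,1,0,0⟩ - ⟨0,0,0,0,0,1,0,0⟩) + ⟨0,0,1,0,0,0,0,0⟩ =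
        ⟨1,-1,0,0,0,0,0,0⟩ := by
      show (Ed _ - _) + _ = _
      rw [Ed_apply]
      ext <;> simp only [Oct.sub_a, Oct.sub_b, Oct.sub_u1, Oct.sub_u2, Oct.sub_u3,
        Oct.sub_v1, Oct.sub_v2, Oct.sub_v3, Oct.add_a, Oct.add_b, Oct.add_u1, Oct.add_u2,
        Oct.add_u3, Oct.add_v1, Oct.add_v2, Oct.add_v3] <;> ring
    rw [e1] at e
    exact e
  have vall : ∀ v : Oct K, Wd y (R 0 1 v) := by
    intro v
    have dec : v = (2⁻¹ * (v.a + v.b)) • (1 : Oct K) + (2⁻¹ * (v.a - v.b)) • ⟨1,-1,0,0,0,0,0,0⟩ +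
        v.u1 • (⟨0,0,1,0,0,0,0,0⟩ : Oct K) + v.u2 • (⟨0,0,0,1,0,0,0,0⟩ : Oct K) +
        v.u3 • (⟨0,0,0,0,1,0,0,0⟩ : Oct K) + v.v1 • (⟨0,0,0,0,0,1,0,0⟩ : Oct K) +
        v.v2 • (⟨0,0,0,0,0,0,1,0⟩ : Oct K) + v.v3 • (⟨0,0,0,0,0,0,0,1⟩ : Oct K) := by
      ext <;> simp
      · field_simp; ring
      · field_simp; ring
    rw [dec]
    exact vadd _ _ (vadd _ _ (vadd _ _ (vadd _ _ (vadd _ _ (vadd _ _ (vadd _ _ (vsmul _ _ w01)
      (vsmul _ _ v7)) (vsmul _ _ v1)) (vsmul _ _ v2)) (vsmul _ _ v3)) (vsmul _ _ v4))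
      (vsmul _ _ v5)) (vsmul _ _ v6)
  have vall2 : ∀ v : Oct K, Wd y (R 0 2 v) := by
    intro v
    have e := (vall v).act h2 (actHom herm_good ((1 : AutOct K), (swapGO 1 2 : GO 3 K)))
    rw [ac_T h2 1 2 (herm_R 0 1 v), cj_swap_R] at e
    exact e
  have vall3 : ∀ v : Oct K, Wd y (R 1 2 v) := by
    intro v
    have e := (vall (star v)).act h2 (actHom herm_good ((1 : AutOct K), (swapGO 0 2 : GO 3 K)))
    rw [ac_T h2 0 2 (herm_R 0 1 (star v)), cj_swap_R] at e
    have e1 : (R (Equiv.swap (0 : Fin 3) 2 0) (Equiv.swap (0 : Fin 3) 2 1) (star v) : OM 3 K) =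
        R 1 2 v := by
      have e2 : Equiv.swap (0 : Fin 3) 2 0 = 2 := by decide
      have e3 : Equiv.swap (0 : Fin 3) 2 1 = 1 := by decide
      rw [e2, e3, R_swap, star_star]
    rw [e1] at e
    exact e
  obtain ⟨x1, x2, x3, x, y', z, rfl⟩ := dec3 h2 hX
  exact (((((wE 0).smul x1).add ((wE 1).smul x2)).add ((wE 2).smul x3)).add (vall x)).add
    (vall2 y') |>.add (vall3 z)

theorem eq_one_of_comm_conj (h2 : (2 : K) ≠ 0) (h3 : (3 : K) ≠ 0)
    (hy : ∀ g : AutHerm 3 K, y * (g * s0 * g⁻¹) = (g * s0 * g⁻¹) * y) : y = 1 := by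
  apply ac_ext h2
  intro X hX
  have e := (Wd_all h2 h3 hy hX).2 1
  rw [ac_one h2 hX] at e
  rw [e, ac_one h2 hX]

/-- `diag(1, -1, -1)` -/
def B3 : Matrix (Fin 3) (Fin 3) K := !![1, 0, 0; 0, -1, 0; 0, 0, -1]

theorem B3_mul : (B3 : Matrix (Fin 3) (Fin 3) K) * B3 = 1 := by
  ext i j
  fin_cases i <;> fin_cases j <;> simp [B3, Matrix.mul_apply, Fin.sum_univ_three]

theorem B3_transpose : (B3 : Matrix (Fin 3) (Fin 3) K)ᵀ = B3 := by
  ext i j
  fin_cases i <;> fin_cases j <;> simp [B3]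

/-- `diag(1, -1, -1)` in `SO_3` -/
def B3SO : SO 3 K := ⟨⟨B3, B3, B3_mul, B3_mul⟩, by
  refine ⟨?_, ?_⟩
  · show B3 * B3ᵀ = 1
    rw [B3_transpose, B3_mul]
  · show (B3 : Matrix (Fin 3) (Fin 3) K).det = 1
    rw [det_fin_three]; simp [B3]⟩

theorem B3SO_ne (h2 : (2 : K) ≠ 0) : (B3SO : SO 3 K) ≠ 1 := by
  intro h
  have e := congrArg (fun Q : SO 3 K => Q.1.1 1 1) h
  have e1 : (B3 : Matrix (Fin 3) (Fin 3) K) 1 1 = 1 := e
  simp [B3] at e1
  apply h2
  linear_combination -e1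

/-- `n = 3` -/
theorem herm3_not_iso (h2 : (2 : K) ≠ 0) (h3 : (3 : K) ≠ 0) :
    IsEmpty (AutHerm 3 K ≃* AutOct K × SO 3 K) := by
  refine ⟨fun e => ?_⟩
  set a := e.symm ((e s0).1, 1) with ha
  have hea : e a = ((e s0).1, 1) := e.apply_symm_apply _
  have h1 : ∀ x : AutHerm 3 K, x * s0 = s0 * x → a * x = x * a := by
    intro x hx
    apply e.injective
    have hx' := congrArg e hx
    rw [map_mul, map_mul] at hx'
    rw [map_mul, map_mul, hea]
    apply Prod.ext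
    · exact (congrArg Prod.fst hx').symm
    · show 1 * (e x).2 = (e x).2 * 1
      rw [one_mul, mul_one]
  rcases double_cent h2 a h1 with h | h
  · -- `s0` lies in the second factor
    have hs : (e s0).1 = 1 := by
      rw [h, map_one] at hea
      exact (congrArg Prod.fst hea).symm
    set y := e.symm (A12, 1) with hy
    have hey : e y = (A12, 1) := e.apply_symm_apply _
    have hy1 : y = 1 := by
      apply eq_one_of_comm_conj h2 h3
      intro g
      apply e.injective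
      simp only [map_mul, map_inv]
      rw [hey]
      apply Prod.ext
      · show A12 * ((e g).1 * (e s0).1 * (e g).1⁻¹) = ((e g).1 * (e s0).1 * (e g).1⁻¹) * A12
        rw [hs, mul_one, mul_inv_cancel, one_mul, mul_one]
      · show 1 * ((e g).2 * (e s0).2 * (e g).2⁻¹) = ((e g).2 * (e s0).2 * (e g).2⁻¹) * 1
        rw [one_mul, mul_one]
    rw [hy1, map_one] at hey
    exact A12_ne (congrArg Prod.fst hey).symm
  · have hs : (e s0).2 = 1 := by
      rw [h] at hea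
      exact congrArg Prod.snd hea
    set y := e.symm (1, B3SO) with hy
    have hey : e y = (1, B3SO) := e.apply_symm_apply _
    have hy1 : y = 1 := by
      apply eq_one_of_comm_conj h2 h3
      intro g
      apply e.injective
      simp only [map_mul, map_inv]
      rw [hey]
      apply Prod.ext
      · show 1 * ((e g).1 * (e s0).1 * (e g).1⁻¹) = ((e g).1 * (e s0).1 * (e g).1⁻¹) * 1
        rw [one_mul, mul_one]
      · show B3SO * ((e g).2 * (e s0).2 * (e g).2⁻¹) = ((e g).2 * (e s0).2 * (e g).2⁻¹) * B3SO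
        rw [hs, mul_one, mul_inv_cancel, one_mul, mul_one]
    rw [hy1, map_one] at hey
    exact B3SO_ne h2 (congrArg Prod.snd hey).symm

end Pool.Agent.W_MP_93b5ed_al

end
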