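import Pool.Agent.W_MP_93b5ed_al.HermInv

/-!
# Automorphisms of Hermitian octonion matrices (n ≥ 4)
-/

noncomputable section

namespace Pool.Agent.W_MP_93b5ed_al

open Matrix

variable {K : Type*} [Field K] {n : ℕ}

/-- the linearized Jordan identity -/
def jid (X C Y : OM n K) : OM n K :=
  (jm (jm X C) (jm X Y) + jm (jm X C) (jm X Y)) - (jm X (jm (jm X C) Y) + jm X (jm (jm X C) Y)) +
    jm (jm X X) (jm C Y) - jm C (jm (jm X X) Y)

theorem sc_mul_sc_mul (P Q : Matrix (Fin n) (Fin n) K) (X : OM n K) :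
    sc P * (sc Q * X) = sc (P * Q) * X := by
  rw [← sc_assoc, sc_mul_sc]

theorem jid_sc (S : Matrix (Fin n) (Fin n) K) (C Y : OM n K) : jid (sc S) C Y = 0 := by
  simp only [jid, jm, Matrix.mul_add, Matrix.add_mul, sc_mul_sc, sc_assoc, assoc_sc_mid, assoc_sc,
    sc_mul_sc_mul]
  abel

theorem hom_jid {Φ : OM n K →ₗ[K] OM n K} (h : IsHermHom Φ) {X C Y : OM n K} (hX : Xᴴ = X)
    (hC : Cᴴ = C) (hY : Yᴴ = Y) : Φ (jid X C Y) = jid (Φ X) (Φ C) (Φ Y) := by
  simp only [jid, map_add, map_sub]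
  rw [h.jm _ _ (herm_jm hX hC) (herm_jm hX hY), h.jm _ _ hX (herm_jm (herm_jm hX hC) hY),
    h.jm _ _ (herm_jm hX hC) hY, h.jm _ _ (herm_jm hX hX) (herm_jm hC hY),
    h.jm _ _ hC (herm_jm (herm_jm hX hX) hY), h.jm _ _ (herm_jm hX hX) hY, h.jm _ _ hX hC,
    h.jm _ _ hX hY, h.jm _ _ hX hX, h.jm _ _ hC hY]

theorem jid_inS {Φ Ψ : OM n K →ₗ[K] OM n K} (h : IsHermEquiv Φ Ψ) {X C Y : OM n K}
    (hX : InS Φ X) (hC : Cᴴ = C) (hY : Yᴴ = Y) : jid X C Y = 0 := by
  obtain ⟨S, hS, rfl⟩ := hX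
  rw [← h.right C hC, ← h.right Y hY, ← hom_jid h.hom1 (herm_sc hS) (h.hom2.herm _ hC)
    (h.hom2.herm _ hY), jid_sc, map_zero]

/-- the bilinear form -/
def bet (v w : Oct K) : K :=
  v.a * w.b + v.b * w.a - (v.u1 * w.v1 + v.u2 * w.v2 + v.u3 * w.v3) -
    (v.v1 * w.u1 + v.v2 * w.u2 + v.v3 * w.u3)

theorem bet_eq (v w : Oct K) : v * star w + w * star v = bet v w • (1 : Oct K) := by
  ext <;> simp only [bet, Oct.add_a, Oct.add_b, Oct.add_u1, Oct.add_u2, Oct.add_u3, Oct.add_v1,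
    Oct.add_v2, Oct.add_v3, Oct.smul_a, Oct.smul_b, Oct.smul_u1, Oct.smul_u2, Oct.smul_u3,
    Oct.smul_v1, Oct.smul_v2, Oct.smul_v3, Oct.mul_a, Oct.mul_b, Oct.mul_u1, Oct.mul_u2,
    Oct.mul_u3, Oct.mul_v1, Oct.mul_v2, Oct.mul_v3, Oct.star_a, Oct.star_b, Oct.star_u1,
    Oct.star_u2, Oct.star_u3, Oct.star_v1, Oct.star_v2, Oct.star_v3, Oct.one_a, Oct.one_b,
    Oct.one_u1, Oct.one_u2, Oct.one_u3, Oct.one_v1, Oct.one_v2, Oct.one_v3] <;> ring

theorem bet_eq' (v w : Oct K) : star v * w + star w * v = bet v w • (1 : Oct K) := by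
  ext <;> simp only [bet, Oct.add_a, Oct.add_b, Oct.add_u1, Oct.add_u2, Oct.add_u3, Oct.add_v1,
    Oct.add_v2, Oct.add_v3, Oct.smul_a, Oct.smul_b, Oct.smul_u1, Oct.smul_u2, Oct.smul_u3,
    Oct.smul_v1, Oct.smul_v2, Oct.smul_v3, Oct.mul_a, Oct.mul_b, Oct.mul_u1, Oct.mul_u2,
    Oct.mul_u3, Oct.mul_v1, Oct.mul_v2, Oct.mul_v3, Oct.star_a, Oct.star_b, Oct.star_u1,
    Oct.star_u2, Oct.star_u3, Oct.star_v1, Oct.star_v2, Oct.star_v3, Oct.one_a, Oct.one_b,
    Oct.one_u1, Oct.one_u2, Oct.one_u3, Oct.one_v1, Oct.one_v2, Oct.one_v3] <;> ring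

theorem oct_lin (x u w : Oct K) :
    (x * star w) * u + (x * star u) * w = bet u w • x := by
  ext <;> simp only [bet, Oct.add_a, Oct.add_b, Oct.add_u1, Oct.add_u2, Oct.add_u3, Oct.add_v1,
    Oct.add_v2, Oct.add_v3, Oct.smul_a, Oct.smul_b, Oct.smul_u1, Oct.smul_u2, Oct.smul_u3,
    Oct.smul_v1, Oct.smul_v2, Oct.smul_v3, Oct.mul_a, Oct.mul_b, Oct.mul_u1, Oct.mul_u2,
    Oct.mul_u3, Oct.mul_v1, Oct.mul_v2, Oct.mul_v3, Oct.star_a, Oct.star_b, Oct.star_u1,
    Oct.star_u2, Oct.star_u3, Oct.star_v1, Oct.star_v2, Oct.star_v3] <;> ring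

theorem bet_star (u : Oct K) : bet (star u) (star u) = bet u u := by
  simp only [bet, Oct.star_a, Oct.star_b, Oct.star_u1, Oct.star_u2, Oct.star_u3, Oct.star_v1,
    Oct.star_v2, Oct.star_v3]
  ring

theorem oct_id1 (u v w : Oct K) :
    (bet u w • (v * u) + bet u w • (v * u)) - (((v * u) * star w) * u + ((v * u) * star w) * u) =
      bet u u • (v * w) := by
  have h1 := oct_lin (v * u) u w
  have h2 := oct_lin v (star u) (star u)
  rw [star_star, bet_star] at h2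
  rw [← h1, ← smul_mul_assoc, ← h2, add_mul]
  abel

theorem oct_id2 {u : Oct K} (hu : u.a = -u.b) (z : Oct K) :
    bet u u • z = -(u * (u * z) + u * (u * z)) := by
  ext <;> simp only [bet, Oct.neg_a, Oct.neg_b, Oct.neg_u1, Oct.neg_u2, Oct.neg_u3, Oct.neg_v1,
    Oct.neg_v2, Oct.neg_v3, Oct.add_a, Oct.add_b, Oct.add_u1, Oct.add_u2, Oct.add_u3, Oct.add_v1,
    Oct.add_v2, Oct.add_v3, Oct.smul_a, Oct.smul_b, Oct.smul_u1, Oct.smul_u2, Oct.smul_u3,
    Oct.smul_v1, Oct.smul_v2, Oct.smul_v3, Oct.mul_a, Oct.mul_b, Oct.mul_u1, Oct.mul_u2,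
    Oct.mul_u3, Oct.mul_v1, Oct.mul_v2, Oct.mul_v3, hu] <;> ring

theorem R_swap (i j : Fin n) (v : Oct K) : (R i j v : OM n K) = R j i (star v) := by
  rw [R, R, star_star, add_comm]

theorem jm_R_same {i j : Fin n} (hij : i ≠ j) (v w : Oct K) :
    (jm (R i j v) (R i j w) : OM n K) = bet v w • (Ei i + Ei j) := by
  simp only [jm, R, Matrix.mul_add, Matrix.add_mul, single_mul_single_same]
  rw [single_mul_single_of_ne _ _ _ _ hij.symm, single_mul_single_of_ne _ _ _ _ hij,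
    single_mul_single_of_ne _ _ _ _ hij.symm, single_mul_single_of_ne _ _ _ _ hij]
  have e1 : (single i i (v * star w) : OM n K) + single i i (w * star v) = bet v w • Ei i := by
    rw [← single_add, bet_eq, Ei, smul_single]
  have e2 : (single j j (star v * w) : OM n K) + single j j (star w * v) = bet v w • Ei j := by
    rw [← single_add, bet_eq', Ei, smul_single]
  rw [smul_add, ← e1, ← e2]
  abel

/-- **(H5)** -/
theorem eq_zero_of_inS (h2 : (2 : K) ≠ 0) {Φ Ψ : OM n K →ₗ[K] OM n K} (h : IsHermEquiv Φ Ψ)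
    {p q r s : Fin n} (hpq : p ≠ q) (hpr : p ≠ r) (hps : p ≠ s) (hqr : q ≠ r)
    (hqs : q ≠ s) (hrs : r ≠ s) {u u' : Oct K} (hu : u.a = -u.b)
    (hX : InS Φ (R p q u + R r s u')) : u = 0 := by
  refine Oct.eq_zero_of_quad hu (fun v w => ?_) h2
  have e := jid_inS h hX (herm_R p r v) (herm_R r s w)
  have m1 : (jm (R p q u + R r s u') (R p r v) : OM n K) =
      R q r (star u * v) + R p s (v * u') := by
    rw [jm_add_left, R_swap p q u, jm_R_R hpq.symm hqr hpr, jm_comm (R r s u'),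
      jm_R_R hpr hps hrs]
  have m2 : (jm (R p q u + R r s u') (R r s w) : OM n K) = bet u' w • (Ei r + Ei s) := by
    rw [jm_add_left, jm_R_R_disj hpr hps hqr hqs, zero_add, jm_R_same hrs]
  have m3 : (jm (R p q u + R r s u') (R p q u + R r s u') : OM n K) =
      bet u u • (Ei p + Ei q) + bet u' u' • (Ei r + Ei s) := by
    rw [jm_add_left, jm_add_right, jm_add_right, jm_R_R_disj hpr hps hqr hqs,
      jm_R_R_disj hpr.symm hqr.symm hps.symm hqs.symm, add_zero, zero_add, jm_R_same hpq,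
      jm_R_same hrs]
  have m4 : (jm (R p r v) (R r s w) : OM n K) = R p s (v * w) := jm_R_R hpr hps hrs v w
  have m5 : (jm (R q r (star u * v) + R p s (v * u')) (R r s w) : OM n K) =
      R q s ((star u * v) * w) + R p r ((v * u') * star w) := by
    rw [jm_add_left, jm_R_R hqr hqs hrs, R_swap r s w, jm_R_R hps hpr hrs.symm]
  have a1 : (jm (R q r (star u * v) + R p s (v * u')) (bet u' w • (Ei r + Ei s)) : OM n K) p s =
      bet u' w • (v * u') := by
    rw [jm_smul_right, jm_comm, jm_add_left, Matrix.smul_apply, Matrix.add_apply, jmE_apply,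
      jmE_apply, if_neg hpr.symm, if_neg hrs, if_neg hps.symm, if_pos rfl, Matrix.add_apply,
      R_apply, R_apply]
    simp [hpq.symm, hpr.symm, hps]
  have a2 : (jm (R p q u + R r s u') (R q s ((star u * v) * w) + R p r ((v * u') * star w)) :
      OM n K) p s = u * ((star u * v) * w) + ((v * u') * star w) * u' := by
    rw [jm_add_left, Matrix.add_apply, jmR_apply, jmR_apply]
    simp only [Matrix.add_apply, R_apply]
    simp [hpq, hpr, hps, hqr, hqs, hrs, hpq.symm, hpr.symm, hps.symm, hqr.symm, hqs.symm, hrs.symm]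
  have a3 : (jm (bet u u • (Ei p + Ei q) + bet u' u' • (Ei r + Ei s)) (R p s (v * w)) :
      OM n K) p s = bet u u • (v * w) + bet u' u' • (v * w) := by
    rw [jm_add_left, jm_smul_left, jm_smul_left, jm_add_left, jm_add_left]
    simp only [Matrix.add_apply, Matrix.smul_apply, jmE_apply, R_apply]
    simp [hpq, hpr, hps, hqr, hqs, hrs, hpq.symm, hpr.symm, hps.symm, hqr.symm, hqs.symm, hrs.symm]
  have a4 : (jm (R p r v) (jm (bet u u • (Ei p + Ei q) + bet u' u' • (Ei r + Ei s)) (R r s w)) :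
      OM n K) p s = bet u' u' • (v * w) + bet u' u' • (v * w) := by
    rw [jmR_apply, jm_add_left, jm_smul_left, jm_smul_left, jm_add_left, jm_add_left]
    simp only [Matrix.add_apply, Matrix.smul_apply, jmE_apply, R_apply]
    simp [hpq, hpr, hps, hqr, hqs, hrs, hpq.symm, hpr.symm, hps.symm, hqr.symm, hqs.symm, hrs.symm,
      mul_add, mul_smul_comm]
  rw [jid, m1, m2, m3, m4, m5] at e
  have e1 := congrFun (congrFun e p) s
  rw [Matrix.sub_apply, Matrix.add_apply, Matrix.sub_apply, Matrix.add_apply, Matrix.add_apply,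
    a1, a2, a3, a4, Matrix.zero_apply] at e1
  have e2 := oct_id1 u' v w
  have e3 := oct_id2 hu (v * w)
  have e4 : star u = -u := star_im hu
  rw [e4] at e1
  simp only [neg_mul, mul_neg] at e1
  have e5 : (u * ((u * v) * w) - u * (u * (v * w))) + (u * ((u * v) * w) - u * (u * (v * w))) = 0 := by
    rw [← e1, e3, ← e2]
    abel
  rw [← two_smul K] at e5
  have e6 := congrArg (fun z => (2 : K)⁻¹ • z) e5
  simp only [smul_smul, inv_mul_cancel₀ h2, one_smul, smul_zero] at e6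
  exact sub_eq_zero.1 e6

theorem isDer_one {D : Oct K →ₗ[K] Oct K} (hD : Oct.IsDer D) : D 1 = 0 := by
  have e := hD.1 1 1
  rw [mul_one, mul_one, one_mul] at e
  exact left_eq_add.1 e

/-- automorphisms preserve the scalar matrices -/
theorem herm_map_sc (h2 : (2 : K) ≠ 0) (h4 : 4 ≤ n) {Φ Ψ : OM n K →ₗ[K] OM n K}
    (h : IsHermEquiv Φ Ψ) {S : Matrix (Fin n) (Fin n) K} (hS : S.IsSymm) :
    ∃ S' : Matrix (Fin n) (Fin n) K, S'.IsSymm ∧ Φ (sc S) = sc S' := by
  have hh := h.hom1.herm _ (herm_sc hS)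
  have hin : InS Φ (Φ (sc S)) := ⟨S, hS, rfl⟩
  have key : IsSc (Φ (sc S)) := by
    intro p q
    by_cases hpq : p = q
    · rw [← hpq]; exact herm_diag h2 hh p
    · refine Oct.isScal_of_der fun D hD => ?_
      obtain ⟨r, hrp, hrq⟩ := exists_ne2 h4 p q
      obtain ⟨s, hsp, hsq, hsr⟩ := exists_ne3 h4 p q r
      set Y := mapL D (Φ (sc S)) with hY
      have hYin : InS Φ Y := inS_der h2 h4 h (isHermDer_mapL hD) hin
      have hYh : Yᴴ = Y := inS_herm h.hom1 hYin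
      have hAS : AS Y := by
        refine ⟨fun k => ?_, fun k l => ?_⟩
        · obtain ⟨c, hc⟩ := herm_diag h2 hh k
          rw [hY, mapL_apply, hc, map_smul, isDer_one hD, smul_zero]
        · rw [← herm_apply hYh l k, hY, mapL_apply]
          exact star_im (hD.2.2 _)
      have hAS1 := msk_AS hAS r p
      have hAS2 := msk_AS hAS1 r q
      have i1 := inS_msk h2 h4 h hrp hYin hAS
      have i2 := inS_msk h2 h4 h hrq i1 hAS1
      have i3 := inS_msk h2 h4 h hsr.symm i2 hAS2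
      have i4 := inS_sub i2 i3
      rw [iso_eq hpq hrp.symm hsp.symm hrq.symm hsq.symm hsr.symm hAS hYh] at i4
      have hz := eq_zero_of_inS h2 h hpq hrp.symm hsp.symm hrq.symm hsq.symm hsr.symm
        (hD.2.2 _) i4
      exact hz
  obtain ⟨S', hS'⟩ := exists_sc key
  exact ⟨S', of_herm_sc (by rw [← hS']; exact hh), hS'⟩

/-- the induced map on symmetric matrices -/
def psiH (Φ : OM n K →ₗ[K] OM n K) : Matrix (Fin n) (Fin n) K →ₗ[K] Matrix (Fin n) (Fin n) K where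
  toFun S := (Φ (sc S)).map Oct.a
  map_add' S T := by
    ext i j
    rw [sc_add, map_add]
    simp
  map_smul' c S := by
    ext i j
    rw [sc_smul, map_smul]
    simp

theorem psiH_spec (h2 : (2 : K) ≠ 0) (h4 : 4 ≤ n) {Φ Ψ : OM n K →ₗ[K] OM n K}
    (h : IsHermEquiv Φ Ψ) {S : Matrix (Fin n) (Fin n) K} (hS : S.IsSymm) :
    (psiH Φ S).IsSymm ∧ Φ (sc S) = sc (psiH Φ S) := by
  obtain ⟨S', hS', e⟩ := herm_map_sc h2 h4 h hS
  have e' : psiH Φ S = S' := by
    show (Φ (sc S)).map Oct.a = S'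
    rw [e]
    ext i j
    simp [sc_apply]
  rw [e']
  exact ⟨hS', e⟩

theorem psiH_jordan (h2 : (2 : K) ≠ 0) (h4 : 4 ≤ n) {Φ Ψ : OM n K →ₗ[K] OM n K}
    (h : IsHermEquiv Φ Ψ) : IsJordan (psiH Φ) where
  symm S hS := (psiH_spec h2 h4 h hS).1
  mul S T hS hT := by
    apply sc_injective
    rw [← (psiH_spec h2 h4 h (isSymm_anticomm hS hT)).2]
    have e : (sc (S * T + T * S) : OM n K) = jm (sc S) (sc T) := by
      rw [jm, sc_mul_sc, sc_mul_sc, sc_add]
    rw [e, h.hom1.jm _ _ (herm_sc hS) (herm_sc hT), (psiH_spec h2 h4 h hS).2,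
      (psiH_spec h2 h4 h hT).2, jm, sc_mul_sc, sc_mul_sc, sc_add]
  inj S hS h0 := by
    apply sc_injective
    rw [← h.left (sc S) (herm_sc hS), (psiH_spec h2 h4 h hS).2, h0]
    have : (sc (0 : Matrix (Fin n) (Fin n) K) : OM n K) = 0 := by
      ext i j : 1
      rw [sc_apply, Matrix.zero_apply, zero_smul]; rfl
    rw [this, map_zero]
  surj S hS := by
    refine ⟨psiH Ψ S, (psiH_spec h2 h4 h.symm hS).1, ?_⟩
    apply sc_injective
    rw [← (psiH_spec h2 h4 h (psiH_spec h2 h4 h.symm hS).1).2, ← (psiH_spec h2 h4 h.symm hS).2,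
      h.right _ (herm_sc hS)]

/-- conjugation -/
def cjL (P Q : Matrix (Fin n) (Fin n) K) : OM n K →ₗ[K] OM n K where
  toFun X := sc P * X * sc Q
  map_add' X Y := by rw [Matrix.mul_add, Matrix.add_mul]
  map_smul' c X := by
    ext i j : 1
    rw [RingHom.id_apply, Matrix.smul_apply, mul_sc_apply, mul_sc_apply, Finset.smul_sum]
    refine Finset.sum_congr rfl fun k _ => ?_
    rw [sc_mul_apply, sc_mul_apply, smul_comm]
    congr 1
    rw [Finset.smul_sum]
    refine Finset.sum_congr rfl fun l _ => ?_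
    rw [Matrix.smul_apply, smul_comm]

theorem cjL_apply (P Q : Matrix (Fin n) (Fin n) K) (X : OM n K) :
    cjL P Q X = sc P * X * sc Q := rfl

theorem mul_sc_mul_sc (P Q : Matrix (Fin n) (Fin n) K) (X : OM n K) :
    X * sc P * sc Q = X * sc (P * Q) := by
  rw [assoc_sc, sc_mul_sc]

theorem cjL_cjL {P Q : Matrix (Fin n) (Fin n) K} (hPQ : P * Q = 1) (X : OM n K) :
    cjL P Q (cjL Q P X) = X := by
  rw [cjL_apply, cjL_apply, ← sc_assoc, ← sc_assoc, sc_mul_sc, hPQ, sc_one_mul, assoc_sc,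
    sc_mul_sc, hPQ, mul_sc_one]

theorem cjL_mul {P Q : Matrix (Fin n) (Fin n) K} (hQP : Q * P = 1) (X Y : OM n K) :
    cjL P Q (X * Y) = cjL P Q X * cjL P Q Y := by
  simp only [cjL_apply]
  simp only [sc_assoc, assoc_sc_mid, assoc_sc, sc_mul_sc_mul, hQP, sc_one_mul]

theorem cjL_conjTranspose {P Q : Matrix (Fin n) (Fin n) K} {c : K} (hc : c ≠ 0)
    (hQ : Pᵀ = c • Q) (X : OM n K) : (cjL P Q X)ᴴ = cjL P Q Xᴴ := by
  have hQ' : Qᵀ = c⁻¹ • P := by
    have e := congrArg Matrix.transpose hQ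
    rw [transpose_transpose, transpose_smul] at e
    rw [e, smul_smul, inv_mul_cancel₀ hc, one_smul]
  rw [cjL_apply, cjL_apply, conjTranspose_mul, conjTranspose_mul, sc_conjTranspose,
    sc_conjTranspose, hQ, hQ', ← sc_assoc]
  ext i j : 1
  rw [mul_sc_apply, mul_sc_apply]
  refine Finset.sum_congr rfl fun k _ => ?_
  rw [sc_mul_apply, sc_mul_apply, Finset.smul_sum, Finset.smul_sum]
  refine Finset.sum_congr rfl fun l _ => ?_
  rw [smul_smul, smul_smul, Matrix.smul_apply, Matrix.smul_apply, smul_eq_mul, smul_eq_mul]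
  congr 1
  field_simp

theorem isHermEquiv_cjL {P Q : Matrix (Fin n) (Fin n) K} {c : K} (hc : c ≠ 0)
    (hPQ : P * Q = 1) (hQP : Q * P = 1) (hQ : Pᵀ = c • Q) :
    IsHermEquiv (cjL P Q) (cjL Q P) := by
  have hP : Qᵀ = c⁻¹ • P := by
    have e := congrArg Matrix.transpose hQ
    rw [transpose_transpose, transpose_smul] at e
    rw [e, smul_smul, inv_mul_cancel₀ hc, one_smul]
  refine ⟨⟨fun X hX => ?_, fun X Y _ _ => ?_⟩, ⟨fun X hX => ?_, fun X Y _ _ => ?_⟩,
    fun X _ => cjL_cjL hQP X, fun X _ => cjL_cjL hPQ X⟩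
  · rw [cjL_conjTranspose hc hQ, hX]
  · rw [jm, map_add, cjL_mul hQP, cjL_mul hQP, jm]
  · rw [cjL_conjTranspose (inv_ne_zero hc) hP, hX]
  · rw [jm, map_add, cjL_mul hPQ, cjL_mul hPQ, jm]

section fixing

variable {Φ Ψ : OM n K →ₗ[K] OM n K}

theorem fix_R (h : IsHermHom Φ)
    (hfix : ∀ S : Matrix (Fin n) (Fin n) K, S.IsSymm → Φ (sc S) = sc S) {i j : Fin n}
    (hij : i ≠ j) (v : Oct K) : Φ (R i j v) = R i j (Φ (R i j v) i j) := by
  have hEi : ∀ i : Fin n, Φ (Ei i) = Ei i := fun i => by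
    rw [Ei_eq, hfix _ (isSymm_single i)]
  have e1 := h.jm _ _ (herm_Ei j) (herm_R i j v)
  rw [jm_Ej_R hij, hEi] at e1
  have e2 := h.jm _ _ (herm_Ei i) (herm_R i j v)
  rw [jm_Ei_R hij, hEi] at e2
  conv_lhs => rw [e2]
  rw [← jm_Ei_jm_Ej hij (h.herm _ (herm_R i j v)), ← e1]

theorem fix_mul (h : IsHermHom Φ)
    (hfix : ∀ S : Matrix (Fin n) (Fin n) K, S.IsSymm → Φ (sc S) = sc S) {i j k : Fin n}
    (hij : i ≠ j) (hik : i ≠ k) (hjk : j ≠ k) (v w : Oct K) :
    Φ (R i k (v * w)) i k = Φ (R i j v) i j * Φ (R j k w) j k := by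
  rw [← jm_R_R hij hik hjk, h.jm _ _ (herm_R i j v) (herm_R j k w), fix_R h hfix hij,
    fix_R h hfix hjk, jm_R_R hij hik hjk, R_same hik, R_same hij, R_same hjk]

theorem fix_one (hfix : ∀ S : Matrix (Fin n) (Fin n) K, S.IsSymm → Φ (sc S) = sc S)
    {i j : Fin n} (hij : i ≠ j) : Φ (R i j 1) i j = 1 := by
  rw [R_one_eq, hfix _ (isSymm_single_add i j), ← R_one_eq, R_same hij]

theorem fix_indep (h4 : 4 ≤ n) (h : IsHermHom Φ)
    (hfix : ∀ S : Matrix (Fin n) (Fin n) K, S.IsSymm → Φ (sc S) = sc S) {i j k l : Fin n}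
    (hij : i ≠ j) (hkl : k ≠ l) (v : Oct K) : Φ (R i j v) i j = Φ (R k l v) k l := by
  have A : ∀ {i j m : Fin n}, i ≠ j → i ≠ m → Φ (R i j v) i j = Φ (R i m v) i m := by
    intro i j m hij him
    by_cases hjm : j = m
    · rw [hjm]
    · have e := fix_mul h hfix hij him hjm v 1
      rw [mul_one, fix_one hfix hjm, mul_one] at e
      exact e.symm
  have B : ∀ {i m k : Fin n}, i ≠ m → k ≠ m → Φ (R i m v) i m = Φ (R k m v) k m := by
    intro i m k him hkm
    by_cases hik : i = k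
    · rw [hik]
    · have e := fix_mul h hfix hik him hkm 1 v
      rw [one_mul, fix_one hfix hik, one_mul] at e
      exact e
  obtain ⟨m, hmi, hmk⟩ := exists_ne2 h4 i k
  rw [A hij hmi.symm, B hmi.symm hmk.symm, A hmk.symm hkl]

/-- the octonion map attached to an automorphism fixing the scalar matrices -/
def gH (Φ : OM n K →ₗ[K] OM n K) (i j : Fin n) : Oct K →ₗ[K] Oct K where
  toFun v := Φ (R i j v) i j
  map_add' v w := by rw [R_add, map_add]; rfl
  map_smul' c v := by rw [R_smul, map_smul]; rfl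

theorem herm_core_fix (h2 : (2 : K) ≠ 0) (h4 : 4 ≤ n) (h : IsHermEquiv Φ Ψ)
    (hfix : ∀ S : Matrix (Fin n) (Fin n) K, S.IsSymm → Φ (sc S) = sc S) :
    ∃ g : Oct K ≃ₗ[K] Oct K, g ∈ AutOct K ∧ ∀ X : OM n K, Xᴴ = X → Φ X = X.map g := by
  have hfix' : ∀ S : Matrix (Fin n) (Fin n) K, S.IsSymm → Ψ (sc S) = sc S := by
    intro S hS
    conv_lhs => rw [← hfix S hS]
    exact h.left _ (herm_sc hS)
  set o : Fin n := ⟨0, by omega⟩ with ho
  set t : Fin n := ⟨1, by omega⟩ with ht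
  have hot : o ≠ t := by
    rw [ho, ht]; simp
  have inv : ∀ {Φ Ψ : OM n K →ₗ[K] OM n K} (_ : IsHermEquiv Φ Ψ)
      (_ : ∀ S : Matrix (Fin n) (Fin n) K, S.IsSymm → Φ (sc S) = sc S) (v : Oct K),
      gH Ψ o t (gH Φ o t v) = v := by
    intro Φ Ψ h hfix v
    show Ψ (R o t (Φ (R o t v) o t)) o t = v
    rw [← fix_R h.hom1 hfix hot, h.left _ (herm_R o t v), R_same hot]
  set g : Oct K ≃ₗ[K] Oct K := LinearEquiv.ofLinearMap (gH Φ o t) (gH Ψ o t)
    (LinearMap.ext fun v => inv h.symm hfix' v) (LinearMap.ext fun v => inv h hfix v) with hg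
  have hgv : ∀ v, g v = Φ (R o t v) o t := fun v => rfl
  have hG : ∀ {i j : Fin n}, i ≠ j → ∀ v, Φ (R i j v) i j = g v := by
    intro i j hij v
    rw [hgv, fix_indep h4 h.hom1 hfix hij hot]
  obtain ⟨m, hmo, hmt⟩ := exists_ne2 h4 o t
  have hgm : g ∈ AutOct K := by
    intro v w
    show g (v * w) = g v * g w
    rw [← hG hmo.symm (v * w), fix_mul h.hom1 hfix hot hmo.symm hmt.symm, hG hot, hG hmt.symm]
  refine ⟨g, hgm, fun X hX => ?_⟩
  have hEi : ∀ i : Fin n, Φ (Ei i) = Ei i := fun i => by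
    rw [Ei_eq, hfix _ (isSymm_single i)]
  have hΦX := h.hom1.herm X hX
  ext i j : 1
  rw [Matrix.map_apply]
  by_cases hij : i = j
  · subst hij
    obtain ⟨c, hc⟩ := herm_diag h2 hX i
    have e1 : ∀ Y : OM n K, Yᴴ = Y → ∀ c : K, Y i i = c • (1 : Oct K) →
        jm (Ei i) (jm (Ei i) Y) - jm (Ei i) Y = (2 * c) • Ei i := by
      intro Y hY c hc
      ext k l : 1
      rw [Matrix.sub_apply, jmE_apply, jmE_apply, Matrix.smul_apply, Ei, s_apply]
      by_cases hk : i = k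
      · subst hk
        by_cases hl : i = l
        · subst hl
          simp [hc, mul_smul, two_smul]
        · simp [hl]
      · by_cases hl : i = l
        · subst hl
          simp [hk]
        · simp [hk, hl]
    obtain ⟨c', hc'⟩ := herm_diag h2 hΦX i
    have e2 := congrArg Φ (e1 X hX c hc)
    rw [map_sub, map_smul, h.hom1.jm _ _ (herm_Ei i) (herm_jm (herm_Ei i) hX),
      h.hom1.jm _ _ (herm_Ei i) hX, hEi, e1 _ hΦX c' hc'] at e2
    have e3 := congrArg Oct.a (congrFun (congrFun e2 i) i)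
    rw [Matrix.smul_apply, Matrix.smul_apply, Ei, s_apply] at e3
    simp only [and_self, if_true, Oct.smul_a, Oct.one_a, mul_one] at e3
    have e4 : c' = c := mul_left_cancel₀ h2 e3
    rw [hc', hc, e4, map_smul, autOct_one hgm]
  · have e1 := congrArg Φ (jm_Ei_jm_Ej hij hX)
    rw [h.hom1.jm _ _ (herm_Ei i) (herm_jm (herm_Ei j) hX), h.hom1.jm _ _ (herm_Ei j) hX, hEi, hEi,
      jm_Ei_jm_Ej hij hΦX] at e1
    have e2 := congrFun (congrFun e1 i) j
    rw [R_same hij, hG hij] at e2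
    exact e2

end fixing

/-- **Hermitian case, `n ≥ 4`**: every automorphism is `X ↦ P g(X) P⁻¹`. -/
theorem herm_core (h2 : (2 : K) ≠ 0) (h4 : 4 ≤ n) {Φ Ψ : OM n K →ₗ[K] OM n K}
    (h : IsHermEquiv Φ Ψ) :
    ∃ g : Oct K ≃ₗ[K] Oct K, g ∈ AutOct K ∧ ∃ P : Matrix (Fin n) (Fin n) K, ∃ c : K, c ≠ 0 ∧
      P * Pᵀ = c • (1 : Matrix (Fin n) (Fin n) K) ∧
      ∀ X : OM n K, Xᴴ = X → Φ X * sc P = sc P * X.map g := by
  obtain ⟨P, c, hc, hP, hcomm⟩ := jordan_lemma h2 ⟨0, by omega⟩ (psiH_jordan h2 h4 h)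
  set Q : Matrix (Fin n) (Fin n) K := c⁻¹ • Pᵀ with hQ
  have hPQ : P * Q = 1 := by
    rw [hQ, Matrix.mul_smul, hP, smul_smul, inv_mul_cancel₀ hc, one_smul]
  have hQP : Q * P = 1 := mul_eq_one_comm.1 hPQ
  have hPt : Pᵀ = c • Q := by
    rw [hQ, smul_smul, mul_inv_cancel₀ hc, one_smul]
  have hcj := isHermEquiv_cjL hc hPQ hQP hPt
  have h' := h.comp hcj.symm
  have hfix : ∀ S : Matrix (Fin n) (Fin n) K, S.IsSymm → (cjL Q P ∘ₗ Φ) (sc S) = sc S := by
    intro S hS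
    rw [LinearMap.comp_apply, (psiH_spec h2 h4 h hS).2, cjL_apply, sc_mul_sc, sc_mul_sc,
      Matrix.mul_assoc, hcomm S hS, ← Matrix.mul_assoc, hQP, Matrix.one_mul]
  obtain ⟨g, hg, hX⟩ := herm_core_fix h2 h4 h' hfix
  refine ⟨g, hg, P, c, hc, hP, fun X hXh => ?_⟩
  have e := hX X hXh
  rw [← e, LinearMap.comp_apply, cjL_apply, ← sc_assoc, sc_mul_sc_mul, hPQ, sc_one_mul]

end Pool.Agent.W_MP_93b5ed_al

end
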