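import Pool.Agent.W_MP_93b5ed_al.OctAut

/-!
# Hermitian octonion matrices: basic notions
-/

noncomputable section

namespace Pool.Agent.W_MP_93b5ed_al

open Matrix

variable {K : Type*} [Field K] {n : ℕ}

/-- (twice) the Jordan product -/
def jm (X Y : OM n K) : OM n K := X * Y + Y * X

theorem jm_comm (X Y : OM n K) : jm X Y = jm Y X := by rw [jm, jm, add_comm]

theorem jm_add_right (X Y Z : OM n K) : jm X (Y + Z) = jm X Y + jm X Z := by
  rw [jm, jm, jm, Matrix.mul_add, Matrix.add_mul]; abel

theorem jm_add_left (X Y Z : OM n K) : jm (X + Y) Z = jm X Z + jm Y Z := by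
  rw [jm, jm, jm, Matrix.mul_add, Matrix.add_mul]; abel

theorem jm_sub_right (X Y Z : OM n K) : jm X (Y - Z) = jm X Y - jm X Z := by
  rw [jm, jm, jm, Matrix.mul_sub, Matrix.sub_mul]; abel

theorem jm_smul_right (c : K) (X Y : OM n K) : jm X (c • Y) = c • jm X Y := by
  rw [jm, jm, smul_add]
  congr 1
  · ext i j : 1
    rw [Matrix.smul_apply, Matrix.mul_apply, Matrix.mul_apply, Finset.smul_sum]
    exact Finset.sum_congr rfl fun k _ => by rw [Matrix.smul_apply, mul_smul_comm]
  · ext i j : 1
    rw [Matrix.smul_apply, Matrix.mul_apply, Matrix.mul_apply, Finset.smul_sum]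
    exact Finset.sum_congr rfl fun k _ => by rw [Matrix.smul_apply, smul_mul_assoc]

theorem jm_smul_left (c : K) (X Y : OM n K) : jm (c • X) Y = c • jm X Y := by
  rw [jm_comm, jm_smul_right, jm_comm]

theorem herm_jm {X Y : OM n K} (hX : Xᴴ = X) (hY : Yᴴ = Y) : (jm X Y)ᴴ = jm X Y := by
  rw [jm, conjTranspose_add, conjTranspose_mul, conjTranspose_mul, hX, hY, add_comm]

theorem herm_smul {X : OM n K} (c : K) (hX : Xᴴ = X) : (c • X)ᴴ = c • X :=
  (Herm n K).smul_mem c hX

theorem herm_add {X Y : OM n K} (hX : Xᴴ = X) (hY : Yᴴ = Y) : (X + Y)ᴴ = X + Y :=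
  (Herm n K).add_mem hX hY

theorem herm_sub {X Y : OM n K} (hX : Xᴴ = X) (hY : Yᴴ = Y) : (X - Y)ᴴ = X - Y :=
  (Herm n K).sub_mem hX hY

theorem herm_sc {S : Matrix (Fin n) (Fin n) K} (hS : S.IsSymm) : (sc S)ᴴ = sc S := by
  rw [sc_conjTranspose, hS.eq]

theorem of_herm_sc {S : Matrix (Fin n) (Fin n) K} (h : (sc S)ᴴ = sc S) : S.IsSymm := by
  rw [sc_conjTranspose] at h
  exact sc_injective h

theorem herm_apply {X : OM n K} (hX : Xᴴ = X) (i j : Fin n) : star (X j i) = X i j :=
  congrFun (congrFun hX i) j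

theorem isScal_of_star {x : Oct K} (h2 : (2 : K) ≠ 0) (h : star x = x) : Oct.IsScal x := by
  rw [Oct.isScal_iff]
  have half : ∀ x : K, -x = x → x = 0 := by
    intro x hx
    have : 2 * x = 0 := by linear_combination -hx
    exact (mul_eq_zero.1 this).resolve_left h2
  refine ⟨?_, ?_, ?_, ?_, ?_, ?_, ?_⟩
  · have := congrArg Oct.a h; simp at this; exact this.symm
  · have := congrArg Oct.u1 h; simp at this; exact half _ this
  · have := congrArg Oct.u2 h; simp at this; exact half _ this
  · have := congrArg Oct.u3 h; simp at this; exact half _ this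
  · have := congrArg Oct.v1 h; simp at this; exact half _ this
  · have := congrArg Oct.v2 h; simp at this; exact half _ this
  · have := congrArg Oct.v3 h; simp at this; exact half _ this

theorem herm_diag {X : OM n K} (h2 : (2 : K) ≠ 0) (hX : Xᴴ = X) (i : Fin n) :
    Oct.IsScal (X i i) := isScal_of_star h2 (herm_apply hX i i)

/-- the diagonal matrix unit -/
def Ei (i : Fin n) : OM n K := single i i 1

/-- the Hermitian matrix with `v` at position `(i, j)` and `star v` at `(j, i)` -/
def R (i j : Fin n) (v : Oct K) : OM n K := single i j v + single j i (star v)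

theorem sc_single (i j : Fin n) (c : K) : (sc (single i j c) : OM n K) = single i j (c • 1) := by
  ext a b : 1
  rw [sc_apply, s_apply, s_apply]
  split_ifs
  · rfl
  · rw [zero_smul]

theorem Ei_eq (i : Fin n) : (Ei i : OM n K) = sc (single i i 1) := by
  rw [sc_single, one_smul]; rfl

theorem R_one_eq (i j : Fin n) : (R i j 1 : OM n K) = sc (single i j 1 + single j i 1) := by
  rw [sc_add, sc_single, sc_single, one_smul, R, star_one_oct]

theorem herm_Ei (i : Fin n) : (Ei i : OM n K)ᴴ = Ei i := by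
  rw [Ei, conjTranspose_single, star_one_oct]

theorem herm_R (i j : Fin n) (v : Oct K) : (R i j v : OM n K)ᴴ = R i j v := by
  rw [R, conjTranspose_add, conjTranspose_single, conjTranspose_single, star_star, add_comm]

theorem R_smul (i j : Fin n) (c : K) (v : Oct K) : (R i j (c • v) : OM n K) = c • R i j v := by
  rw [R, R, star_smul_oct, smul_add, smul_single, smul_single]

theorem R_add (i j : Fin n) (v w : Oct K) : (R i j (v + w) : OM n K) = R i j v + R i j w := by
  rw [R, R, R, star_add, single_add, single_add]; abel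

theorem R_apply (i j : Fin n) (v : Oct K) (k l : Fin n) :
    (R i j v : OM n K) k l = (if i = k ∧ j = l then v else 0) +
      (if j = k ∧ i = l then star v else 0) := rfl

theorem R_same {i j : Fin n} (h : i ≠ j) (v : Oct K) : (R i j v : OM n K) i j = v := by
  simp [R_apply, h]

theorem jmE_apply (i : Fin n) (X : OM n K) (k l : Fin n) :
    (jm (Ei i) X) k l = (if i = k then X k l else 0) + (if i = l then X k l else 0) := by
  rw [jm, Ei, Matrix.add_apply, sm_apply, ms_apply, one_mul, mul_one]
  congr 1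
  · split_ifs with h
    · rw [h]
    · rfl
  · split_ifs with h
    · rw [h]
    · rfl

theorem jmR_apply (i j : Fin n) (v : Oct K) (X : OM n K) (k l : Fin n) :
    (jm (R i j v) X) k l = (if i = k then v * X j l else 0) + (if j = k then star v * X i l else 0) +
      ((if j = l then X k i * v else 0) + (if i = l then X k j * star v else 0)) := by
  rw [jm, R, Matrix.add_mul, Matrix.mul_add, Matrix.add_apply, Matrix.add_apply, Matrix.add_apply,
    sm_apply, sm_apply, ms_apply, ms_apply]

theorem jm_Ei_Ei (i : Fin n) : (jm (Ei i) (Ei i) : OM n K) = (2 : K) • Ei i := by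
  rw [jm, Ei, single_mul_single_same, mul_one, two_smul]

theorem jm_Ei_Ej {i j : Fin n} (h : i ≠ j) : (jm (Ei i) (Ei j) : OM n K) = 0 := by
  rw [jm, Ei, Ei, single_mul_single_of_ne _ _ _ _ h, single_mul_single_of_ne _ _ _ _ (Ne.symm h),
    add_zero]

theorem jm_Ei_R {i j : Fin n} (h : i ≠ j) (v : Oct K) : (jm (Ei i) (R i j v) : OM n K) = R i j v := by
  rw [jm, Ei, R, Matrix.mul_add, Matrix.add_mul, single_mul_single_same, single_mul_single_same,
    single_mul_single_of_ne _ _ _ _ h, single_mul_single_of_ne _ _ _ _ (Ne.symm h), one_mul,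
    mul_one, add_zero, zero_add]

theorem jm_Ej_R {i j : Fin n} (h : i ≠ j) (v : Oct K) : (jm (Ei j) (R i j v) : OM n K) = R i j v := by
  rw [jm, Ei, R, Matrix.mul_add, Matrix.add_mul, single_mul_single_same, single_mul_single_same,
    single_mul_single_of_ne _ _ _ _ h, single_mul_single_of_ne _ _ _ _ (Ne.symm h), one_mul,
    mul_one, add_zero, zero_add, add_comm]

theorem jm_R_R_disj {i j k l : Fin n} (hik : i ≠ k) (hil : i ≠ l) (hjk : j ≠ k) (hjl : j ≠ l)
    (v w : Oct K) : (jm (R i j v) (R k l w) : OM n K) = 0 := by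
  simp only [jm, R, Matrix.mul_add, Matrix.add_mul]
  rw [single_mul_single_of_ne _ _ _ _ hjk, single_mul_single_of_ne _ _ _ _ hjl,
    single_mul_single_of_ne _ _ _ _ hik, single_mul_single_of_ne _ _ _ _ hil,
    single_mul_single_of_ne _ _ _ _ hik.symm, single_mul_single_of_ne _ _ _ _ hil.symm,
    single_mul_single_of_ne _ _ _ _ hjk.symm, single_mul_single_of_ne _ _ _ _ hjl.symm]
  simp

theorem jm_R_R {i j k : Fin n} (hij : i ≠ j) (hik : i ≠ k) (hjk : j ≠ k)
    (v w : Oct K) : (jm (R i j v) (R j k w) : OM n K) = R i k (v * w) := by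
  simp only [jm, R, Matrix.mul_add, Matrix.add_mul]
  rw [single_mul_single_same, single_mul_single_of_ne _ _ _ _ hjk,
    single_mul_single_of_ne _ _ _ _ hij, single_mul_single_of_ne _ _ _ _ hik,
    single_mul_single_of_ne _ _ _ _ hik.symm, single_mul_single_of_ne _ _ _ _ hjk.symm,
    single_mul_single_of_ne _ _ _ _ hij.symm, single_mul_single_same, star_mul]
  simp

theorem jm_Ei_jm_Ej {i j : Fin n} (h : i ≠ j) {X : OM n K} (hX : Xᴴ = X) :
    jm (Ei i) (jm (Ei j) X) = R i j (X i j) := by
  ext k l : 1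
  rw [jmE_apply, jmE_apply, R_apply]
  by_cases h1 : i = k
  · subst h1
    by_cases h3 : j = l
    · subst h3
      simp [h, h.symm]
    · by_cases h4 : i = l
      · subst h4
        simp [h.symm]
      · simp [h3, h4, h.symm]
  · by_cases h2 : j = k
    · subst h2
      by_cases h4 : i = l
      · subst h4
        simp [h, h.symm, herm_apply hX]
      · simp [h4, h]
    · simp [h1, h2]
      intro h3 h4
      exact absurd (h3.trans h4.symm) h

/-- linear maps preserving Hermitian matrices and their Jordan products -/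
structure IsHermHom (Φ : OM n K →ₗ[K] OM n K) : Prop where
  herm : ∀ X : OM n K, Xᴴ = X → (Φ X)ᴴ = Φ X
  jm : ∀ X Y : OM n K, Xᴴ = X → Yᴴ = Y → Φ (jm X Y) = jm (Φ X) (Φ Y)

/-- mutually inverse maps preserving Hermitian matrices and their Jordan products -/
structure IsHermEquiv (Φ Ψ : OM n K →ₗ[K] OM n K) : Prop where
  hom1 : IsHermHom Φ
  hom2 : IsHermHom Ψ
  left : ∀ X : OM n K, Xᴴ = X → Ψ (Φ X) = X
  right : ∀ X : OM n K, Xᴴ = X → Φ (Ψ X) = X

theorem IsHermEquiv.symm {Φ Ψ : OM n K →ₗ[K] OM n K} (h : IsHermEquiv Φ Ψ) : IsHermEquiv Ψ Φ :=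
  ⟨h.hom2, h.hom1, h.right, h.left⟩

theorem IsHermEquiv.comp {Φ Ψ Φ' Ψ' : OM n K →ₗ[K] OM n K} (h : IsHermEquiv Φ Ψ)
    (h' : IsHermEquiv Φ' Ψ') : IsHermEquiv (Φ' ∘ₗ Φ) (Ψ ∘ₗ Ψ') where
  hom1 := ⟨fun X hX => h'.hom1.herm _ (h.hom1.herm _ hX), fun X Y hX hY => by
    rw [LinearMap.comp_apply, h.hom1.jm X Y hX hY, h'.hom1.jm _ _ (h.hom1.herm _ hX)
      (h.hom1.herm _ hY)]; rfl⟩
  hom2 := ⟨fun X hX => h.hom2.herm _ (h'.hom2.herm _ hX), fun X Y hX hY => by
    rw [LinearMap.comp_apply, h'.hom2.jm X Y hX hY, h.hom2.jm _ _ (h'.hom2.herm _ hX)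
      (h'.hom2.herm _ hY)]; rfl⟩
  left := fun X hX => by
    rw [LinearMap.comp_apply, LinearMap.comp_apply, h'.left _ (h.hom1.herm _ hX), h.left _ hX]
  right := fun X hX => by
    rw [LinearMap.comp_apply, LinearMap.comp_apply, h.right _ (h'.hom2.herm _ hX), h'.right _ hX]

/-- derivations of the algebra of Hermitian matrices -/
structure IsHermDer (d : OM n K →ₗ[K] OM n K) : Prop where
  herm : ∀ X : OM n K, Xᴴ = X → (d X)ᴴ = d X
  der : ∀ X Y : OM n K, Xᴴ = X → Yᴴ = Y → d (jm X Y) = jm (d X) Y + jm X (d Y)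

/-- all entries are scalar -/
def IsSc (X : OM n K) : Prop := ∀ i j, Oct.IsScal (X i j)

theorem isSc_sc (S : Matrix (Fin n) (Fin n) K) : IsSc (sc S : OM n K) :=
  fun i j => ⟨S i j, rfl⟩

theorem IsSc.jm {X Y : OM n K} (hX : IsSc X) (hY : IsSc Y) : IsSc (jm X Y) := by
  obtain ⟨M, rfl⟩ := exists_sc hX
  obtain ⟨N, rfl⟩ := exists_sc hY
  rw [W_MP_93b5ed_al.jm, sc_mul_sc, sc_mul_sc, ← sc_add]
  exact isSc_sc _

end Pool.Agent.W_MP_93b5ed_al

end

/-!
# Derivations of the algebra of Hermitian octonion matrices preserve the scalar matrices (n ≥ 4)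
-/

noncomputable section

namespace Pool.Agent.W_MP_93b5ed_al

open Matrix

variable {K : Type*} [Field K] {n : ℕ}

theorem exists_ne2 (h4 : 4 ≤ n) (a b : Fin n) : ∃ c : Fin n, c ≠ a ∧ c ≠ b := by
  by_contra hcon
  push Not at hcon
  have h1 : (Finset.univ : Finset (Fin n)) ⊆ {a, b} := by
    intro c _
    by_cases hc : c = a
    · simp [hc]
    · simp [hcon c hc]
  have h2 := Finset.card_le_card h1
  have h3 : ({a, b} : Finset (Fin n)).card ≤ 2 := Finset.card_le_two
  rw [Finset.card_univ, Fintype.card_fin] at h2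
  omega

theorem exists_ne3 (h4 : 4 ≤ n) (a b c : Fin n) : ∃ d : Fin n, d ≠ a ∧ d ≠ b ∧ d ≠ c := by
  by_contra hcon
  push Not at hcon
  have h1 : (Finset.univ : Finset (Fin n)) ⊆ {a, b, c} := by
    intro d _
    by_cases hd : d = a
    · simp [hd]
    · by_cases hd' : d = b
      · simp [hd']
      · simp [hcon d hd hd']
  have h2 := Finset.card_le_card h1
  have h3 : ({a, b, c} : Finset (Fin n)).card ≤ 3 := Finset.card_le_three
  rw [Finset.card_univ, Fintype.card_fin] at h2
  omega

section

variable {d : OM n K →ₗ[K] OM n K}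

/-- `d (E_i) = jm (E_i) (d (E_i))` -/
theorem der_Ei (h2 : (2 : K) ≠ 0) (hd : IsHermDer d) (i : Fin n) :
    d (Ei i) = jm (Ei i) (d (Ei i)) := by
  have e := hd.der (Ei i) (Ei i) (herm_Ei i) (herm_Ei i)
  rw [jm_Ei_Ei, map_smul, jm_comm (d (Ei i)), ← two_smul K] at e
  have e4 := congrArg (fun z => (2 : K)⁻¹ • z) e
  simpa only [smul_smul, inv_mul_cancel₀ h2, one_smul] using e4

theorem der_Ei_out (h2 : (2 : K) ≠ 0) (hd : IsHermDer d) (i : Fin n) {k l : Fin n}
    (hk : i ≠ k) (hl : i ≠ l) : d (Ei i) k l = 0 := by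
  have e := congrFun (congrFun (der_Ei h2 hd i) k) l
  rw [jmE_apply, if_neg hk, if_neg hl, add_zero] at e
  exact e

theorem der_Ei_diag (h2 : (2 : K) ≠ 0) (hd : IsHermDer d) (i : Fin n) : d (Ei i) i i = 0 := by
  have e := congrFun (congrFun (der_Ei h2 hd i) i) i
  rw [jmE_apply, if_pos rfl] at e
  exact left_eq_add.1 e

theorem der_Ei_anti (hd : IsHermDer d) {i j : Fin n} (h : i ≠ j) :
    d (Ei j) i j = -(d (Ei i) i j) := by
  have e := hd.der (Ei i) (Ei j) (herm_Ei i) (herm_Ei j)
  rw [jm_Ei_Ej h, map_zero, jm_comm (d (Ei i))] at e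
  have e1 := congrFun (congrFun e i) j
  rw [Matrix.zero_apply, Matrix.add_apply, jmE_apply, jmE_apply, if_neg (Ne.symm h), if_pos rfl,
    if_pos rfl, if_neg h, zero_add, add_zero] at e1
  exact (neg_eq_of_add_eq_zero_right e1.symm).symm

/-- entries of `d (R i j v)` -/
theorem der_R_ik (hd : IsHermDer d) {i j k : Fin n} (hij : i ≠ j) (hik : i ≠ k) (hjk : j ≠ k)
    (v : Oct K) : d (R i j v) i k = v * d (Ei j) j k := by
  have e := hd.der (Ei j) (R i j v) (herm_Ei j) (herm_R i j v)
  rw [jm_Ej_R hij, jm_comm (d (Ei j))] at e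
  have e1 := congrFun (congrFun e i) k
  rw [Matrix.add_apply, jmR_apply, jmE_apply, if_pos rfl, if_neg (Ne.symm hij), if_neg hjk,
    if_neg hik, if_neg (Ne.symm hij), if_neg hjk] at e1
  simpa using e1

theorem der_R_jk (hd : IsHermDer d) {i j k : Fin n} (hij : i ≠ j) (hik : i ≠ k) (hjk : j ≠ k)
    (v : Oct K) : d (R i j v) j k = star v * d (Ei i) i k := by
  have e := hd.der (Ei i) (R i j v) (herm_Ei i) (herm_R i j v)
  rw [jm_Ei_R hij, jm_comm (d (Ei i))] at e
  have e1 := congrFun (congrFun e j) k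
  rw [Matrix.add_apply, jmR_apply, jmE_apply, if_neg hij, if_pos rfl, if_neg hjk,
    if_neg hik, if_neg hij, if_neg hik] at e1
  simpa using e1

theorem der_R_kl (hd : IsHermDer d) {i j k l : Fin n} (hij : i ≠ j) (hik : i ≠ k) (hjk : j ≠ k)
    (hil : i ≠ l) (hjl : j ≠ l) (v : Oct K) : d (R i j v) k l = 0 := by
  have e := hd.der (Ei i) (R i j v) (herm_Ei i) (herm_R i j v)
  rw [jm_Ei_R hij, jm_comm (d (Ei i))] at e
  have e1 := congrFun (congrFun e k) l
  rw [Matrix.add_apply, jmR_apply, jmE_apply, if_neg hik, if_neg hjk, if_neg hjl,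
    if_neg hil, if_neg hik, if_neg hil] at e1
  simpa using e1

theorem der_Ei_scal_aux (hd : IsHermDer d) {i j k l : Fin n} (hij : i ≠ j) (hik : i ≠ k)
    (hjk : j ≠ k) (hil : i ≠ l) (hjl : j ≠ l) (hkl : k ≠ l) : Oct.IsScal (d (Ei j) j k) := by
  apply Oct.isScal_of_nucleus
  intro v w
  have e := hd.der (R i j v) (R k l w) (herm_R i j v) (herm_R k l w)
  rw [jm_R_R_disj hik hil hjk hjl, map_zero, jm_comm (d (R i j v))] at e
  have e1 := congrFun (congrFun e i) l
  rw [Matrix.zero_apply, Matrix.add_apply, jmR_apply, jmR_apply] at e1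
  have hz : d (R k l w) j l = -(d (Ei j) j k) * w := by
    rw [← herm_apply (hd.herm _ (herm_R k l w)) j l, der_R_jk hd hkl (Ne.symm hjk) (Ne.symm hjl) w,
      star_mul, star_star, herm_apply (hd.herm _ (herm_Ei k)) j k, der_Ei_anti hd hjk]
  rw [if_neg hik.symm, if_neg hil.symm, if_pos rfl, if_neg hkl, if_pos rfl, if_neg hij.symm,
    if_neg hjl, if_neg hil, der_R_ik hd hij hik hjk, hz] at e1
  simp only [zero_add, add_zero, neg_mul, mul_neg] at e1
  exact (sub_eq_zero.1 (by rw [sub_eq_add_neg]; exact e1.symm))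

theorem der_Ei_scal (h2 : (2 : K) ≠ 0) (h4 : 4 ≤ n) (hd : IsHermDer d) (j : Fin n) :
    IsSc (d (Ei j)) := by
  have key : ∀ k, Oct.IsScal (d (Ei j) j k) := by
    intro k
    by_cases hjk : j = k
    · rw [← hjk, der_Ei_diag h2 hd]; exact Oct.isScal_zero
    · obtain ⟨i, hij, hik⟩ := exists_ne2 h4 j k
      obtain ⟨l, hli, hlj, hlk⟩ := exists_ne3 h4 i j k
      exact der_Ei_scal_aux hd hij hik hjk hli.symm hlj.symm hlk.symm
  intro k l
  by_cases hk : j = k
  · rw [← hk]; exact key l
  · by_cases hl : j = l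
    · rw [← hl, ← herm_apply (hd.herm _ (herm_Ei j)) k j]
      exact (key k).star
    · rw [der_Ei_out h2 hd j hk hl]
      exact Oct.isScal_zero

/-- the multiplicativity relation -/
theorem der_R_mul (hd : IsHermDer d) {i j k : Fin n} (hij : i ≠ j) (hik : i ≠ k)
    (hjk : j ≠ k) (v w : Oct K) :
    d (R i k (v * w)) i k = d (R i j v) i j * w + v * d (R j k w) j k := by
  have e := hd.der (R i j v) (R j k w) (herm_R i j v) (herm_R j k w)
  rw [jm_R_R hij hik hjk, jm_comm (d (R i j v))] at e
  have e1 := congrFun (congrFun e i) k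
  rw [Matrix.add_apply, jmR_apply, jmR_apply, if_neg hij.symm, if_neg hik.symm, if_pos rfl,
    if_neg hjk, if_pos rfl, if_neg hij.symm, if_neg hjk, if_neg hik] at e1
  simpa using e1

theorem der_R_one_scal (hd : IsHermDer d) {i j k l : Fin n} (hij : i ≠ j) (hik : i ≠ k)
    (hjk : j ≠ k) (hil : i ≠ l) (hjl : j ≠ l) (hkl : k ≠ l) : Oct.IsScal (d (R j k 1) j k) := by
  apply Oct.isScal_of_nucleus
  intro v w
  have e1 := der_R_mul hd hij hil hjl v w
  have e2 := der_R_mul hd hik hil hkl v w
  have e3 := der_R_mul hd hij hik hjk v 1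
  have e4 := der_R_mul hd hjk hjl hkl 1 w
  rw [mul_one, mul_one] at e3
  rw [one_mul, one_mul] at e4
  rw [e4, mul_add] at e1
  rw [e3, add_mul, e1, ← add_assoc] at e2
  have e5 := add_right_cancel e2
  exact (add_left_cancel e5).symm

theorem der_R_scal (h2 : (2 : K) ≠ 0) (h4 : 4 ≤ n) (hd : IsHermDer d) {i j : Fin n}
    (hij : i ≠ j) : IsSc (d (R i j 1)) := by
  have hT : Oct.IsScal (d (R i j 1) i j) := by
    obtain ⟨a, hai, haj⟩ := exists_ne2 h4 i j
    obtain ⟨l, hla, hli, hlj⟩ := exists_ne3 h4 a i j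
    exact der_R_one_scal hd hai haj hij hla.symm hli.symm hlj.symm
  have hh := hd.herm _ (herm_R i j (1 : Oct K))
  have r1 : ∀ k, Oct.IsScal (d (R i j 1) i k) := by
    intro k
    by_cases hk : i = k
    · rw [← hk]; exact herm_diag h2 hh i
    · by_cases hk' : j = k
      · rw [← hk']; exact hT
      · rw [der_R_ik hd hij hk hk', one_mul]
        exact der_Ei_scal h2 h4 hd j j k
  have r2 : ∀ k, Oct.IsScal (d (R i j 1) j k) := by
    intro k
    by_cases hk' : j = k
    · rw [← hk']; exact herm_diag h2 hh j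
    · by_cases hk : i = k
      · rw [← hk, ← herm_apply hh j i]; exact hT.star
      · rw [der_R_jk hd hij hk hk', star_one_oct, one_mul]
        exact der_Ei_scal h2 h4 hd i i k
  intro k l
  by_cases hk : i = k
  · rw [← hk]; exact r1 l
  · by_cases hk' : j = k
    · rw [← hk']; exact r2 l
    · by_cases hl : i = l
      · rw [← hl, ← herm_apply hh k i]; exact (r1 k).star
      · by_cases hl' : j = l
        · rw [← hl', ← herm_apply hh k j]; exact (r2 k).star
        · rw [der_R_kl hd hij hk hk' hl hl']; exact Oct.isScal_zero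

theorem IsSc.add {X Y : OM n K} (hX : IsSc X) (hY : IsSc Y) : IsSc (X + Y) :=
  fun i j => (hX i j).add (hY i j)

theorem IsSc.sub {X Y : OM n K} (hX : IsSc X) (hY : IsSc Y) : IsSc (X - Y) :=
  fun i j => (hX i j).sub (hY i j)

theorem IsSc.smul {X : OM n K} (c : K) (hX : IsSc X) : IsSc (c • X) :=
  fun i j => (hX i j).smul c

/-- **(H1)** derivations preserve scalar symmetric matrices -/
theorem der_sc (h2 : (2 : K) ≠ 0) (h4 : 4 ≤ n) (hd : IsHermDer d)
    {S : Matrix (Fin n) (Fin n) K} (hS : S.IsSymm) :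
    ∃ S' : Matrix (Fin n) (Fin n) K, S'.IsSymm ∧ d (sc S) = sc S' := by
  have hh := hd.herm _ (herm_sc hS)
  have key : IsSc (d (sc S)) := by
    intro i j
    by_cases hij : i = j
    · rw [← hij]; exact herm_diag h2 hh i
    · have e := congrArg d (jm_Ei_jm_Ej hij (herm_sc hS))
      rw [hd.der _ _ (herm_Ei i) (herm_jm (herm_Ei j) (herm_sc hS)),
        hd.der _ _ (herm_Ei j) (herm_sc hS), jm_add_right, jm_Ei_jm_Ej hij hh, sc_apply, R_smul,
        map_smul] at e
      have e1 : R i j (d (sc S) i j) = S i j • d (R i j 1) - jm (d (Ei i)) (jm (Ei j) (sc S)) -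
          jm (Ei i) (jm (d (Ei j)) (sc S)) := by
        rw [← e]; abel
      have e2 : IsSc (R i j (d (sc S) i j)) := by
        rw [e1]
        refine IsSc.sub (IsSc.sub (IsSc.smul _ (der_R_scal h2 h4 hd hij)) ?_) ?_
        · refine IsSc.jm (der_Ei_scal h2 h4 hd i) (IsSc.jm ?_ (isSc_sc S))
          rw [Ei_eq]; exact isSc_sc _
        · refine IsSc.jm ?_ (IsSc.jm (der_Ei_scal h2 h4 hd j) (isSc_sc S))
          rw [Ei_eq]; exact isSc_sc _
      have e3 := e2 i j
      rw [R_same hij] at e3
      exact e3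
  obtain ⟨S', hS'⟩ := exists_sc key
  exact ⟨S', of_herm_sc (by rw [← hS']; exact hh), hS'⟩

end

end Pool.Agent.W_MP_93b5ed_al

end

/-!
# Automorphisms of Hermitian octonion matrices preserve the scalar matrices (n ≥ 4)
-/

noncomputable section

namespace Pool.Agent.W_MP_93b5ed_al

open Matrix

variable {K : Type*} [Field K] {n : ℕ}

/-- entrywise derivation -/
theorem isHermDer_mapL {D : Oct K →ₗ[K] Oct K} (hD : Oct.IsDer D) :
    IsHermDer (n := n) (mapL D) := by
  have hm : ∀ X Y : OM n K, mapL D (X * Y) = mapL D X * Y + X * mapL D Y := by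
    intro X Y
    ext i j : 1
    rw [mapL_apply, Matrix.add_apply, Matrix.mul_apply, Matrix.mul_apply, Matrix.mul_apply,
      map_sum, ← Finset.sum_add_distrib]
    refine Finset.sum_congr rfl fun k _ => ?_
    rw [hD.1, mapL_apply, mapL_apply]
  refine ⟨fun X hX => ?_, fun X Y _ _ => ?_⟩
  · rw [mapL_conjTranspose hD.2.1, hX]
  · rw [jm, map_add, hm, hm, jm, jm]; abel

/-- commutator with a scalar matrix -/
def adL (A : Matrix (Fin n) (Fin n) K) : OM n K →ₗ[K] OM n K where
  toFun X := sc A * X - X * sc A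
  map_add' X Y := by rw [Matrix.mul_add, Matrix.add_mul]; abel
  map_smul' c X := by
    ext i j : 1
    rw [RingHom.id_apply, Matrix.smul_apply, Matrix.sub_apply, Matrix.sub_apply, sc_mul_apply,
      mul_sc_apply, sc_mul_apply, mul_sc_apply, smul_sub, Finset.smul_sum, Finset.smul_sum]
    congr 1
    · exact Finset.sum_congr rfl fun k _ => by rw [Matrix.smul_apply, smul_comm]
    · exact Finset.sum_congr rfl fun k _ => by rw [Matrix.smul_apply, smul_comm]

theorem adL_apply (A : Matrix (Fin n) (Fin n) K) (X : OM n K) :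
    adL A X = sc A * X - X * sc A := rfl

theorem isHermDer_adL {A : Matrix (Fin n) (Fin n) K} (hA : Aᵀ = -A) : IsHermDer (adL A) := by
  refine ⟨fun X hX => ?_, fun X Y _ _ => ?_⟩
  · rw [adL_apply, conjTranspose_sub, conjTranspose_mul, conjTranspose_mul, hX, sc_conjTranspose,
      hA, sc_eq, tens_neg_left, ← sc_eq, Matrix.mul_neg, Matrix.neg_mul]
    abel
  · simp only [adL_apply, jm, Matrix.sub_mul, Matrix.mul_sub, Matrix.add_mul, Matrix.mul_add,
      sc_assoc, assoc_sc_mid, assoc_sc]
    abel

/-- the image of the scalar symmetric matrices -/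
def InS (Φ : OM n K →ₗ[K] OM n K) (X : OM n K) : Prop :=
  ∃ S : Matrix (Fin n) (Fin n) K, S.IsSymm ∧ X = Φ (sc S)

section

variable {Φ Ψ : OM n K →ₗ[K] OM n K}

/-- **(H2)** the image of the scalar symmetric matrices is invariant under derivations -/
theorem inS_der (h2 : (2 : K) ≠ 0) (h4 : 4 ≤ n) (h : IsHermEquiv Φ Ψ)
    {D : OM n K →ₗ[K] OM n K} (hD : IsHermDer D) {X : OM n K} (hX : InS Φ X) : InS Φ (D X) := by
  obtain ⟨S, hS, rfl⟩ := hX
  have hd : IsHermDer (Ψ ∘ₗ D ∘ₗ Φ) := by
    refine ⟨fun X hX => h.hom2.herm _ (hD.herm _ (h.hom1.herm _ hX)), fun X Y hX hY => ?_⟩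
    have hX' := h.hom1.herm _ hX
    have hY' := h.hom1.herm _ hY
    simp only [LinearMap.comp_apply]
    rw [h.hom1.jm X Y hX hY, hD.der _ _ hX' hY', map_add,
      h.hom2.jm _ _ (hD.herm _ hX') hY', h.hom2.jm _ _ hX' (hD.herm _ hY'), h.left X hX,
      h.left Y hY]
  obtain ⟨S', hS', e⟩ := der_sc h2 h4 hd hS
  refine ⟨S', hS', ?_⟩
  rw [← e]
  exact (h.right _ (hD.herm _ (h.hom1.herm _ (herm_sc hS)))).symm

theorem inS_sub {X Y : OM n K} (hX : InS Φ X) (hY : InS Φ Y) : InS Φ (X - Y) := by
  obtain ⟨S, hS, rfl⟩ := hX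
  obtain ⟨T, hT, rfl⟩ := hY
  refine ⟨S - T, ?_, by rw [sc_sub, map_sub]⟩
  show (S - T)ᵀ = S - T
  rw [transpose_sub, hS.eq, hT.eq]

theorem inS_neg {X : OM n K} (hX : InS Φ X) : InS Φ (-X) := by
  obtain ⟨S, hS, rfl⟩ := hX
  refine ⟨-S, ?_, by rw [sc_eq, sc_eq, tens_neg_left, map_neg]⟩
  show (-S)ᵀ = -S
  rw [transpose_neg, hS.eq]

theorem inS_herm (h : IsHermHom Φ) {X : OM n K} (hX : InS Φ X) : Xᴴ = X := by
  obtain ⟨S, hS, rfl⟩ := hX
  exact h.herm _ (herm_sc hS)

end

/-- antisymmetric entries -/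
def AS (X : OM n K) : Prop := (∀ k, X k k = 0) ∧ ∀ k l, X l k = -X k l

/-- the mask: exactly one index in `{i, j}` -/
def msk (i j : Fin n) (X : OM n K) : OM n K := fun k l =>
  if (k = i ∨ k = j) then (if (l = i ∨ l = j) then 0 else X k l)
  else (if (l = i ∨ l = j) then X k l else 0)

theorem msk_AS {X : OM n K} (hX : AS X) (i j : Fin n) : AS (msk i j X) := by
  refine ⟨fun k => ?_, fun k l => ?_⟩
  · simp only [msk, hX.1 k]
    split_ifs <;> rfl
  · simp only [msk, hX.2 k l]
    split_ifs <;> simp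

theorem sub_AS {X Y : OM n K} (hX : AS X) (hY : AS Y) : AS (X - Y) := by
  refine ⟨fun k => ?_, fun k l => ?_⟩
  · rw [Matrix.sub_apply, hX.1, hY.1, sub_zero]
  · rw [Matrix.sub_apply, Matrix.sub_apply, hX.2 k l, hY.2 k l]; abel

theorem adL_e_apply (i j : Fin n) (X : OM n K) (k l : Fin n) :
    adL (single i j 1 - single j i 1) X k l =
      ((if i = k then X j l else 0) - (if j = k then X i l else 0)) -
      ((if j = l then X k i else 0) - (if i = l then X k j else 0)) := by
  rw [adL_apply, sc_sub, sc_single, sc_single, one_smul, Matrix.sub_mul, Matrix.mul_sub,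
    Matrix.sub_apply, Matrix.sub_apply, Matrix.sub_apply, sm_apply, sm_apply, ms_apply, ms_apply]
  simp only [one_mul, mul_one]

theorem msk_eq {i j : Fin n} (hij : i ≠ j) {X : OM n K} (hX : AS X) :
    msk i j X = -adL (single i j 1 - single j i 1) (adL (single i j 1 - single j i 1) X) := by
  have hji := hij.symm
  ext k l : 1
  rw [Matrix.neg_apply, adL_e_apply, adL_e_apply, adL_e_apply, adL_e_apply, adL_e_apply]
  simp only [msk]
  by_cases hik : i = k
  · subst hik
    by_cases hil : i = l
    · subst hil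
      simp [hij, hji, hX.1]
    · by_cases hjl : j = l
      · subst hjl
        simp [hij, hji, hX.1, hX.2 i j]
      · have h1 := Ne.symm hil
        have h2 := Ne.symm hjl
        simp [hij, hji, hil, hjl, h1, h2]
  · by_cases hjk : j = k
    · subst hjk
      by_cases hil : i = l
      · subst hil
        simp [hij, hji, hX.1, hX.2 j i]
      · by_cases hjl : j = l
        · subst hjl
          simp [hij, hji, hX.1]
        · have h1 := Ne.symm hil
          have h2 := Ne.symm hjl
          simp [hij, hji, hil, hjl, h1, h2]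
    · have h3 := Ne.symm hik
      have h4 := Ne.symm hjk
      by_cases hil : i = l
      · subst hil
        simp [hij, hji, hik, hjk, h3, h4]
      · by_cases hjl : j = l
        · subst hjl
          simp [hij, hji, hik, hjk, h3, h4]
        · have h1 := Ne.symm hil
          have h2 := Ne.symm hjl
          simp [hil, hjl, hik, hjk, h1, h2, h3, h4]

section

variable {Φ Ψ : OM n K →ₗ[K] OM n K}

theorem inS_msk (h2 : (2 : K) ≠ 0) (h4 : 4 ≤ n) (h : IsHermEquiv Φ Ψ) {i j : Fin n} (hij : i ≠ j)
    {X : OM n K} (hX : InS Φ X) (hX' : AS X) : InS Φ (msk i j X) := by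
  have hA : (single i j (1 : K) - single j i 1)ᵀ = -(single i j (1 : K) - single j i 1) := by
    rw [transpose_sub, transpose_single, transpose_single, neg_sub]
  rw [msk_eq hij hX']
  exact inS_neg (inS_der h2 h4 h (isHermDer_adL hA) (inS_der h2 h4 h (isHermDer_adL hA) hX))

/-- the isolating operator -/
theorem iso_eq {p q r s : Fin n} (hpq : p ≠ q) (hpr : p ≠ r) (hps : p ≠ s) (hqr : q ≠ r)
    (hqs : q ≠ s) (hrs : r ≠ s) {X : OM n K} (hX : AS X) (hXh : Xᴴ = X) :
    msk r q (msk r p X) - msk r s (msk r q (msk r p X)) = R p q (X p q) + R r s (X r s) := by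
  have e1 : star (X p q) = X q p := herm_apply hXh q p
  have e2 : star (X r s) = X s r := herm_apply hXh s r
  have hpq' := hpq.symm
  have hpr' := hpr.symm
  have hps' := hps.symm
  have hqr' := hqr.symm
  have hqs' := hqs.symm
  have hrs' := hrs.symm
  ext k l : 1
  rw [Matrix.sub_apply, Matrix.add_apply, R_apply, R_apply, e1, e2]
  simp only [msk]
  by_cases kp : k = p
  · subst kp
    by_cases lp : l = k
    · subst lp; simp [*]
    · by_cases lq : l = q
      · subst lq; simp [*]
      · by_cases lr : l = r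
        · subst lr; simp [*]
        · by_cases ls : l = s
          · subst ls; simp [*]
          · have a1 := Ne.symm lp
            have a2 := Ne.symm lq
            have a3 := Ne.symm lr
            have a4 := Ne.symm ls
            simp [*]
  · by_cases kq : k = q
    · subst kq
      by_cases lp : l = p
      · subst lp; simp [*]
      · by_cases lq : l = k
        · subst lq; simp [*]
        · by_cases lr : l = r
          · subst lr; simp [*]
          · by_cases ls : l = s
            · subst ls; simp [*]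
            · have a1 := Ne.symm lp
              have a2 := Ne.symm lq
              have a3 := Ne.symm lr
              have a4 := Ne.symm ls
              simp [*]
    · by_cases kr : k = r
      · subst kr
        by_cases lp : l = p
        · subst lp; simp [*]
        · by_cases lq : l = q
          · subst lq; simp [*]
          · by_cases lr : l = k
            · subst lr; simp [*]
            · by_cases ls : l = s
              · subst ls; simp [*]
              · have a1 := Ne.symm lp
                have a2 := Ne.symm lq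
                have a3 := Ne.symm lr
                have a4 := Ne.symm ls
                simp [*]
      · by_cases ks : k = s
        · subst ks
          by_cases lp : l = p
          · subst lp; simp [*]
          · by_cases lq : l = q
            · subst lq; simp [*]
            · by_cases lr : l = r
              · subst lr; simp [*]
              · by_cases ls : l = k
                · subst ls; simp [*]
                · have a1 := Ne.symm lp
                  have a2 := Ne.symm lq
                  have a3 := Ne.symm lr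
                  have a4 := Ne.symm ls
                  simp [*]
        · have b1 := Ne.symm kp
          have b2 := Ne.symm kq
          have b3 := Ne.symm kr
          have b4 := Ne.symm ks
          by_cases lp : l = p
          · subst lp; simp [*]
          · by_cases lq : l = q
            · subst lq; simp [*]
            · by_cases lr : l = r
              · subst lr; simp [*]
              · have a1 := Ne.symm lp
                have a2 := Ne.symm lq
                have a3 := Ne.symm lr
                simp [*]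

end

end Pool.Agent.W_MP_93b5ed_al

end
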