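import Mathlib

/-!
# Entries of products with matrix units
-/

namespace Pool.Agent.W_MP_93b5ed_al

open Matrix

variable {α : Type*} [NonUnitalNonAssocSemiring α] {n : ℕ}

theorem ms_ne (M : Matrix (Fin n) (Fin n) α) (i j : Fin n) (c : α) (k : Fin n) {l : Fin n}
    (h : j ≠ l) : (M * single i j c) k l = 0 :=
  mul_single_apply_of_ne c i j k l (Ne.symm h) M

theorem ms_same (M : Matrix (Fin n) (Fin n) α) (i j : Fin n) (c : α) (k : Fin n) :
    (M * single i j c) k j = M k i * c :=
  mul_single_apply_same c i j k M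

theorem sm_ne (M : Matrix (Fin n) (Fin n) α) (i j : Fin n) (c : α) {k : Fin n} (l : Fin n)
    (h : i ≠ k) : (single i j c * M) k l = 0 :=
  single_mul_apply_of_ne c i j k l (Ne.symm h) M

theorem sm_same (M : Matrix (Fin n) (Fin n) α) (i j : Fin n) (c : α) (l : Fin n) :
    (single i j c * M) i l = c * M j l :=
  single_mul_apply_same c i j l M

theorem s_apply (i j : Fin n) (c : α) (k l : Fin n) :
    (single i j c : Matrix (Fin n) (Fin n) α) k l = if i = k ∧ j = l then c else 0 := rfl

theorem ms_apply (M : Matrix (Fin n) (Fin n) α) (i j : Fin n) (c : α) (k l : Fin n) :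
    (M * single i j c) k l = if j = l then M k i * c else 0 := by
  split_ifs with h
  · subst h; exact ms_same M i j c k
  · exact ms_ne M i j c k h

theorem sm_apply (M : Matrix (Fin n) (Fin n) α) (i j : Fin n) (c : α) (k l : Fin n) :
    (single i j c * M) k l = if i = k then c * M j l else 0 := by
  split_ifs with h
  · subst h; exact sm_same M i j c l
  · exact sm_ne M i j c l h

end Pool.Agent.W_MP_93b5ed_al

/-!
# Jordan automorphisms of symmetric matrices
-/

noncomputable section

namespace Pool.Agent.W_MP_93b5ed_al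

open Matrix

variable {K : Type*} [Field K] {n : ℕ}

theorem isSymm_single (i : Fin n) : (single i i (1 : K)).IsSymm := by
  ext a b
  simp only [transpose_apply, s_apply, and_comm]

theorem isSymm_single_add (i j : Fin n) : (single i j (1 : K) + single j i (1 : K)).IsSymm := by
  ext a b
  simp only [transpose_apply, s_apply, Matrix.add_apply]
  rw [add_comm]
  congr 1
  · simp only [and_comm]
  · simp only [and_comm]

theorem isSymm_anticomm {s t : Matrix (Fin n) (Fin n) K} (hs : s.IsSymm) (ht : t.IsSymm) :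
    (s * t + t * s).IsSymm := by
  show (s * t + t * s)ᵀ = _
  rw [transpose_add, transpose_mul, transpose_mul, hs.eq, ht.eq, add_comm]

theorem isSymm_trip {s t : Matrix (Fin n) (Fin n) K} (hs : s.IsSymm) (ht : t.IsSymm) :
    (s * t * s).IsSymm := by
  show (s * t * s)ᵀ = _
  rw [transpose_mul, transpose_mul, hs.eq, ht.eq, Matrix.mul_assoc]

theorem isSymm_trip3 {a b c : Matrix (Fin n) (Fin n) K} (ha : a.IsSymm) (hb : b.IsSymm)
    (hc : c.IsSymm) : (a * b * c + c * b * a).IsSymm := by
  show (a * b * c + c * b * a)ᵀ = _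
  rw [transpose_add, transpose_mul, transpose_mul, transpose_mul, transpose_mul, ha.eq, hb.eq,
    hc.eq, add_comm, Matrix.mul_assoc, Matrix.mul_assoc]

/-- the structure of a linear map preserving the Jordan product on symmetric matrices -/
structure IsJordan (ψ : Matrix (Fin n) (Fin n) K →ₗ[K] Matrix (Fin n) (Fin n) K) : Prop where
  symm : ∀ s : Matrix (Fin n) (Fin n) K, s.IsSymm → (ψ s).IsSymm
  mul : ∀ s t : Matrix (Fin n) (Fin n) K, s.IsSymm → t.IsSymm →
    ψ (s * t + t * s) = ψ s * ψ t + ψ t * ψ s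
  inj : ∀ s : Matrix (Fin n) (Fin n) K, s.IsSymm → ψ s = 0 → s = 0
  surj : ∀ s : Matrix (Fin n) (Fin n) K, s.IsSymm → ∃ t : Matrix (Fin n) (Fin n) K, t.IsSymm ∧ ψ t = s

namespace IsJordan

variable {ψ : Matrix (Fin n) (Fin n) K →ₗ[K] Matrix (Fin n) (Fin n) K}

theorem trip3 (h2 : (2 : K) ≠ 0) (h : IsJordan ψ) {a b c : Matrix (Fin n) (Fin n) K}
    (ha : a.IsSymm) (hb : b.IsSymm) (hc : c.IsSymm) :
    ψ (a * b * c + c * b * a) = ψ a * ψ b * ψ c + ψ c * ψ b * ψ a := by
  have e1 : (2 : K) • (a * b * c + c * b * a) = ((a * b + b * a) * c + c * (a * b + b * a)) +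
      ((b * c + c * b) * a + a * (b * c + c * b)) - ((a * c + c * a) * b + b * (a * c + c * a)) := by
    rw [two_smul]; noncomm_ring
  have e2 := congrArg ψ e1
  rw [map_smul, map_sub ψ, map_add ψ (_ * _ + _ * _) (_ * _ + _ * _), h.mul _ _ (isSymm_anticomm ha hb) hc,
    h.mul _ _ (isSymm_anticomm hb hc) ha, h.mul _ _ (isSymm_anticomm ha hc) hb,
    h.mul _ _ ha hb, h.mul _ _ hb hc, h.mul _ _ ha hc] at e2
  have e3 : (2 : K) • (ψ a * ψ b * ψ c + ψ c * ψ b * ψ a) =
      ((ψ a * ψ b + ψ b * ψ a) * ψ c + ψ c * (ψ a * ψ b + ψ b * ψ a)) +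
      ((ψ b * ψ c + ψ c * ψ b) * ψ a + ψ a * (ψ b * ψ c + ψ c * ψ b)) -
      ((ψ a * ψ c + ψ c * ψ a) * ψ b + ψ b * (ψ a * ψ c + ψ c * ψ a)) := by
    rw [two_smul]; noncomm_ring
  rw [← e3] at e2
  have e4 := congrArg (fun z => (2 : K)⁻¹ • z) e2
  simpa only [smul_smul, inv_mul_cancel₀ h2, one_smul] using e4

theorem trip (h2 : (2 : K) ≠ 0) (h : IsJordan ψ) {a b : Matrix (Fin n) (Fin n) K}
    (ha : a.IsSymm) (hb : b.IsSymm) : ψ (a * b * a) = ψ a * ψ b * ψ a := by
  have e := h.trip3 h2 ha hb ha
  rw [← two_smul K, ← two_smul K, map_smul] at e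
  have e4 := congrArg (fun z => (2 : K)⁻¹ • z) e
  simpa only [smul_smul, inv_mul_cancel₀ h2, one_smul] using e4

theorem sq (h2 : (2 : K) ≠ 0) (h : IsJordan ψ) {a : Matrix (Fin n) (Fin n) K}
    (ha : a.IsSymm) : ψ (a * a) = ψ a * ψ a := by
  have e := h.mul a a ha ha
  rw [← two_smul K, ← two_smul K, map_smul] at e
  have e4 := congrArg (fun z => (2 : K)⁻¹ • z) e
  simpa only [smul_smul, inv_mul_cancel₀ h2, one_smul] using e4

end IsJordan

/-- a symmetric-commuting matrix is scalar -/
theorem scalar_of_comm {M : Matrix (Fin n) (Fin n) K} (o : Fin n)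
    (h : ∀ s : Matrix (Fin n) (Fin n) K, s.IsSymm → M * s = s * M) :
    M = M o o • (1 : Matrix (Fin n) (Fin n) K) := by
  have off : ∀ i j : Fin n, i ≠ j → M i j = 0 := by
    intro i j hij
    have e := congrFun (congrFun (h (single i i 1) (isSymm_single i)) i) j
    rw [ms_ne _ _ _ _ _ hij, sm_same] at e
    rw [one_mul] at e
    exact e.symm
  have dia : ∀ i : Fin n, M i i = M o o := by
    intro i
    by_cases hio : i = o
    · rw [hio]
    have e := congrFun (congrFun (h _ (isSymm_single_add i o)) i) o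
    rw [Matrix.mul_add, Matrix.add_mul, Matrix.add_apply, Matrix.add_apply,
      ms_same, ms_ne _ _ _ _ _ hio, sm_same, sm_ne _ _ _ _ _ (Ne.symm hio)] at e
    simpa using e
  ext i j
  rw [Matrix.smul_apply, Matrix.one_apply]
  by_cases hij : i = j
  · rw [hij, dia j]; simp
  · rw [off i j hij]; simp [hij]

/-- **Jordan lemma.** -/
theorem jordan_lemma (h2 : (2 : K) ≠ 0) (o : Fin n)
    {ψ : Matrix (Fin n) (Fin n) K →ₗ[K] Matrix (Fin n) (Fin n) K} (h : IsJordan ψ) :
    ∃ P : Matrix (Fin n) (Fin n) K, ∃ c : K, c ≠ 0 ∧ P * Pᵀ = c • (1 : Matrix (Fin n) (Fin n) K) ∧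
      ∀ s : Matrix (Fin n) (Fin n) K, s.IsSymm → ψ s * P = P * s := by
  set E : Matrix (Fin n) (Fin n) K := single o o 1 with hE
  have hEs : E.IsSymm := isSymm_single o
  set f := ψ E with hf
  have hfs : f.IsSymm := h.symm _ hEs
  have hEE : E * E = E := by rw [hE, single_mul_single_same, one_mul]
  have hff : f * f = f := by
    rw [hf, ← h.sq h2 hEs, hEE]
  have hEXE : ∀ X : Matrix (Fin n) (Fin n) K, E * X * E = X o o • E := by
    intro X
    ext a b
    rw [Matrix.smul_apply]
    by_cases hb : o = b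
    · subst hb
      rw [hE, ms_same, mul_one]
      by_cases ha : o = a
      · subst ha
        rw [sm_same, one_mul, single_apply_same, smul_eq_mul, mul_one]
      · rw [sm_ne _ _ _ _ _ ha, single_apply_of_row_ne ha, smul_zero]
    · rw [hE, ms_ne _ _ _ _ _ hb, single_apply_of_col_ne _ _ hb, smul_zero]
  have hf0 : f ≠ 0 := by
    intro h0
    have := h.inj _ hEs h0
    have h1 := congrFun (congrFun this o) o
    rw [hE, single_apply_same, Matrix.zero_apply] at h1
    exact one_ne_zero h1
  -- a nonzero column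
  obtain ⟨k₀, i, hki⟩ : ∃ k₀ i, f k₀ i ≠ 0 := by
    by_contra hcon
    push Not at hcon
    exact hf0 (by ext a b; exact hcon a b)
  obtain ⟨t, hts, ht⟩ := h.surj _ (isSymm_single i)
  set c := t o o with hc
  have hrank : ∀ k l, f k i * f l i = c * f k l := by
    intro k l
    have e1 : f * single i i 1 * f = c • f := by
      rw [← ht, hf, ← h.trip h2 hEs hts, hEXE, map_smul]
    have e2 := congrFun (congrFun e1 k) l
    rw [Matrix.smul_apply, smul_eq_mul, Matrix.mul_apply, Finset.sum_eq_single i] at e2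
    · rw [mul_single_apply_same, mul_one] at e2
      rw [← e2, ← hfs.apply i l]
    · intro b _ hb
      rw [ms_ne _ _ _ _ _ (Ne.symm hb), zero_mul]
    · intro hi; exact absurd (Finset.mem_univ i) hi
  have hc0 : c ≠ 0 := by
    intro h0
    have := hrank k₀ k₀
    rw [h0, zero_mul] at this
    exact hki (mul_self_eq_zero.1 this)
  have hfii : f i i = c := by
    have e := hrank i k₀
    have h3 : f k₀ i = f i k₀ := hfs.apply i k₀
    rw [h3] at e
    have : f i k₀ ≠ 0 := by rw [← h3]; exact hki
    exact mul_right_cancel₀ this e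
  -- f X f is symmetric in X
  have hfXf : ∀ X : Matrix (Fin n) (Fin n) K, f * X * f = f * Xᵀ * f := by
    intro X
    have hF : (c • f) = vecMulVec (fun k => f k i) (fun k => f k i) := by
      ext k l
      rw [Matrix.smul_apply, smul_eq_mul, ← hrank, vecMulVec_apply]
    have e1 : ∀ X : Matrix (Fin n) (Fin n) K, (c • f) * X * (c • f) =
        ((fun k => f k i) ⬝ᵥ (X *ᵥ (fun k => f k i))) • (c • f) := by
      intro X
      rw [hF, vecMulVec_mul, vecMulVec_mul_vecMulVec]
      ext k l
      rw [Matrix.smul_apply, vecMulVec_apply, vecMulVec_apply, dotProduct_mulVec]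
      simp only [Pi.smul_apply, smul_eq_mul, MulOpposite.smul_eq_mul_unop, MulOpposite.unop_op]
      ring
    have e2 : (c • f) * X * (c • f) = (c • f) * Xᵀ * (c • f) := by
      rw [e1, e1]
      congr 1
      rw [dotProduct_mulVec, ← mulVec_transpose, dotProduct_comm]
    have e3 : ∀ X : Matrix (Fin n) (Fin n) K, (c • f) * X * (c • f) = (c * c) • (f * X * f) := by
      intro X
      rw [Matrix.smul_mul, Matrix.smul_mul, Matrix.mul_smul, smul_smul]
    rw [e3, e3] at e2
    have e4 := congrArg (fun z => (c * c)⁻¹ • z) e2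
    simpa only [smul_smul, inv_mul_cancel₀ (mul_ne_zero hc0 hc0), one_smul] using e4
  -- the matrices b j
  set b : Fin n → Matrix (Fin n) (Fin n) K := fun j =>
    if j = o then E else single o j 1 + single j o 1 with hb
  have hbs : ∀ j, (b j).IsSymm := by
    intro j
    rw [hb]
    dsimp only
    split_ifs
    · exact hEs
    · exact isSymm_single_add o j
  have hbE : ∀ j, b j * E = single j o 1 := by
    intro j
    rw [hb]
    dsimp only
    split_ifs with hj
    · rw [hEE, hE, hj]
    · rw [hE, Matrix.add_mul, single_mul_single_of_ne _ _ _ _ hj, single_mul_single_same, zero_add,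
        one_mul]
  have hEb : ∀ j, E * b j = single o j 1 := by
    intro j
    rw [hb]
    dsimp only
    split_ifs with hj
    · rw [hEE, hE, hj]
    · rw [hE, Matrix.mul_add, single_mul_single_same, single_mul_single_of_ne _ _ _ _ (Ne.symm hj),
        add_zero, one_mul]
  set B : Fin n → Matrix (Fin n) (Fin n) K := fun j => ψ (b j) with hB
  have hBs : ∀ j, (B j).IsSymm := fun j => h.symm _ (hbs j)
  have hsE : ∀ (s : Matrix (Fin n) (Fin n) K) (j : Fin n), s * single j o 1 =
      ∑ m, s m j • single m o 1 := by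
    intro s j
    ext a d
    rw [Matrix.sum_apply]
    by_cases hd : o = d
    · subst hd
      rw [ms_same, mul_one, Finset.sum_eq_single a]
      · rw [Matrix.smul_apply, single_apply_same, smul_eq_mul, mul_one]
      · intro m _ hm
        rw [Matrix.smul_apply, single_apply_of_row_ne hm, smul_zero]
      · intro ha; exact absurd (Finset.mem_univ a) ha
    · rw [ms_ne _ _ _ _ _ hd, Finset.sum_eq_zero]
      intro m _
      rw [Matrix.smul_apply, single_apply_of_col_ne _ _ hd, smul_zero]
  have hEs' : ∀ (s : Matrix (Fin n) (Fin n) K) (j : Fin n), s.IsSymm → single o j 1 * s =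
      ∑ m, s m j • single o m 1 := by
    intro s j hs
    have e := congrArg Matrix.transpose (hsE s j)
    rw [transpose_mul, hs.eq, transpose_single, transpose_sum] at e
    rw [e]
    refine Finset.sum_congr rfl fun m _ => ?_
    rw [transpose_smul, transpose_single]
  have key1 : ∀ (s : Matrix (Fin n) (Fin n) K) (j : Fin n), s.IsSymm →
      ψ s * B j * f + f * B j * ψ s = ∑ m, s m j • (B m * f + f * B m) := by
    intro s j hs
    have e1 : s * b j * E + E * b j * s = ∑ m, s m j • (b m * E + E * b m) := by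
      rw [Matrix.mul_assoc, hbE, hEb, hsE, hEs' _ _ hs, ← Finset.sum_add_distrib]
      refine Finset.sum_congr rfl fun m _ => ?_
      rw [hbE, hEb, smul_add]
    have e2 := congrArg ψ e1
    rw [h.trip3 h2 hs (hbs j) hEs, map_sum] at e2
    rw [e2]
    refine Finset.sum_congr rfl fun m _ => ?_
    rw [map_smul, h.mul _ _ (hbs m) hEs]
  have hfBf : ∀ m, f * B m * f = (b m) o o • f := by
    intro m
    rw [hf, hB]
    dsimp only
    rw [← h.trip h2 hEs (hbs m), hEXE, map_smul]
  have hboo : ∀ m, (b m) o o = if m = o then 1 else 0 := by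
    intro m
    have e := hEXE (b m)
    have e' := congrFun (congrFun e o) o
    rw [hEb, Matrix.smul_apply, hE, single_apply_same, smul_eq_mul, mul_one,
      ms_same, mul_one] at e'
    rw [← e']
    split_ifs with hm
    · rw [hm, single_apply_same]
    · rw [single_apply_of_col_ne _ _ hm]
  have hfBsf : ∀ (s : Matrix (Fin n) (Fin n) K) (j : Fin n), s.IsSymm →
      f * B j * ψ s * f = s o j • f := by
    intro s j hs
    have e1 : f * (B j * ψ s) * f = f * (ψ s * B j) * f := by
      rw [hfXf, transpose_mul, (hBs j).eq, (h.symm s hs).eq]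
    have e2 : f * (B j * ψ s + ψ s * B j) * f = ((b j * s + s * b j) o o) • f := by
      rw [hB]
      dsimp only
      rw [← h.mul _ _ (hbs j) hs, hf, ← h.trip h2 hEs (isSymm_anticomm (hbs j) hs), hEXE, map_smul]
    have e3 : (b j * s + s * b j) o o = 2 * s o j := by
      have e4 : (b j * s) o o = s o j := by
        have e5 := congrFun (congrFun (hEXE (b j * s)) o) o
        rw [← Matrix.mul_assoc, hEb, hE, ms_same, mul_one, sm_same,
          one_mul, Matrix.smul_apply, single_apply_same, smul_eq_mul, mul_one] at e5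
        rw [← e5, hs.apply]
      have e6 : (s * b j) o o = s o j := by
        have e7 : (s * b j)ᵀ = b j * s := by rw [transpose_mul, hs.eq, (hbs j).eq]
        rw [← e4, ← e7, transpose_apply]
      rw [Matrix.add_apply, e4, e6, two_mul]
    rw [Matrix.mul_add, Matrix.add_mul, ← e1, e3, ← two_smul K, mul_smul] at e2
    have e4 := congrArg (fun z => (2 : K)⁻¹ • z) e2
    simp only [smul_smul, ← mul_assoc, inv_mul_cancel₀ h2, one_smul, one_mul] at e4
    exact e4
  have key2 : ∀ (s : Matrix (Fin n) (Fin n) K) (j : Fin n), s.IsSymm →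
      ψ s * B j * f = ∑ m, s m j • (B m * f) := by
    intro s j hs
    have e1 : (ψ s * B j * f + f * B j * ψ s) * f =
        (∑ m, s m j • (B m * f + f * B m)) * f := by rw [key1 s j hs]
    rw [Matrix.add_mul, Matrix.mul_assoc _ f f, hff, hfBsf s j hs, Matrix.sum_mul] at e1
    have e2 : ∑ m, (s m j • (B m * f + f * B m)) * f = ∑ m, s m j • (B m * f) + s o j • f := by
      have e3 : ∀ m, (s m j • (B m * f + f * B m)) * f = s m j • (B m * f) +
          (if m = o then s m j • f else 0) := by
        intro m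
        rw [Matrix.smul_mul, Matrix.add_mul, Matrix.mul_assoc _ f f, hff, hfBf, hboo, smul_add]
        split_ifs
        · rw [one_smul]
        · rw [zero_smul, smul_zero]
      rw [Finset.sum_congr rfl fun m _ => e3 m, Finset.sum_add_distrib, Finset.sum_ite_eq']
      simp
    rw [e2] at e1
    exact add_right_cancel e1
  -- the matrix P
  set P : Matrix (Fin n) (Fin n) K := fun k j => (B j * f) k i with hP
  have key3 : ∀ s : Matrix (Fin n) (Fin n) K, s.IsSymm → ψ s * P = P * s := by
    intro s hs
    ext k j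
    have e := congrFun (congrFun (key2 s j hs) k) i
    rw [Matrix.mul_assoc, Matrix.mul_apply, Matrix.sum_apply] at e
    rw [Matrix.mul_apply, Matrix.mul_apply, hP]
    dsimp only
    rw [e]
    refine Finset.sum_congr rfl fun m _ => ?_
    rw [Matrix.smul_apply, smul_eq_mul, mul_comm]
  have key4 : Pᵀ * P = c • (1 : Matrix (Fin n) (Fin n) K) := by
    have e1 : ∀ s : Matrix (Fin n) (Fin n) K, s.IsSymm → (Pᵀ * P) * s = s * (Pᵀ * P) := by
      intro s hs
      have e2 := congrArg Matrix.transpose (key3 s hs)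
      rw [transpose_mul, transpose_mul, (h.symm s hs).eq, hs.eq] at e2
      rw [Matrix.mul_assoc, ← key3 s hs, ← Matrix.mul_assoc, e2, Matrix.mul_assoc]
    have e3 := scalar_of_comm o e1
    have e4 : (Pᵀ * P) o o = c := by
      rw [Matrix.mul_apply]
      have e5 : ∀ k, Pᵀ o k * P k o = f i k * f k i := by
        intro k
        have hBo : B o = f := by
          rw [hB]
          dsimp only
          rw [hb]
          simp
          rfl
        rw [transpose_apply, hP]
        dsimp only
        rw [hBo, hff, hfs.apply]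
      rw [Finset.sum_congr rfl fun k _ => e5 k, ← Matrix.mul_apply, hff, hfii]
    rw [e4] at e3
    exact e3
  refine ⟨P, c, hc0, ?_, key3⟩
  have e1 : (c⁻¹ • Pᵀ) * P = 1 := by
    rw [Matrix.smul_mul, key4, smul_smul, inv_mul_cancel₀ hc0, one_smul]
  have e2 := mul_eq_one_comm.1 e1
  rw [Matrix.mul_smul] at e2
  have e3 := congrArg (fun z => c • z) e2
  simpa only [smul_smul, mul_inv_cancel₀ hc0, one_smul] using e3

end Pool.Agent.W_MP_93b5ed_al

end
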