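import Pool.Agent.W_MP_93b5ed_al.OctAut

/-!
# The skew-Hermitian case
-/

noncomputable section

namespace Pool.Agent.W_MP_93b5ed_al

open Matrix

variable {K : Type*} [Field K] {n : ℕ}

/-- the bracket -/
def br (X Y : OM n K) : OM n K := X * Y - Y * X

/-- the Jacobian -/
def jac (X Y Z : OM n K) : OM n K := br (br X Y) Z + br (br Y Z) X + br (br Z X) Y

/-- linear maps preserving skew-Hermitian matrices and their brackets -/
structure IsSkewHom (Φ : OM n K →ₗ[K] OM n K) : Prop where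
  skew : ∀ X : OM n K, Xᴴ = -X → (Φ X)ᴴ = -(Φ X)
  br : ∀ X Y : OM n K, Xᴴ = -X → Yᴴ = -Y → Φ (br X Y) = br (Φ X) (Φ Y)

/-- mutually inverse maps preserving skew-Hermitian matrices and their brackets -/
structure IsSkewEquiv (Φ Ψ : OM n K →ₗ[K] OM n K) : Prop where
  hom1 : IsSkewHom Φ
  hom2 : IsSkewHom Ψ
  left : ∀ X : OM n K, Xᴴ = -X → Ψ (Φ X) = X
  right : ∀ X : OM n K, Xᴴ = -X → Φ (Ψ X) = X

theorem IsSkewEquiv.symm {Φ Ψ : OM n K →ₗ[K] OM n K} (h : IsSkewEquiv Φ Ψ) : IsSkewEquiv Ψ Φ :=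
  ⟨h.hom2, h.hom1, h.right, h.left⟩

theorem IsSkewEquiv.comp {Φ Ψ Φ' Ψ' : OM n K →ₗ[K] OM n K} (h : IsSkewEquiv Φ Ψ)
    (h' : IsSkewEquiv Φ' Ψ') : IsSkewEquiv (Φ' ∘ₗ Φ) (Ψ ∘ₗ Ψ') where
  hom1 := ⟨fun X hX => h'.hom1.skew _ (h.hom1.skew _ hX), fun X Y hX hY => by
    rw [LinearMap.comp_apply, h.hom1.br X Y hX hY, h'.hom1.br _ _ (h.hom1.skew _ hX)
      (h.hom1.skew _ hY)]; rfl⟩
  hom2 := ⟨fun X hX => h.hom2.skew _ (h'.hom2.skew _ hX), fun X Y hX hY => by
    rw [LinearMap.comp_apply, h'.hom2.br X Y hX hY, h.hom2.br _ _ (h'.hom2.skew _ hX)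
      (h'.hom2.skew _ hY)]; rfl⟩
  left := fun X hX => by
    rw [LinearMap.comp_apply, LinearMap.comp_apply, h'.left _ (h.hom1.skew _ hX), h.left _ hX]
  right := fun X hX => by
    rw [LinearMap.comp_apply, LinearMap.comp_apply, h.right _ (h'.hom2.skew _ hX), h'.right _ hX]

theorem skew_br {X Y : OM n K} (hX : Xᴴ = -X) (hY : Yᴴ = -Y) : (br X Y)ᴴ = -(br X Y) := by
  rw [br, conjTranspose_sub, conjTranspose_mul, conjTranspose_mul, hX, hY, Matrix.neg_mul,
    Matrix.neg_mul, Matrix.mul_neg, Matrix.mul_neg, neg_neg, neg_neg, neg_sub]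

theorem skew_sc {A : Matrix (Fin n) (Fin n) K} (hA : Aᵀ = -A) : (sc A)ᴴ = -(sc A) := by
  rw [sc_conjTranspose, hA, sc_eq, tens_neg_left, sc_eq]

theorem skew_tens {S : Matrix (Fin n) (Fin n) K} (hS : S.IsSymm) {o : Oct K} (ho : o.a = -o.b) :
    (tens S o)ᴴ = -(tens S o) := by
  rw [tens_conjTranspose, hS.eq, star_im ho, tens_neg_right]

theorem of_skew_sc {A : Matrix (Fin n) (Fin n) K} (h : (sc A)ᴴ = -(sc A)) : Aᵀ = -A := by
  rw [sc_conjTranspose] at h
  apply sc_injective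
  rw [h, sc_eq, sc_eq, tens_neg_left]

theorem of_skew_tens {A : Matrix (Fin n) (Fin n) K} {o : Oct K} (ho : o.a = -o.b) (ho0 : o ≠ 0)
    (h : (tens A o)ᴴ = -(tens A o)) : A.IsSymm := by
  rw [tens_conjTranspose, star_im ho, tens_neg_right] at h
  exact tens_injective ho0 (neg_injective h)

theorem isSymm_one' : (1 : Matrix (Fin n) (Fin n) K).IsSymm := by
  show (1 : Matrix (Fin n) (Fin n) K)ᵀ = 1
  exact transpose_one

theorem jac_sc (A : Matrix (Fin n) (Fin n) K) (X Y : OM n K) : jac (sc A) X Y = 0 := by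
  simp only [jac, br, Matrix.sub_mul, Matrix.mul_sub, sc_assoc, assoc_sc_mid, assoc_sc]
  abel

theorem mul_tens_one (X : OM n K) (o : Oct K) (i j : Fin n) :
    (X * tens (1 : Matrix (Fin n) (Fin n) K) o : OM n K) i j = X i j * o := by
  rw [Matrix.mul_apply, Finset.sum_eq_single j]
  · rw [tens_apply, one_apply_eq, one_smul]
  · intro k _ hk
    rw [tens_apply, one_apply_ne hk, zero_smul, mul_zero]
  · intro h; exact absurd (Finset.mem_univ j) h

theorem tens_one_mul (X : OM n K) (o : Oct K) (i j : Fin n) :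
    (tens (1 : Matrix (Fin n) (Fin n) K) o * X : OM n K) i j = o * X i j := by
  rw [Matrix.mul_apply, Finset.sum_eq_single i]
  · rw [tens_apply, one_apply_eq, one_smul]
  · intro k _ hk
    rw [tens_apply, one_apply_ne (Ne.symm hk), zero_smul, zero_mul]
  · intro h; exact absurd (Finset.mem_univ i) h

theorem scal_of_jac (h2 : (2 : K) ≠ 0) (h3 : (3 : K) ≠ 0) {X : OM n K}
    (h : ∀ o o' : Oct K, o.a = -o.b → o'.a = -o'.b → jac X (tens 1 o) (tens 1 o') = 0) :
    ∃ A : Matrix (Fin n) (Fin n) K, X = sc A := by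
  refine exists_sc fun i j => ?_
  refine Oct.isScal_of_jac h2 h3 fun o o' ho ho' => ?_
  have e := congrFun (congrFun (h o o' ho ho') i) j
  simp only [jac, br, Matrix.add_apply, Matrix.sub_apply, mul_tens_one, tens_one_mul,
    Matrix.zero_apply, tens_mul, Matrix.mul_one] at e
  rw [← tens_sub_right, mul_tens_one, tens_one_mul] at e
  exact e

theorem map_sc (h2 : (2 : K) ≠ 0) (h3 : (3 : K) ≠ 0) {Φ Ψ : OM n K →ₗ[K] OM n K}
    (h : IsSkewEquiv Φ Ψ) {A : Matrix (Fin n) (Fin n) K} (hA : Aᵀ = -A) :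
    ∃ B : Matrix (Fin n) (Fin n) K, Φ (sc A) = sc B ∧ Bᵀ = -B := by
  have h1 : ∃ B : Matrix (Fin n) (Fin n) K, Φ (sc A) = sc B := by
    refine scal_of_jac h2 h3 fun o o' ho ho' => ?_
    have hX := skew_tens (n := n) (isSymm_one') ho
    have hY := skew_tens (n := n) (isSymm_one') ho'
    have hA' := skew_sc hA
    have e1 := h.hom2.skew _ hX
    have e2 := h.hom2.skew _ hY
    rw [← h.right _ hX, ← h.right _ hY]
    have e3 : Φ (jac (sc A) (Ψ (tens 1 o)) (Ψ (tens 1 o'))) = 0 := by rw [jac_sc, map_zero]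
    rw [jac, map_add, map_add, h.hom1.br _ _ (skew_br hA' e1) e2, h.hom1.br _ _ hA' e1,
      h.hom1.br _ _ (skew_br e1 e2) hA', h.hom1.br _ _ e1 e2, h.hom1.br _ _ (skew_br e2 hA') e1,
      h.hom1.br _ _ e2 hA'] at e3
    exact e3
  obtain ⟨B, hB⟩ := h1
  refine ⟨B, hB, of_skew_sc ?_⟩
  rw [← hB]
  exact h.hom1.skew _ (skew_sc hA)

/-- elements centralizing the scalar skew matrices -/
theorem centralizer (h2 : (2 : K) ≠ 0) (z : Fin n) {X : OM n K} (hX : Xᴴ = -X)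
    (h : ∀ A : Matrix (Fin n) (Fin n) K, Aᵀ = -A → br (sc A) X = 0) :
    ∃ o : Oct K, ∃ A : Matrix (Fin n) (Fin n) K, o.a = -o.b ∧ Aᵀ = -A ∧ X = tens 1 o + sc A := by
  have hX' : ∀ i j, star (X j i) = -X i j := fun i j => congrFun (congrFun hX i) j
  have him : ∀ i, (X i i).a = -(X i i).b := by
    intro i
    have := congrArg Oct.a (hX' i i)
    simp at this
    rw [this, neg_neg]
  have hent : ∀ i j : Fin n, i ≠ j → X j i = - X i j ∧ X j j = X i i := by
    intro i j hij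
    have e1 := h (single i j 1 - single j i 1) (by
      rw [transpose_sub, transpose_single, transpose_single, neg_sub])
    have e3 : (sc (single i j (1 : K) - single j i 1) : OM n K) * X =
        X * sc (single i j (1 : K) - single j i 1) := sub_eq_zero.1 e1
    have hs : ∀ i j : Fin n, (sc (single i j (1 : K)) : OM n K) = single i j 1 := by
      intro i j
      ext a b : 1
      rw [sc_apply, s_apply, s_apply]
      split_ifs
      · rw [one_smul]
      · rw [zero_smul]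
    rw [sc_sub, hs, hs, Matrix.sub_mul, Matrix.mul_sub] at e3
    constructor
    · have e4 := congrFun (congrFun e3 i) i
      rw [Matrix.sub_apply, Matrix.sub_apply, sm_same, sm_ne _ _ _ _ _ (Ne.symm hij),
        ms_ne _ _ _ _ _ (Ne.symm hij), ms_same, one_mul, mul_one, sub_zero, zero_sub] at e4
      exact e4
    · have e4 := congrFun (congrFun e3 i) j
      rw [Matrix.sub_apply, Matrix.sub_apply, sm_same, sm_ne _ _ _ _ _ (Ne.symm hij),
        ms_same, ms_ne _ _ _ _ _ hij, one_mul, mul_one, sub_zero, sub_zero] at e4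
      exact e4
  have hoff : ∀ i j : Fin n, i ≠ j → Oct.IsScal (X i j) := by
    intro i j hij
    have e1 := (hent i j hij).1
    have e2 := hX' i j
    rw [e1, star_neg] at e2
    have e3 : star (X i j) = X i j := neg_injective e2
    rw [Oct.isScal_iff]
    have half : ∀ x : K, -x = x → x = 0 := by
      intro x hx
      have : 2 * x = 0 := by linear_combination -hx
      exact (mul_eq_zero.1 this).resolve_left h2
    refine ⟨?_, ?_, ?_, ?_, ?_, ?_, ?_⟩
    · have := congrArg Oct.a e3; simp at this; exact this.symm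
    · have := congrArg Oct.u1 e3; simp at this; exact half _ this
    · have := congrArg Oct.u2 e3; simp at this; exact half _ this
    · have := congrArg Oct.u3 e3; simp at this; exact half _ this
    · have := congrArg Oct.v1 e3; simp at this; exact half _ this
    · have := congrArg Oct.v2 e3; simp at this; exact half _ this
    · have := congrArg Oct.v3 e3; simp at this; exact half _ this
  have hdia : ∀ i, X i i = X z z := by
    intro i
    by_cases hi : z = i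
    · rw [hi]
    · exact (hent z i hi).2
  obtain ⟨A, hA⟩ : ∃ A : Matrix (Fin n) (Fin n) K, X - tens 1 (X z z) = sc A := by
    refine exists_sc fun i j => ?_
    rw [Matrix.sub_apply, tens_apply]
    by_cases hij : i = j
    · rw [hij, hdia j, one_apply_eq, one_smul, sub_self]
      exact Oct.isScal_zero
    · rw [one_apply_ne hij, zero_smul, sub_zero]
      exact hoff i j hij
  refine ⟨X z z, A, him z, of_skew_sc ?_, ?_⟩
  · rw [← hA, conjTranspose_sub, hX, skew_tens isSymm_one' (him z)]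
    abel
  · rw [← hA]; abel

theorem br_sc_tens_one (A : Matrix (Fin n) (Fin n) K) (o : Oct K) : br (sc A) (tens 1 o) = 0 := by
  rw [br, sc_mul_tens, tens_mul_sc, Matrix.mul_one, Matrix.one_mul, sub_self]

theorem br_add_left (X Y Z : OM n K) : br (X + Y) Z = br X Z + br Y Z := by
  rw [br, br, br, Matrix.add_mul, Matrix.mul_add]; abel

theorem br_add_right (X Y Z : OM n K) : br X (Y + Z) = br X Y + br X Z := by
  rw [br, br, br, Matrix.add_mul, Matrix.mul_add]; abel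

theorem br_swap (X Y : OM n K) : br X Y = - br Y X := by
  rw [br, br, neg_sub]

theorem br_tens_one (S : Matrix (Fin n) (Fin n) K) (o p : Oct K) :
    br (tens 1 o) (tens S p) = tens S (o * p - p * o) := by
  rw [br, tens_mul, tens_mul, Matrix.mul_one, Matrix.one_mul, tens_sub_right]

/-- image of `tens 1 o` centralizes -/
theorem map_tens_one_aux (h2 : (2 : K) ≠ 0) (h3 : (3 : K) ≠ 0) (z : Fin n)
    {Φ Ψ : OM n K →ₗ[K] OM n K} (h : IsSkewEquiv Φ Ψ) {o : Oct K} (ho : o.a = -o.b) :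
    (∀ A : Matrix (Fin n) (Fin n) K, Aᵀ = -A → br (sc A) (Φ (tens 1 o)) = 0) ∧
    ∃ p : Oct K, ∃ A : Matrix (Fin n) (Fin n) K, p.a = -p.b ∧ Aᵀ = -A ∧
      Φ (tens 1 o) = tens 1 p + sc A := by
  have key : ∀ A : Matrix (Fin n) (Fin n) K, Aᵀ = -A → br (sc A) (Φ (tens 1 o)) = 0 := by
    intro A hA
    obtain ⟨B, hB, hB'⟩ := map_sc h2 h3 h.symm hA
    rw [← h.right _ (skew_sc hA), ← h.hom1.br _ _ (h.hom2.skew _ (skew_sc hA))
      (skew_tens isSymm_one' ho), hB, br_sc_tens_one, map_zero]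
  exact ⟨key, centralizer h2 z (h.hom1.skew _ (skew_tens isSymm_one' ho)) key⟩

theorem map_tens_one (h2 : (2 : K) ≠ 0) (h3 : (3 : K) ≠ 0) (z : Fin n)
    {Φ Ψ : OM n K →ₗ[K] OM n K} (h : IsSkewEquiv Φ Ψ) {o : Oct K} (ho : o.a = -o.b) :
    ∃ p : Oct K, p.a = -p.b ∧ Φ (tens 1 o) = tens 1 p := by
  have key : ∀ o o' : Oct K, o.a = -o.b → o'.a = -o'.b →
      ∃ p : Oct K, p.a = -p.b ∧ Φ (tens 1 (o * o' - o' * o)) = tens 1 p := by
    intro o o' ho ho'
    obtain ⟨_, p, A, hp, hA, e⟩ := map_tens_one_aux h2 h3 z h ho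
    obtain ⟨hc, p', A', hp', hA', e'⟩ := map_tens_one_aux h2 h3 z h ho'
    refine ⟨p * p' - p' * p, Oct.comm_im p p', ?_⟩
    have e1 := hc A hA
    rw [e', br_add_right, br_sc_tens_one, zero_add] at e1
    rw [← br_tens_one, h.hom1.br _ _ (skew_tens isSymm_one' ho) (skew_tens isSymm_one' ho'), e, e',
      br_add_left, br_add_right, br_add_right, e1, br_sc_tens_one, br_swap (tens 1 p) (sc A'),
      br_sc_tens_one, br_tens_one]
    abel
  obtain ⟨p, hp, e⟩ := key (o.a • ⟨0,0,1,0,0,0,0,0⟩) ⟨0,0,0,0,0,1,0,0⟩ (by simp) (by simp)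
  obtain ⟨p', hp', e'⟩ := key ⟨1,-1,0,0,0,0,0,0⟩ ((2 : K)⁻¹ • ⟨0,0,o.u1,o.u2,o.u3,-o.v1,-o.v2,-o.v3⟩)
    (by simp) (by simp)
  refine ⟨p + p', by simp [hp, hp']; ring, ?_⟩
  have dec : o = ((o.a • (⟨0,0,1,0,0,0,0,0⟩ : Oct K)) * ⟨0,0,0,0,0,1,0,0⟩ -
      ⟨0,0,0,0,0,1,0,0⟩ * (o.a • (⟨0,0,1,0,0,0,0,0⟩ : Oct K))) +
      ((⟨1,-1,0,0,0,0,0,0⟩ : Oct K) * ((2 : K)⁻¹ • ⟨0,0,o.u1,o.u2,o.u3,-o.v1,-o.v2,-o.v3⟩) -
      ((2 : K)⁻¹ • ⟨0,0,o.u1,o.u2,o.u3,-o.v1,-o.v2,-o.v3⟩) * (⟨1,-1,0,0,0,0,0,0⟩ : Oct K)) := by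
    ext <;> simp
    · rw [ho, neg_neg]
    all_goals field_simp
    all_goals ring
  rw [dec, tens_add_right, map_add, e, e', tens_add_right]

end Pool.Agent.W_MP_93b5ed_al

end

/-!
# The skew-Hermitian case, continued
-/

noncomputable section

namespace Pool.Agent.W_MP_93b5ed_al

open Matrix

variable {K : Type*} [Field K] {n : ℕ}

/-- half of the trace -/
def reL : Oct K →ₗ[K] K where
  toFun o := 2⁻¹ * (o.a + o.b)
  map_add' x y := by simp; ring
  map_smul' c x := by simp; ring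

/-- `tens M` as a linear map -/
def tensR (M : Matrix (Fin n) (Fin n) K) : Oct K →ₗ[K] OM n K where
  toFun o := tens M o
  map_add' x y := tens_add_right M x y
  map_smul' c x := tens_smul_right c M x

/-- entry as a linear map -/
def entL (i j : Fin n) : OM n K →ₗ[K] Oct K where
  toFun X := X i j
  map_add' _ _ := rfl
  map_smul' _ _ := rfl

/-- the map on octonions induced by `Φ` -/
def gOf (Φ : OM n K →ₗ[K] OM n K) (z : Fin n) : Oct K →ₗ[K] Oct K :=
  reL.smulRight 1 + entL z z ∘ₗ Φ ∘ₗ tensR 1 ∘ₗ (LinearMap.id - reL.smulRight 1)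

theorem gOf_im (Φ : OM n K →ₗ[K] OM n K) (z : Fin n) {o : Oct K} (ho : o.a = -o.b) :
    gOf Φ z o = (Φ (tens 1 o)) z z := by
  have h : reL o = 0 := by
    show 2⁻¹ * (o.a + o.b) = 0
    rw [ho]; ring
  show reL o • (1 : Oct K) + (Φ (tens 1 (o - reL o • (1 : Oct K)))) z z = _
  rw [h, zero_smul, sub_zero, zero_add]

theorem gOf_one (h2 : (2 : K) ≠ 0) (Φ : OM n K →ₗ[K] OM n K) (z : Fin n) : gOf Φ z 1 = 1 := by
  have h : reL (1 : Oct K) = 1 := by
    show 2⁻¹ * ((1 : Oct K).a + (1 : Oct K).b) = 1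
    simp
    field_simp
    norm_num
  show reL (1 : Oct K) • (1 : Oct K) + (Φ (tens 1 (1 - reL (1 : Oct K) • (1 : Oct K)))) z z = _
  rw [h, one_smul, sub_self, tens_zero_right, map_zero, Matrix.zero_apply, add_zero]

theorem oct_dec (h2 : (2 : K) ≠ 0) (x : Oct K) :
    ∃ c : K, ∃ x' : Oct K, x'.a = -x'.b ∧ x = c • (1 : Oct K) + x' := by
  refine ⟨2⁻¹ * (x.a + x.b), x - (2⁻¹ * (x.a + x.b)) • (1 : Oct K), ?_, ?_⟩
  · simp
    field_simp
    ring
  · abel

section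

variable {Φ Ψ : OM n K →ₗ[K] OM n K}

theorem map_tens_one' (h2 : (2 : K) ≠ 0) (h3 : (3 : K) ≠ 0) (z : Fin n)
    (h : IsSkewEquiv Φ Ψ) {o : Oct K} (ho : o.a = -o.b) :
    (gOf Φ z o).a = -(gOf Φ z o).b ∧ Φ (tens 1 o) = tens 1 (gOf Φ z o) := by
  obtain ⟨p, hp, e⟩ := map_tens_one h2 h3 z h ho
  have e' : gOf Φ z o = p := by
    rw [gOf_im Φ z ho, e, tens_apply, one_apply_eq, one_smul]
  rw [e']
  exact ⟨hp, e⟩

theorem gOf_inv (h2 : (2 : K) ≠ 0) (h3 : (3 : K) ≠ 0) (z : Fin n)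
    (h : IsSkewEquiv Φ Ψ) (o : Oct K) : gOf Ψ z (gOf Φ z o) = o := by
  obtain ⟨c, o', ho', rfl⟩ := oct_dec h2 o
  rw [map_add, map_smul, gOf_one h2, map_add, map_smul, gOf_one h2]
  congr 1
  obtain ⟨h1, e⟩ := map_tens_one' h2 h3 z h ho'
  rw [gOf_im Ψ z h1, ← e, h.left _ (skew_tens isSymm_one' ho'), tens_apply, one_apply_eq, one_smul]

/-- the equivalence of octonions induced by `Φ` -/
def gEquiv (h2 : (2 : K) ≠ 0) (h3 : (3 : K) ≠ 0) (z : Fin n) (h : IsSkewEquiv Φ Ψ) :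
    Oct K ≃ₗ[K] Oct K :=
  LinearEquiv.ofLinearMap (gOf Φ z) (gOf Ψ z)
    (LinearMap.ext fun o => gOf_inv h2 h3 z h.symm o)
    (LinearMap.ext fun o => gOf_inv h2 h3 z h o)

theorem gEquiv_mem (h2 : (2 : K) ≠ 0) (h3 : (3 : K) ≠ 0) (z : Fin n) (h : IsSkewEquiv Φ Ψ) :
    gEquiv h2 h3 z h ∈ AutOct K := by
  intro x y
  show gOf Φ z (x * y) = gOf Φ z x * gOf Φ z y
  refine Oct.mul_map_of_comm h2 (gOf Φ z) (gOf_one h2 Φ z)
    (fun o ho => (map_tens_one' h2 h3 z h ho).1) ?_ ?_ x y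
  · intro o ho h0
    rw [← gOf_inv h2 h3 z h o, h0, map_zero]
  · intro o o' ho ho'
    rw [gOf_im Φ z (Oct.comm_im o o'), ← br_tens_one, h.hom1.br _ _ (skew_tens isSymm_one' ho)
      (skew_tens isSymm_one' ho'), (map_tens_one' h2 h3 z h ho).2, (map_tens_one' h2 h3 z h ho').2,
      br_tens_one, tens_apply, one_apply_eq, one_smul]

/-- entrywise application of an automorphism of octonions is a skew equivalence -/
theorem isSkewEquiv_mapL {g : Oct K ≃ₗ[K] Oct K} (hg : g ∈ AutOct K) :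
    IsSkewEquiv (n := n) (mapL g.toLinearMap) (mapL g.symm.toLinearMap) := by
  have main : ∀ {g : Oct K ≃ₗ[K] Oct K} (_ : g ∈ AutOct K),
      IsSkewHom (n := n) (mapL g.toLinearMap) := by
    intro g hg
    refine ⟨fun X hX => ?_, fun X Y _ _ => ?_⟩
    · rw [mapL_conjTranspose (fun x => autOct_star hg x), hX, map_neg]
    · rw [br, br, map_sub, mapL_mul (fun x y => hg x y), mapL_mul (fun x y => hg x y)]
  refine ⟨main hg, main (g := g.symm) ?_, fun X _ => ?_, fun X _ => ?_⟩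
  · exact (AutOct K).inv_mem hg
  · ext i j : 1
    rw [mapL_apply, mapL_apply]
    exact g.symm_apply_apply _
  · ext i j : 1
    rw [mapL_apply, mapL_apply]
    exact g.apply_symm_apply _

/-- the induced map on symmetric matrices -/
def psiOf (Φ : OM n K →ₗ[K] OM n K) : Matrix (Fin n) (Fin n) K →ₗ[K] Matrix (Fin n) (Fin n) K where
  toFun S := (Φ (tens S ⟨1,-1,0,0,0,0,0,0⟩)).map Oct.a
  map_add' S T := by
    ext i j
    rw [tens_add_left, map_add]
    simp
  map_smul' c S := by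
    ext i j
    rw [tens_smul_left, map_smul]
    simp

theorem map_tens_sym (h2 : (2 : K) ≠ 0) (h : IsSkewHom Φ)
    (hfix : ∀ o : Oct K, o.a = -o.b → Φ (tens 1 o) = tens 1 o)
    {S : Matrix (Fin n) (Fin n) K} (hS : S.IsSymm) {o : Oct K} (ho : o.a = -o.b) :
    Φ (tens S o) = tens (psiOf Φ S) o := by
  have key : ∀ i j : Fin n, ∃ c : K, ∀ o : Oct K, o.a = -o.b → (Φ (tens S o)) i j = c • o := by
    intro i j
    refine Oct.schur h2 (entL i j ∘ₗ Φ ∘ₗ tensR S) fun o o' ho ho' => ?_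
    have e1 : Φ (tens S (o * o' - o' * o)) = br (tens 1 o) (Φ (tens S o')) := by
      rw [← br_tens_one, h.br _ _ (skew_tens isSymm_one' ho) (skew_tens hS ho'), hfix o ho]
    have e2 := congrFun (congrFun e1 i) j
    rw [br, Matrix.sub_apply, tens_one_mul, mul_tens_one] at e2
    exact e2
  ext i j : 1
  obtain ⟨c, hc⟩ := key i j
  rw [hc o ho, tens_apply]
  congr 1
  show c = ((Φ (tens S ⟨1,-1,0,0,0,0,0,0⟩)) i j).a
  rw [hc _ (by simp)]
  simp

theorem psiOf_symm (h2 : (2 : K) ≠ 0) (h : IsSkewHom Φ)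
    (hfix : ∀ o : Oct K, o.a = -o.b → Φ (tens 1 o) = tens 1 o)
    {S : Matrix (Fin n) (Fin n) K} (hS : S.IsSymm) : (psiOf Φ S).IsSymm := by
  have e := h.skew _ (skew_tens hS (o := ⟨1,-1,0,0,0,0,0,0⟩) (by simp))
  rw [map_tens_sym h2 h hfix hS (by simp)] at e
  refine of_skew_tens (o := ⟨1,-1,0,0,0,0,0,0⟩) (by simp) ?_ e
  intro h0
  have := congrArg Oct.a h0
  simp at this

theorem h_mul_h : (⟨1,-1,0,0,0,0,0,0⟩ : Oct K) * ⟨1,-1,0,0,0,0,0,0⟩ = 1 := by
  ext <;> simp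

theorem br_tens_h_h (S T : Matrix (Fin n) (Fin n) K) :
    br (tens S ⟨1,-1,0,0,0,0,0,0⟩) (tens T ⟨1,-1,0,0,0,0,0,0⟩) = sc (S * T - T * S) := by
  rw [br, tens_mul, tens_mul, h_mul_h, ← tens_sub_left, sc_eq]

theorem br_tens_h_e (S T : Matrix (Fin n) (Fin n) K) :
    br (tens S ⟨1,-1,0,0,0,0,0,0⟩) (tens T ⟨0,0,1,0,0,0,0,0⟩) =
      tens (S * T + T * S) ⟨0,0,1,0,0,0,0,0⟩ := by
  have e1 : (⟨1,-1,0,0,0,0,0,0⟩ : Oct K) * ⟨0,0,1,0,0,0,0,0⟩ = ⟨0,0,1,0,0,0,0,0⟩ := by
    ext <;> simp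
  have e2 : (⟨0,0,1,0,0,0,0,0⟩ : Oct K) * ⟨1,-1,0,0,0,0,0,0⟩ = -⟨0,0,1,0,0,0,0,0⟩ := by
    ext <;> simp
  rw [br, tens_mul, tens_mul, e1, e2, tens_neg_right, sub_neg_eq_add, ← tens_add_left]

theorem h_ne : (⟨1,-1,0,0,0,0,0,0⟩ : Oct K) ≠ 0 := by
  intro h0
  have := congrArg Oct.a h0
  simp at this

theorem e_ne : (⟨0,0,1,0,0,0,0,0⟩ : Oct K) ≠ 0 := by
  intro h0
  have := congrArg Oct.u1 h0
  simp at this

theorem psiOf_jordan (h2 : (2 : K) ≠ 0) (h : IsSkewEquiv Φ Ψ)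
    (hfix : ∀ o : Oct K, o.a = -o.b → Φ (tens 1 o) = tens 1 o)
    (hfix' : ∀ o : Oct K, o.a = -o.b → Ψ (tens 1 o) = tens 1 o) :
    IsJordan (psiOf Φ) where
  symm S hS := psiOf_symm h2 h.hom1 hfix hS
  mul S T hS hT := by
    apply tens_injective e_ne
    rw [← map_tens_sym h2 h.hom1 hfix (isSymm_anticomm hS hT) (by simp), ← br_tens_h_e,
      h.hom1.br _ _ (skew_tens hS (by simp)) (skew_tens hT (by simp)),
      map_tens_sym h2 h.hom1 hfix hS (by simp), map_tens_sym h2 h.hom1 hfix hT (by simp),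
      br_tens_h_e]
  inj S hS h0 := by
    apply tens_injective h_ne
    rw [← h.left (tens S _) (skew_tens hS (by simp)), map_tens_sym h2 h.hom1 hfix hS (by simp), h0]
    have : (tens (0 : Matrix (Fin n) (Fin n) K) (⟨1,-1,0,0,0,0,0,0⟩ : Oct K) : OM n K) = 0 := by
      ext i j : 1
      rw [tens_apply, Matrix.zero_apply, zero_smul]; rfl
    rw [this, map_zero]
  surj S hS := by
    refine ⟨psiOf Ψ S, psiOf_symm h2 h.hom2 hfix' hS, ?_⟩
    apply tens_injective h_ne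
    rw [← map_tens_sym h2 h.hom1 hfix (psiOf_symm h2 h.hom2 hfix' hS) (by simp),
      ← map_tens_sym h2 h.hom2 hfix' hS (by simp), h.right _ (skew_tens hS (by simp))]

theorem skew_dec {A : Matrix (Fin n) (Fin n) K} (hA : Aᵀ = -A) (h2 : (2 : K) ≠ 0) :
    A = (2 : K)⁻¹ • ∑ i, ∑ j, A i j • (single i i 1 * (single i j 1 + single j i 1) -
      (single i j 1 + single j i 1) * single i i 1) := by
  have e1 : ∀ i j : Fin n, (single i i (1 : K) * (single i j 1 + single j i 1) -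
      (single i j 1 + single j i 1) * single i i 1) = single i j 1 - single j i 1 := by
    intro i j
    rw [Matrix.mul_add, Matrix.add_mul, single_mul_single_same, single_mul_single_same, one_mul]
    by_cases hij : i = j
    · subst hij
      rw [single_mul_single_same, one_mul]
      abel
    · rw [single_mul_single_of_ne _ _ _ _ hij, single_mul_single_of_ne _ _ _ _ (Ne.symm hij)]
      abel
  have e2 : ∑ i, ∑ j, A i j • (single i j (1 : K) - single j i 1) = A - Aᵀ := by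
    simp only [smul_sub, Finset.sum_sub_distrib]
    congr 1
    · conv_rhs => rw [matrix_eq_sum_single A]
      simp only [smul_single, smul_eq_mul, mul_one]
    · conv_rhs => rw [matrix_eq_sum_single Aᵀ]
      rw [Finset.sum_comm]
      simp only [smul_single, smul_eq_mul, mul_one, transpose_apply]
  simp only [e1]
  rw [e2, hA, sub_neg_eq_add, ← two_smul K, smul_smul, inv_mul_cancel₀ h2, one_smul]

theorem skew_core_fix (h2 : (2 : K) ≠ 0) (z : Fin n) (h : IsSkewEquiv Φ Ψ)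
    (hfix : ∀ o : Oct K, o.a = -o.b → Φ (tens 1 o) = tens 1 o)
    (hfix' : ∀ o : Oct K, o.a = -o.b → Ψ (tens 1 o) = tens 1 o) :
    ∃ P : Matrix (Fin n) (Fin n) K, ∃ c : K, c ≠ 0 ∧ P * Pᵀ = c • (1 : Matrix (Fin n) (Fin n) K) ∧
      ∀ X : OM n K, Xᴴ = -X → Φ X * sc P = sc P * X := by
  obtain ⟨P, c, hc, hP, hcomm⟩ := jordan_lemma h2 z (psiOf_jordan h2 h hfix hfix')
  refine ⟨P, c, hc, hP, ?_⟩
  -- symmetric tensors
  have q1 : ∀ (S : Matrix (Fin n) (Fin n) K) (_ : S.IsSymm) (o : Oct K) (_ : o.a = -o.b),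
      Φ (tens S o) * sc P = sc P * tens S o := by
    intro S hS o ho
    rw [map_tens_sym h2 h.hom1 hfix hS ho, tens_mul_sc, hcomm S hS, sc_mul_tens]
  -- commutators of symmetric matrices
  have q2 : ∀ (S T : Matrix (Fin n) (Fin n) K) (_ : S.IsSymm) (_ : T.IsSymm),
      Φ (sc (S * T - T * S)) * sc P = sc P * sc (S * T - T * S) := by
    intro S T hS hT
    rw [← br_tens_h_h, h.hom1.br _ _ (skew_tens hS (by simp)) (skew_tens hT (by simp)),
      map_tens_sym h2 h.hom1 hfix hS (by simp), map_tens_sym h2 h.hom1 hfix hT (by simp),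
      br_tens_h_h, br_tens_h_h, sc_mul_sc, sc_mul_sc]
    congr 1
    rw [Matrix.sub_mul, Matrix.mul_sub, Matrix.mul_assoc, Matrix.mul_assoc, hcomm T hT, hcomm S hS,
      ← Matrix.mul_assoc, ← Matrix.mul_assoc, hcomm T hT, hcomm S hS, Matrix.mul_assoc,
      Matrix.mul_assoc]
  have q3 : ∀ A : Matrix (Fin n) (Fin n) K, Aᵀ = -A → Φ (sc A) * sc P = sc P * sc A := by
    intro A hA
    set L : Matrix (Fin n) (Fin n) K →ₗ[K] OM n K :=
      (LinearMap.mulRight K (sc P) ∘ₗ Φ - LinearMap.mulLeft K (sc P)) ∘ₗ tensL 1 with hL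
    have hLA : ∀ B, L B = Φ (sc B) * sc P - sc P * sc B := fun B => rfl
    have h0 : ∀ i j : Fin n, L (single i i 1 * (single i j 1 + single j i 1) -
      (single i j 1 + single j i 1) * single i i 1) = 0 := by
      intro i j
      rw [hLA, q2 _ _ (isSymm_single i) (isSymm_single_add i j), sub_self]
    have h1 : L A = 0 := by
      rw [skew_dec hA h2, map_smul, map_sum]
      rw [Finset.sum_eq_zero, smul_zero]
      intro i _
      rw [map_sum]
      refine Finset.sum_eq_zero fun j _ => ?_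
      rw [map_smul, h0, smul_zero]
    rw [hLA] at h1
    exact sub_eq_zero.1 h1
  intro X hX
  have hX' : ∀ i j, star (X j i) = -X i j := fun i j => congrFun (congrFun hX i) j
  have s0 : (X.map (fun x => 2⁻¹ * (x.a + x.b)))ᵀ = -(X.map (fun x => 2⁻¹ * (x.a + x.b))) := by
    ext i j
    have e1 := congrArg Oct.a (hX' i j)
    have e2 := congrArg Oct.b (hX' i j)
    simp at e1 e2
    simp [e1, e2]
    ring
  have s1 : (X.map (fun x => 2⁻¹ * (x.a - x.b))).IsSymm := by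
    ext i j
    have e1 := congrArg Oct.a (hX' i j)
    have e2 := congrArg Oct.b (hX' i j)
    simp at e1 e2
    show 2⁻¹ * ((X j i).a - (X j i).b) = 2⁻¹ * ((X i j).a - (X i j).b)
    rw [e1, e2]
    ring
  have s2 : (X.map Oct.u1).IsSymm := by
    ext i j
    have e1 := congrArg Oct.u1 (hX' i j)
    simpa using e1
  have s3 : (X.map Oct.u2).IsSymm := by
    ext i j
    have e1 := congrArg Oct.u2 (hX' i j)
    simpa using e1
  have s4 : (X.map Oct.u3).IsSymm := by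
    ext i j
    have e1 := congrArg Oct.u3 (hX' i j)
    simpa using e1
  have s5 : (X.map Oct.v1).IsSymm := by
    ext i j
    have e1 := congrArg Oct.v1 (hX' i j)
    simpa using e1
  have s6 : (X.map Oct.v2).IsSymm := by
    ext i j
    have e1 := congrArg Oct.v2 (hX' i j)
    simpa using e1
  have s7 : (X.map Oct.v3).IsSymm := by
    ext i j
    have e1 := congrArg Oct.v3 (hX' i j)
    simpa using e1
  rw [decomp X h2]
  simp only [map_add, Matrix.add_mul, Matrix.mul_add]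
  rw [q3 _ s0, q1 _ s1 _ (by simp), q1 _ s2 _ (by simp), q1 _ s3 _ (by simp), q1 _ s4 _ (by simp),
    q1 _ s5 _ (by simp), q1 _ s6 _ (by simp), q1 _ s7 _ (by simp)]

/-- **Skew-Hermitian case**: every automorphism is `X ↦ P g(X) P⁻¹`. -/
theorem skew_core (h2 : (2 : K) ≠ 0) (h3 : (3 : K) ≠ 0) (z : Fin n) (h : IsSkewEquiv Φ Ψ) :
    ∃ g : Oct K ≃ₗ[K] Oct K, g ∈ AutOct K ∧ ∃ P : Matrix (Fin n) (Fin n) K, ∃ c : K, c ≠ 0 ∧
      P * Pᵀ = c • (1 : Matrix (Fin n) (Fin n) K) ∧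
      ∀ X : OM n K, Xᴴ = -X → Φ X * sc P = sc P * X.map g := by
  set g := gEquiv h2 h3 z h with hg
  have hgm : g ∈ AutOct K := gEquiv_mem h2 h3 z h
  have h' := h.comp (isSkewEquiv_mapL hgm).symm
  have hfix : ∀ o : Oct K, o.a = -o.b →
      (mapL g.symm.toLinearMap ∘ₗ Φ) (tens 1 o) = tens 1 o := by
    intro o ho
    rw [LinearMap.comp_apply, (map_tens_one' h2 h3 z h ho).2, mapL_tens]
    congr 1
    exact g.symm_apply_apply o
  have hfix' : ∀ o : Oct K, o.a = -o.b →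
      (Ψ ∘ₗ mapL g.toLinearMap) (tens 1 o) = tens 1 o := by
    intro o ho
    rw [LinearMap.comp_apply, mapL_tens]
    have e := (map_tens_one' h2 h3 z h ho).2
    have e' : (tens 1 (g.toLinearMap o) : OM n K) = Φ (tens 1 o) := e.symm
    rw [e', h.left _ (skew_tens isSymm_one' ho)]
  obtain ⟨P, c, hc, hP, hX⟩ := skew_core_fix h2 z h' hfix hfix'
  refine ⟨g, hgm, P, c, hc, hP, fun X hXs => ?_⟩
  have e1 := hX X hXs
  have e2 := congrArg (mapL g.toLinearMap) e1
  rw [mapL_mul (fun x y => hgm x y), mapL_mul (fun x y => hgm x y), mapL_sc (autOct_one hgm)] at e2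
  have e3 : mapL g.toLinearMap ((mapL g.symm.toLinearMap ∘ₗ Φ) X) = Φ X := by
    ext i j : 1
    exact g.apply_symm_apply _
  rw [e3] at e2
  exact e2

end

end Pool.Agent.W_MP_93b5ed_al

end
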