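import Pool.Agent.W_MP_93b5ed_al.HermCore
import Pool.Agent.W_MP_93b5ed_al.SkewCore2
import Pool.Agent.W_MP_93b5ed_al.Compare

/-!
# The isomorphism `Aut ≃ Aut(𝕆) × PGO_n`
-/

noncomputable section

namespace Pool.Agent.W_MP_93b5ed_al

open Matrix

variable {K : Type*} [Field K] {n : ℕ}

theorem mapL_cjL {g : Oct K ≃ₗ[K] Oct K} (hg : g ∈ AutOct K) (P Q : Matrix (Fin n) (Fin n) K)
    (X : OM n K) : mapL g.toLinearMap (cjL P Q X) = cjL P Q (mapL g.toLinearMap X) := by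
  rw [cjL_apply, cjL_apply, mapL_mul (fun x y => hg x y), mapL_mul (fun x y => hg x y),
    mapL_sc (autOct_one hg), mapL_sc (autOct_one hg)]

theorem cjL_comp (P Q P' Q' : Matrix (Fin n) (Fin n) K) (X : OM n K) :
    cjL P Q (cjL P' Q' X) = cjL (P * P') (Q' * Q) X := by
  rw [cjL_apply, cjL_apply, cjL_apply, ← sc_assoc, ← sc_assoc, sc_mul_sc, assoc_sc, sc_mul_sc]

theorem cjL_one (X : OM n K) : cjL (1 : Matrix (Fin n) (Fin n) K) 1 X = X := by
  rw [cjL_apply, sc_one_mul, mul_sc_one]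

/-- a subspace with a product for which the group `Aut(𝕆) × GO_n` acts by automorphisms -/
structure GoodAlg (V : Submodule K (OM n K)) (μ : V → V → V) : Prop where
  form : ∃ α β : K, ∀ x y : V, ((μ x y : V) : OM n K) = α • (x.1 * y.1) + β • (y.1 * x.1)
  map : ∀ g ∈ AutOct K, ∀ X ∈ V, mapL g.toLinearMap X ∈ V
  cj : ∀ (P Q : Matrix (Fin n) (Fin n) K) (c : K), c ≠ 0 → P * Q = 1 → Q * P = 1 → Pᵀ = c • Q →
    ∀ X ∈ V, cjL P Q X ∈ V

theorem GO_data (P : GO n K) : ∃ c : K, c ≠ 0 ∧ P.1.1ᵀ = c • (P.1⁻¹).1 := by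
  obtain ⟨c, hc, h⟩ := P.2
  refine ⟨c, hc, ?_⟩
  have e : (P.1⁻¹).1 * (P.1.1 * P.1.1ᵀ) = (P.1⁻¹).1 * (c • (1 : Matrix (Fin n) (Fin n) K)) := by
    rw [h]
  rw [← Matrix.mul_assoc, ← Units.val_mul, inv_mul_cancel, Units.val_one, Matrix.one_mul,
    Matrix.mul_smul, Matrix.mul_one] at e
  exact e

theorem GL_mul_inv (P : GL (Fin n) K) : P.1 * (P⁻¹).1 = 1 := by
  rw [← Units.val_mul, mul_inv_cancel, Units.val_one]

theorem GL_inv_mul (P : GL (Fin n) K) : (P⁻¹).1 * P.1 = 1 := by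
  rw [← Units.val_mul, inv_mul_cancel, Units.val_one]

section

variable {V : Submodule K (OM n K)} {μ : V → V → V}

/-- the action of `(g, P)` -/
def actL (g : Oct K ≃ₗ[K] Oct K) (P : GL (Fin n) K) : OM n K →ₗ[K] OM n K :=
  cjL P.1 (P⁻¹).1 ∘ₗ mapL g.toLinearMap

theorem actL_apply (g : Oct K ≃ₗ[K] Oct K) (P : GL (Fin n) K) (X : OM n K) :
    actL g P X = sc P.1 * X.map g * sc (P⁻¹).1 := rfl

theorem actL_mem (hV : GoodAlg V μ) (g : AutOct K) (P : GO n K) (X : OM n K) (hX : X ∈ V) :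
    actL g.1 P.1 X ∈ V := by
  obtain ⟨c, hc, h⟩ := GO_data P
  exact hV.cj _ _ c hc (GL_mul_inv _) (GL_inv_mul _) h _ (hV.map g.1 g.2 X hX)

theorem actL_actL {g g' : Oct K ≃ₗ[K] Oct K} (hg : g ∈ AutOct K) (P P' : GL (Fin n) K)
    (X : OM n K) : actL g P (actL g' P' X) = actL (g * g') (P * P') X := by
  show cjL P.1 (P⁻¹).1 (mapL g.toLinearMap (cjL P'.1 (P'⁻¹).1 (mapL g'.toLinearMap X))) = _
  rw [mapL_cjL hg, cjL_comp]
  have e : (P'⁻¹).1 * (P⁻¹).1 = ((P * P')⁻¹).1 := by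
    rw [← Units.val_mul, _root_.mul_inv_rev]
  rw [e]
  rfl

theorem actL_one (X : OM n K) : actL (1 : Oct K ≃ₗ[K] Oct K) (1 : GL (Fin n) K) X = X := by
  show cjL (1 : GL (Fin n) K).1 ((1 : GL (Fin n) K)⁻¹).1 (mapL _ X) = X
  rw [inv_one, Units.val_one, cjL_one]
  rfl

/-- the automorphism attached to `(g, P)` -/
def actE (hV : GoodAlg V μ) (g : AutOct K) (P : GO n K) : V ≃ₗ[K] V :=
  LinearEquiv.ofLinearMap ((actL g.1 P.1).restrict (actL_mem hV g P))
    ((actL g⁻¹.1 P⁻¹.1).restrict (actL_mem hV g⁻¹ P⁻¹))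
    (by
      apply LinearMap.ext
      rintro ⟨X, hX⟩
      apply Subtype.ext
      show actL g.1 P.1 (actL g⁻¹.1 P⁻¹.1 X) = X
      rw [actL_actL g.2, Subgroup.coe_inv, Subgroup.coe_inv, mul_inv_cancel, mul_inv_cancel,
        actL_one])
    (by
      apply LinearMap.ext
      rintro ⟨X, hX⟩
      apply Subtype.ext
      show actL g⁻¹.1 P⁻¹.1 (actL g.1 P.1 X) = X
      rw [actL_actL g⁻¹.2, Subgroup.coe_inv, Subgroup.coe_inv, inv_mul_cancel, inv_mul_cancel,
        actL_one])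

theorem actE_apply (hV : GoodAlg V μ) (g : AutOct K) (P : GO n K) (X : V) :
    (actE hV g P X).1 = actL g.1 P.1 X.1 := rfl

theorem smul_tw (c : K) (A B : OM n K) : c • (A * B) = c • A * B := by
  ext i j : 1
  rw [Matrix.smul_apply, Matrix.mul_apply, Matrix.mul_apply, Finset.smul_sum]
  exact Finset.sum_congr rfl fun k _ => by rw [Matrix.smul_apply, smul_mul_assoc]

theorem actE_mem (hV : GoodAlg V μ) (g : AutOct K) (P : GO n K) : actE hV g P ∈ AutAlg K μ := by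
  intro x y
  apply Subtype.ext
  obtain ⟨α, β, h⟩ := hV.form
  rw [h, actE_apply, actE_apply, actE_apply, h]
  have e : ∀ X Y : OM n K, actL g.1 P.1 (X * Y) = actL g.1 P.1 X * actL g.1 P.1 Y := by
    intro X Y
    show cjL P.1.1 (P.1⁻¹).1 (mapL g.1.toLinearMap (X * Y)) = _
    rw [mapL_mul (fun x y => g.2 x y), cjL_mul (GL_inv_mul _)]
    rfl
  rw [map_add, map_smul, map_smul, e, e]

/-- the homomorphism `Aut(𝕆) × GO_n → Aut` -/
def actHom (hV : GoodAlg V μ) : AutOct K × GO n K →* AutAlg K μ where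
  toFun x := ⟨actE hV x.1 x.2, actE_mem hV x.1 x.2⟩
  map_one' := by
    apply Subtype.ext
    apply LinearEquiv.ext
    intro X
    apply Subtype.ext
    show actL (1 : AutOct K).1 (1 : GO n K).1 X.1 = X.1
    exact actL_one _
  map_mul' x y := by
    apply Subtype.ext
    apply LinearEquiv.ext
    intro X
    apply Subtype.ext
    show actL (x.1 * y.1).1 (x.2 * y.2).1 X.1 = actL x.1.1 x.2.1 (actL y.1.1 y.2.1 X.1)
    rw [actL_actL x.1.2]
    rfl

theorem actHom_apply (hV : GoodAlg V μ) (g : AutOct K) (P : GO n K) (X : V) :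
    ((actHom hV (g, P)).1 X).1 = sc P.1.1 * X.1.map g.1 * sc (P.1⁻¹).1 := rfl

theorem actHom_scalar (hV : GoodAlg V μ) (P : GO n K) (hP : P ∈ scalars n K) :
    actHom hV (1, P) = 1 := by
  apply Subtype.ext
  apply LinearEquiv.ext
  intro X
  apply Subtype.ext
  rw [actHom_apply]
  obtain ⟨c, hc⟩ := mem_scalars_iff.1 hP
  show _ = X.1
  have e1 : (c • (P.1⁻¹).1) = (1 : Matrix (Fin n) (Fin n) K) := by
    have e := GL_mul_inv P.1
    rw [hc, Matrix.smul_mul, Matrix.one_mul] at e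
    exact e
  have e2 : sc P.1.1 * X.1.map (1 : AutOct K).1 = X.1 * sc P.1.1 := by
    rw [hc]
    ext i j : 1
    rw [sc_mul_apply, mul_sc_apply, Finset.sum_eq_single i, Finset.sum_eq_single j]
    · rw [Matrix.smul_apply, Matrix.smul_apply, one_apply_eq, one_apply_eq]
      rfl
    · intro k _ hk
      rw [Matrix.smul_apply, one_apply_ne hk, smul_zero, zero_smul]
    · intro h; exact absurd (Finset.mem_univ j) h
    · intro k _ hk
      rw [Matrix.smul_apply, one_apply_ne (Ne.symm hk), smul_zero, zero_smul]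
    · intro h; exact absurd (Finset.mem_univ i) h
  rw [e2, assoc_sc, sc_mul_sc, GL_mul_inv, mul_sc_one]

/-- the general isomorphism theorem -/
theorem exists_iso (hV : GoodAlg V μ)
    (surj : ∀ φ ∈ AutAlg K μ, ∃ g ∈ AutOct K, ∃ P : Matrix (Fin n) (Fin n) K, ∃ c : K, c ≠ 0 ∧
      P * Pᵀ = c • (1 : Matrix (Fin n) (Fin n) K) ∧
      ∀ X : V, (φ X).1 * sc P = sc P * X.1.map g)
    (inj : ∀ g ∈ AutOct K, ∀ P : GL (Fin n) K, (∀ X ∈ V, actL g P X = X) →
      g = 1 ∧ ∃ c : K, P.1 = c • (1 : Matrix (Fin n) (Fin n) K)) :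
    ∃ e : AutOct K × PGOq n K ≃* AutAlg K μ, ∀ (g : AutOct K) (P : GO n K) (X : V),
      ((e (g, (P : PGOq n K))).1 X).1 = sc P.1.1 * X.1.map g.1 * sc (P.1⁻¹).1 := by
  set f : AutOct K →* AutAlg K μ := (actHom hV).comp (MonoidHom.inl _ _) with hf
  set h : PGOq n K →* AutAlg K μ := QuotientGroup.lift (scalars n K)
    ((actHom hV).comp (MonoidHom.inr _ _)) (fun P hP => actHom_scalar hV P hP) with hh
  have hcomm : ∀ g p, Commute (f g) (h p) := by
    intro g p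
    induction p using QuotientGroup.induction_on with
    | H P =>
      show actHom hV (g, 1) * actHom hV (1, P) = actHom hV (1, P) * actHom hV (g, 1)
      rw [← map_mul, ← map_mul]
      congr 1
      simp
  set E : AutOct K × PGOq n K →* AutAlg K μ := MonoidHom.noncommCoprod f h hcomm with hE
  have hEa : ∀ (g : AutOct K) (P : GO n K), E (g, (P : PGOq n K)) = actHom hV (g, P) := by
    intro g P
    show actHom hV (g, 1) * actHom hV (1, P) = _
    rw [← map_mul]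
    congr 1
    simp
  have hinj : Function.Injective E := by
    rw [injective_iff_map_eq_one]
    rintro ⟨g, p⟩ hp
    induction p using QuotientGroup.induction_on with
    | H P =>
      rw [hEa] at hp
      have h1 : ∀ X ∈ V, actL g.1 P.1 X = X := by
        intro X hX
        have e := congrArg (fun φ : AutAlg K μ => (φ.1 ⟨X, hX⟩).1) hp
        exact e
      obtain ⟨h2, c, h3⟩ := inj g.1 g.2 P.1 h1
      have h4 : g = 1 := Subtype.ext h2
      have h5 : (P : PGOq n K) = 1 := (QuotientGroup.eq_one_iff P).2 ⟨c, h3⟩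
      rw [h4, h5]
      rfl
  have hsurj : Function.Surjective E := by
    rintro ⟨φ, hφ⟩
    obtain ⟨g, hg, P, c, hc, hP, h1⟩ := surj φ hφ
    have hPQ : P * (c⁻¹ • Pᵀ) = 1 := by
      rw [Matrix.mul_smul, hP, smul_smul, inv_mul_cancel₀ hc, one_smul]
    have hQP : (c⁻¹ • Pᵀ) * P = 1 := mul_eq_one_comm.1 hPQ
    set P' : GL (Fin n) K := ⟨P, c⁻¹ • Pᵀ, hPQ, hQP⟩ with hP'
    have hP'm : P' ∈ GO n K := ⟨c, hc, hP⟩
    refine ⟨(⟨g, hg⟩, ((⟨P', hP'm⟩ : GO n K) : PGOq n K)), ?_⟩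
    rw [hEa]
    apply Subtype.ext
    apply LinearEquiv.ext
    intro X
    apply Subtype.ext
    rw [actHom_apply]
    show sc P * X.1.map g * sc (c⁻¹ • Pᵀ) = (φ X).1
    rw [← h1 X, assoc_sc, sc_mul_sc, hPQ, mul_sc_one]
  refine ⟨MulEquiv.ofBijective E ⟨hinj, hsurj⟩, fun g P X => ?_⟩
  show ((E (g, (P : PGOq n K))).1 X).1 = _
  rw [hEa]
  rfl

end

end Pool.Agent.W_MP_93b5ed_al

end

/-!
# The isomorphism theorem for the two algebras
-/

noncomputable section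

namespace Pool.Agent.W_MP_93b5ed_al

open Matrix

variable {K : Type*} [Field K] {n : ℕ}

theorem skew_good : GoodAlg (Skew n K) (Skew.bracket (n := n) (K := K)) where
  form := ⟨1, -1, fun x y => by
    show x.1 * y.1 - y.1 * x.1 = _
    rw [one_smul, neg_smul, one_smul, sub_eq_add_neg]⟩
  map g hg X hX := by
    show (mapL g.toLinearMap X)ᴴ = _
    rw [mapL_conjTranspose (fun x => autOct_star hg x), show Xᴴ = -X from hX, map_neg]
  cj P Q c hc _ _ h X hX := by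
    show (cjL P Q X)ᴴ = _
    rw [cjL_conjTranspose hc h, show Xᴴ = -X from hX, map_neg]

theorem herm_good : GoodAlg (Herm n K) (Herm.jmul (n := n) (K := K)) where
  form := ⟨2⁻¹, 2⁻¹, fun x y => by
    show (2 : K)⁻¹ • (x.1 * y.1 + y.1 * x.1) = _
    rw [smul_add]⟩
  map g hg X hX := by
    show (mapL g.toLinearMap X)ᴴ = _
    rw [mapL_conjTranspose (fun x => autOct_star hg x), show Xᴴ = X from hX]
  cj P Q c hc _ _ h X hX := by
    show (cjL P Q X)ᴴ = _
    rw [cjL_conjTranspose hc h, show Xᴴ = X from hX]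

/-- the projection onto skew-Hermitian matrices -/
def skewProj : OM n K →ₗ[K] Skew n K where
  toFun X := ⟨(2 : K)⁻¹ • (X - Xᴴ), (Skew n K).smul_mem _ (by
    show (X - Xᴴ)ᴴ = -(X - Xᴴ)
    rw [conjTranspose_sub, conjTranspose_conjTranspose, neg_sub])⟩
  map_add' X Y := by
    apply Subtype.ext
    show (2 : K)⁻¹ • ((X + Y) - (X + Y)ᴴ) = (2 : K)⁻¹ • (X - Xᴴ) + (2 : K)⁻¹ • (Y - Yᴴ)
    rw [conjTranspose_add, ← smul_add]
    congr 1
    abel
  map_smul' c X := by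
    apply Subtype.ext
    show (2 : K)⁻¹ • ((c • X) - (c • X)ᴴ) = c • ((2 : K)⁻¹ • (X - Xᴴ))
    have : (c • X)ᴴ = c • Xᴴ := by
      ext i j : 1
      rw [conjTranspose_apply, Matrix.smul_apply, Matrix.smul_apply, conjTranspose_apply,
        star_smul_oct]
    rw [this, ← smul_sub, smul_comm]

theorem skewProj_of_mem (h2 : (2 : K) ≠ 0) {X : OM n K} (hX : Xᴴ = -X) :
    skewProj X = ⟨X, hX⟩ := by
  apply Subtype.ext
  show (2 : K)⁻¹ • (X - Xᴴ) = X
  rw [hX, sub_neg_eq_add, ← two_smul K, smul_smul, inv_mul_cancel₀ h2, one_smul]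

/-- the projection onto Hermitian matrices -/
def hermProj : OM n K →ₗ[K] Herm n K where
  toFun X := ⟨(2 : K)⁻¹ • (X + Xᴴ), (Herm n K).smul_mem _ (by
    show (X + Xᴴ)ᴴ = X + Xᴴ
    rw [conjTranspose_add, conjTranspose_conjTranspose, add_comm])⟩
  map_add' X Y := by
    apply Subtype.ext
    show (2 : K)⁻¹ • ((X + Y) + (X + Y)ᴴ) = (2 : K)⁻¹ • (X + Xᴴ) + (2 : K)⁻¹ • (Y + Yᴴ)
    rw [conjTranspose_add, ← smul_add]
    congr 1
    abel
  map_smul' c X := by
    apply Subtype.ext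
    show (2 : K)⁻¹ • ((c • X) + (c • X)ᴴ) = c • ((2 : K)⁻¹ • (X + Xᴴ))
    have : (c • X)ᴴ = c • Xᴴ := by
      ext i j : 1
      rw [conjTranspose_apply, Matrix.smul_apply, Matrix.smul_apply, conjTranspose_apply,
        star_smul_oct]
    rw [this, ← smul_add, smul_comm]

theorem hermProj_of_mem (h2 : (2 : K) ≠ 0) {X : OM n K} (hX : Xᴴ = X) :
    hermProj X = ⟨X, hX⟩ := by
  apply Subtype.ext
  show (2 : K)⁻¹ • (X + Xᴴ) = X
  rw [hX, ← two_smul K, smul_smul, inv_mul_cancel₀ h2, one_smul]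

/-- extension of an endomorphism of skew-Hermitian matrices -/
def extS (φ : Skew n K ≃ₗ[K] Skew n K) : OM n K →ₗ[K] OM n K :=
  (Skew n K).subtype ∘ₗ φ.toLinearMap ∘ₗ skewProj

theorem extS_apply (h2 : (2 : K) ≠ 0) (φ : Skew n K ≃ₗ[K] Skew n K) {X : OM n K} (hX : Xᴴ = -X) :
    extS φ X = (φ ⟨X, hX⟩).1 := by
  show (φ (skewProj X)).1 = _
  rw [skewProj_of_mem h2 hX]

theorem isSkewHom_extS (h2 : (2 : K) ≠ 0) {φ : Skew n K ≃ₗ[K] Skew n K} (hφ : φ ∈ AutSkew n K) :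
    IsSkewHom (extS φ) := by
  refine ⟨fun X _ => (φ (skewProj X)).2, fun X Y hX hY => ?_⟩
  rw [extS_apply h2 φ hX, extS_apply h2 φ hY, extS_apply h2 φ (skew_br hX hY)]
  exact congrArg Subtype.val (hφ ⟨X, hX⟩ ⟨Y, hY⟩)

theorem isSkewEquiv_extS (h2 : (2 : K) ≠ 0) {φ : Skew n K ≃ₗ[K] Skew n K}
    (hφ : φ ∈ AutSkew n K) : IsSkewEquiv (extS φ) (extS φ.symm) := by
  refine ⟨isSkewHom_extS h2 hφ, isSkewHom_extS h2 ((AutSkew n K).inv_mem hφ), fun X hX => ?_,
    fun X hX => ?_⟩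
  · rw [extS_apply h2 φ hX, extS_apply h2 φ.symm (φ ⟨X, hX⟩).2]
    exact congrArg Subtype.val (φ.symm_apply_apply ⟨X, hX⟩)
  · rw [extS_apply h2 φ.symm hX, extS_apply h2 φ (φ.symm ⟨X, hX⟩).2]
    exact congrArg Subtype.val (φ.apply_symm_apply ⟨X, hX⟩)

/-- extension of an endomorphism of Hermitian matrices -/
def extH (φ : Herm n K ≃ₗ[K] Herm n K) : OM n K →ₗ[K] OM n K :=
  (Herm n K).subtype ∘ₗ φ.toLinearMap ∘ₗ hermProj

theorem extH_apply (h2 : (2 : K) ≠ 0) (φ : Herm n K ≃ₗ[K] Herm n K) {X : OM n K} (hX : Xᴴ = X) :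
    extH φ X = (φ ⟨X, hX⟩).1 := by
  show (φ (hermProj X)).1 = _
  rw [hermProj_of_mem h2 hX]

theorem isHermHom_extH (h2 : (2 : K) ≠ 0) {φ : Herm n K ≃ₗ[K] Herm n K} (hφ : φ ∈ AutHerm n K) :
    IsHermHom (extH φ) := by
  refine ⟨fun X _ => (φ (hermProj X)).2, fun X Y hX hY => ?_⟩
  have e1 := congrArg Subtype.val (hφ ⟨X, hX⟩ ⟨Y, hY⟩)
  have e2 : Herm.jmul ⟨X, hX⟩ ⟨Y, hY⟩ = (2 : K)⁻¹ • (⟨jm X Y, herm_jm hX hY⟩ : Herm n K) := rfl
  rw [e2, map_smul] at e1
  rw [extH_apply h2 φ hX, extH_apply h2 φ hY, extH_apply h2 φ (herm_jm hX hY)]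
  have e3 : (2 : K)⁻¹ • (φ ⟨jm X Y, herm_jm hX hY⟩).1 =
      (2 : K)⁻¹ • jm (φ ⟨X, hX⟩).1 (φ ⟨Y, hY⟩).1 := e1
  have e4 := congrArg (fun z => (2 : K) • z) e3
  simpa only [smul_smul, mul_inv_cancel₀ h2, one_smul] using e4

theorem isHermEquiv_extH (h2 : (2 : K) ≠ 0) {φ : Herm n K ≃ₗ[K] Herm n K}
    (hφ : φ ∈ AutHerm n K) : IsHermEquiv (extH φ) (extH φ.symm) := by
  refine ⟨isHermHom_extH h2 hφ, isHermHom_extH h2 ((AutHerm n K).inv_mem hφ), fun X hX => ?_,
    fun X hX => ?_⟩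
  · rw [extH_apply h2 φ hX, extH_apply h2 φ.symm (φ ⟨X, hX⟩).2]
    exact congrArg Subtype.val (φ.symm_apply_apply ⟨X, hX⟩)
  · rw [extH_apply h2 φ.symm hX, extH_apply h2 φ (φ.symm ⟨X, hX⟩).2]
    exact congrArg Subtype.val (φ.apply_symm_apply ⟨X, hX⟩)

theorem skew_iso (h2 : (2 : K) ≠ 0) (h3 : (3 : K) ≠ 0) (hn : 1 ≤ n) :
    ∃ e : AutOct K × PGOq n K ≃* AutSkew n K, ∀ (g : AutOct K) (P : GO n K) (X : Skew n K),
      ((e (g, (P : PGOq n K))).1 X).1 = sc P.1.1 * X.1.map g.1 * sc (P.1⁻¹).1 := by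
  set z : Fin n := ⟨0, hn⟩
  refine exists_iso skew_good ?_ ?_
  · intro φ hφ
    obtain ⟨g, hg, P, c, hc, hP, h⟩ := skew_core h2 h3 z (isSkewEquiv_extS h2 hφ)
    refine ⟨g, hg, P, c, hc, hP, fun X => ?_⟩
    have e := h X.1 X.2
    rw [extS_apply h2 φ X.2] at e
    exact e
  · intro g hg P h
    have e1 : ∀ o : Oct K, o.a = -o.b → g o = o := by
      intro o ho
      have e := h (tens 1 o) (skew_tens isSymm_one' ho)
      have e' : actL g P (tens 1 o) = tens 1 (g o) := by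
        show sc P.1 * mapL g.toLinearMap (tens 1 o) * sc (P⁻¹).1 = _
        rw [mapL_tens, sc_mul_tens, tens_mul_sc, Matrix.mul_one, GL_mul_inv]
        rfl
      rw [e'] at e
      have e2 := congrFun (congrFun e z) z
      rw [tens_apply, tens_apply, one_apply_eq, one_smul, one_smul] at e2
      exact e2
    have e3 : g = 1 := by
      apply LinearEquiv.ext
      intro x
      obtain ⟨c, x', hx', rfl⟩ := oct_dec h2 x
      rw [map_add, map_smul, autOct_one hg, e1 x' hx']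
      rfl
    refine ⟨e3, ?_⟩
    have e4 : ∀ s : Matrix (Fin n) (Fin n) K, s.IsSymm → P.1 * s = s * P.1 := by
      intro s hs
      have e := h (tens s ⟨1,-1,0,0,0,0,0,0⟩) (skew_tens hs (by simp))
      have e' : actL g P (tens s ⟨1,-1,0,0,0,0,0,0⟩) =
          tens (P.1 * s * (P⁻¹).1) ⟨1,-1,0,0,0,0,0,0⟩ := by
        show sc P.1 * mapL g.toLinearMap (tens s _) * sc (P⁻¹).1 = _
        rw [mapL_tens, sc_mul_tens, tens_mul_sc]
        have e5 : g.toLinearMap (⟨1,-1,0,0,0,0,0,0⟩ : Oct K) = ⟨1,-1,0,0,0,0,0,0⟩ :=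
          e1 _ (by simp)
        rw [e5]
      rw [e'] at e
      have e6 := tens_injective h_ne e
      calc P.1 * s = P.1 * s * ((P⁻¹).1 * P.1) := by rw [GL_inv_mul, Matrix.mul_one]
        _ = (P.1 * s * (P⁻¹).1) * P.1 := by rw [← Matrix.mul_assoc]
        _ = s * P.1 := by rw [e6]
    exact ⟨_, scalar_of_comm z e4⟩

theorem herm_iso (h2 : (2 : K) ≠ 0) (h4 : 4 ≤ n) :
    ∃ e : AutOct K × PGOq n K ≃* AutHerm n K, ∀ (g : AutOct K) (P : GO n K) (X : Herm n K),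
      ((e (g, (P : PGOq n K))).1 X).1 = sc P.1.1 * X.1.map g.1 * sc (P.1⁻¹).1 := by
  set z : Fin n := ⟨0, by omega⟩ with hz
  set t : Fin n := ⟨1, by omega⟩ with ht
  have hzt : z ≠ t := by rw [hz, ht]; simp
  refine exists_iso herm_good ?_ ?_
  · intro φ hφ
    obtain ⟨g, hg, P, c, hc, hP, h⟩ := herm_core h2 h4 (isHermEquiv_extH h2 hφ)
    refine ⟨g, hg, P, c, hc, hP, fun X => ?_⟩
    have e := h X.1 X.2
    rw [extH_apply h2 φ X.2] at e
    exact e
  · intro g hg P h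
    have e4 : ∀ s : Matrix (Fin n) (Fin n) K, s.IsSymm → P.1 * s = s * P.1 := by
      intro s hs
      have e := h (sc s) (herm_sc hs)
      have e' : actL g P (sc s) = sc (P.1 * s * (P⁻¹).1) := by
        show sc P.1 * mapL g.toLinearMap (sc s) * sc (P⁻¹).1 = _
        rw [mapL_sc (autOct_one hg), sc_mul_sc, sc_mul_sc]
      rw [e'] at e
      have e6 := sc_injective e
      calc P.1 * s = P.1 * s * ((P⁻¹).1 * P.1) := by rw [GL_inv_mul, Matrix.mul_one]
        _ = (P.1 * s * (P⁻¹).1) * P.1 := by rw [← Matrix.mul_assoc]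
        _ = s * P.1 := by rw [e6]
    have hsc := scalar_of_comm z e4
    refine ⟨?_, ⟨_, hsc⟩⟩
    apply LinearEquiv.ext
    intro v
    have e := h (R z t v) (herm_R z t v)
    have e1 : actL g P (R z t v) = mapL g.toLinearMap (R z t v) := by
      show sc P.1 * mapL g.toLinearMap (R z t v) * sc (P⁻¹).1 = _
      have e2 : sc P.1 * mapL g.toLinearMap (R z t v) = mapL g.toLinearMap (R z t v) * sc P.1 := by
        rw [hsc]
        ext i j : 1
        rw [sc_mul_apply, mul_sc_apply, Finset.sum_eq_single i, Finset.sum_eq_single j]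
        · rw [Matrix.smul_apply, Matrix.smul_apply, one_apply_eq, one_apply_eq]
        · intro k _ hk
          rw [Matrix.smul_apply, one_apply_ne hk, smul_zero, zero_smul]
        · intro h; exact absurd (Finset.mem_univ j) h
        · intro k _ hk
          rw [Matrix.smul_apply, one_apply_ne (Ne.symm hk), smul_zero, zero_smul]
        · intro h; exact absurd (Finset.mem_univ i) h
      rw [e2, assoc_sc, sc_mul_sc, GL_mul_inv, mul_sc_one]
    rw [e1] at e
    have e2 := congrFun (congrFun e z) t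
    rw [mapL_apply, R_same hzt] at e2
    exact e2

end Pool.Agent.W_MP_93b5ed_al

end

/-!
# Comparison with `Aut(𝕆) × SO_n`
-/

noncomputable section

namespace Pool.Agent.W_MP_93b5ed_al

open Matrix

variable {K : Type*} [Field K] {n : ℕ}

/-- the rotation by a quarter turn -/
def Jm : Matrix (Fin 2) (Fin 2) K := !![0, -1; 1, 0]

theorem Jm_mul_transpose : (Jm : Matrix (Fin 2) (Fin 2) K) * Jmᵀ = 1 := by
  ext i j
  fin_cases i <;> fin_cases j <;> simp [Jm, Matrix.mul_apply, Fin.sum_univ_two]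

/-- the rotation as an element of `SO_2` -/
def JSO : SO 2 K := ⟨⟨Jm, Jmᵀ, Jm_mul_transpose, mul_eq_one_comm.1 Jm_mul_transpose⟩,
  Jm_mul_transpose, by
    show Matrix.det (Jm : Matrix (Fin 2) (Fin 2) K) = 1
    rw [det_fin_two]; simp [Jm]⟩

theorem JSO_central (Q : SO 2 K) : JSO * Q = Q * JSO := by
  obtain ⟨Q, hQ1, hQ2⟩ := Q
  have h1 : Q.1 * Q.1.adjugate = 1 := by rw [mul_adjugate, hQ2, one_smul]
  have h2 : Q.1.adjugate = Q.1ᵀ := by
    have e := mul_eq_one_comm.1 h1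
    calc Q.1.adjugate = Q.1.adjugate * (Q.1 * Q.1ᵀ) := by rw [hQ1, Matrix.mul_one]
      _ = Q.1ᵀ := by rw [← Matrix.mul_assoc, e, Matrix.one_mul]
  rw [adjugate_fin_two] at h2
  have e00 := congrFun (congrFun h2 0) 0
  have e01 := congrFun (congrFun h2 0) 1
  simp at e00 e01
  apply Subtype.ext
  apply Units.ext
  show Jm * Q.1 = Q.1 * Jm
  ext i j
  rw [Matrix.mul_apply, Matrix.mul_apply, Fin.sum_univ_two, Fin.sum_univ_two]
  fin_cases i <;> fin_cases j
  · simp [Jm]; rw [← e01, neg_neg]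
  · simp [Jm]; exact e00
  · simp [Jm]; exact e00.symm
  · simp [Jm]; rw [← e01, neg_neg]

theorem JSO_sq (h2 : (2 : K) ≠ 0) : (JSO : SO 2 K) * JSO ≠ 1 := by
  intro h
  have e := congrArg (fun Q : SO 2 K => Q.1.1 0 0) h
  have e1 : (Jm * Jm : Matrix (Fin 2) (Fin 2) K) 0 0 = 1 := e
  rw [Matrix.mul_apply, Fin.sum_univ_two] at e1
  simp [Jm] at e1
  apply h2
  linear_combination -e1

/-- `-1` as an element of `SO_n`, `n` even -/
def negSO (hn : Even n) : SO n K := ⟨⟨-1, -1, by simp, by simp⟩, by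
    show (-1 : Matrix (Fin n) (Fin n) K) * (-1)ᵀ = 1
    simp, by
    show (-1 : Matrix (Fin n) (Fin n) K).det = 1
    rw [det_neg, det_one, Fintype.card_fin, hn.neg_one_pow, mul_one]⟩

theorem negSO_central (hn : Even n) (Q : SO n K) : negSO hn * Q = Q * negSO hn := by
  apply Subtype.ext
  apply Units.ext
  show (-1 : Matrix (Fin n) (Fin n) K) * Q.1.1 = Q.1.1 * (-1)
  rw [Matrix.neg_mul, Matrix.mul_neg, Matrix.one_mul, Matrix.mul_one]

theorem negSO_ne (h2 : (2 : K) ≠ 0) (hn : Even n) (h1 : 1 ≤ n) : (negSO hn : SO n K) ≠ 1 := by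
  intro h
  have e := congrArg (fun Q : SO n K => Q.1.1 ⟨0, h1⟩ ⟨0, h1⟩) h
  have e1 : (-1 : Matrix (Fin n) (Fin n) K) ⟨0, h1⟩ ⟨0, h1⟩ =
    (1 : Matrix (Fin n) (Fin n) K) ⟨0, h1⟩ ⟨0, h1⟩ := e
  rw [Matrix.neg_apply, one_apply_eq] at e1
  apply h2
  linear_combination -e1

/-- no isomorphism for even `n` -/
theorem no_iso (h2 : (2 : K) ≠ 0) (h1 : 1 ≤ n) (hn : Even n)
    (e : AutOct K × PGOq n K ≃* AutOct K × SO n K) : False := by
  have key : ∀ Z : SO n K, (∀ Q, Z * Q = Q * Z) → ∃ p : PGOq n K, (∀ q, p * q = q * p) ∧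
      e (1, p) = (1, Z) := by
    intro Z hZ
    set w := e.symm (1, Z) with hw
    have hew : e w = (1, Z) := e.apply_symm_apply _
    have hwc : ∀ v, w * v = v * w := by
      intro v
      apply e.injective
      rw [map_mul, map_mul, hew]
      apply Prod.ext
      · show 1 * (e v).1 = (e v).1 * 1
        rw [one_mul, mul_one]
      · exact hZ _
    have hg : w.1 = 1 := center_autOct w.1 fun f => congrArg Prod.fst (hwc (f, 1))
    refine ⟨w.2, fun q => congrArg Prod.snd (hwc (1, q)), ?_⟩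
    have : (1, w.2) = w := by rw [← hg]
    rw [this, hew]
  have hn2 : n = 2 ∨ 3 ≤ n := by
    obtain ⟨m, hm⟩ := hn
    omega
  rcases hn2 with rfl | h3
  · obtain ⟨p, hp, hp'⟩ := key JSO JSO_central
    have e1 := center_PGO_two h2 p hp
    have e2 : ((1 : AutOct K), (JSO : SO 2 K)) * (1, JSO) = 1 := by
      rw [← hp', ← map_mul]
      have : ((1 : AutOct K), p) * (1, p) = 1 := by
        apply Prod.ext
        · show (1 : AutOct K) * 1 = 1
          rw [one_mul]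
        · exact e1
      rw [this, map_one]
    exact JSO_sq h2 (congrArg Prod.snd e2)
  · obtain ⟨p, hp, hp'⟩ := key (negSO hn) (negSO_central hn)
    have e1 := center_PGO h2 h3 p hp
    rw [e1] at hp'
    have e2 : ((1 : AutOct K), (1 : PGOq n K)) = 1 := rfl
    rw [e2, map_one] at hp'
    exact negSO_ne h2 hn h1 (congrArg Prod.snd hp').symm

theorem iso_iff_odd (h2 : (2 : K) ≠ 0) (h1 : 1 ≤ n) {G : Type*} [Group G]
    (e : AutOct K × PGOq n K ≃* G) : Nonempty (G ≃* AutOct K × SO n K) ↔ Odd n := by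
  constructor
  · rintro ⟨f⟩
    by_contra hn
    rw [Nat.not_odd_iff_even] at hn
    exact no_iso h2 h1 hn (e.trans f)
  · intro hn
    exact ⟨e.symm.trans (MulEquiv.prodCongr (MulEquiv.refl _) (soEquiv hn).symm)⟩

end Pool.Agent.W_MP_93b5ed_al

end
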