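import Mathlib

/-!
# Split octonions (Zorn vector matrices)
-/

noncomputable section

namespace Pool.Agent.W_MP_93b5ed_al

/-- The split octonion algebra over `K` in Zorn's model: the vector matrix
`[a, u; v, b]` with `a b : K` and `u v : K³`. -/
@[ext] structure Oct (K : Type*) where
  a : K
  b : K
  u1 : K
  u2 : K
  u3 : K
  v1 : K
  v2 : K
  v3 : K

namespace Oct

variable {K : Type*} [Field K]

instance : Zero (Oct K) := ⟨⟨0, 0, 0, 0, 0, 0, 0, 0⟩⟩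
instance : One (Oct K) := ⟨⟨1, 1, 0, 0, 0, 0, 0, 0⟩⟩
instance : Add (Oct K) := ⟨fun x y => ⟨x.a + y.a, x.b + y.b, x.u1 + y.u1, x.u2 + y.u2, x.u3 + y.u3,
  x.v1 + y.v1, x.v2 + y.v2, x.v3 + y.v3⟩⟩
instance : Neg (Oct K) := ⟨fun x => ⟨-x.a, -x.b, -x.u1, -x.u2, -x.u3, -x.v1, -x.v2, -x.v3⟩⟩
instance : Sub (Oct K) := ⟨fun x y => ⟨x.a - y.a, x.b - y.b, x.u1 - y.u1, x.u2 - y.u2, x.u3 - y.u3,
  x.v1 - y.v1, x.v2 - y.v2, x.v3 - y.v3⟩⟩
instance : SMul K (Oct K) := ⟨fun c x => ⟨c * x.a, c * x.b, c * x.u1, c * x.u2, c * x.u3,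
  c * x.v1, c * x.v2, c * x.v3⟩⟩

/-- Zorn's product
`[a, u; v, b] [a', u'; v', b'] = [a a' + u·v', a u' + b' u - v × v'; a' v + b v' + u × u', b b' + v·u']`. -/
instance : Mul (Oct K) := ⟨fun x y =>
  ⟨x.a * y.a + (x.u1 * y.v1 + x.u2 * y.v2 + x.u3 * y.v3),
   x.b * y.b + (x.v1 * y.u1 + x.v2 * y.u2 + x.v3 * y.u3),
   x.a * y.u1 + y.b * x.u1 - (x.v2 * y.v3 - x.v3 * y.v2),
   x.a * y.u2 + y.b * x.u2 - (x.v3 * y.v1 - x.v1 * y.v3),
   x.a * y.u3 + y.b * x.u3 - (x.v1 * y.v2 - x.v2 * y.v1),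
   y.a * x.v1 + x.b * y.v1 + (x.u2 * y.u3 - x.u3 * y.u2),
   y.a * x.v2 + x.b * y.v2 + (x.u3 * y.u1 - x.u1 * y.u3),
   y.a * x.v3 + x.b * y.v3 + (x.u1 * y.u2 - x.u2 * y.u1)⟩⟩

/-- The standard conjugation. -/
instance : Star (Oct K) := ⟨fun x => ⟨x.b, x.a, -x.u1, -x.u2, -x.u3, -x.v1, -x.v2, -x.v3⟩⟩

@[simp] theorem zero_a : (0 : Oct K).a = 0 := rfl
@[simp] theorem zero_b : (0 : Oct K).b = 0 := rfl
@[simp] theorem zero_u1 : (0 : Oct K).u1 = 0 := rfl
@[simp] theorem zero_u2 : (0 : Oct K).u2 = 0 := rfl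
@[simp] theorem zero_u3 : (0 : Oct K).u3 = 0 := rfl
@[simp] theorem zero_v1 : (0 : Oct K).v1 = 0 := rfl
@[simp] theorem zero_v2 : (0 : Oct K).v2 = 0 := rfl
@[simp] theorem zero_v3 : (0 : Oct K).v3 = 0 := rfl
@[simp] theorem one_a : (1 : Oct K).a = 1 := rfl
@[simp] theorem one_b : (1 : Oct K).b = 1 := rfl
@[simp] theorem one_u1 : (1 : Oct K).u1 = 0 := rfl
@[simp] theorem one_u2 : (1 : Oct K).u2 = 0 := rfl
@[simp] theorem one_u3 : (1 : Oct K).u3 = 0 := rfl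
@[simp] theorem one_v1 : (1 : Oct K).v1 = 0 := rfl
@[simp] theorem one_v2 : (1 : Oct K).v2 = 0 := rfl
@[simp] theorem one_v3 : (1 : Oct K).v3 = 0 := rfl
@[simp] theorem add_a (x y : Oct K) : (x + y).a = x.a + y.a := rfl
@[simp] theorem add_b (x y : Oct K) : (x + y).b = x.b + y.b := rfl
@[simp] theorem add_u1 (x y : Oct K) : (x + y).u1 = x.u1 + y.u1 := rfl
@[simp] theorem add_u2 (x y : Oct K) : (x + y).u2 = x.u2 + y.u2 := rfl
@[simp] theorem add_u3 (x y : Oct K) : (x + y).u3 = x.u3 + y.u3 := rfl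
@[simp] theorem add_v1 (x y : Oct K) : (x + y).v1 = x.v1 + y.v1 := rfl
@[simp] theorem add_v2 (x y : Oct K) : (x + y).v2 = x.v2 + y.v2 := rfl
@[simp] theorem add_v3 (x y : Oct K) : (x + y).v3 = x.v3 + y.v3 := rfl
@[simp] theorem neg_a (x : Oct K) : (-x).a = -x.a := rfl
@[simp] theorem neg_b (x : Oct K) : (-x).b = -x.b := rfl
@[simp] theorem neg_u1 (x : Oct K) : (-x).u1 = -x.u1 := rfl
@[simp] theorem neg_u2 (x : Oct K) : (-x).u2 = -x.u2 := rfl
@[simp] theorem neg_u3 (x : Oct K) : (-x).u3 = -x.u3 := rfl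
@[simp] theorem neg_v1 (x : Oct K) : (-x).v1 = -x.v1 := rfl
@[simp] theorem neg_v2 (x : Oct K) : (-x).v2 = -x.v2 := rfl
@[simp] theorem neg_v3 (x : Oct K) : (-x).v3 = -x.v3 := rfl
@[simp] theorem sub_a (x y : Oct K) : (x - y).a = x.a - y.a := rfl
@[simp] theorem sub_b (x y : Oct K) : (x - y).b = x.b - y.b := rfl
@[simp] theorem sub_u1 (x y : Oct K) : (x - y).u1 = x.u1 - y.u1 := rfl
@[simp] theorem sub_u2 (x y : Oct K) : (x - y).u2 = x.u2 - y.u2 := rfl
@[simp] theorem sub_u3 (x y : Oct K) : (x - y).u3 = x.u3 - y.u3 := rfl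
@[simp] theorem sub_v1 (x y : Oct K) : (x - y).v1 = x.v1 - y.v1 := rfl
@[simp] theorem sub_v2 (x y : Oct K) : (x - y).v2 = x.v2 - y.v2 := rfl
@[simp] theorem sub_v3 (x y : Oct K) : (x - y).v3 = x.v3 - y.v3 := rfl
@[simp] theorem smul_a (c : K) (x : Oct K) : (c • x).a = c * x.a := rfl
@[simp] theorem smul_b (c : K) (x : Oct K) : (c • x).b = c * x.b := rfl
@[simp] theorem smul_u1 (c : K) (x : Oct K) : (c • x).u1 = c * x.u1 := rfl
@[simp] theorem smul_u2 (c : K) (x : Oct K) : (c • x).u2 = c * x.u2 := rfl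
@[simp] theorem smul_u3 (c : K) (x : Oct K) : (c • x).u3 = c * x.u3 := rfl
@[simp] theorem smul_v1 (c : K) (x : Oct K) : (c • x).v1 = c * x.v1 := rfl
@[simp] theorem smul_v2 (c : K) (x : Oct K) : (c • x).v2 = c * x.v2 := rfl
@[simp] theorem smul_v3 (c : K) (x : Oct K) : (c • x).v3 = c * x.v3 := rfl
@[simp] theorem mul_a (x y : Oct K) : (x * y).a = x.a * y.a + (x.u1 * y.v1 + x.u2 * y.v2 + x.u3 * y.v3) := rfl
@[simp] theorem mul_b (x y : Oct K) : (x * y).b = x.b * y.b + (x.v1 * y.u1 + x.v2 * y.u2 + x.v3 * y.u3) := rfl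
@[simp] theorem mul_u1 (x y : Oct K) : (x * y).u1 = x.a * y.u1 + y.b * x.u1 - (x.v2 * y.v3 - x.v3 * y.v2) := rfl
@[simp] theorem mul_u2 (x y : Oct K) : (x * y).u2 = x.a * y.u2 + y.b * x.u2 - (x.v3 * y.v1 - x.v1 * y.v3) := rfl
@[simp] theorem mul_u3 (x y : Oct K) : (x * y).u3 = x.a * y.u3 + y.b * x.u3 - (x.v1 * y.v2 - x.v2 * y.v1) := rfl
@[simp] theorem mul_v1 (x y : Oct K) : (x * y).v1 = y.a * x.v1 + x.b * y.v1 + (x.u2 * y.u3 - x.u3 * y.u2) := rfl
@[simp] theorem mul_v2 (x y : Oct K) : (x * y).v2 = y.a * x.v2 + x.b * y.v2 + (x.u3 * y.u1 - x.u1 * y.u3) := rfl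
@[simp] theorem mul_v3 (x y : Oct K) : (x * y).v3 = y.a * x.v3 + x.b * y.v3 + (x.u1 * y.u2 - x.u2 * y.u1) := rfl
@[simp] theorem star_a (x : Oct K) : (star x).a = x.b := rfl
@[simp] theorem star_b (x : Oct K) : (star x).b = x.a := rfl
@[simp] theorem star_u1 (x : Oct K) : (star x).u1 = -x.u1 := rfl
@[simp] theorem star_u2 (x : Oct K) : (star x).u2 = -x.u2 := rfl
@[simp] theorem star_u3 (x : Oct K) : (star x).u3 = -x.u3 := rfl
@[simp] theorem star_v1 (x : Oct K) : (star x).v1 = -x.v1 := rfl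
@[simp] theorem star_v2 (x : Oct K) : (star x).v2 = -x.v2 := rfl
@[simp] theorem star_v3 (x : Oct K) : (star x).v3 = -x.v3 := rfl

instance : AddCommGroup (Oct K) where
  add_assoc x y z := by ext <;> simp [add_assoc]
  zero_add x := by ext <;> simp
  add_zero x := by ext <;> simp
  add_comm x y := by ext <;> simp [add_comm]
  neg_add_cancel x := by ext <;> simp
  sub_eq_add_neg x y := by ext <;> simp [sub_eq_add_neg]
  nsmul := nsmulRec
  zsmul := zsmulRec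

instance : Module K (Oct K) where
  one_smul x := by ext <;> simp
  mul_smul c d x := by ext <;> simp [mul_assoc]
  smul_zero c := by ext <;> simp
  smul_add c x y := by ext <;> simp [mul_add]
  add_smul c d x := by ext <;> simp [add_mul]
  zero_smul x := by ext <;> simp

instance : NonUnitalNonAssocRing (Oct K) where
  left_distrib x y z := by ext <;> simp <;> ring
  right_distrib x y z := by ext <;> simp <;> ring
  zero_mul x := by ext <;> simp
  mul_zero x := by ext <;> simp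

instance : MulOneClass (Oct K) where
  one_mul x := by ext <;> simp
  mul_one x := by ext <;> simp

instance : IsScalarTower K (Oct K) (Oct K) where
  smul_assoc c x y := by ext <;> simp <;> ring

instance : SMulCommClass K (Oct K) (Oct K) where
  smul_comm c x y := by ext <;> simp <;> ring

instance : StarRing (Oct K) where
  star_involutive x := by ext <;> simp
  star_mul x y := by ext <;> simp <;> ring
  star_add x y := by ext <;> simp <;> ring

end Oct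

end Pool.Agent.W_MP_93b5ed_al
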