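import Pool.Agent.W_MP_93b5ed_al.Oct

noncomputable section

namespace Pool.Agent.W_MP_93b5ed_al

namespace Oct

variable {K : Type*} [Field K]

/-- trace -/
def tr (x : Oct K) : K := x.a + x.b

/-- an octonion is scalar iff it is a multiple of `1` -/
def IsScal (x : Oct K) : Prop := ∃ c : K, x = c • (1 : Oct K)

theorem isScal_iff (x : Oct K) : IsScal x ↔ x.a = x.b ∧ x.u1 = 0 ∧ x.u2 = 0 ∧ x.u3 = 0 ∧
    x.v1 = 0 ∧ x.v2 = 0 ∧ x.v3 = 0 := by
  constructor
  · rintro ⟨c, rfl⟩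
    simp
  · rintro ⟨h1, h2, h3, h4, h5, h6, h7⟩
    exact ⟨x.a, by ext <;> simp [*]⟩

theorem isScal_smul_one (c : K) : IsScal (c • (1 : Oct K)) := ⟨c, rfl⟩

theorem IsScal.add {x y : Oct K} (hx : IsScal x) (hy : IsScal y) : IsScal (x + y) := by
  obtain ⟨c, rfl⟩ := hx
  obtain ⟨d, rfl⟩ := hy
  exact ⟨c + d, by rw [add_smul]⟩

theorem IsScal.sub {x y : Oct K} (hx : IsScal x) (hy : IsScal y) : IsScal (x - y) := by
  obtain ⟨c, rfl⟩ := hx
  obtain ⟨d, rfl⟩ := hy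
  exact ⟨c - d, by rw [sub_smul]⟩

theorem IsScal.smul {x : Oct K} (c : K) (hx : IsScal x) : IsScal (c • x) := by
  obtain ⟨d, rfl⟩ := hx
  exact ⟨c * d, by rw [mul_smul]⟩

theorem IsScal.neg {x : Oct K} (hx : IsScal x) : IsScal (-x) := by
  obtain ⟨d, rfl⟩ := hx
  exact ⟨-d, by rw [neg_smul]⟩

theorem isScal_zero : IsScal (0 : Oct K) := ⟨0, by rw [zero_smul]⟩

theorem isScal_one : IsScal (1 : Oct K) := ⟨1, by rw [one_smul]⟩

theorem IsScal.star {x : Oct K} (hx : IsScal x) : IsScal (star x) := by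
  rw [isScal_iff] at hx ⊢
  obtain ⟨h1, h2, h3, h4, h5, h6, h7⟩ := hx
  simp [*]

theorem IsScal.star_eq {x : Oct K} (hx : IsScal x) : Star.star x = x := by
  obtain ⟨c, rfl⟩ := hx
  ext <;> simp

theorem IsScal.mul {x y : Oct K} (hx : IsScal x) (hy : IsScal y) : IsScal (x * y) := by
  obtain ⟨c, rfl⟩ := hx
  obtain ⟨d, rfl⟩ := hy
  exact ⟨c * d, by rw [smul_mul_assoc, one_mul, mul_smul]⟩

/-- the middle nucleus is `K` -/
theorem isScal_of_nucleus {m : Oct K} (h : ∀ v w : Oct K, (v * m) * w = v * (m * w)) : IsScal m := by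
  rw [isScal_iff]
  have e1 := congrArg Oct.v3 (h ⟨0,0,1,0,0,0,0,0⟩ ⟨0,0,0,1,0,0,0,0⟩)
  have e2 := congrArg Oct.v3 (h ⟨1,0,0,0,0,0,0,0⟩ ⟨0,0,0,1,0,0,0,0⟩)
  have e3 := congrArg Oct.v3 (h ⟨1,0,0,0,0,0,0,0⟩ ⟨0,0,1,0,0,0,0,0⟩)
  have e4 := congrArg Oct.v2 (h ⟨1,0,0,0,0,0,0,0⟩ ⟨0,0,1,0,0,0,0,0⟩)
  have e5 := congrArg Oct.u3 (h ⟨1,0,0,0,0,0,0,0⟩ ⟨0,0,0,0,0,0,1,0⟩)
  have e6 := congrArg Oct.u3 (h ⟨1,0,0,0,0,0,0,0⟩ ⟨0,0,0,0,0,1,0,0⟩)
  have e7 := congrArg Oct.u2 (h ⟨1,0,0,0,0,0,0,0⟩ ⟨0,0,0,0,0,1,0,0⟩)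
  simp at e1 e2 e3 e4 e5 e6 e7
  refine ⟨?_, ?_, ?_, ?_, ?_, ?_, ?_⟩ <;> first | assumption | (symm; assumption)

/-- if `u (u, v, w) = 0` for all `v w` then `u` is zero (for imaginary `u`) -/
theorem eq_zero_of_quad {u : Oct K} (hu : u.a = -u.b)
    (h : ∀ v w : Oct K, u * ((u * v) * w) = u * (u * (v * w))) (h2 : (2 : K) ≠ 0) : u = 0 := by
  have e1 := congrArg Oct.u1 (h ⟨0,0,0,1,0,0,0,0⟩ ⟨0,0,0,0,1,0,0,0⟩)
  have e2 := congrArg Oct.u2 (h ⟨0,0,1,0,0,0,0,0⟩ ⟨0,0,0,0,1,0,0,0⟩)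
  have e3 := congrArg Oct.u3 (h ⟨0,0,1,0,0,0,0,0⟩ ⟨0,0,0,1,0,0,0,0⟩)
  have e4 := congrArg Oct.u3 (h ⟨0,0,1,0,0,0,0,0⟩ ⟨0,0,0,0,0,0,1,0⟩)
  have e5 := congrArg Oct.u3 (h ⟨0,0,0,1,0,0,0,0⟩ ⟨0,0,0,0,0,1,0,0⟩)
  have e6 := congrArg Oct.u2 (h ⟨0,0,0,0,1,0,0,0⟩ ⟨0,0,0,0,0,1,0,0⟩)
  have e7 := congrArg Oct.v3 (h ⟨0,0,1,0,0,0,0,0⟩ ⟨0,0,0,1,0,0,0,0⟩)
  simp at e1 e2 e3 e4 e5 e6 e7
  rw [e1, e2, e3, hu] at e7
  have hb : u.b = 0 := by
    have : (2 : K) * (u.b * u.b) = 0 := by linear_combination -e7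
    rcases mul_eq_zero.1 this with h | h
    · exact absurd h h2
    · simpa using h
  ext <;> simp [*]

/-- if all Jacobians with imaginary octonions vanish then `x` is scalar -/
theorem isScal_of_jac {x : Oct K} (h2 : (2 : K) ≠ 0) (h3 : (3 : K) ≠ 0)
    (h : ∀ o o' : Oct K, o.a = -o.b → o'.a = -o'.b →
      (x * o - o * x) * o' - o' * (x * o - o * x) + ((o * o' - o' * o) * x - x * (o * o' - o' * o)) +
      ((o' * x - x * o') * o - o * (o' * x - x * o')) = 0) : IsScal x := by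
  have h6 : (6 : K) ≠ 0 := by
    have : (6 : K) = 2 * 3 := by norm_num
    rw [this]; exact mul_ne_zero h2 h3
  have h12 : (12 : K) ≠ 0 := by
    have : (12 : K) = 2 * 6 := by norm_num
    rw [this]; exact mul_ne_zero h2 h6
  rw [isScal_iff]
  have e1 := congrArg Oct.v2 (h ⟨1,-1,0,0,0,0,0,0⟩ ⟨0,0,1,0,0,0,0,0⟩ (by simp) (by simp))
  have e2 := congrArg Oct.v3 (h ⟨1,-1,0,0,0,0,0,0⟩ ⟨0,0,1,0,0,0,0,0⟩ (by simp) (by simp))
  have e3 := congrArg Oct.v3 (h ⟨1,-1,0,0,0,0,0,0⟩ ⟨0,0,0,1,0,0,0,0⟩ (by simp) (by simp))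
  have e4 := congrArg Oct.u2 (h ⟨1,-1,0,0,0,0,0,0⟩ ⟨0,0,0,0,0,1,0,0⟩ (by simp) (by simp))
  have e5 := congrArg Oct.u3 (h ⟨1,-1,0,0,0,0,0,0⟩ ⟨0,0,0,0,0,1,0,0⟩ (by simp) (by simp))
  have e6 := congrArg Oct.u3 (h ⟨1,-1,0,0,0,0,0,0⟩ ⟨0,0,0,0,0,0,1,0⟩ (by simp) (by simp))
  have e7 := congrArg Oct.v3 (h ⟨0,0,1,0,0,0,0,0⟩ ⟨0,0,0,1,0,0,0,0⟩ (by simp) (by simp))
  simp only [add_v2, add_v3, add_u2, add_u3, sub_a, sub_b, sub_u1, sub_u2, sub_u3, sub_v1, sub_v2,
    sub_v3, mul_a, mul_b, mul_u1, mul_u2, mul_u3, mul_v1, mul_v2, mul_v3, zero_v2, zero_v3,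
    zero_u2, zero_u3, mul_zero, zero_mul, add_zero, zero_add, sub_zero, zero_sub, sub_self]
    at e1 e2 e3 e4 e5 e6 e7
  refine ⟨?_, ?_, ?_, ?_, ?_, ?_, ?_⟩
  · have : 6 * (x.a - x.b) = 0 := by linear_combination e7
    rcases mul_eq_zero.1 this with h | h
    · exact absurd h h6
    · exact sub_eq_zero.1 h
  · have : 12 * x.u1 = 0 := by linear_combination -e3
    exact (mul_eq_zero.1 this).resolve_left h12
  · have : 12 * x.u2 = 0 := by linear_combination e2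
    exact (mul_eq_zero.1 this).resolve_left h12
  · have : 12 * x.u3 = 0 := by linear_combination -e1
    exact (mul_eq_zero.1 this).resolve_left h12
  · have : 12 * x.v1 = 0 := by linear_combination -e6
    exact (mul_eq_zero.1 this).resolve_left h12
  · have : 12 * x.v2 = 0 := by linear_combination e5
    exact (mul_eq_zero.1 this).resolve_left h12
  · have : 12 * x.v3 = 0 := by linear_combination -e4
    exact (mul_eq_zero.1 this).resolve_left h12

/-- Schur-type lemma for the Malcev algebra of imaginary octonions -/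
theorem schur (h2 : (2 : K) ≠ 0) (t : Oct K →ₗ[K] Oct K)
    (h : ∀ o o' : Oct K, o.a = -o.b → o'.a = -o'.b →
      t (o * o' - o' * o) = o * t o' - t o' * o) :
    ∃ c : K, ∀ o : Oct K, o.a = -o.b → t o = c • o := by
  set T := t ⟨1,-1,0,0,0,0,0,0⟩ with hT
  have hH := h ⟨1,-1,0,0,0,0,0,0⟩ ⟨1,-1,0,0,0,0,0,0⟩ (by simp) (by simp)
  rw [sub_self, map_zero, ← hT] at hH
  have half : ∀ x : K, 2 * x = 0 → x = 0 := fun x hx => (mul_eq_zero.1 hx).resolve_left h2
  have z1 : T.u1 = 0 := half _ (by have := congrArg Oct.u1 hH; simp at this; linear_combination -this)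
  have z2 : T.u2 = 0 := half _ (by have := congrArg Oct.u2 hH; simp at this; linear_combination -this)
  have z3 : T.u3 = 0 := half _ (by have := congrArg Oct.u3 hH; simp at this; linear_combination -this)
  have z4 : T.v1 = 0 := half _ (by have := congrArg Oct.v1 hH; simp at this; linear_combination this)
  have z5 : T.v2 = 0 := half _ (by have := congrArg Oct.v2 hH; simp at this; linear_combination this)
  have z6 : T.v3 = 0 := half _ (by have := congrArg Oct.v3 hH; simp at this; linear_combination this)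
  have key : ∀ o o' : Oct K, (2 : K) • t o = o' → t o = (2⁻¹ : K) • o' := by
    intro o o' ho
    rw [← ho, smul_smul, inv_mul_cancel₀ h2, one_smul]
  set lam : K := 2⁻¹ * (T.a - T.b) with hlam
  have hl2 : 2 * lam = T.a - T.b := by rw [hlam, ← mul_assoc, mul_inv_cancel₀ h2, one_mul]
  have gen : ∀ o : Oct K, o.a = 0 → o.b = 0 → o.v1 = 0 → o.v2 = 0 → o.v3 = 0 → t o = lam • o := by
    intro o ha hb h1 h2' h3
    have e := h o ⟨1,-1,0,0,0,0,0,0⟩ (by simp [ha, hb]) (by simp)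
    have e1 : o * ⟨1,-1,0,0,0,0,0,0⟩ - ⟨1,-1,0,0,0,0,0,0⟩ * o = (-2 : K) • o := by
      ext <;> simp only [sub_a, sub_b, sub_u1, sub_u2, sub_u3, sub_v1, sub_v2, sub_v3, mul_a, mul_b,
        mul_u1, mul_u2, mul_u3, mul_v1, mul_v2, mul_v3, smul_a, smul_b, smul_u1, smul_u2, smul_u3,
        smul_v1, smul_v2, smul_v3, ha, hb, h1, h2', h3] <;> ring
    rw [e1, map_smul, ← hT] at e
    have e2 : o * T - T * o = (-(T.a - T.b)) • o := by
      ext <;> simp only [sub_a, sub_b, sub_u1, sub_u2, sub_u3, sub_v1, sub_v2, sub_v3, mul_a, mul_b,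
        mul_u1, mul_u2, mul_u3, mul_v1, mul_v2, mul_v3, smul_a, smul_b, smul_u1, smul_u2, smul_u3,
        smul_v1, smul_v2, smul_v3, ha, hb, h1, h2', h3, z1, z2, z3, z4, z5, z6] <;> ring
    rw [e2, ← hl2] at e
    have e3 : (-2 : K) • (t o) = (-2 : K) • (lam • o) := by rw [e, smul_smul]; congr 1; ring
    have h2n : (-2 : K) ≠ 0 := neg_ne_zero.2 h2
    have e4 := congrArg (fun z => ((-2 : K)⁻¹) • z) e3
    simp only [smul_smul, inv_mul_cancel₀ h2n, one_smul] at e4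
    rw [e4, ← mul_assoc, inv_mul_cancel₀ h2n, one_mul]
  have gen' : ∀ o : Oct K, o.a = 0 → o.b = 0 → o.u1 = 0 → o.u2 = 0 → o.u3 = 0 → t o = lam • o := by
    intro o ha hb h1 h2' h3
    have e := h o ⟨1,-1,0,0,0,0,0,0⟩ (by simp [ha, hb]) (by simp)
    have e1 : o * ⟨1,-1,0,0,0,0,0,0⟩ - ⟨1,-1,0,0,0,0,0,0⟩ * o = (2 : K) • o := by
      ext <;> simp only [sub_a, sub_b, sub_u1, sub_u2, sub_u3, sub_v1, sub_v2, sub_v3, mul_a, mul_b,
        mul_u1, mul_u2, mul_u3, mul_v1, mul_v2, mul_v3, smul_a, smul_b, smul_u1, smul_u2, smul_u3,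
        smul_v1, smul_v2, smul_v3, ha, hb, h1, h2', h3] <;> ring
    rw [e1, map_smul, ← hT] at e
    have e2 : o * T - T * o = (T.a - T.b) • o := by
      ext <;> simp only [sub_a, sub_b, sub_u1, sub_u2, sub_u3, sub_v1, sub_v2, sub_v3, mul_a, mul_b,
        mul_u1, mul_u2, mul_u3, mul_v1, mul_v2, mul_v3, smul_a, smul_b, smul_u1, smul_u2, smul_u3,
        smul_v1, smul_v2, smul_v3, ha, hb, h1, h2', h3, z1, z2, z3, z4, z5, z6] <;> ring
    rw [e2, ← hl2] at e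
    have e4 := congrArg (fun z => ((2 : K)⁻¹) • z) e
    simp only [smul_smul, inv_mul_cancel₀ h2, one_smul] at e4
    rw [e4, ← mul_assoc, inv_mul_cancel₀ h2, one_mul]
  have genH : T = lam • (⟨1,-1,0,0,0,0,0,0⟩ : Oct K) := by
    have e := h ⟨0,0,1,0,0,0,0,0⟩ ⟨0,0,0,0,0,1,0,0⟩ (by simp) (by simp)
    rw [gen' ⟨0,0,0,0,0,1,0,0⟩ rfl rfl rfl rfl rfl] at e
    have e1 : (⟨0,0,1,0,0,0,0,0⟩ : Oct K) * ⟨0,0,0,0,0,1,0,0⟩ - ⟨0,0,0,0,0,1,0,0⟩ * ⟨0,0,1,0,0,0,0,0⟩ =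
        ⟨1,-1,0,0,0,0,0,0⟩ := by
      ext <;> simp
    rw [e1, ← hT] at e
    rw [e]
    ext <;> simp
  refine ⟨lam, fun o ho => ?_⟩
  have dec : o = o.a • (⟨1,-1,0,0,0,0,0,0⟩ : Oct K) + (⟨0,0,o.u1,o.u2,o.u3,0,0,0⟩ : Oct K) +
      (⟨0,0,0,0,0,o.v1,o.v2,o.v3⟩ : Oct K) := by
    ext <;> simp
    rw [ho, neg_neg]
  conv_lhs => rw [dec]
  rw [map_add, map_add, map_smul, ← hT, genH, gen _ rfl rfl rfl rfl rfl, gen' _ rfl rfl rfl rfl rfl]
  conv_rhs => rw [dec]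
  rw [smul_add, smul_add, smul_comm]

end Oct

end Pool.Agent.W_MP_93b5ed_al

end

noncomputable section

namespace Pool.Agent.W_MP_93b5ed_al

namespace Oct

variable {K : Type*} [Field K]

/-- derivation -/
def D12 : Oct K →ₗ[K] Oct K where
  toFun z := ⟨0, 0, z.u2, 0, 0, 0, -z.v1, 0⟩
  map_add' x y := by ext <;> simp only [add_a, add_b, add_u1, add_u2, add_u3, add_v1,
    add_v2, add_v3] <;> ring
  map_smul' c x := by ext <;> simp only [RingHom.id_apply, smul_a, smul_b, smul_u1, smul_u2,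
    smul_u3, smul_v1, smul_v2, smul_v3] <;> ring

/-- derivation -/
def D23 : Oct K →ₗ[K] Oct K where
  toFun z := ⟨0, 0, 0, z.u3, 0, 0, 0, -z.v2⟩
  map_add' x y := by ext <;> simp only [add_a, add_b, add_u1, add_u2, add_u3, add_v1,
    add_v2, add_v3] <;> ring
  map_smul' c x := by ext <;> simp only [RingHom.id_apply, smul_a, smul_b, smul_u1, smul_u2,
    smul_u3, smul_v1, smul_v2, smul_v3] <;> ring

/-- derivation -/
def D31 : Oct K →ₗ[K] Oct K where
  toFun z := ⟨0, 0, 0, 0, z.u1, -z.v3, 0, 0⟩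
  map_add' x y := by ext <;> simp only [add_a, add_b, add_u1, add_u2, add_u3, add_v1,
    add_v2, add_v3] <;> ring
  map_smul' c x := by ext <;> simp only [RingHom.id_apply, smul_a, smul_b, smul_u1, smul_u2,
    smul_u3, smul_v1, smul_v2, smul_v3] <;> ring

/-- derivation -/
def Dd : Oct K →ₗ[K] Oct K where
  toFun z := ⟨z.v1, -z.v1, z.b - z.a, 0, 0, 0, z.u3, -z.u2⟩
  map_add' x y := by ext <;> simp only [add_a, add_b, add_u1, add_u2, add_u3, add_v1,
    add_v2, add_v3] <;> ring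
  map_smul' c x := by ext <;> simp only [RingHom.id_apply, smul_a, smul_b, smul_u1, smul_u2,
    smul_u3, smul_v1, smul_v2, smul_v3] <;> ring

theorem D12_apply (z : Oct K) : D12 z = ⟨0, 0, z.u2, 0, 0, 0, -z.v1, 0⟩ := rfl

theorem D23_apply (z : Oct K) : D23 z = ⟨0, 0, 0, z.u3, 0, 0, 0, -z.v2⟩ := rfl

theorem D31_apply (z : Oct K) : D31 z = ⟨0, 0, 0, 0, z.u1, -z.v3, 0, 0⟩ := rfl

theorem Dd_apply (z : Oct K) : Dd z = ⟨z.v1, -z.v1, z.b - z.a, 0, 0, 0, z.u3, -z.u2⟩ := rfl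

/-- being a derivation which commutes with conjugation -/
def IsDer (D : Oct K →ₗ[K] Oct K) : Prop :=
  (∀ x y, D (x * y) = D x * y + x * D y) ∧ (∀ x, D (star x) = star (D x)) ∧
    (∀ x, (D x).a = -(D x).b)

theorem isDer_D12 : IsDer (D12 : Oct K →ₗ[K] Oct K) := by
  refine ⟨fun x y => ?_, fun x => ?_, fun x => ?_⟩
  · rw [D12_apply, D12_apply, D12_apply]
    ext <;> simp only [mul_a, mul_b, mul_u1, mul_u2, mul_u3, mul_v1, mul_v2, mul_v3,
      add_a, add_b, add_u1, add_u2, add_u3, add_v1, add_v2, add_v3] <;> ring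
  · rw [D12_apply, D12_apply]
    ext <;> simp only [star_a, star_b, star_u1, star_u2, star_u3, star_v1, star_v2, star_v3] <;> ring
  · simp [D12]

theorem isDer_D23 : IsDer (D23 : Oct K →ₗ[K] Oct K) := by
  refine ⟨fun x y => ?_, fun x => ?_, fun x => ?_⟩
  · rw [D23_apply, D23_apply, D23_apply]
    ext <;> simp only [mul_a, mul_b, mul_u1, mul_u2, mul_u3, mul_v1, mul_v2, mul_v3,
      add_a, add_b, add_u1, add_u2, add_u3, add_v1, add_v2, add_v3] <;> ring
  · rw [D23_apply, D23_apply]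
    ext <;> simp only [star_a, star_b, star_u1, star_u2, star_u3, star_v1, star_v2, star_v3] <;> ring
  · simp [D23]

theorem isDer_D31 : IsDer (D31 : Oct K →ₗ[K] Oct K) := by
  refine ⟨fun x y => ?_, fun x => ?_, fun x => ?_⟩
  · rw [D31_apply, D31_apply, D31_apply]
    ext <;> simp only [mul_a, mul_b, mul_u1, mul_u2, mul_u3, mul_v1, mul_v2, mul_v3,
      add_a, add_b, add_u1, add_u2, add_u3, add_v1, add_v2, add_v3] <;> ring
  · rw [D31_apply, D31_apply]
    ext <;> simp only [star_a, star_b, star_u1, star_u2, star_u3, star_v1, star_v2, star_v3] <;> ring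
  · simp [D31]

theorem isDer_Dd : IsDer (Dd : Oct K →ₗ[K] Oct K) := by
  refine ⟨fun x y => ?_, fun x => ?_, fun x => ?_⟩
  · rw [Dd_apply, Dd_apply, Dd_apply]
    ext <;> simp only [mul_a, mul_b, mul_u1, mul_u2, mul_u3, mul_v1, mul_v2, mul_v3,
      add_a, add_b, add_u1, add_u2, add_u3, add_v1, add_v2, add_v3] <;> ring
  · rw [Dd_apply, Dd_apply]
    ext <;> simp only [star_a, star_b, star_u1, star_u2, star_u3, star_v1, star_v2, star_v3] <;> ring
  · simp [Dd]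

theorem isScal_of_der {x : Oct K} (h : ∀ D : Oct K →ₗ[K] Oct K, IsDer D → D x = 0) : IsScal x := by
  rw [isScal_iff]
  have e1 := h _ isDer_D12
  have e2 := h _ isDer_D23
  have e3 := h _ isDer_D31
  have e4 := h _ isDer_Dd
  have f1 := congrArg Oct.u2 e2
  have f2 := congrArg Oct.v3 e2
  have g1 := congrArg Oct.u3 e3
  have g2 := congrArg Oct.v1 e3
  have k1 := congrArg Oct.u1 e1
  have k2 := congrArg Oct.v2 e1
  have l1 := congrArg Oct.u1 e4
  simp [D12, D23, D31, Dd] at f1 f2 g1 g2 k1 k2 l1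
  exact ⟨(sub_eq_zero.1 l1).symm, g1, k1, f1, k2, f2, g2⟩

/-- `q x` with `x * x = q x • 1` for imaginary `x` -/
def q (x : Oct K) : K := x.a * x.a + (x.u1 * x.v1 + x.u2 * x.v2 + x.u3 * x.v3)

theorem sq_im {x : Oct K} (hx : x.a = -x.b) : x * x = q x • (1 : Oct K) := by
  have hb : x.b = -x.a := by rw [hx, neg_neg]
  ext <;> simp only [mul_a, mul_b, mul_u1, mul_u2, mul_u3, mul_v1, mul_v2, mul_v3, smul_a, smul_b,
    smul_u1, smul_u2, smul_u3, smul_v1, smul_v2, smul_v3, one_a, one_b, one_u1, one_u2, one_u3,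
    one_v1, one_v2, one_v3, q, hb] <;> ring

theorem anticomm_im {x y : Oct K} (hx : x.a = -x.b) (hy : y.a = -y.b) :
    x * y + y * x = (q (x + y) - q x - q y) • (1 : Oct K) := by
  have hb : x.b = -x.a := by rw [hx, neg_neg]
  have hb' : y.b = -y.a := by rw [hy, neg_neg]
  ext <;> simp only [mul_a, mul_b, mul_u1, mul_u2, mul_u3, mul_v1, mul_v2, mul_v3, smul_a, smul_b,
    smul_u1, smul_u2, smul_u3, smul_v1, smul_v2, smul_v3, one_a, one_b, one_u1, one_u2, one_u3,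
    one_v1, one_v2, one_v3, q, hb, hb', add_a, add_b, add_u1, add_u2, add_u3, add_v1, add_v2,
    add_v3] <;> ring

theorem dcomm_im {x y : Oct K} (hx : x.a = -x.b) (hy : y.a = -y.b) :
    x * (x * y - y * x) - (x * y - y * x) * x =
      (4 * q x) • y - (2 * (q (x + y) - q x - q y)) • x := by
  have hb : x.b = -x.a := by rw [hx, neg_neg]
  have hb' : y.b = -y.a := by rw [hy, neg_neg]
  ext <;> simp only [mul_a, mul_b, mul_u1, mul_u2, mul_u3, mul_v1, mul_v2, mul_v3, smul_a, smul_b,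
    smul_u1, smul_u2, smul_u3, smul_v1, smul_v2, smul_v3, one_a, one_b, one_u1, one_u2, one_u3,
    one_v1, one_v2, one_v3, q, hb, hb', add_a, add_b, add_u1, add_u2, add_u3, add_v1, add_v2,
    add_v3, sub_a, sub_b, sub_u1, sub_u2, sub_u3, sub_v1, sub_v2, sub_v3] <;> ring

theorem comm_im (x y : Oct K) : (x * y - y * x).a = -(x * y - y * x).b := by
  simp; ring

theorem mul_map_of_comm (h2 : (2 : K) ≠ 0) (g : Oct K →ₗ[K] Oct K)
    (h1 : g 1 = 1) (him : ∀ x : Oct K, x.a = -x.b → (g x).a = -(g x).b)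
    (hinj : ∀ x : Oct K, x.a = -x.b → g x = 0 → x = 0)
    (hc : ∀ x y : Oct K, x.a = -x.b → y.a = -y.b → g (x * y - y * x) = g x * g y - g y * g x)
    (x y : Oct K) : g (x * y) = g x * g y := by
  have hq : ∀ x : Oct K, x.a = -x.b → q (g x) = q x := by
    intro x hx
    by_contra hne
    set κ : K := 4 * (q x - q (g x)) with hκ
    have hκ0 : κ ≠ 0 := by
      have : (4 : K) = 2 * 2 := by norm_num
      rw [hκ, this]
      exact mul_ne_zero (mul_ne_zero h2 h2) (sub_ne_zero.2 (Ne.symm hne))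
    have hy : ∀ y : Oct K, y.a = -y.b → ∃ ρ : K, κ • y = ρ • x := by
      intro y hy
      have e1 := congrArg g (dcomm_im hx hy)
      rw [hc x _ hx (comm_im x y), hc x y hx hy, dcomm_im (him x hx) (him y hy), map_sub, map_smul,
        map_smul] at e1
      refine ⟨2 * (q (x + y) - q x - q y) - 2 * (q (g x + g y) - q (g x) - q (g y)), ?_⟩
      have e2 : g (κ • y - (2 * (q (x + y) - q x - q y) - 2 * (q (g x + g y) - q (g x) - q (g y))) • x)
          = 0 := by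
        rw [map_sub, map_smul, map_smul, hκ]
        have e3 := sub_eq_zero.2 e1
        rw [← neg_eq_zero, ← e3]
        simp only [mul_sub, sub_smul]
        abel
      have e4 := hinj _ (by simp [hx, hy]; ring) e2
      exact sub_eq_zero.1 e4
    obtain ⟨ρ, hρ⟩ := hy ⟨1,-1,0,0,0,0,0,0⟩ (by simp)
    obtain ⟨σ, hσ⟩ := hy ⟨0,0,1,0,0,0,0,0⟩ (by simp)
    have a1 := congrArg Oct.a hρ
    have a3 := congrArg Oct.a hσ
    have a4 := congrArg Oct.u1 hσ
    simp at a1 a3 a4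
    rcases a3 with h | h
    · rw [h, zero_mul] at a4
      exact hκ0 a4
    · rw [h, mul_zero] at a1
      exact hκ0 a1
  have him2 : ∀ x y : Oct K, x.a = -x.b → y.a = -y.b → g (x * y) = g x * g y := by
    intro x y hx hy
    have hs : (x + y).a = -(x + y).b := by simp [hx, hy]; ring
    have e1 := congrArg g (anticomm_im hx hy)
    rw [map_smul, h1, map_add] at e1
    have e2 := anticomm_im (him x hx) (him y hy)
    rw [← map_add, hq _ hs, hq _ hx, hq _ hy, ← e1] at e2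
    have e3 := hc x y hx hy
    rw [map_sub] at e3
    have e4 : (2 : K) • g (x * y) = (2 : K) • (g x * g y) := by
      rw [two_smul, two_smul]
      calc g (x * y) + g (x * y) = (g (x * y) + g (y * x)) + (g (x * y) - g (y * x)) := by abel
        _ = (g x * g y + g y * g x) + (g x * g y - g y * g x) := by rw [← e2, e3]
        _ = g x * g y + g x * g y := by abel
    have e5 := congrArg (fun z => (2 : K)⁻¹ • z) e4
    simpa only [smul_smul, inv_mul_cancel₀ h2, one_smul] using e5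
  -- general case: decompose
  have dec : ∀ x : Oct K, ∃ c : K, ∃ x' : Oct K, x'.a = -x'.b ∧ x = c • (1 : Oct K) + x' := by
    intro x
    refine ⟨2⁻¹ * (x.a + x.b), x - (2⁻¹ * (x.a + x.b)) • (1 : Oct K), ?_, ?_⟩
    · simp
      field_simp
      ring
    · abel
  obtain ⟨c, x', hx', rfl⟩ := dec x
  obtain ⟨d, y', hy', rfl⟩ := dec y
  simp only [add_mul, mul_add, smul_mul_assoc, mul_smul_comm, one_mul, mul_one, map_add, map_smul,
    h1, him2 x' y' hx' hy']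

/-- automorphisms (injective multiplicative unital linear maps) commute with conjugation -/
theorem map_star_of_mul (g : Oct K →ₗ[K] Oct K) (h1 : g 1 = 1) (hinj : ∀ x, g x = 0 → x = 0)
    (hm : ∀ x y, g (x * y) = g x * g y) (x : Oct K) : g (star x) = star (g x) := by
  have quad : ∀ x : Oct K, x * x = (x.a + x.b) • x -
      (x.a * x.b - (x.u1 * x.v1 + x.u2 * x.v2 + x.u3 * x.v3)) • (1 : Oct K) := by
    intro x
    ext <;> simp only [mul_a, mul_b, mul_u1, mul_u2, mul_u3, mul_v1, mul_v2, mul_v3, smul_a, smul_b,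
      smul_u1, smul_u2, smul_u3, smul_v1, smul_v2, smul_v3, one_a, one_b, one_u1, one_u2, one_u3,
      one_v1, one_v2, one_v3, sub_a, sub_b, sub_u1, sub_u2, sub_u3, sub_v1, sub_v2, sub_v3] <;> ring
  have hst : ∀ x : Oct K, star x = (x.a + x.b) • (1 : Oct K) - x := by
    intro x
    ext <;> simp only [star_a, star_b, star_u1, star_u2, star_u3, star_v1, star_v2, star_v3,
      smul_a, smul_b, smul_u1, smul_u2, smul_u3, smul_v1, smul_v2, smul_v3, one_a, one_b, one_u1,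
      one_u2, one_u3, one_v1, one_v2, one_v3, sub_a, sub_b, sub_u1, sub_u2, sub_u3, sub_v1, sub_v2,
      sub_v3] <;> ring
  have key : (g x).a + (g x).b = x.a + x.b := by
    by_contra hne
    have e1 := congrArg g (quad x)
    rw [hm, quad (g x), map_sub, map_smul, map_smul, h1] at e1
    set N := (g x).a * (g x).b - ((g x).u1 * (g x).v1 + (g x).u2 * (g x).v2 + (g x).u3 * (g x).v3)
    set N' := x.a * x.b - (x.u1 * x.v1 + x.u2 * x.v2 + x.u3 * x.v3)
    have hd : ((g x).a + (g x).b) - (x.a + x.b) ≠ 0 := sub_ne_zero.2 hne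
    have e2 : (((g x).a + (g x).b) - (x.a + x.b)) • g x = (N - N') • (1 : Oct K) := by
      rw [sub_smul, sub_smul, sub_eq_sub_iff_add_eq_add]
      rw [sub_eq_sub_iff_add_eq_add] at e1
      rw [e1]; abel
    have e3 : g ((((g x).a + (g x).b) - (x.a + x.b)) • x - (N - N') • (1 : Oct K)) = 0 := by
      rw [map_sub, map_smul, map_smul, h1, e2, sub_self]
    have e4 := sub_eq_zero.1 (hinj _ e3)
    have e5 : x = ((((g x).a + (g x).b) - (x.a + x.b))⁻¹ * (N - N')) • (1 : Oct K) := by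
      rw [mul_smul, ← e4, smul_smul, inv_mul_cancel₀ hd, one_smul]
    have e6 : g x = x := by
      conv_lhs => rw [e5]
      rw [map_smul, h1, ← e5]
    exact hne (by rw [e6])
  rw [hst x, hst (g x), map_sub, map_smul, h1, key]

end Oct

end Pool.Agent.W_MP_93b5ed_al

end
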