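import Pool.Agent.W_MP_93b5ed_al.JordanLemma
import Pool.Agent.W_MP_93b5ed_al.AutDefs
import Pool.Agent.W_MP_93b5ed_al.OctLemmas2

/-!
# Octonion matrices: scalar matrices, tensors
-/

noncomputable section

namespace Pool.Agent.W_MP_93b5ed_al

open Matrix

variable {K : Type*} [Field K] {n : ℕ}

/-- `tens M o` is the octonion matrix with entries `M i j • o` -/
def tens (M : Matrix (Fin n) (Fin n) K) (o : Oct K) : OM n K := M.map (fun c => c • o)

theorem tens_apply (M : Matrix (Fin n) (Fin n) K) (o : Oct K) (i j : Fin n) :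
    tens M o i j = M i j • o := rfl

theorem sc_apply (M : Matrix (Fin n) (Fin n) K) (i j : Fin n) :
    sc M i j = M i j • (1 : Oct K) := rfl

theorem sc_eq (M : Matrix (Fin n) (Fin n) K) : sc M = tens M 1 := rfl

theorem tens_mul (M N : Matrix (Fin n) (Fin n) K) (o p : Oct K) :
    tens M o * tens N p = tens (M * N) (o * p) := by
  ext i j : 1
  rw [Matrix.mul_apply, tens_apply, Matrix.mul_apply, Finset.sum_smul]
  refine Finset.sum_congr rfl fun k _ => ?_
  rw [tens_apply, tens_apply, smul_mul_assoc, mul_smul_comm, smul_smul]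

theorem tens_add_left (M N : Matrix (Fin n) (Fin n) K) (o : Oct K) :
    tens (M + N) o = tens M o + tens N o := by
  ext i j : 1
  rw [Matrix.add_apply, tens_apply, tens_apply, tens_apply, Matrix.add_apply, add_smul]

theorem tens_sub_left (M N : Matrix (Fin n) (Fin n) K) (o : Oct K) :
    tens (M - N) o = tens M o - tens N o := by
  ext i j : 1
  rw [Matrix.sub_apply, tens_apply, tens_apply, tens_apply, Matrix.sub_apply, sub_smul]

theorem tens_smul_left (c : K) (M : Matrix (Fin n) (Fin n) K) (o : Oct K) :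
    tens (c • M) o = c • tens M o := by
  ext i j : 1
  rw [Matrix.smul_apply, tens_apply, tens_apply, Matrix.smul_apply, smul_eq_mul, mul_smul]

theorem tens_add_right (M : Matrix (Fin n) (Fin n) K) (o p : Oct K) :
    tens M (o + p) = tens M o + tens M p := by
  ext i j : 1
  rw [Matrix.add_apply, tens_apply, tens_apply, tens_apply, smul_add]

theorem tens_sub_right (M : Matrix (Fin n) (Fin n) K) (o p : Oct K) :
    tens M (o - p) = tens M o - tens M p := by
  ext i j : 1
  rw [Matrix.sub_apply, tens_apply, tens_apply, tens_apply, smul_sub]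

theorem tens_smul_right (c : K) (M : Matrix (Fin n) (Fin n) K) (o : Oct K) :
    tens M (c • o) = c • tens M o := by
  ext i j : 1
  rw [Matrix.smul_apply, tens_apply, tens_apply, smul_comm]

theorem tens_zero_right (M : Matrix (Fin n) (Fin n) K) : tens M (0 : Oct K) = 0 := by
  ext i j : 1
  rw [tens_apply, smul_zero]; rfl

theorem tens_neg_left (M : Matrix (Fin n) (Fin n) K) (o : Oct K) : tens (-M) o = -tens M o := by
  ext i j : 1
  rw [tens_apply, Matrix.neg_apply, Matrix.neg_apply, tens_apply, neg_smul]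

theorem tens_neg_right (M : Matrix (Fin n) (Fin n) K) (o : Oct K) : tens M (-o) = -tens M o := by
  ext i j : 1
  rw [tens_apply, Matrix.neg_apply, tens_apply, smul_neg]

/-- `tens` as a linear map in the matrix -/
def tensL (o : Oct K) : Matrix (Fin n) (Fin n) K →ₗ[K] OM n K where
  toFun M := tens M o
  map_add' M N := tens_add_left M N o
  map_smul' c M := tens_smul_left c M o

theorem sc_mul_sc (M N : Matrix (Fin n) (Fin n) K) : sc M * sc N = sc (M * N) := by
  rw [sc_eq, sc_eq, sc_eq, tens_mul, mul_one]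

theorem sc_mul_tens (M N : Matrix (Fin n) (Fin n) K) (o : Oct K) :
    sc M * tens N o = tens (M * N) o := by
  rw [sc_eq, tens_mul, one_mul]

theorem tens_mul_sc (M N : Matrix (Fin n) (Fin n) K) (o : Oct K) :
    tens M o * sc N = tens (M * N) o := by
  rw [sc_eq, tens_mul, mul_one]

theorem sc_mul_apply (P : Matrix (Fin n) (Fin n) K) (X : OM n K) (i j : Fin n) :
    (sc P * X) i j = ∑ k, P i k • X k j := by
  rw [Matrix.mul_apply]
  refine Finset.sum_congr rfl fun k _ => ?_
  rw [sc_apply, smul_mul_assoc, one_mul]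

theorem mul_sc_apply (P : Matrix (Fin n) (Fin n) K) (X : OM n K) (i j : Fin n) :
    (X * sc P) i j = ∑ k, P k j • X i k := by
  rw [Matrix.mul_apply]
  refine Finset.sum_congr rfl fun k _ => ?_
  rw [sc_apply, mul_smul_comm, mul_one]

theorem sc_assoc (P : Matrix (Fin n) (Fin n) K) (X Y : OM n K) :
    sc P * X * Y = sc P * (X * Y) := by
  ext i j : 1
  rw [Matrix.mul_apply, sc_mul_apply]
  simp_rw [sc_mul_apply, Finset.sum_mul, Matrix.mul_apply, Finset.smul_sum, smul_mul_assoc]
  rw [Finset.sum_comm]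

theorem assoc_sc_mid (P : Matrix (Fin n) (Fin n) K) (X Y : OM n K) :
    X * sc P * Y = X * (sc P * Y) := by
  ext i j : 1
  rw [Matrix.mul_apply, Matrix.mul_apply]
  simp_rw [sc_mul_apply, mul_sc_apply, Finset.sum_mul, Finset.mul_sum, smul_mul_assoc,
    mul_smul_comm]
  rw [Finset.sum_comm]

theorem assoc_sc (P : Matrix (Fin n) (Fin n) K) (X Y : OM n K) :
    X * Y * sc P = X * (Y * sc P) := by
  ext i j : 1
  rw [mul_sc_apply, Matrix.mul_apply]
  simp_rw [mul_sc_apply, Matrix.mul_apply, Finset.mul_sum, Finset.smul_sum, mul_smul_comm]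
  rw [Finset.sum_comm]

theorem sc_one_mul (X : OM n K) : sc (1 : Matrix (Fin n) (Fin n) K) * X = X := by
  ext i j : 1
  rw [sc_mul_apply, Finset.sum_eq_single i]
  · rw [one_apply_eq, one_smul]
  · intro k _ hk
    rw [one_apply_ne (Ne.symm hk), zero_smul]
  · intro h; exact absurd (Finset.mem_univ i) h

theorem mul_sc_one (X : OM n K) : X * sc (1 : Matrix (Fin n) (Fin n) K) = X := by
  ext i j : 1
  rw [mul_sc_apply, Finset.sum_eq_single j]
  · rw [one_apply_eq, one_smul]
  · intro k _ hk
    rw [one_apply_ne hk, zero_smul]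
  · intro h; exact absurd (Finset.mem_univ j) h

theorem sc_smul (c : K) (M : Matrix (Fin n) (Fin n) K) : sc (c • M) = c • sc M :=
  tens_smul_left c M 1

theorem sc_add (M N : Matrix (Fin n) (Fin n) K) : sc (M + N) = sc M + sc N :=
  tens_add_left M N 1

theorem sc_sub (M N : Matrix (Fin n) (Fin n) K) : sc (M - N) = sc M - sc N :=
  tens_sub_left M N 1

theorem star_smul_oct (c : K) (x : Oct K) : star (c • x) = c • star x := by
  ext <;> simp

theorem star_one_oct : star (1 : Oct K) = 1 := by
  ext <;> simp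

theorem tens_conjTranspose (M : Matrix (Fin n) (Fin n) K) (o : Oct K) :
    (tens M o)ᴴ = tens Mᵀ (star o) := by
  ext i j : 1
  rw [conjTranspose_apply, tens_apply, tens_apply, transpose_apply, star_smul_oct]

theorem sc_conjTranspose (M : Matrix (Fin n) (Fin n) K) : (sc M)ᴴ = sc Mᵀ := by
  rw [sc_eq, tens_conjTranspose, star_one_oct, sc_eq]

theorem star_im {o : Oct K} (h : o.a = -o.b) : star o = -o := by
  ext <;> simp [h]

theorem sc_injective {M N : Matrix (Fin n) (Fin n) K} (h : sc M = sc N) : M = N := by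
  ext i j
  have := congrArg Oct.a (congrFun (congrFun h i) j)
  simpa [sc_apply] using this

theorem tens_injective {M N : Matrix (Fin n) (Fin n) K} {o : Oct K} (ho : o ≠ 0)
    (h : tens M o = tens N o) : M = N := by
  ext i j
  have h1 := congrFun (congrFun h i) j
  rw [tens_apply, tens_apply] at h1
  have h2 : (M i j - N i j) • o = 0 := by rw [sub_smul, h1, sub_self]
  by_contra hne
  have h3 : M i j - N i j ≠ 0 := sub_ne_zero.2 hne
  have h4 := congrArg (fun z => (M i j - N i j)⁻¹ • z) h2
  simp only [smul_smul, inv_mul_cancel₀ h3, one_smul, smul_zero] at h4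
  exact ho h4

/-- matrix with all entries scalar -/
theorem exists_sc {X : OM n K} (h : ∀ i j, Oct.IsScal (X i j)) :
    ∃ M : Matrix (Fin n) (Fin n) K, X = sc M := by
  choose M hM using h
  exact ⟨M, by ext i j : 1; rw [hM]; rfl⟩

/-- the component decomposition -/
theorem decomp (X : OM n K) (h2 : (2 : K) ≠ 0) :
    X = sc (X.map (fun x => 2⁻¹ * (x.a + x.b))) +
      tens (X.map (fun x => 2⁻¹ * (x.a - x.b))) ⟨1,-1,0,0,0,0,0,0⟩ +
      tens (X.map Oct.u1) ⟨0,0,1,0,0,0,0,0⟩ + tens (X.map Oct.u2) ⟨0,0,0,1,0,0,0,0⟩ +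
      tens (X.map Oct.u3) ⟨0,0,0,0,1,0,0,0⟩ + tens (X.map Oct.v1) ⟨0,0,0,0,0,1,0,0⟩ +
      tens (X.map Oct.v2) ⟨0,0,0,0,0,0,1,0⟩ + tens (X.map Oct.v3) ⟨0,0,0,0,0,0,0,1⟩ := by
  ext i j
  · simp only [Matrix.add_apply, sc_apply, tens_apply, Matrix.map_apply, Oct.add_a, Oct.smul_a,
      Oct.one_a]
    field_simp
    ring
  · simp only [Matrix.add_apply, sc_apply, tens_apply, Matrix.map_apply, Oct.add_b, Oct.smul_b,
      Oct.one_b]
    field_simp
    ring
  all_goals simp [sc_apply, tens_apply]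

end Pool.Agent.W_MP_93b5ed_al

end

/-!
# Octonion automorphisms acting entrywise
-/

noncomputable section

namespace Pool.Agent.W_MP_93b5ed_al

open Matrix

variable {K : Type*} [Field K] {n : ℕ}

theorem autOct_mul {g : Oct K ≃ₗ[K] Oct K} (hg : g ∈ AutOct K) (x y : Oct K) :
    g (x * y) = g x * g y := hg x y

theorem autOct_one {g : Oct K ≃ₗ[K] Oct K} (hg : g ∈ AutOct K) : g 1 = 1 := by
  obtain ⟨y, hy⟩ := g.surjective 1
  have e := hg y 1
  simp only [mul_one] at e
  rw [hy, one_mul] at e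
  exact e.symm

theorem autOct_star {g : Oct K ≃ₗ[K] Oct K} (hg : g ∈ AutOct K) (x : Oct K) :
    g (star x) = star (g x) :=
  Oct.map_star_of_mul g.toLinearMap (autOct_one hg)
    (fun x hx => (LinearEquiv.map_eq_zero_iff g).1 hx) (fun x y => hg x y) x

/-- apply a linear map of octonions entrywise -/
def mapL (g : Oct K →ₗ[K] Oct K) : OM n K →ₗ[K] OM n K where
  toFun X := X.map g
  map_add' X Y := by
    ext i j : 1
    rw [Matrix.add_apply, Matrix.map_apply, Matrix.map_apply, Matrix.map_apply, Matrix.add_apply,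
      map_add]
  map_smul' c X := by
    ext i j : 1
    rw [RingHom.id_apply, Matrix.smul_apply, Matrix.map_apply, Matrix.map_apply,
      Matrix.smul_apply, map_smul]

theorem mapL_apply (g : Oct K →ₗ[K] Oct K) (X : OM n K) (i j : Fin n) :
    mapL g X i j = g (X i j) := rfl

theorem mapL_mul {g : Oct K →ₗ[K] Oct K} (hg : ∀ x y, g (x * y) = g x * g y) (X Y : OM n K) :
    mapL g (X * Y) = mapL g X * mapL g Y := by
  ext i j : 1
  rw [mapL_apply, Matrix.mul_apply, Matrix.mul_apply, map_sum]
  refine Finset.sum_congr rfl fun k _ => ?_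
  rw [hg, mapL_apply, mapL_apply]

theorem mapL_tens (g : Oct K →ₗ[K] Oct K) (M : Matrix (Fin n) (Fin n) K) (o : Oct K) :
    mapL g (tens M o) = tens M (g o) := by
  ext i j : 1
  rw [mapL_apply, tens_apply, tens_apply, map_smul]

theorem mapL_sc {g : Oct K →ₗ[K] Oct K} (h1 : g 1 = 1) (M : Matrix (Fin n) (Fin n) K) :
    mapL g (sc M) = sc M := by
  rw [sc_eq, mapL_tens, h1]

theorem mapL_conjTranspose {g : Oct K →ₗ[K] Oct K} (hs : ∀ x, g (star x) = star (g x))
    (X : OM n K) : (mapL g X)ᴴ = mapL g Xᴴ := by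
  ext i j : 1
  rw [conjTranspose_apply, mapL_apply, mapL_apply, conjTranspose_apply, hs]

theorem mapL_comp (g g' : Oct K →ₗ[K] Oct K) (X : OM n K) :
    mapL g (mapL g' X) = mapL (g ∘ₗ g') X := rfl

end Pool.Agent.W_MP_93b5ed_al

end
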